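import Pool.Agent.CPI.ATool

/-! # Part A, images of countable and of finite sets

(problem MP_ba5606_gt, project CPI, part A, package A02)

`surj_im`: the new function is `n ↦ F (g n)` if this is defined, and `d` otherwise, with any element `d` of
`N`, for instance `d = O`. Use `exists_fun` on `a` with
`ρ n z = (∃ y, Val g n y ∧ Val F y z) ∨ (¬ (∃ y z', Val g n y ∧ Val F y z') ∧ z = d)`, formula
`or (ex (an (fVal 3 1 0) (fVal 4 0 2))) (an (no (ex (ex (an (fVal 4 2 1) (fVal 5 1 0))))) (.eq 1 4))`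
with parameters `vv d [g, F, d]` (check the numbers by `simp`). For every `n ∈ a` there is exactly one `z` (`g`, `F`
are functions: third clause of `IsFun`). If `z ∈ W` then `z = F y` with `y ∈ O`, `y = g n`, so `z` is the value at `n`.

`cnt_im`, `fin_im`: unfold `IsCnt`, `IsFin`, `Sm` and use `surj_im` with `a = ω`, resp. `a ∈ ω`.

`cnt_sub`, `fin_sub`: the same function works.
-/

universe v

namespace CPI

open STP STP.Fml

variable {N : Type v} {E : N → N → Prop}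

theorem surj_im (hE : ZFC E) {g a F O W : N} (hg : IsFun E g a) (hF : IsFun E F O)
    (h : ∀ y, E y O → ∃ n, E n a ∧ Val E g n y) (hW : IsIm E F O W) :
    ∃ g', IsFun E g' a ∧ ∀ z, E z W → ∃ n, E n a ∧ Val E g' n z := by
  obtain ⟨g', h1, h2⟩ := exists_fun hE
    (ρ := fun n z => (∃ y, Val E g n y ∧ Val E F y z) ∨
      (¬ (∃ y z', Val E g n y ∧ Val E F y z') ∧ z = O))
    ⟨or (ex (an (fVal 3 1 0) (fVal 4 0 2)))
      (an (no (ex (ex (an (fVal 4 2 1) (fVal 5 1 0))))) (.eq 1 4)), vv O [g, F, O],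
      by intro x y; simp⟩ a (by
    intro n hn
    by_cases hx : ∃ y z', Val E g n y ∧ Val E F y z'
    · obtain ⟨y, z, h1, h2⟩ := hx
      refine ⟨z, Or.inl ⟨y, h1, h2⟩, ?_⟩
      rintro z' (⟨y', h1', h2'⟩ | ⟨h3, -⟩)
      · obtain rfl := hg.2.2 n y y' h1 h1'
        exact hF.2.2 y z' z h2' h2
      · exact absurd ⟨y, z, h1, h2⟩ h3
    · refine ⟨O, Or.inr ⟨hx, rfl⟩, ?_⟩
      rintro z' (⟨y', h1', h2'⟩ | ⟨-, h3⟩)
      · exact absurd ⟨y', z', h1', h2'⟩ hx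
      · exact h3)
  refine ⟨g', h1, fun c hc => ?_⟩
  obtain ⟨z, hz, hzc⟩ := (hW c).1 hc
  obtain ⟨n, hn, hnz⟩ := h z hz
  exact ⟨n, hn, (h2 n c).2 ⟨hn, Or.inl ⟨z, hnz, hzc⟩⟩⟩

theorem cnt_im (hE : ZFC E) {F O W : N} (hF : IsFun E F O) (hO : IsCnt E O)
    (hW : IsIm E F O W) : IsCnt E W := by
  obtain ⟨w, f, hw, hf, hfO⟩ := hO
  obtain ⟨g', h1, h2⟩ := surj_im hE hf hF hfO hW
  exact ⟨w, g', hw, h1, h2⟩

theorem fin_im (hE : ZFC E) {F O W : N} (hF : IsFun E F O) (hO : IsFin E O)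
    (hW : IsIm E F O W) : IsFin E W := by
  obtain ⟨w, hw, a, ha, f, hf, hfO⟩ := hO
  obtain ⟨g', h1, h2⟩ := surj_im hE hf hF hfO hW
  exact ⟨w, hw, a, ha, g', h1, h2⟩

theorem cnt_sub {A B : N} (h : Sub E A B) (hB : IsCnt E B) : IsCnt E A := by
  obtain ⟨w, f, hw, hf, hfB⟩ := hB
  exact ⟨w, f, hw, hf, fun y hy => hfB y (h y hy)⟩

theorem fin_sub {A B : N} (h : Sub E A B) (hB : IsFin E B) : IsFin E A := by
  obtain ⟨w, hw, a, ha, f, hf, hfB⟩ := hB
  exact ⟨w, hw, a, ha, f, hf, fun y hy => hfB y (h y hy)⟩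

end CPI
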