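import Pool.Agent.CPI.AChoF
import Pool.Agent.CPI.AChoI

/-! # Part A, countable and finite choice sets

(problem MP_ba5606_gt, project CPI, part A, package A03)

`exists_choice` gives a function `f` on `O` with values in `S` and `ρ b (f b)`; `S'` = image of `O` under `f`
(`exists_im`, `IsIm`); `Sub S' S`; `S'` is countable (`cnt_im`), resp. finite (`fin_im`); for `b ∈ O` the value
`f b` is in `S'`.
-/

universe v

namespace CPI

open STP STP.Fml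

variable {N : Type v} {E : N → N → Prop}

theorem choose_cnt (hE : ZFC E) {ρ : N → N → Prop} (hρ : Df2 E ρ) {O S : N} (hO : IsCnt E O)
    (h : ∀ b, E b O → ∃ U, E U S ∧ ρ b U) :
    ∃ S', Sub E S' S ∧ IsCnt E S' ∧ ∀ b, E b O → ∃ U, E U S' ∧ ρ b U := by
  obtain ⟨f, hf, hf'⟩ := exists_choice hE hρ h
  obtain ⟨S', hS'⟩ := exists_im hE hf O
  refine ⟨S', fun U hU => ?_, cnt_im hE hf hO hS', fun b hb => ?_⟩
  · obtain ⟨b, -, hb⟩ := (hS' U).1 hU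
    exact (hf' b U hb).1
  · obtain ⟨U, hU⟩ := hf.2.1 b hb
    exact ⟨U, (hS' U).2 ⟨b, hb, hU⟩, (hf' b U hU).2⟩

theorem choose_fin (hE : ZFC E) {ρ : N → N → Prop} (hρ : Df2 E ρ) {O S : N} (hO : IsFin E O)
    (h : ∀ b, E b O → ∃ U, E U S ∧ ρ b U) :
    ∃ S', Sub E S' S ∧ IsFin E S' ∧ ∀ b, E b O → ∃ U, E U S' ∧ ρ b U := by
  obtain ⟨f, hf, hf'⟩ := exists_choice hE hρ h
  obtain ⟨S', hS'⟩ := exists_im hE hf O
  refine ⟨S', fun U hU => ?_, fin_im hE hf hO hS', fun b hb => ?_⟩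
  · obtain ⟨b, -, hb⟩ := (hS' U).1 hU
    exact (hf' b U hb).1
  · obtain ⟨U, hU⟩ := hf.2.1 b hb
    exact ⟨U, (hS' U).2 ⟨b, hb, hU⟩, (hf' b U hU).2⟩

end CPI
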