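import Pool.Agent.CPI.ATool

/-! # Part A, choice functions for definable relations

(problem MP_ba5606_gt, project CPI, part A, package A01)

`exists_choice`. For `b ∈ O` let `T_b` be the set of all ordered pairs `(b, U)` with `U ∈ S`, `ρ b U`. Let
`P = O × S` (`exists_prod`), `Q` = power set of `P`.
* `𝒯 = {T ∈ Q | ∃ b ∈ O, ∀ p, p ∈ T ↔ ∃ U, U ∈ S ∧ ρ b U ∧ p = (b, U)}` (`sep`). To avoid formulas which
  contain the formula of `ρ` first take `r` with `Val r b U ↔ b ∈ O ∧ U ∈ S ∧ ρ b U` (`exists_rel`): then `T_b` is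
  `{p ∈ r | ∃ U, IsOP p b U}`, and `𝒯` is obtained by `img` on `O` with the relation
  `∀ p, E p T ↔ E p r ∧ ∃ U, IsOP E p b U` (existence of `T` for each `b`: `sep`; uniqueness: `hE.ext`),
  formula `.all (iff (.mem 0 2) (an (.mem 0 3) (ex (fOP 1 2 0))))` with the parameters `vv r [r]`
  (variables `0 = b`, `1 = T` in `Df2`; check the numbers with `simp`).
* The members of `𝒯` are nonempty (hypothesis) and pairwise disjoint: `p ∈ T_b ∩ T_b'` gives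
  `p = (b, U) = (b', U')`, so `b = b'` (`IsOP.inj`) and `T_b = T_b'` (`hE.ext`).
* `hE.choice` gives `c` with exactly one element in each `T_b`. `f = {p ∈ r | p ∈ c}` (`sep`).
  `Val f b U` implies `Val r b U` (hence the last statement), and `f` is a function on `O`: for `b ∈ O` the unique
  `p ∈ c ∩ T_b` is `(b, U)`, `p ∈ r`, so `Val f b U`; if `Val f b U`, `Val f b U'` then the two pairs are in
  `c ∩ T_b`, so they are equal and `U = U'`.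
-/

universe v

namespace CPI

open STP STP.Fml

variable {N : Type v} {E : N → N → Prop}

theorem exists_choice (hE : ZFC E) {ρ : N → N → Prop} (hρ : Df2 E ρ) {O S : N}
    (h : ∀ b, E b O → ∃ U, E U S ∧ ρ b U) :
    ∃ f, IsFun E f O ∧ ∀ b U, Val E f b U → E U S ∧ ρ b U := by
  obtain ⟨r, hr, hr'⟩ := exists_rel hE hρ O S
  have hT : ∀ b, ∃ T, ∀ p, E p T ↔ E p r ∧ ∃ U, IsOP E p b U := fun b =>
    sep hE (ρ := fun p => ∃ U, IsOP E p b U) ⟨ex (fOP 1 2 0), vv r [b], by intro x; simp⟩ r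
  obtain ⟨T0, hT0⟩ := img hE (ρ := fun b T => ∀ p, E p T ↔ E p r ∧ ∃ U, IsOP E p b U)
    ⟨.all (iff (.mem 0 2) (an (.mem 0 3) (ex (fOP 1 2 0)))), vv r [r],
      by intro x y; simp⟩ O (by
    intro b _
    obtain ⟨T, hT⟩ := hT b
    exact ⟨T, hT, fun T' hT' => hE.ext T' T fun p => (hT' p).trans (hT p).symm⟩)
  obtain ⟨c, hc⟩ := hE.choice T0 (by
    intro T hTT
    obtain ⟨b, hb, h1⟩ := (hT0 T).1 hTT
    obtain ⟨U, hU, hbU⟩ := h b hb
    obtain ⟨p, hp, hp'⟩ := (hr' b U).2 ⟨hb, hU, hbU⟩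
    exact ⟨p, (h1 p).2 ⟨hp, U, hp'⟩⟩) (by
    rintro T T' hT1 hT2 hne ⟨p, hp, hp'⟩
    obtain ⟨b, hb, h1⟩ := (hT0 T).1 hT1
    obtain ⟨b', hb', h1'⟩ := (hT0 T').1 hT2
    obtain ⟨-, U, hU⟩ := (h1 p).1 hp
    obtain ⟨-, U', hU'⟩ := (h1' p).1 hp'
    obtain ⟨rfl, -⟩ := IsOP.inj hE hU hU'
    exact hne (hE.ext T T' fun q => (h1 q).trans (h1' q).symm))
  obtain ⟨f, hf⟩ := sep hE (ρ := fun p => E p c) ⟨.mem 0 1, vv c [c], by intro x; simp⟩ r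
  have key : ∀ b U, Val E f b U → Val E r b U := by
    rintro b U ⟨p, hp, hp'⟩
    exact ⟨p, ((hf p).1 hp).1, hp'⟩
  refine ⟨f, ⟨fun p hp => ?_, fun b hb => ?_, fun b U U' h1 h2 => ?_⟩, fun b U hbU => ?_⟩
  · obtain ⟨x, y, hx, -, hxy⟩ := hr p ((hf p).1 hp).1
    exact ⟨x, y, hx, hxy⟩
  · obtain ⟨T, hT1⟩ := hT b
    obtain ⟨p, ⟨hp1, hp2⟩, -⟩ := hc T ((hT0 T).2 ⟨b, hb, hT1⟩)
    obtain ⟨h1, U, hU⟩ := (hT1 p).1 hp2
    exact ⟨U, p, (hf p).2 ⟨h1, hp1⟩, hU⟩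
  · have hb := ((hr' b U).1 (key b U h1)).1
    obtain ⟨p, hp, hp'⟩ := h1
    obtain ⟨q, hq, hq'⟩ := h2
    obtain ⟨T, hT1⟩ := hT b
    have hu := hc T ((hT0 T).2 ⟨b, hb, hT1⟩)
    have h3 : p = q := hu.unique ⟨((hf p).1 hp).2, (hT1 p).2 ⟨((hf p).1 hp).1, U, hp'⟩⟩
      ⟨((hf q).1 hq).2, (hT1 q).2 ⟨((hf q).1 hq).1, U', hq'⟩⟩
    subst h3
    exact (IsOP.inj hE hp' hq').2
  · exact ((hr' b U).1 (key b U hbU)).2

end CPI
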