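import Pool.Agent.CPI.FLang
import Pool.Agent.STP.YSeq

/-! # Part A, definitions: definable predicates, coded topologies on the image of a function

(problem MP_ba5606_gt, project CPI, part A, architect helper79; no sorry in this file)

Everything happens in an arbitrary structure `(N, E)` with `ZFC E`. A Lean predicate on `N` defines a
set only if it is given by a formula with parameters: `Df1`, `Df2`. To prove `Df1 E P` give a formula
(de Bruijn, variable `0` is the argument, the parameters are the variables `1, 2, ...`) and the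
parameters, for instance `⟨fVal 1 0 2, vv d [f, y], by intro x; simp⟩` for `P x = Val E f x y`
(`d` is any element of `N`). For `Df2 E P` the arguments `x, y` of `P x y` are the variables `0, 1`. -/

universe v

namespace CPI

open STP STP.Fml

section

variable {N : Type v}

/-- the valuation with the values `l`, all further variables have the value `d` -/
def vv (d : N) (l : List N) : ℕ → N := fun i => l.getD i d

variable (d x : N) (l : List N)

@[simp] theorem cns_vv : cns x (vv d l) = vv d (x :: l) := by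
  funext i
  cases i <;> rfl

@[simp] theorem vv_zero : vv d (x :: l) 0 = x := rfl
@[simp] theorem vv_succ (n : ℕ) : vv d (x :: l) (n + 1) = vv d l n := rfl
@[simp] theorem vv_one : vv d (x :: l) 1 = vv d l 0 := rfl
@[simp] theorem vv_two : vv d (x :: l) 2 = vv d l 1 := rfl
@[simp] theorem vv_three : vv d (x :: l) 3 = vv d l 2 := rfl
@[simp] theorem vv_four : vv d (x :: l) 4 = vv d l 3 := rfl
@[simp] theorem vv_five : vv d (x :: l) 5 = vv d l 4 := rfl
@[simp] theorem vv_six : vv d (x :: l) 6 = vv d l 5 := rfl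
@[simp] theorem vv_seven : vv d (x :: l) 7 = vv d l 6 := rfl
@[simp] theorem vv_eight : vv d (x :: l) 8 = vv d l 7 := rfl
@[simp] theorem vv_nine : vv d (x :: l) 9 = vv d l 8 := rfl
@[simp] theorem vv_ten : vv d (x :: l) 10 = vv d l 9 := rfl
@[simp] theorem vv_eleven : vv d (x :: l) 11 = vv d l 10 := rfl
@[simp] theorem vv_twelve : vv d (x :: l) 12 = vv d l 11 := rfl

variable (E : N → N → Prop)

/-- `ρ` is definable with parameters; the argument is the variable `0`. -/
def Df1 (ρ : N → Prop) : Prop := ∃ (φ : Fml) (v : ℕ → N), ∀ x, sat E φ (cns x v) ↔ ρ x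

/-- `ρ` is definable with parameters; the arguments are the variables `0`, `1`. -/
def Df2 (ρ : N → N → Prop) : Prop :=
  ∃ (φ : Fml) (v : ℕ → N), ∀ x y, sat E φ (cns x (cns y v)) ↔ ρ x y

/-- `F` is a function from `Y` onto `C`. -/
def IsOnto (F Y C : N) : Prop :=
  IsFun E F Y ∧ (∀ z c, Val E F z c → E c C) ∧ ∀ c, E c C → ∃ z, E z Y ∧ Val E F z c

/-- `F` is injective. -/
def IsInj (F : N) : Prop := ∀ z z' c, Val E F z c → Val E F z' c → z = z'

/-- `U` is an open set of the topology on `C` which is coded by `(Y, B, h)` and `F : Y → C`: for every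
`z ∈ Y` with `F z ∈ U` the image of some basic set containing `z` is a subset of `U`. -/
def FOp (Y B h F C U : N) : Prop :=
  Sub E U C ∧ ∀ z c, E z Y → Val E F z c → E c U → ∃ b, E b B ∧ Val E h z b ∧
    ∀ z' c', E z' Y → Val E h z' b → Val E F z' c' → E c' U

/-- `σ` is the topology on `C` which is coded by `(Y, B, h)` and `F : Y → C`. -/
def IsFT (Y B h F C σ : N) : Prop := ∀ U, E U σ ↔ FOp E Y B h F C U

/-- `W` is the image of the basic set with the code `b`. -/
def IsBI (Y h F b W : N) : Prop :=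
  ∀ c, E c W ↔ ∃ z, E z Y ∧ Val E h z b ∧ Val E F z c

/-- `W` is the image of `V` under `F`. -/
def IsIm (F V W : N) : Prop := ∀ c, E c W ↔ ∃ z, E z V ∧ Val E F z c

/-- `g` is the function `F y ↦ e(ψ, y)`. -/
def Trp (Y F e ψ g : N) : Prop :=
  ∀ c t, Val E g c t ↔ ∃ y, E y Y ∧ Val E F y c ∧ Ap E e ψ y t

/-- The values of `F'` are the functions `F y ↦ e(ψ, y)`. -/
def IsTrp (Y F e F' : N) : Prop := ∀ ψ g, Val E F' ψ g → Trp E Y F e ψ g

end

/-- formula for `FOp` -/
def fFOp (Y B h F C U : ℕ) : Fml :=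
  an (fSub U C) (.all (.all (.imp (.mem 1 (Y + 2)) (.imp (fVal (F + 2) 1 0)
    (.imp (.mem 0 (U + 2)) (ex (an (.mem 0 (B + 3)) (an (fVal (h + 3) 2 0)
      (.all (.all (.imp (.mem 1 (Y + 5)) (.imp (fVal (h + 5) 1 2)
        (.imp (fVal (F + 5) 1 0) (.mem 0 (U + 5)))))))))))))))

/-- formula for `IsBI` -/
def fBI (Y h F b W : ℕ) : Fml :=
  .all (iff (.mem 0 (W + 1)) (ex (an (.mem 0 (Y + 2)) (an (fVal (h + 2) 0 (b + 2))
    (fVal (F + 2) 0 1)))))

/-- formula for `IsIm` -/
def fIm (F V W : ℕ) : Fml :=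
  .all (iff (.mem 0 (W + 1)) (ex (an (.mem 0 (V + 2)) (fVal (F + 2) 0 1))))

/-- formula for `Trp` -/
def fTrp (Y F e ψ g : ℕ) : Fml :=
  .all (.all (iff (fVal (g + 2) 1 0) (ex (an (.mem 0 (Y + 3)) (an (fVal (F + 3) 0 2)
    (fAp (e + 3) (ψ + 3) 0 1))))))

section

variable {N : Type v} {E : N → N → Prop} {v : ℕ → N}

@[simp] theorem sat_fFOp {Y B h F C U : ℕ} : sat E (fFOp Y B h F C U) v ↔
    FOp E (v Y) (v B) (v h) (v F) (v C) (v U) := by
  simp [fFOp, FOp]

@[simp] theorem sat_fBI {Y h F b W : ℕ} :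
    sat E (fBI Y h F b W) v ↔ IsBI E (v Y) (v h) (v F) (v b) (v W) := by
  simp [fBI, IsBI]

@[simp] theorem sat_fIm {F V W : ℕ} : sat E (fIm F V W) v ↔ IsIm E (v F) (v V) (v W) := by
  simp [fIm, IsIm]

@[simp] theorem sat_fTrp {Y F e ψ g : ℕ} :
    sat E (fTrp Y F e ψ g) v ↔ Trp E (v Y) (v F) (v e) (v ψ) (v g) := by
  simp [fTrp, Trp]

end

end CPI
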