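import Pool.Agent.CPI.ATop

/-! # Part A, Hausdorff and not monolithic

(problem MP_ba5606_gt, project CPI, part A, package A17)

* `hd`: `c ≠ c'` in `C`, `c = F z`, `c' = F z'`, `z ≠ z'` (`F` is a function); `CHd` gives codes `b`, `b'` of disjoint basic sets
  containing `z`, `z'`; the images `W`, `W'` (`exists_BI`) are in `σ` (`BI_mem`) and disjoint (injectivity of `F`).
* `nmono`: suppose `IsMono C σ`. `A'` = image of `A` under `F` (`exists_im`), countable (`cnt_im` needs a function with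
  domain `A`: instead use the surjection `n ↦ F (f n)`; see `cnt_im'`). The closure of `A'` is `C` (`IsCl C σ A' C`): let `c ∈ C`,
  `c ∈ U ∈ σ`, `c = F z`, `FOp` gives `b` with `Val h z b` and the image of the basic set contained in `U`, `CDn` gives `a ∈ A` in
  the basic set, `F a ∈ A' ∩ U`. So `HasCN σ C` holds: `S` countable by `w`, `f`. `K = {(k, y) : k ∈ w, y ∈ Y,
  ∃ M c, Val f k M ∧ E M S ∧ Val F y c ∧ E c M}` (`exists_rel`, formula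
  `ex (ex (an (fVal 4 2 1) (an (.mem 1 5) (an (fVal 6 3 0) (.mem 0 1)))))`, parameters `vv S [f, S, F]`; check
  the numbers by `simp`). `CNet Y B h` holds with `K`, `w`: let `y ∈ Y`, `b ∈ B`, `Val h y b`, `W` the image of the basic set,
  `W ∈ σ`; `F y ∈ W`, so there is `M ∈ S` with `F y ∈ M ⊆ W`, `M = f k`; `Val K k y`. If `z ∈ Y` and `Val K k z` then `F z ∈ M'`
  with `Val f k M'`, `M' = M` (`f` is a function), `F z ∈ W`, so `Val h z b` by injectivity. Contradiction.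
* `cnt_im'`: image of a countable set `A` under a function `F` with a domain `Y` containing `A`. With `f`, `w` for `A`: use
  `exists_fun` on `w` with `ρ n z = (∃ y, Val f n y ∧ Val F y z) ∨ (¬ (∃ y z', Val f n y ∧ Val F y z') ∧ z = A)` (as in
  `AChoI`), formula
  `or (ex (an (fVal 3 1 0) (fVal 4 0 2))) (an (no (ex (ex (an (fVal 4 2 1) (fVal 5 1 0))))) (.eq 1 4))`
  with the parameters `vv A [f, F, A]`.
-/

universe v

namespace CPI

open STP STP.Fml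

variable {N : Type v} {E : N → N → Prop}

theorem hd (hE : ZFC E) {Y B h F C σ : N} (hF : IsOnto E F Y C) (hi : IsInj E F)
    (hσ : IsFT E Y B h F C σ) (hh : CHd E Y B h) : IsHd E C σ := by
  intro c c' hc hc' hne
  obtain ⟨z, hz, hzc⟩ := hF.2.2 c hc
  obtain ⟨z', hz', hzc'⟩ := hF.2.2 c' hc'
  have hzz : z ≠ z' := by
    rintro rfl
    exact hne (hF.1.2.2 z c c' hzc hzc')
  obtain ⟨b, b', hb, hb', h1, h2, h3⟩ := hh z z' hz hz' hzz
  obtain ⟨W, hW⟩ := exists_BI hE hF.1 h b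
  obtain ⟨W', hW'⟩ := exists_BI hE hF.1 h b'
  refine ⟨W, W', BI_mem hF hi hσ hb hW, BI_mem hF hi hσ hb' hW', (hW c).2 ⟨z, hz, h1, hzc⟩,
    (hW' c').2 ⟨z', hz', h2, hzc'⟩, ?_⟩
  rintro x ⟨hx, hx'⟩
  obtain ⟨y, hy, hy1, hy2⟩ := (hW x).1 hx
  obtain ⟨y', -, hy1', hy2'⟩ := (hW' x).1 hx'
  obtain rfl := hi y y' x hy2 hy2'
  exact h3 y hy ⟨hy1, hy1'⟩

theorem cnt_im' (hE : ZFC E) {F Y A W : N} (hF : IsFun E F Y) (hA : IsCnt E A)
    (hW : IsIm E F A W) : IsCnt E W := by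
  obtain ⟨w, f, hw, hf, hfA⟩ := hA
  obtain ⟨g, hg, hg'⟩ := exists_fun hE
    (ρ := fun n z => (∃ y, Val E f n y ∧ Val E F y z) ∨
      (¬ (∃ y z', Val E f n y ∧ Val E F y z') ∧ z = A))
    ⟨or (ex (an (fVal 3 1 0) (fVal 4 0 2)))
      (an (no (ex (ex (an (fVal 4 2 1) (fVal 5 1 0))))) (.eq 1 4)), vv A [f, F, A],
      by intro x y; simp⟩ w (by
    intro n hn
    by_cases hx : ∃ y z', Val E f n y ∧ Val E F y z'
    · obtain ⟨y, z, h1, h2⟩ := hx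
      refine ⟨z, Or.inl ⟨y, h1, h2⟩, ?_⟩
      rintro z' (⟨y', h1', h2'⟩ | ⟨h3, -⟩)
      · obtain rfl := hf.2.2 n y y' h1 h1'
        exact hF.2.2 y z' z h2' h2
      · exact absurd ⟨y, z, h1, h2⟩ h3
    · refine ⟨A, Or.inr ⟨hx, rfl⟩, ?_⟩
      rintro z' (⟨y', h1', h2'⟩ | ⟨-, h3⟩)
      · exact absurd ⟨y', z', h1', h2'⟩ hx
      · exact h3)
  refine ⟨w, g, hw, hg, fun c hc => ?_⟩
  obtain ⟨z, hz, hzc⟩ := (hW c).1 hc
  obtain ⟨n, hn, hnz⟩ := hfA z hz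
  exact ⟨n, hn, (hg' n c).2 ⟨hn, Or.inl ⟨z, hnz, hzc⟩⟩⟩

theorem nmono (hE : ZFC E) {Y B h F C σ A : N} (hF : IsOnto E F Y C) (hi : IsInj E F)
    (hσ : IsFT E Y B h F C σ) (hA : IsCnt E A) (hd : CDn E Y B h A) (hn : ¬ CNet E Y B h) :
    ¬ IsMono E C σ := by
  intro hm
  obtain ⟨A', hA'⟩ := exists_im hE hF.1 A
  have hsub : Sub E A' C := by
    intro c hc
    obtain ⟨z, -, hz⟩ := (hA' c).1 hc
    exact hF.2.1 z c hz
  have hcl : IsCl E C σ A' C := by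
    intro c
    refine ⟨fun hc => ⟨hc, fun U hU hcU => ?_⟩, fun hc => hc.1⟩
    obtain ⟨z, hz, hzc⟩ := hF.2.2 c hc
    obtain ⟨b, hb, hzb, hbU⟩ := ((hσ U).1 hU).2 z c hz hzc hcU
    obtain ⟨a, ha, hab⟩ := hd.2 z b hz hb hzb
    obtain ⟨c', hc'⟩ := hF.1.2.1 a (hd.1 a ha)
    exact ⟨c', (hA' c').2 ⟨a, ha, hc'⟩, hbU a c' (hd.1 a ha) hab hc'⟩
  obtain ⟨S, ⟨w, f, hw, hf, hfS⟩, hS1, hS2⟩ := hm A' C hsub (cnt_im' hE hF.1 hA hA') hcl
  obtain ⟨K, -, hK⟩ := exists_rel hE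
    (ρ := fun k y => ∃ M c, Val E f k M ∧ E M S ∧ Val E F y c ∧ E c M)
    ⟨ex (ex (an (fVal 4 2 1) (an (.mem 1 5) (an (fVal 6 3 0) (.mem 0 1))))), vv S [f, S, F],
      by intro x y; simp⟩ w Y
  refine hn ⟨K, w, hw, fun y b hy hb hyb => ?_⟩
  obtain ⟨W, hW⟩ := exists_BI hE hF.1 h b
  have hWσ := BI_mem hF hi hσ hb hW
  obtain ⟨c, hyc⟩ := hF.1.2.1 y hy
  have hcW : E c W := (hW c).2 ⟨y, hy, hyb, hyc⟩
  obtain ⟨M, hM, hcM, hMW⟩ := hS2 W c hWσ hcW (hF.2.1 y c hyc)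
  obtain ⟨k, hk, hkM⟩ := hfS M hM
  refine ⟨k, hk, (hK k y).2 ⟨hk, hy, M, c, hkM, hM, hyc, hcM⟩, fun z hz hkz => ?_⟩
  obtain ⟨-, -, M', c', h1, -, h3, h4⟩ := (hK k z).1 hkz
  obtain rfl := hf.2.2 k M M' hkM h1
  obtain ⟨y', -, hy1, hy2⟩ := (hW c').1 (hMW c' h4)
  obtain rfl := hi z y' c' h3 hy2
  exact hy1

end CPI
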