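import Pool.Agent.CPI.ATool

/-! # Part A, injectivity of `F'`

(problem MP_ba5606_gt, project CPI, part A, package A10)

`Trp_inj`. Let `Val F' ψ g`, `Val F' ψ' g`; `ψ, ψ' ∈ Z` (`IsFun.dom`). By `CInj` it is enough that `Ap e ψ y t` implies
`Ap e ψ' y t` for `y ∈ Y`: let `F y = c`; then `Val g c t` by `Trp` for `ψ`, so by `Trp` for `ψ'` there is `y'` with
`F y' = c`, `Ap e ψ' y' t`, and `y' = y` by injectivity of `F`.
-/

universe v

namespace CPI

open STP STP.Fml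

variable {N : Type v} {E : N → N → Prop}

theorem Trp_inj (hE : ZFC E) {Y F P Z e F' C : N} (hF : IsOnto E F Y P) (hi : IsInj E F)
    (hF' : IsOnto E F' Z C) (ht : IsTrp E Y F e F') (hj : CInj E Y Z e) : IsInj E F' := by
  intro ψ ψ' g h h'
  refine hj ψ ψ' (IsFun.dom hE hF'.1 h) (IsFun.dom hE hF'.1 h') fun y t hy hyt => ?_
  obtain ⟨c, hc⟩ := hF.1.2.1 y hy
  obtain ⟨y', hy', hyc', hyt'⟩ := (ht ψ' g h' c t).1 ((ht ψ g h c t).2 ⟨y, hy, hc, hyt⟩)
  rwa [hi y y' c hc hyc']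

end CPI
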