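import Pool.Agent.CPI.ATool

/-! # Part A, the topology of pointwise convergence exists

(problem MP_ba5606_gt, project CPI, part A, package A14)

`exists_least`. `ρ = {U ⊆ C | U ∈ σ' for all σ' with IsTop C σ' and IsPw R l P C σ'}` from the power set of `C` and `sep`,
formula `.all (.imp (fTop 2 0) (.imp (fPw 3 4 5 2 0) (.mem 1 0)))`, parameters `vv C [C, R, l, P]` (check the
numbers by `simp`). All conditions of `IsTop`, `IsPw` for `ρ` follow from those for every `σ'`; the sets involved are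
subsets of `C` (for the union of `S ⊆ ρ`: every member of `S` is a subset of `C`; for the subbasic sets: `IsPw` contains
`E g C`; for the intersection: clear).
-/

universe v

namespace CPI

open STP STP.Fml

variable {N : Type v} {E : N → N → Prop}

theorem exists_least (hE : ZFC E) (R l P C : N) :
    ∃ ρ, IsTop E C ρ ∧ IsPw E R l P C ρ ∧
      ∀ σ', IsTop E C σ' → IsPw E R l P C σ' → Sub E ρ σ' := by
  obtain ⟨Q, hQ⟩ := hE.power C
  obtain ⟨ρ, hρ⟩ := sep hE
    (ρ := fun U => ∀ σ', IsTop E C σ' → IsPw E R l P C σ' → E U σ')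
    ⟨.all (.imp (fTop 2 0) (.imp (fPw 3 4 5 2 0) (.mem 1 0))), vv C [C, R, l, P],
      by intro x; simp⟩ Q
  have key : ∀ U, E U ρ ↔ Sub E U C ∧ ∀ σ', IsTop E C σ' → IsPw E R l P C σ' → E U σ' :=
    fun U => by
      rw [hρ, hQ]
      rfl
  refine ⟨ρ, ⟨fun U hU => ((key U).1 hU).1, ?_, fun S u hS hu => ?_, fun U V W hU hV hW => ?_⟩,
    fun x r U hx hr => ⟨fun hU => ?_, fun hU => ?_⟩, fun σ' h1 h2 U hU =>
      ((key U).1 hU).2 σ' h1 h2⟩
  · exact (key C).2 ⟨fun x hx => hx, fun σ' h1 _ => h1.2.1⟩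
  · refine (key u).2 ⟨fun x hx => ?_, fun σ' h1 h2 => h1.2.2.1 S u (fun V hV =>
      ((key V).1 (hS V hV)).2 σ' h1 h2) hu⟩
    obtain ⟨V, hV, hx⟩ := (hu x).1 hx
    exact ((key V).1 (hS V hV)).1 x hx
  · exact (key W).2 ⟨fun x hx => ((key U).1 hU).1 x ((hW x).1 hx).1, fun σ' h1 h2 =>
      h1.2.2.2 U V W (((key U).1 hU).2 σ' h1 h2) (((key V).1 hV).2 σ' h1 h2) hW⟩
  · exact (key U).2 ⟨fun g hg => ((hU g).1 hg).1, fun σ' _ h2 => (h2 x r U hx hr).1 hU⟩
  · exact (key U).2 ⟨fun g hg => ((hU g).1 hg).1, fun σ' _ h2 => (h2 x r U hx hr).2 hU⟩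

end CPI
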