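import Pool.Agent.CPI.ATool

/-! # Part A, every continuous function on the literal space is given by a section `e(ψ, .)`

(problem MP_ba5606_gt, project CPI, part A, package A08)

`(P, π)` is the literal space with `π` coded by `(Y, B, h)` and `F : Y → P` (onto); `g` is continuous on `(P, π)`.

`cts_Trp`. Let `g'` be the function on `Y` with `Val g' y t ↔ y ∈ Y ∧ ∃ c, F y = c ∧ Val g c t` (`exists_fun`, formula
`ex (an (fVal 3 1 0) (fVal 4 0 2))`, parameters `vv R [F, g]`; check the numbers by `simp`). It is continuous on the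
coded space (`CCts`): it is a function with values in `R`. Let `y ∈ Y`, `Val g' y t`, `r ∈ R`, `t < r`: `F y = c`, `Val g c t`;
the set `U ∈ π` of all `x` with `g x < r` (`IsCts`) contains `c`; by `IsFT`, `FOp` there is `b ∈ B` with `Val h y b` and
`F z' ∈ U` for all `z' ∈ Y` in the basic set; for such `z'` and `Val g' z' s`: `F z' = c'`, `Val g c' s`, `c' ∈ U` so
`Val g c' s'` with `s' < r`, and `s = s'` (`g` is a function). The same for `r < t`. `CSur` gives `ψ ∈ Z` with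
`Ap e ψ y t` whenever `Val g' y t`. Then `Trp`: if `Val g c t` then `c ∈ P` (`IsFun.dom`), `c = F y` for some `y ∈ Y`, `Val g' y t`,
so `Ap e ψ y t`. Conversely let `F y = c`, `Ap e ψ y t`: `g' y = t'` for some `t'`, `Ap e ψ y t'`, so `t = t'` by `CEv`, and
`Val g c t` (`Val g' y t'` gives `c'` with `F y = c'`, `Val g c' t'`, and `c' = c`).
-/

universe v

namespace CPI

open STP STP.Fml

variable {N : Type v} {E : N → N → Prop}

theorem cts_Trp (hE : ZFC E) {R l Y B h F P π Z e g : N} (hF : IsOnto E F Y P)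
    (hπ : IsFT E Y B h F P π) (hev : CEv E R Y Z e) (hsur : CSur E R l Y B h Z e)
    (hg : IsCts E R l P π g) : ∃ ψ, E ψ Z ∧ Trp E Y F e ψ g := by
  obtain ⟨g', hg1, hg2⟩ := exists_fun hE
    (ρ := fun y t => ∃ c, Val E F y c ∧ Val E g c t)
    ⟨ex (an (fVal 3 1 0) (fVal 4 0 2)), vv R [F, g], by intro x y; simp⟩ Y (by
    intro y hy
    obtain ⟨c, hc⟩ := hF.1.2.1 y hy
    obtain ⟨t, ht⟩ := hg.1.2.1 c (hF.2.1 y c hc)
    refine ⟨t, ⟨c, hc, ht⟩, ?_⟩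
    rintro t' ⟨c', hc', ht'⟩
    obtain rfl := hF.1.2.2 y c c' hc hc'
    exact hg.1.2.2 c t' t ht' ht)
  have hcts : CCts E R l Y B h g' := by
    refine ⟨hg1, fun y t hyt => ?_, fun y t r hy hyt hr => ⟨fun htr => ?_, fun htr => ?_⟩⟩
    · obtain ⟨-, c, hc, ht⟩ := (hg2 y t).1 hyt
      exact hg.2.1 c t ht
    · obtain ⟨-, c, hc, ht⟩ := (hg2 y t).1 hyt
      obtain ⟨U, hU, hU'⟩ := (hg.2.2 r hr).1
      obtain ⟨b, hb, hyb, hbU⟩ := ((hπ U).1 hU).2 y c hy hc ((hU' c).2 ⟨t, ht, htr⟩)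
      refine ⟨b, hb, hyb, fun z s hz hzb hzs => ?_⟩
      obtain ⟨-, c', hc', hs⟩ := (hg2 z s).1 hzs
      obtain ⟨s', hs', hsr⟩ := (hU' c').1 (hbU z c' hz hzb hc')
      rwa [hg.1.2.2 c' s s' hs hs']
    · obtain ⟨-, c, hc, ht⟩ := (hg2 y t).1 hyt
      obtain ⟨U, hU, hU'⟩ := (hg.2.2 r hr).2
      obtain ⟨b, hb, hyb, hbU⟩ := ((hπ U).1 hU).2 y c hy hc ((hU' c).2 ⟨t, ht, htr⟩)
      refine ⟨b, hb, hyb, fun z s hz hzb hzs => ?_⟩
      obtain ⟨-, c', hc', hs⟩ := (hg2 z s).1 hzs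
      obtain ⟨s', hs', hsr⟩ := (hU' c').1 (hbU z c' hz hzb hc')
      rwa [hg.1.2.2 c' s s' hs hs']
  obtain ⟨ψ, hψ, h1⟩ := hsur g' hcts
  refine ⟨ψ, hψ, fun c t => ⟨fun hct => ?_, ?_⟩⟩
  · obtain ⟨y, hy, hyc⟩ := hF.2.2 c (IsFun.dom hE hg.1 hct)
    exact ⟨y, hy, hyc, h1 y t hy ((hg2 y t).2 ⟨hy, c, hyc, hct⟩)⟩
  · rintro ⟨y, hy, hyc, hyt⟩
    obtain ⟨t', ht'⟩ := hg1.2.1 y hy
    obtain rfl := hev.2 ψ y t t' hψ hy hyt (h1 y t' hy ht')
    obtain ⟨-, c', hc', ht⟩ := (hg2 y t).1 ht'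
    rwa [hF.1.2.2 y c c' hyc hc']

end CPI
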