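import Pool.Agent.CPI.ATool

/-! # Part A, the set of continuous functions; coded and literal continuity

(problem MP_ba5606_gt, project CPI, part A, package A06)

`exists_C`: `exists_funs P R` gives the set of all functions from `P` to `R`; `sep` with the formula
`fCts 1 2 3 4 0`, parameters `vv R [R, l, P, π]`; `IsCts` contains the two conditions of `exists_funs`.
-/

universe v

namespace CPI

open STP STP.Fml

variable {N : Type v} {E : N → N → Prop}

theorem exists_C (hE : ZFC E) (R l P π : N) : ∃ C, ∀ g, E g C ↔ IsCts E R l P π g := by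
  obtain ⟨Q, hQ⟩ := exists_funs hE P R
  obtain ⟨C, hC⟩ := sep hE (ρ := fun g => IsCts E R l P π g)
    ⟨fCts 1 2 3 4 0, vv R [R, l, P, π], by intro x; simp⟩ Q
  exact ⟨C, fun g => ⟨fun hg => ((hC g).1 hg).2, fun hg => (hC g).2
    ⟨(hQ g).2 ⟨hg.1, hg.2.1⟩, hg⟩⟩⟩

end CPI
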