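import Pool.Agent.CPI.ALevA
import Pool.Agent.CPI.ALevB
import Pool.Agent.CPI.ALevC

/-! # Part A, the level lemma

(problem MP_ba5606_gt, project CPI, part A, package A09)

`level`. `C` from `exists_C`. `F'` from `exists_fun` on `Z` with `ρ ψ g = E g C ∧ Trp E Y F e ψ g`, formula
`an (.mem 1 2) (fTrp 3 4 5 0 1)`, parameters `vv R [C, Y, F, e]`. Existence of `g` for `ψ ∈ Z`: `exists_Trp`, `Trp_cts`;
uniqueness: `fun_ext` (both `g`, `g'` are functions on `P` as elements of `C`, and `Trp` determines `Val`). `F'` is onto `C`: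
`cts_Trp`. `IsTrp` is clear.
-/

universe v

namespace CPI

open STP STP.Fml

variable {N : Type v} {E : N → N → Prop}

theorem level (hE : ZFC E) {R l Y B h F P π Z e : N} (hF : IsOnto E F Y P) (hi : IsInj E F)
    (hπ : IsFT E Y B h F P π) (hev : CEv E R Y Z e) (hsec : CSec E R l Y B h Z e)
    (hsur : CSur E R l Y B h Z e) :
    ∃ C F', (∀ g, E g C ↔ IsCts E R l P π g) ∧ IsOnto E F' Z C ∧ IsTrp E Y F e F' := by
  obtain ⟨C, hC⟩ := exists_C hE R l P π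
  obtain ⟨F', hF', hF''⟩ := exists_fun hE (ρ := fun ψ g => E g C ∧ Trp E Y F e ψ g)
    ⟨an (.mem 1 2) (fTrp 3 4 5 0 1), vv R [C, Y, F, e], by intro x y; simp⟩ Z (by
    intro ψ hψ
    obtain ⟨g, hg1, hg2, hg3⟩ := exists_Trp hE hF hi hev hψ
    refine ⟨g, ⟨(hC g).2 (Trp_cts hE hF hi hπ hev hsec hψ hg1 hg2 hg3), hg3⟩, ?_⟩
    rintro g' ⟨h1, h2⟩
    exact fun_ext hE ((hC g').1 h1).1 hg1 fun c t hct => (hg3 c t).2 ((h2 c t).1 hct))
  refine ⟨C, F', hC, ⟨hF', fun ψ g h => ((hF'' ψ g).1 h).2.1, fun g hg => ?_⟩,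
    fun ψ g h => ((hF'' ψ g).1 h).2.2⟩
  obtain ⟨ψ, hψ, h1⟩ := cts_Trp hE hF hπ hev hsur ((hC g).1 hg)
  exact ⟨ψ, hψ, (hF'' ψ g).2 ⟨hψ, hg, h1⟩⟩

end CPI
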