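import Pool.Agent.CPI.ATool

/-! # Part A, the sections `e(ψ, .)` define continuous functions on the literal space

(problem MP_ba5606_gt, project CPI, part A, package A07)

`(P, π)` is the literal space with `π` coded by `(Y, B, h)` and the bijection `F : Y → P`; `ψ ∈ Z`.

* `exists_Trp`: `g` with `Val g c t ↔ c ∈ P ∧ ∃ y ∈ Y, F y = c ∧ e(ψ, y) = t` from `exists_fun` on `P` with
  `ρ c t = ∃ y, E y Y ∧ Val E F y c ∧ Ap E e ψ y t`, formula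
  `ex (an (.mem 0 3) (an (fVal 4 0 1) (fAp 5 6 0 2)))`, parameters `vv R [Y, F, e, ψ]` (check the numbers by
  `simp`). Existence and uniqueness of `t` for `c ∈ P`: `F` is onto and injective, `CEv`. The condition `c ∈ P` follows
  from `Val F y c`.
* `Trp_cts`: values in `R`: `CEv`. Let `r ∈ R`. `U = {c ∈ P | ∃ t, Val g c t ∧ t < r}` (`sep`, formula
  `ex (an (fVal 2 1 0) (fVal 3 0 4))`, parameters `vv R [g, l, r]`); it is in `π`: by `IsFT` show `FOp U`: let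
  `y ∈ Y`, `F y = c ∈ U`, so `Val g c t`, `t < r`, and by `Trp` there is `y'` with `F y' = c`, `e(ψ, y') = t`, `y' = y`;
  `CSec` gives `b ∈ B` with `Val h y b` and `e(ψ, z') < r` for all `z' ∈ Y` in the basic set; for such `z'` with
  `F z' = c'`: `CEv` gives `s = e(ψ, z')`, `s < r`, `Val g c' s`, so `c' ∈ U` (`c' ∈ P`). The same for `r < g`.
-/

universe v

namespace CPI

open STP STP.Fml

variable {N : Type v} {E : N → N → Prop}

theorem exists_Trp (hE : ZFC E) {R Y F P Z e ψ : N} (hF : IsOnto E F Y P) (hi : IsInj E F)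
    (hev : CEv E R Y Z e) (hψ : E ψ Z) :
    ∃ g, IsFun E g P ∧ (∀ c t, Val E g c t → E t R) ∧ Trp E Y F e ψ g := by
  obtain ⟨g, hg, hg'⟩ := exists_fun hE
    (ρ := fun c t => ∃ y, E y Y ∧ Val E F y c ∧ Ap E e ψ y t)
    ⟨ex (an (.mem 0 3) (an (fVal 4 0 1) (fAp 5 6 0 2))), vv R [Y, F, e, ψ],
      by intro x y; simp⟩ P (by
    intro c hc
    obtain ⟨y, hy, hyc⟩ := hF.2.2 c hc
    obtain ⟨t, ht, hyt⟩ := hev.1 ψ y hψ hy
    refine ⟨t, ⟨y, hy, hyc, hyt⟩, ?_⟩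
    rintro t' ⟨y', hy', hyc', hyt'⟩
    obtain rfl := hi y y' c hyc hyc'
    exact hev.2 ψ y t' t hψ hy hyt' hyt)
  refine ⟨g, hg, fun c t h => ?_, fun c t => ⟨fun h => ((hg' c t).1 h).2, fun h => ?_⟩⟩
  · obtain ⟨-, y, hy, -, hyt⟩ := (hg' c t).1 h
    obtain ⟨t', ht', hyt'⟩ := hev.1 ψ y hψ hy
    obtain rfl := hev.2 ψ y t t' hψ hy hyt hyt'
    exact ht'
  · obtain ⟨y, hy, hyc, hyt⟩ := h
    exact (hg' c t).2 ⟨hF.2.1 y c hyc, y, hy, hyc, hyt⟩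

theorem Trp_cts (hE : ZFC E) {R l Y B h F P π Z e ψ g : N} (hF : IsOnto E F Y P)
    (hi : IsInj E F) (hπ : IsFT E Y B h F P π) (hev : CEv E R Y Z e)
    (hsec : CSec E R l Y B h Z e) (hψ : E ψ Z) (hg : IsFun E g P)
    (hg' : ∀ c t, Val E g c t → E t R) (ht : Trp E Y F e ψ g) : IsCts E R l P π g := by
  refine ⟨hg, hg', fun r hr => ⟨?_, ?_⟩⟩
  · obtain ⟨U, hU⟩ := sep hE (ρ := fun c => ∃ t, Val E g c t ∧ Val E l t r)
      ⟨ex (an (fVal 2 1 0) (fVal 3 0 4)), vv R [g, l, r], by intro x; simp⟩ P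
    refine ⟨U, (hπ U).2 ⟨fun c hc => ((hU c).1 hc).1, fun y c hy hyc hc => ?_⟩, fun c => ?_⟩
    · obtain ⟨hcP, t, hct, htr⟩ := (hU c).1 hc
      obtain ⟨y', hy', hyc', hyt⟩ := (ht c t).1 hct
      obtain rfl := hi y y' c hyc hyc'
      obtain ⟨b, hb, hyb, h1⟩ := (hsec ψ y t r hψ hy hyt hr).1 htr
      refine ⟨b, hb, hyb, fun z' c' hz' hzb' hzc' => ?_⟩
      obtain ⟨s, hs, hzs⟩ := hev.1 ψ z' hψ hz'
      exact (hU c').2 ⟨hF.2.1 z' c' hzc', s, (ht c' s).2 ⟨z', hz', hzc', hzs⟩,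
        h1 z' s hz' hzb' hzs⟩
    · rw [hU]
      exact and_iff_right_of_imp fun ⟨t, hct, _⟩ => IsFun.dom hE hg hct
  · obtain ⟨U, hU⟩ := sep hE (ρ := fun c => ∃ t, Val E g c t ∧ Val E l r t)
      ⟨ex (an (fVal 2 1 0) (fVal 3 4 0)), vv R [g, l, r], by intro x; simp⟩ P
    refine ⟨U, (hπ U).2 ⟨fun c hc => ((hU c).1 hc).1, fun y c hy hyc hc => ?_⟩, fun c => ?_⟩
    · obtain ⟨hcP, t, hct, htr⟩ := (hU c).1 hc
      obtain ⟨y', hy', hyc', hyt⟩ := (ht c t).1 hct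
      obtain rfl := hi y y' c hyc hyc'
      obtain ⟨b, hb, hyb, h1⟩ := (hsec ψ y t r hψ hy hyt hr).2 htr
      refine ⟨b, hb, hyb, fun z' c' hz' hzb' hzc' => ?_⟩
      obtain ⟨s, hs, hzs⟩ := hev.1 ψ z' hψ hz'
      exact (hU c').2 ⟨hF.2.1 z' c' hzc', s, (ht c' s).2 ⟨z', hz', hzc', hzs⟩,
        h1 z' s hz' hzb' hzs⟩
    · rw [hU]
      exact and_iff_right_of_imp fun ⟨t, hct, _⟩ => IsFun.dom hE hg hct

end CPI
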