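import Pool.Agent.CPI.ACho

/-! # Part A, Lindelof and compact

(problem MP_ba5606_gt, project CPI, part A, package A15)

`ρ` is a set of subsets of `D` all of which are open in the topology coded by `(Z, B, h)` and `F : Z → D`.

`lin`. Let `S ⊆ ρ` cover `D`. Say `RR b U` iff for all `ψ ∈ Z` with `Val h ψ b` and all `g` with `Val F ψ g` we have `g ∈ U`
(formula `.all (.all (.imp (.mem 1 4) (.imp (fVal 5 1 2) (.imp (fVal 6 1 0) (.mem 0 3)))))` with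
`Df2` and parameters `vv Z [Z, h, F]`; check the numbers by `simp`). `O = {b ∈ B | ∃ U ∈ S, RR b U}` (`sep`, formula with
`ex (an (.mem 0 _) ...)`). `O ⊆ B` and `CCov Z h O`: let `ψ ∈ Z`, `F ψ = g`, `g ∈ U ∈ S`; `FOp U` gives `b ∈ B` with `Val h ψ b` and
`RR b U`. `CLin` gives `O' ⊆ O` countable with `CCov Z h O'`. `choose_cnt` (with `ρ := RR`) gives `S' ⊆ S` countable such
that for all `b ∈ O'` some `U ∈ S'` has `RR b U`. `S'` covers `D`: `g = F ψ`, `ψ` in the basic set of `b ∈ O'`, so `g ∈ U`.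

`cpt`: the same with `CCpt`, `choose_fin`.
-/

universe v

namespace CPI

open STP STP.Fml

variable {N : Type v} {E : N → N → Prop}

/-- the image of the basic set with the code `b` is a subset of `U` -/
private def RR (E : N → N → Prop) (Z h F b U : N) : Prop :=
  ∀ ψ g, E ψ Z → Val E h ψ b → Val E F ψ g → E g U

private theorem RR_df (Z h F : N) : Df2 E fun b U => RR E Z h F b U :=
  ⟨.all (.all (.imp (.mem 1 4) (.imp (fVal 5 1 2) (.imp (fVal 6 1 0) (.mem 0 3))))),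
    vv Z [Z, h, F], by intro x y; simp [RR]⟩

private theorem exists_O (hE : ZFC E) {Z B h F D ρ S : N} (hF : IsOnto E F Z D)
    (hρ : ∀ U, E U ρ → FOp E Z B h F D U) (hS : Sub E S ρ) (hc : IsCov E D S) :
    ∃ O, Sub E O B ∧ CCov E Z h O ∧ ∀ b, E b O → ∃ U, E U S ∧ RR E Z h F b U := by
  obtain ⟨O, hO⟩ := sep hE (ρ := fun b => ∃ U, E U S ∧ RR E Z h F b U)
    ⟨ex (an (.mem 0 2) (.all (.all (.imp (.mem 1 5) (.imp (fVal 6 1 3)
      (.imp (fVal 7 1 0) (.mem 0 2))))))), vv Z [S, Z, h, F], by intro x; simp [RR]⟩ B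
  refine ⟨O, fun b hb => ((hO b).1 hb).1, fun ψ hψ => ?_, fun b hb => ((hO b).1 hb).2⟩
  obtain ⟨g, hg⟩ := hF.1.2.1 ψ hψ
  obtain ⟨U, hU, hgU⟩ := hc g (hF.2.1 ψ g hg)
  obtain ⟨b, hb, hψb, h1⟩ := (hρ U (hS U hU)).2 ψ g hψ hg hgU
  exact ⟨b, (hO b).2 ⟨hb, U, hU, h1⟩, hψb⟩

private theorem cov_of {Z h F D O' S' : N} (hF : IsOnto E F Z D) (hO' : CCov E Z h O')
    (h1 : ∀ b, E b O' → ∃ U, E U S' ∧ RR E Z h F b U) : IsCov E D S' := by
  intro g hg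
  obtain ⟨ψ, hψ, hψg⟩ := hF.2.2 g hg
  obtain ⟨b, hb, hψb⟩ := hO' ψ hψ
  obtain ⟨U, hU, hbU⟩ := h1 b hb
  exact ⟨U, hU, hbU ψ g hψ hψb hψg⟩

theorem lin (hE : ZFC E) {Z B h F D ρ : N} (hF : IsOnto E F Z D) (hlin : CLin E Z B h)
    (hρ : ∀ U, E U ρ → FOp E Z B h F D U) : IsLin E D ρ := by
  intro S hS hc
  obtain ⟨O, hO, hcO, hOU⟩ := exists_O hE hF hρ hS hc
  obtain ⟨O', hO', hcnt, hcO'⟩ := hlin O hO hcO
  obtain ⟨S', hS', hcnt', h1⟩ := choose_cnt hE (RR_df Z h F) hcnt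
    fun b hb => hOU b (hO' b hb)
  exact ⟨S', hS', hcnt', cov_of hF hcO' h1⟩

theorem cpt (hE : ZFC E) {Z B h F D ρ : N} (hF : IsOnto E F Z D) (hcpt : CCpt E Z B h)
    (hρ : ∀ U, E U ρ → FOp E Z B h F D U) : IsCpt E D ρ := by
  intro S hS hc
  obtain ⟨O, hO, hcO, hOU⟩ := exists_O hE hF hρ hS hc
  obtain ⟨O', hO', hfin, hcO'⟩ := hcpt O hO hcO
  obtain ⟨S', hS', hfin', h1⟩ := choose_fin hE (RR_df Z h F) hfin
    fun b hb => hOU b (hO' b hb)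
  exact ⟨S', hS', hfin', cov_of hF hcO' h1⟩

end CPI
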