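import Pool.Agent.CPI.ATool

/-! # Part A, the pull back of a topology containing the subbasic sets

(problem MP_ba5606_gt, project CPI, part A, package A12)

`pull_pw`. Let `y ∈ Y`, `r ∈ R`, `U = {ψ ∈ Z | ∃ t, e(ψ, y) = t < r}`. Let `x ∈ P` with `F y = x`, and
`W = {g ∈ C | ∃ t, Val g x t ∧ t < r}` (`sep`, formula `ex (an (fVal 1 2 0) (fVal 3 0 4))`, parameters
`vv C [x, l, r]`; check the numbers by `simp`). `W ∈ σ` by `IsPw`. `W` is the image of `U`: if `ψ ∈ U`, `Val F' ψ g`,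
then `Val g x t` by `IsTrp`, so `g ∈ W`; if `g ∈ W` then `g = F' ψ` with `ψ ∈ Z`, `Val g x t` gives (`IsTrp`) `y'` with
`F y' = x`, `e(ψ, y') = t`, `y' = y` by injectivity, so `ψ ∈ U`. The same for `r < t`.
-/

universe v

namespace CPI

open STP STP.Fml

variable {N : Type v} {E : N → N → Prop}

theorem pull_pw (hE : ZFC E) {R l Y F P Z e F' C σ σ'' : N} (hF : IsOnto E F Y P)
    (hi : IsInj E F) (hF' : IsOnto E F' Z C) (ht : IsTrp E Y F e F') (hσ : IsPw E R l P C σ)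
    (hσ'' : ∀ V, E V σ'' ↔ Sub E V Z ∧ ∃ W, E W σ ∧ IsIm E F' V W) :
    CPw E R l Y Z e σ'' := by
  intro y r U hy hr
  obtain ⟨x, hx⟩ := hF.1.2.1 y hy
  have hxP : E x P := hF.2.1 y x hx
  refine ⟨fun hU => ?_, fun hU => ?_⟩
  · obtain ⟨W, hW⟩ := sep hE (ρ := fun g => ∃ t, Val E g x t ∧ Val E l t r)
      ⟨ex (an (fVal 1 2 0) (fVal 3 0 4)), vv C [x, l, r], by intro x; simp⟩ C
    refine (hσ'' U).2 ⟨fun ψ hψ => ((hU ψ).1 hψ).1, W, (hσ x r W hxP hr).1 hW, fun g =>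
      ⟨fun hg => ?_, ?_⟩⟩
    · obtain ⟨hgC, t, hxt, htr⟩ := (hW g).1 hg
      obtain ⟨ψ, hψ, hψg⟩ := hF'.2.2 g hgC
      obtain ⟨y', hy', hyx', hyt⟩ := (ht ψ g hψg x t).1 hxt
      obtain rfl := hi y y' x hx hyx'
      exact ⟨ψ, (hU ψ).2 ⟨hψ, t, hyt, htr⟩, hψg⟩
    · rintro ⟨ψ, hψ, hψg⟩
      obtain ⟨-, t, hyt, htr⟩ := (hU ψ).1 hψ
      exact (hW g).2 ⟨hF'.2.1 ψ g hψg, t, (ht ψ g hψg x t).2 ⟨y, hy, hx, hyt⟩, htr⟩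
  · obtain ⟨W, hW⟩ := sep hE (ρ := fun g => ∃ t, Val E g x t ∧ Val E l r t)
      ⟨ex (an (fVal 1 2 0) (fVal 3 4 0)), vv C [x, l, r], by intro x; simp⟩ C
    refine (hσ'' U).2 ⟨fun ψ hψ => ((hU ψ).1 hψ).1, W, (hσ x r W hxP hr).2 hW, fun g =>
      ⟨fun hg => ?_, ?_⟩⟩
    · obtain ⟨hgC, t, hxt, htr⟩ := (hW g).1 hg
      obtain ⟨ψ, hψ, hψg⟩ := hF'.2.2 g hgC
      obtain ⟨y', hy', hyx', hyt⟩ := (ht ψ g hψg x t).1 hxt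
      obtain rfl := hi y y' x hx hyx'
      exact ⟨ψ, (hU ψ).2 ⟨hψ, t, hyt, htr⟩, hψg⟩
    · rintro ⟨ψ, hψ, hψg⟩
      obtain ⟨-, t, hyt, htr⟩ := (hU ψ).1 hψ
      exact (hW g).2 ⟨hF'.2.1 ψ g hψg, t, (ht ψ g hψg x t).2 ⟨y, hy, hx, hyt⟩, htr⟩

end CPI
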