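import Pool.Agent.CPI.ATool

/-! # Part A, pulling back a topology

(problem MP_ba5606_gt, project CPI, part A, package A11)

`F' : Z → C` is a bijection, `σ` a topology on `C`.

`pull_top`. `σ'' = {V ⊆ Z | ∃ W ∈ σ, W is the image of V}` from the power set of `Z` and `sep`, formula
`ex (an (.mem 0 2) (fIm 3 1 0))`, parameters `vv Z [σ, F']`. It is a topology: `V ⊆ Z` is clear. `Z ∈ σ''`: the image of
`Z` is `C`. Unions: let `S ⊆ σ''`, `u` the union of `S`, `T` the set of the images of the members of `S`: `T` is obtained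
by `sep` from `σ` with `ρ W = ∃ V, E V S ∧ IsIm E F' V W`; the union of `T` (exists by `hE.union`) is in `σ` and is the image
of `u`; `u ⊆ Z`. Intersections: if `W1`, `W2` are the images of `V1`, `V2` then `W1 ∩ W2` (`exists_int`) is in `σ` and is the
image of `V1 ∩ V2` by injectivity of `F'`. (The image of a given `V` is unique by `hE.ext`, but this is not needed.)
-/

universe v

namespace CPI

open STP STP.Fml

variable {N : Type v} {E : N → N → Prop}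

theorem pull_top (hE : ZFC E) {Z C F' σ : N} (hF' : IsOnto E F' Z C) (hi' : IsInj E F')
    (hσ : IsTop E C σ) :
    ∃ σ'', (∀ V, E V σ'' ↔ Sub E V Z ∧ ∃ W, E W σ ∧ IsIm E F' V W) ∧ IsTop E Z σ'' := by
  obtain ⟨P, hP⟩ := hE.power Z
  obtain ⟨τ, hτ⟩ := sep hE (ρ := fun V => ∃ W, E W σ ∧ IsIm E F' V W)
    ⟨ex (an (.mem 0 2) (fIm 3 1 0)), vv Z [σ, F'], by intro x; simp⟩ P
  have key : ∀ V, E V τ ↔ Sub E V Z ∧ ∃ W, E W σ ∧ IsIm E F' V W := fun V => by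
    rw [hτ, hP]
    rfl
  refine ⟨τ, key, fun V hV => ((key V).1 hV).1, ?_, fun S u hS hu => ?_,
    fun U V W hU hV hW => ?_⟩
  · refine (key Z).2 ⟨fun x hx => hx, C, hσ.2.1, fun c => ⟨fun hc => hF'.2.2 c hc, ?_⟩⟩
    rintro ⟨z, -, hz⟩
    exact hF'.2.1 z c hz
  · obtain ⟨T, hT⟩ := sep hE (ρ := fun W => ∃ V, E V S ∧ IsIm E F' V W)
      ⟨ex (an (.mem 0 2) (fIm 3 0 1)), vv Z [S, F'], by intro x; simp⟩ σ
    obtain ⟨u', hu'⟩ := hE.union T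
    refine (key u).2 ⟨fun x hx => ?_, u', hσ.2.2.1 T u' (fun W hW => ((hT W).1 hW).1) hu',
      fun c => ⟨fun hc => ?_, ?_⟩⟩
    · obtain ⟨V, hV, hx⟩ := (hu x).1 hx
      exact ((key V).1 (hS V hV)).1 x hx
    · obtain ⟨W, hW, hcW⟩ := (hu' c).1 hc
      obtain ⟨-, V, hV, hVW⟩ := (hT W).1 hW
      obtain ⟨z, hz, hzc⟩ := (hVW c).1 hcW
      exact ⟨z, (hu z).2 ⟨V, hV, hz⟩, hzc⟩
    · rintro ⟨z, hz, hzc⟩
      obtain ⟨V, hV, hz⟩ := (hu z).1 hz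
      obtain ⟨-, W, hW, hVW⟩ := (key V).1 (hS V hV)
      exact (hu' c).2 ⟨W, (hT W).2 ⟨hW, V, hV, hVW⟩, (hVW c).2 ⟨z, hz, hzc⟩⟩
  · obtain ⟨hU0, U', hU', hUU⟩ := (key U).1 hU
    obtain ⟨hV0, V', hV', hVV⟩ := (key V).1 hV
    obtain ⟨W', hW'⟩ := exists_int hE U' V'
    refine (key W).2 ⟨fun x hx => hU0 x ((hW x).1 hx).1, W', hσ.2.2.2 U' V' W' hU' hV' hW',
      fun c => ⟨fun hc => ?_, ?_⟩⟩
    · obtain ⟨h1, h2⟩ := (hW' c).1 hc
      obtain ⟨z, hz, hzc⟩ := (hUU c).1 h1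
      obtain ⟨z', hz', hzc'⟩ := (hVV c).1 h2
      obtain rfl := hi' z z' c hzc hzc'
      exact ⟨z, (hW z).2 ⟨hz, hz'⟩, hzc⟩
    · rintro ⟨z, hz, hzc⟩
      obtain ⟨h1, h2⟩ := (hW z).1 hz
      exact (hW' c).2 ⟨(hUU c).2 ⟨z, h1, hzc⟩, (hVV c).2 ⟨z, h2, hzc⟩⟩

end CPI
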