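import Pool.Agent.CPI.ATop
import Pool.Agent.CPI.APull
import Pool.Agent.CPI.APulW

/-! # Part A, the coded topology is the smallest one

(problem MP_ba5606_gt, project CPI, part A, package A13)

`FT_min`. Let `σ'` be a topology on `C` with `IsPw`; `σ''` from `pull_top`, `CPw` by `pull_pw`. Let `U ∈ σ`. Let
`T = {W ∈ σ' | W ⊆ U}` (`sep`, formula `fSub 0 1`); the union `u` of `T` (`hE.union`) is in `σ'`, since `T ⊆ σ'`. `u = U`
(`hE.ext`): `u ⊆ U` is clear. Let `c ∈ U`: `FT_basis` gives `b ∈ B'` and `W` with `IsBI b W`, `c ∈ W ⊆ U`. Let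
`V = {ψ ∈ Z | Val h' ψ b}` (`sep`): `V ∈ σ''` by `CTop`, so some `W' ∈ σ'` is the image of `V` under `F'`, and `W' = W` by
`hE.ext`. So `W ∈ T`, `c ∈ u`.
-/

universe v

namespace CPI

open STP STP.Fml

variable {N : Type v} {E : N → N → Prop}

theorem FT_min (hE : ZFC E) {R l Y F P Z B' h' e F' C σ σ' : N} (hF : IsOnto E F Y P)
    (hi : IsInj E F) (hF' : IsOnto E F' Z C) (hi' : IsInj E F') (ht : IsTrp E Y F e F')
    (htop : CTop E R l Y Z B' h' e) (hσ : IsFT E Z B' h' F' C σ) (h1 : IsTop E C σ')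
    (h2 : IsPw E R l P C σ') : Sub E σ σ' := by
  obtain ⟨τ, hτ, hτ'⟩ := pull_top hE hF' hi' h1
  have hpw := pull_pw hE hF hi hF' ht h2 hτ
  intro U hU
  obtain ⟨T, hT⟩ := sep hE (ρ := fun W => Sub E W U) ⟨fSub 0 1, vv U [U], by intro x; simp⟩ σ'
  obtain ⟨u, hu⟩ := hE.union T
  have huσ : E u σ' := h1.2.2.1 T u (fun W hW => ((hT W).1 hW).1) hu
  have huU : u = U := by
    refine hE.ext u U fun c => ⟨fun hc => ?_, fun hc => ?_⟩
    · obtain ⟨W, hW, hcW⟩ := (hu c).1 hc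
      exact ((hT W).1 hW).2 c hcW
    · obtain ⟨b, W, hb, hW, hcW, hWU⟩ := FT_basis hE hF' hσ hU hc
      obtain ⟨V, hV⟩ := sep hE (ρ := fun ψ => Val E h' ψ b)
        ⟨fVal 1 0 2, vv U [h', b], by intro x; simp⟩ Z
      obtain ⟨-, W', hW', hVW⟩ := (hτ V).1 (htop τ hτ' hpw b V hb hV)
      have hWW : W = W' := by
        refine hE.ext W W' fun x => ?_
        rw [hW x, hVW x]
        refine exists_congr fun z => ?_
        rw [hV z, and_assoc]
      subst hWW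
      exact (hu c).2 ⟨W, (hT W).2 ⟨hW', hWU⟩, hcW⟩
  rwa [huU] at huσ

end CPI
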