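import Pool.Agent.CPI.ATool

/-! # Part A, the topology coded by `(Y, B, h)` and `F : Y → C`

(problem MP_ba5606_gt, project CPI, part A, package A04)

* `exists_FT`: power set of `C` (`hE.power`) and `sep` with the formula `fFOp 1 2 3 4 5 0`, parameters
  `vv C [Y, B, h, F, C]`; `FOp` contains `Sub U C`.
* `FT_top`: `U ∈ σ` implies `U ⊆ C` by definition. `C ∈ σ`: by the first clause of `CSp` some basic set contains `z`,
  and all values of `F` are in `C`. Unions: if `S ⊆ σ` and `F z` is in the union `u` then `F z ∈ U ∈ S`, take the `b` for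
  `U`. Intersections: take `b` for `U`, `b'` for `V` and `c ∈ B` from the second clause of `CSp`.
* `BI_mem`: `W` is a subset of `C`. Let `z ∈ Y`, `F z ∈ W`: `F z = F z1` with `z1` in the basic set, `z = z1` by
  injectivity, so `b` itself works.
* `FT_basis`: for `U ∈ σ` and `c ∈ U` there are `b ∈ B` and `W` with `IsBI b W`, `c ∈ W`, `W ⊆ U`: `c = F z`, take the `b` of
  `FOp`, `W` from `exists_BI`.
-/

universe v

namespace CPI

open STP STP.Fml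

variable {N : Type v} {E : N → N → Prop}

theorem exists_FT (hE : ZFC E) (Y B h F C : N) : ∃ σ, IsFT E Y B h F C σ := by
  obtain ⟨P, hP⟩ := hE.power C
  obtain ⟨σ, hσ⟩ := sep hE (ρ := fun U => FOp E Y B h F C U)
    ⟨fFOp 1 2 3 4 5 0, vv C [Y, B, h, F, C], by intro x; simp⟩ P
  exact ⟨σ, fun U => ⟨fun hU => ((hσ U).1 hU).2, fun hU => (hσ U).2 ⟨(hP U).2 hU.1, hU⟩⟩⟩

theorem FT_top {Y B h F C σ : N} (hF : IsOnto E F Y C) (hsp : CSp E Y B h)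
    (hσ : IsFT E Y B h F C σ) : IsTop E C σ := by
  refine ⟨fun U hU => ((hσ U).1 hU).1, ?_, fun S u hS hu => ?_, fun U V W hU hV hW => ?_⟩
  · refine (hσ C).2 ⟨fun x hx => hx, fun z c hz _ _ => ?_⟩
    obtain ⟨b, hb, hzb⟩ := hsp.1 z hz
    exact ⟨b, hb, hzb, fun z' c' _ _ h' => hF.2.1 z' c' h'⟩
  · refine (hσ u).2 ⟨fun x hx => ?_, fun z c hz hzc hc => ?_⟩
    · obtain ⟨U, hU, hx⟩ := (hu x).1 hx
      exact ((hσ U).1 (hS U hU)).1 x hx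
    · obtain ⟨U, hU, hcU⟩ := (hu c).1 hc
      obtain ⟨b, hb, hzb, hbU⟩ := ((hσ U).1 (hS U hU)).2 z c hz hzc hcU
      exact ⟨b, hb, hzb, fun z' c' h1 h2 h3 => (hu c').2 ⟨U, hU, hbU z' c' h1 h2 h3⟩⟩
  · refine (hσ W).2 ⟨fun x hx => ((hσ U).1 hU).1 x ((hW x).1 hx).1, fun z c hz hzc hc => ?_⟩
    obtain ⟨b, hb, hzb, hbU⟩ := ((hσ U).1 hU).2 z c hz hzc ((hW c).1 hc).1
    obtain ⟨b', hb', hzb', hbV⟩ := ((hσ V).1 hV).2 z c hz hzc ((hW c).1 hc).2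
    obtain ⟨b3, hb3, hzb3, h3⟩ := hsp.2 z b b' hz hb hb' hzb hzb'
    exact ⟨b3, hb3, hzb3, fun z' c' h4 h5 h6 => (hW c').2
      ⟨hbU z' c' h4 (h3 z' h4 h5).1 h6, hbV z' c' h4 (h3 z' h4 h5).2 h6⟩⟩

theorem BI_mem {Y B h F C σ b W : N} (hF : IsOnto E F Y C) (hi : IsInj E F)
    (hσ : IsFT E Y B h F C σ) (hb : E b B) (hW : IsBI E Y h F b W) : E W σ := by
  refine (hσ W).2 ⟨fun c hc => ?_, fun z c hz hzc hc => ?_⟩
  · obtain ⟨z, -, -, hz⟩ := (hW c).1 hc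
    exact hF.2.1 z c hz
  · obtain ⟨z1, -, hz1, hz2⟩ := (hW c).1 hc
    obtain rfl := hi z1 z c hz2 hzc
    exact ⟨b, hb, hz1, fun z' c' h1 h2 h3 => (hW c').2 ⟨z', h1, h2, h3⟩⟩

theorem FT_basis (hE : ZFC E) {Y B h F C σ U c : N} (hF : IsOnto E F Y C)
    (hσ : IsFT E Y B h F C σ) (hU : E U σ) (hc : E c U) :
    ∃ b W, E b B ∧ IsBI E Y h F b W ∧ E c W ∧ Sub E W U := by
  obtain ⟨h1, h2⟩ := (hσ U).1 hU
  obtain ⟨z, hz, hzc⟩ := hF.2.2 c (h1 c hc)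
  obtain ⟨b, hb, hzb, hbU⟩ := h2 z c hz hzc hc
  obtain ⟨W, hW⟩ := exists_BI hE hF.1 h b
  refine ⟨b, W, hb, hW, (hW c).2 ⟨z, hz, hzb, hzc⟩, fun c' hc' => ?_⟩
  obtain ⟨z', h3, h4, h5⟩ := (hW c').1 hc'
  exact hbU z' c' h3 h4 h5

end CPI
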