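import Pool.Agent.CPI.ACho
import Pool.Agent.CPI.ATop

/-! # Part A, not Lindelof

(problem MP_ba5606_gt, project CPI, part A, package A16)

`nlin`. Suppose that `(C, σ)` is Lindelof; we show `CLin Y B h`. Let `O ⊆ B` with `CCov Y h O`. Let
`S = {W ∈ σ | ∃ b ∈ O, IsBI b W}` (`sep`, formula `ex (an (.mem 0 2) (fBI 3 4 5 0 1))`, parameters
`vv σ [O, Y, h, F]`; check the numbers by `simp`). `S` covers `C`: `c = F y`, `y` in the basic set of `b ∈ O`, `W` from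
`exists_BI`, `W ∈ σ` by `BI_mem`. So there is a countable `S' ⊆ S` which covers `C`. For every `W ∈ S'` there is `b ∈ O` with
`IsBI b W`: `choose_cnt` (with the relation `W, b ↦ IsBI b W`) gives a countable `O' ⊆ O`. `CCov Y h O'`: let `y ∈ Y`,
`F y = c ∈ W ∈ S'`, `b ∈ O'` with `IsBI b W`: `c = F y1` with `Val h y1 b`, and `y1 = y` by injectivity.
-/

universe v

namespace CPI

open STP STP.Fml

variable {N : Type v} {E : N → N → Prop}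

theorem nlin (hE : ZFC E) {Y B h F C σ : N} (hF : IsOnto E F Y C) (hi : IsInj E F)
    (hσ : IsFT E Y B h F C σ) (hn : ¬ CLin E Y B h) : ¬ IsLin E C σ := by
  intro hlin
  apply hn
  intro O hO hc
  obtain ⟨S, hS⟩ := sep hE (ρ := fun W => ∃ b, E b O ∧ IsBI E Y h F b W)
    ⟨ex (an (.mem 0 2) (fBI 3 4 5 0 1)), vv σ [O, Y, h, F], by intro x; simp⟩ σ
  obtain ⟨S', hS', hcnt, hcov⟩ := hlin S (fun W hW => ((hS W).1 hW).1) (by
    intro c hcC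
    obtain ⟨y, hy, hyc⟩ := hF.2.2 c hcC
    obtain ⟨b, hb, hyb⟩ := hc y hy
    obtain ⟨W, hW⟩ := exists_BI hE hF.1 h b
    exact ⟨W, (hS W).2 ⟨BI_mem hF hi hσ (hO b hb) hW, b, hb, hW⟩, (hW c).2 ⟨y, hy, hyb, hyc⟩⟩)
  obtain ⟨O', hO', hcnt', h1⟩ := choose_cnt hE (ρ := fun W b => IsBI E Y h F b W)
    ⟨fBI 2 3 4 1 0, vv σ [Y, h, F], by intro x y; simp⟩ hcnt
    fun W hW => ((hS W).1 (hS' W hW)).2
  refine ⟨O', hO', hcnt', fun y hy => ?_⟩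
  obtain ⟨c, hyc⟩ := hF.1.2.1 y hy
  obtain ⟨W, hW, hcW⟩ := hcov c (hF.2.1 y c hyc)
  obtain ⟨b, hb, hbW⟩ := h1 W hW
  obtain ⟨y1, -, hy1, hy2⟩ := (hbW c).1 hcW
  obtain rfl := hi y1 y c hy2 hyc
  exact ⟨b, hb, hy1⟩

end CPI
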