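import Pool.Agent.CPI.ATool

/-! # Part A, the coded topology contains the subbasic sets of pointwise convergence

(problem MP_ba5606_gt, project CPI, part A, package A05)

`F : Y → P` is onto, `F' : Z → C` is onto and its values are the functions `F y ↦ e(ψ, y)`.

`FT_pw`. Let `x ∈ P`, `r ∈ R`, `U = {g ∈ C | g x < r}` (the case `r < g x` is the same). To show `FOp U`: `U ⊆ C`. Let `ψ ∈ Z`,
`Val F' ψ g`, `g ∈ U`: there is `t` with `Val g x t`, `t < r`. By `IsTrp` there is `y ∈ Y` with `F y = x`, `e(ψ, y) = t`.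
`CSb` gives `b ∈ B'` with `Val h' ψ b` and `e(ψ', y) < r` for all `ψ' ∈ Z` in the basic set. For such `ψ'` and
`Val F' ψ' g'`: by `CEv` there is `s` with `e(ψ', y) = s`, `s < r`, and `Val g' x s` by `IsTrp`, so `g' ∈ U`.
-/

universe v

namespace CPI

open STP STP.Fml

variable {N : Type v} {E : N → N → Prop}

theorem FT_pw {R l Y F P Z B' h' e F' C σ : N} (hF' : IsOnto E F' Z C) (ht : IsTrp E Y F e F')
    (hev : CEv E R Y Z e) (hsb : CSb E R l Y Z B' h' e) (hσ : IsFT E Z B' h' F' C σ) :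
    IsPw E R l P C σ := by
  intro x r U hx hr
  refine ⟨fun hU => (hσ U).2 ⟨fun g hg => ((hU g).1 hg).1, fun ψ g hψ hψg hg => ?_⟩,
    fun hU => (hσ U).2 ⟨fun g hg => ((hU g).1 hg).1, fun ψ g hψ hψg hg => ?_⟩⟩
  · obtain ⟨hgC, t, hxt, htr⟩ := (hU g).1 hg
    obtain ⟨y, hy, hyx, hyt⟩ := (ht ψ g hψg x t).1 hxt
    obtain ⟨b, hb, hψb, h1⟩ := (hsb ψ y t r hψ hy hyt hr).1 htr
    refine ⟨b, hb, hψb, fun ψ' g' hψ' hψb' hg' => ?_⟩
    obtain ⟨s, hs, hys⟩ := hev.1 ψ' y hψ' hy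
    exact (hU g').2 ⟨hF'.2.1 ψ' g' hg', s, (ht ψ' g' hg' x s).2 ⟨y, hy, hyx, hys⟩,
      h1 ψ' s hψ' hψb' hys⟩
  · obtain ⟨hgC, t, hxt, htr⟩ := (hU g).1 hg
    obtain ⟨y, hy, hyx, hyt⟩ := (ht ψ g hψg x t).1 hxt
    obtain ⟨b, hb, hψb, h1⟩ := (hsb ψ y t r hψ hy hyt hr).2 htr
    refine ⟨b, hb, hψb, fun ψ' g' hψ' hψb' hg' => ?_⟩
    obtain ⟨s, hs, hys⟩ := hev.1 ψ' y hψ' hy
    exact (hU g').2 ⟨hF'.2.1 ψ' g' hg', s, (ht ψ' g' hg' x s).2 ⟨y, hy, hyx, hys⟩,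
      h1 ψ' s hψ' hψb' hys⟩

end CPI
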