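import Pool.Agent.CPI.ADefs

/-! # Part A, toolkit: separation, replacement, products, functions in a model of `ZFC`

(problem MP_ba5606_gt, project CPI, part A) -/

universe v

namespace CPI

open STP STP.Fml

/-- lifting of a renaming under a quantifier -/
def lft (r : ℕ → ℕ) : ℕ → ℕ
  | 0 => 0
  | n + 1 => r n + 1

/-- renaming of the free variables -/
def ren : (ℕ → ℕ) → Fml → Fml
  | r, .mem i j => .mem (r i) (r j)
  | r, .eq i j => .eq (r i) (r j)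
  | _, .bot => .bot
  | r, .imp φ ψ => .imp (ren r φ) (ren r ψ)
  | r, .all φ => .all (ren (lft r) φ)

variable {N : Type v} {E : N → N → Prop}

theorem cns_lft (r : ℕ → ℕ) (x : N) (v : ℕ → N) : cns x v ∘ lft r = cns x (v ∘ r) := by
  funext i
  cases i <;> rfl

theorem sat_ren (φ : Fml) : ∀ (r : ℕ → ℕ) (v : ℕ → N), sat E (ren r φ) v ↔ sat E φ (v ∘ r) := by
  induction φ with
  | mem i j => intro r v; rfl
  | eq i j => intro r v; rfl
  | bot => intro r v; rfl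
  | imp φ ψ h1 h2 =>
    intro r v
    change (sat E (ren r φ) v → sat E (ren r ψ) v) ↔ (sat E φ (v ∘ r) → sat E ψ (v ∘ r))
    rw [h1, h2]
  | all φ h1 =>
    intro r v
    change (∀ x, sat E (ren (lft r) φ) (cns x v)) ↔ ∀ x, sat E φ (cns x (v ∘ r))
    refine forall_congr' fun x => ?_
    rw [h1, cns_lft]

theorem Df2.swap {ρ : N → N → Prop} (h : Df2 E ρ) : Df2 E fun x y => ρ y x := by
  obtain ⟨φ, v, h⟩ := h
  refine ⟨ren (fun i => match i with | 0 => 1 | 1 => 0 | n + 2 => n + 2) φ, v, fun x y => ?_⟩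
  rw [sat_ren]
  change _ ↔ ρ y x
  rw [← h]
  have : cns x (cns y v) ∘ (fun i => match i with | 0 => 1 | 1 => 0 | n + 2 => n + 2) =
      cns y (cns x v) := by
    funext i
    match i with
    | 0 => rfl
    | 1 => rfl
    | n + 2 => rfl
  rw [this]

/-- a definable relation with one argument fixed -/
theorem Df2.left {ρ : N → N → Prop} (h : Df2 E ρ) (y : N) : Df1 E fun x => ρ x y := by
  obtain ⟨φ, v, h⟩ := h
  exact ⟨φ, cns y v, fun x => h x y⟩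

theorem IsFun.dom (hE : ZFC E) {f a x y : N} (hf : IsFun E f a) (h : Val E f x y) : E x a := by
  obtain ⟨p, hp, hp'⟩ := h
  obtain ⟨x', y', hx', h'⟩ := hf.1 p hp
  obtain ⟨rfl, -⟩ := IsOP.inj hE hp' h'
  exact hx'

theorem fun_ext (hE : ZFC E) {f g a : N} (hf : IsFun E f a) (hg : IsFun E g a)
    (h : ∀ x y, Val E f x y → Val E g x y) : f = g := by
  refine hE.ext f g fun p => ⟨fun hp => ?_, fun hp => ?_⟩
  · obtain ⟨x, y, hx, hxy⟩ := hf.1 p hp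
    obtain ⟨q, hq, hq'⟩ := h x y ⟨p, hp, hxy⟩
    rwa [IsOP.uniq hE hxy hq']
  · obtain ⟨x, y, hx, hxy⟩ := hg.1 p hp
    obtain ⟨y', hy'⟩ := hf.2.1 x hx
    have h1 : y = y' := hg.2.2 x y y' ⟨p, hp, hxy⟩ (h x y' hy')
    subst h1
    obtain ⟨q, hq, hq'⟩ := hy'
    rwa [IsOP.uniq hE hxy hq']

section

variable (hE : ZFC E)

include hE

/-- **Separation.** -/
theorem sep {ρ : N → Prop} (hρ : Df1 E ρ) (x : N) : ∃ y, ∀ z, E z y ↔ E z x ∧ ρ z := by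
  obtain ⟨φ, v, h⟩ := hρ
  obtain ⟨y, hy⟩ := hE.separation φ v x
  exact ⟨y, fun z => by rw [hy, h]⟩

/-- **Replacement.** -/
theorem img {ρ : N → N → Prop} (hρ : Df2 E ρ) (A : N) (h : ∀ x, E x A → ∃! y, ρ x y) :
    ∃ I, ∀ y, E y I ↔ ∃ x, E x A ∧ ρ x y := by
  obtain ⟨φ, v, h1⟩ := hρ.swap
  obtain ⟨I, hI⟩ := hE.replacement φ v A (by
    intro x hx
    simp only [h1]
    exact h x hx)
  refine ⟨I, fun y => ?_⟩
  rw [hI]
  simp only [h1]

theorem exists_op (x y : N) : ∃ p, IsOP E p x y := by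
  obtain ⟨a, ha⟩ := hE.pair x x
  obtain ⟨b, hb⟩ := hE.pair x y
  obtain ⟨p, hp⟩ := hE.pair a b
  refine ⟨p, fun z => ?_⟩
  rw [hp]
  have key : ∀ (c s t : N), (∀ w, E w c ↔ w = s ∨ w = t) → (z = c ↔ IsUP E z s t) := by
    intro c s t hc
    constructor
    · rintro rfl
      exact hc
    · intro h
      exact hE.ext z c fun w => (h w).trans (hc w).symm
  rw [key a x x ha, key b x y hb]

theorem exists_int (s y : N) : ∃ t, IsInt E t s y := by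
  obtain ⟨t, ht⟩ := sep hE (ρ := fun z => E z y) ⟨.mem 0 1, vv y [y], by intro x; simp⟩ s
  exact ⟨t, ht⟩

theorem exists_prod (A B : N) :
    ∃ P, ∀ p, E p P ↔ ∃ x y, E x A ∧ E y B ∧ IsOP E p x y := by
  obtain ⟨q, hq⟩ := hE.pair A B
  obtain ⟨m, hm⟩ := hE.union q
  obtain ⟨P1, hP1⟩ := hE.power m
  obtain ⟨P2, hP2⟩ := hE.power P1
  obtain ⟨P, hP⟩ := sep hE (ρ := fun p => ∃ x y, E x A ∧ E y B ∧ IsOP E p x y)
    ⟨ex (ex (an (.mem 1 3) (an (.mem 0 4) (fOP 2 1 0)))), vv A [A, B], by intro x; simp⟩ P2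
  refine ⟨P, fun p => ?_⟩
  rw [hP]
  refine and_iff_right_of_imp ?_
  rintro ⟨x, y, hx, hy, hp⟩
  have hxm : E x m := (hm x).2 ⟨A, (hq A).2 (Or.inl rfl), hx⟩
  have hym : E y m := (hm y).2 ⟨B, (hq B).2 (Or.inr rfl), hy⟩
  rw [hP2]
  intro z hz
  rw [hP1]
  intro w hw
  rcases (hp z).1 hz with h | h
  · rcases (h w).1 hw with rfl | rfl <;> exact hxm
  · rcases (h w).1 hw with rfl | rfl
    · exact hxm
    · exact hym

/-- **Relations.** -/
theorem exists_rel {ρ : N → N → Prop} (hρ : Df2 E ρ) (A B : N) :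
    ∃ r, (∀ p, E p r → ∃ x y, E x A ∧ E y B ∧ IsOP E p x y) ∧
      ∀ x y, Val E r x y ↔ E x A ∧ E y B ∧ ρ x y := by
  obtain ⟨φ, v, h⟩ := hρ
  obtain ⟨P, hP⟩ := exists_prod hE A B
  obtain ⟨r, hr⟩ := sep hE (ρ := fun p => ∃ x y, IsOP E p x y ∧ ρ x y)
    ⟨ex (ex (an (fOP 2 1 0) (ren (fun i => match i with | 0 => 1 | 1 => 0 | n + 2 => n + 3) φ))),
      v, by
      intro p
      simp only [sat_ex, sat_an, sat_fOP, sat_ren, cns_zero, cns_one, cns_two, ← h]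
      refine exists_congr fun x => exists_congr fun y => ?_
      have : cns y (cns x (cns p v)) ∘
          (fun i => match i with | 0 => 1 | 1 => 0 | n + 2 => n + 3) = cns x (cns y v) := by
        funext i
        match i with
        | 0 => rfl
        | 1 => rfl
        | n + 2 => rfl
      rw [this]⟩ P
  refine ⟨r, fun p hp => (hP p).1 ((hr p).1 hp).1, fun x y => ⟨?_, ?_⟩⟩
  · rintro ⟨p, hp, hxy⟩
    obtain ⟨h1, x', y', h2, h3⟩ := (hr p).1 hp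
    obtain ⟨x'', y'', hx'', hy'', h4⟩ := (hP p).1 h1
    obtain ⟨rfl, rfl⟩ := IsOP.inj hE hxy h2
    obtain ⟨rfl, rfl⟩ := IsOP.inj hE hxy h4
    exact ⟨hx'', hy'', h3⟩
  · rintro ⟨hx, hy, hxy⟩
    obtain ⟨p, hp⟩ := exists_op hE x y
    exact ⟨p, (hr p).2 ⟨(hP p).2 ⟨x, y, hx, hy, hp⟩, x, y, hp, hxy⟩, hp⟩

/-- **Definable functions.** -/
theorem exists_fun {ρ : N → N → Prop} (hρ : Df2 E ρ) (A : N) (h : ∀ x, E x A → ∃! y, ρ x y) :
    ∃ f, IsFun E f A ∧ ∀ x y, Val E f x y ↔ E x A ∧ ρ x y := by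
  obtain ⟨I, hI⟩ := img hE hρ A h
  obtain ⟨f, hf, hf'⟩ := exists_rel hE hρ A I
  have key : ∀ x y, Val E f x y ↔ E x A ∧ ρ x y := by
    intro x y
    rw [hf']
    constructor
    · rintro ⟨h1, -, h2⟩
      exact ⟨h1, h2⟩
    · rintro ⟨h1, h2⟩
      exact ⟨h1, (hI y).2 ⟨x, h1, h2⟩, h2⟩
  refine ⟨f, ⟨fun p hp => ?_, fun x hx => ?_, fun x y z hy hz => ?_⟩, key⟩
  · obtain ⟨x, y, hx, -, hp⟩ := hf p hp
    exact ⟨x, y, hx, hp⟩
  · obtain ⟨y, hy, -⟩ := h x hx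
    exact ⟨y, (key x y).2 ⟨hx, hy⟩⟩
  · obtain ⟨hx, hy⟩ := (key x y).1 hy
    obtain ⟨-, hz⟩ := (key x z).1 hz
    exact (h x hx).unique hy hz

/-- the identity function -/
theorem exists_id (X : N) : ∃ i, IsOnto E i X X ∧ IsInj E i ∧ ∀ x y, Val E i x y ↔ E x X ∧ x = y := by
  obtain ⟨i, hi, hi'⟩ := exists_fun hE (ρ := fun x y => x = y)
    ⟨.eq 0 1, vv X [], by intro x y; simp⟩ X fun x _ => ⟨x, rfl, fun y hy => hy.symm⟩
  refine ⟨i, ⟨hi, fun z c h => ?_, fun c hc => ⟨c, hc, (hi' c c).2 ⟨hc, rfl⟩⟩⟩, ?_, hi'⟩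
  · obtain ⟨h1, rfl⟩ := (hi' z c).1 h
    exact h1
  · intro z z' c h h'
    rw [((hi' z c).1 h).2, ((hi' z' c).1 h').2]

/-- the range of a function -/
theorem exists_ran {F Y : N} (hF : IsFun E F Y) : ∃ I, ∀ c, E c I ↔ ∃ z, E z Y ∧ Val E F z c := by
  refine img hE (ρ := fun z c => Val E F z c) ⟨fVal 2 0 1, vv F [F], by intro x y; simp⟩ Y ?_
  intro x hx
  obtain ⟨y, hy⟩ := hF.2.1 x hx
  exact ⟨y, hy, fun z hz => hF.2.2 x z y hz hy⟩

/-- the image of a set under a function -/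
theorem exists_im {F Y : N} (hF : IsFun E F Y) (V : N) : ∃ W, IsIm E F V W := by
  obtain ⟨I, hI⟩ := exists_ran hE hF
  obtain ⟨W, hW⟩ := sep hE (ρ := fun c => ∃ z, E z V ∧ Val E F z c)
    ⟨ex (an (.mem 0 2) (fVal 3 0 1)), vv F [V, F], by intro x; simp⟩ I
  refine ⟨W, fun c => ?_⟩
  rw [hW]
  refine and_iff_right_of_imp ?_
  rintro ⟨z, hz, hc⟩
  exact (hI c).2 ⟨z, IsFun.dom hE hF hc, hc⟩

/-- the image of a basic set under a function -/
theorem exists_BI {F Y : N} (hF : IsFun E F Y) (h b : N) : ∃ W, IsBI E Y h F b W := by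
  obtain ⟨I, hI⟩ := exists_ran hE hF
  obtain ⟨W, hW⟩ := sep hE (ρ := fun c => ∃ z, E z Y ∧ Val E h z b ∧ Val E F z c)
    ⟨ex (an (.mem 0 2) (an (fVal 3 0 4) (fVal 5 0 1))), vv F [Y, h, b, F], by intro x; simp⟩ I
  refine ⟨W, fun c => ?_⟩
  rw [hW]
  refine and_iff_right_of_imp ?_
  rintro ⟨z, hz, -, hc⟩
  exact (hI c).2 ⟨z, hz, hc⟩

/-- the set of all functions from `X` to `R` -/
theorem exists_funs (X R : N) :
    ∃ P, ∀ g, E g P ↔ IsFun E g X ∧ ∀ x y, Val E g x y → E y R := by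
  obtain ⟨P, hP⟩ := exists_prod hE X R
  obtain ⟨Q, hQ⟩ := hE.power P
  obtain ⟨S, hS⟩ := sep hE (ρ := fun g => IsFun E g X ∧ ∀ x y, Val E g x y → E y R)
    ⟨an (fFun 0 1) (.all (.all (.imp (fVal 2 1 0) (.mem 0 4)))), vv X [X, R],
      by intro x; simp⟩ Q
  refine ⟨S, fun g => ?_⟩
  rw [hS]
  refine and_iff_right_of_imp ?_
  rintro ⟨hg, hg'⟩
  rw [hQ]
  intro p hp
  obtain ⟨x, y, hx, hxy⟩ := hg.1 p hp
  exact (hP p).2 ⟨x, y, hx, hg' x y ⟨p, hp, hxy⟩, hxy⟩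

end

end CPI
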