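import Pool.Agent.CPI.BOmB

/-! # Compact and Lindelof coded spaces (package B05)

(problem MP_ba5606_gt, project CPI, part B)

Both proofs are the same. `F.top fun p => F.all.2 fun O => F.imp.2 fun q _ hs => F.imp.2 fun q' _ hc =>
F.loc fun q0 _ => ?_`: `O` is a name of a subset of `baN fv = sn (lv fv)` which covers. Apply `h` to
`O' b := mem (kn b) O ⊓ lv fv b` (a function `Iv W → RO P`; `inf_le_right`) and the condition `q0`. The
covering hypothesis of `TCpt` (`TLin`): let `q1 ≤ q0`, `q1 ∈ av a`. As `q1` forces `kn a ∈ Y` (`F.sn`)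
and `CCov Y h O`, it forces `∃ b, b ∈ O ∧ Val h (kn a) b`; by `F.esub` there are `r ≤ q1` and `b` such
that `r` forces `kn b ∈ O`, i.e. `r ∈ mem (kn b) O` (`F.mem`), and `Val h (kn a) (kn b)`, i.e.
`hit ev a b` (`val_h`, `F.const`), and `r ∈ lv fv b` (`F.baN`, as `O ⊆ baN fv` is forced).
We get `q1 ≤ q0` and a list `β` (a sequence `β`) such that `q1` forces `kn b ∈ O` for all `b ∈ β`. Let
`O'' := sn fun b => chi (b ∈ β)` (for `TLin`: `chi (b ∈ Set.range β)`). In all `NG G` with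
`up q1 ∈ G`: `O'' ⊆ O` by `F.bsn`; `IsFin O''` by `fin_list` (`IsCnt O''` by `br_cnt`,
`Set.countable_range`); `CCov Y h O''`: by `F.bsn`: `r ≤ q1`, `r ∈ av a`, then some `b ∈ β` with
`hit ev a b`, take `kn b`.

How to work with these statements: `F p S` (file `BTv.lean`) means that `S G` is true in all quotients
`NG G` with `RO.up p ∈ G.s`. A statement `S G` for an arbitrary `G` is proved by `F.top fun p => ?_`
(all statements about names have a truth value: class `TV`, found by instance search; state the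
statement as a function of `G`). Quantifiers: `F.all`, `F.ex`, `F.bsn` (`∀ x ∈ sn φ`: it is enough to
treat `x = kn a` below conditions `q ∈ φ a`), `F.esn`, `F.bck`, `F.eck` (`∀/∃ x ∈ ω`), `F.bsub`,
`F.esub` (names of subsets of `sn φ`), connectives: `F.imp`, `F.and`, `F.no`, `F.or`, `F.loc`
(densely), `F.mono`, `F.const`, `F.not_false`. Atomic statements about `kn a` are evaluated in every
`NG G` by `simp`: `kn_eq`, `kn_sn`, `kn_sn_chi`, `kn_baN`, `kn_RN`, `val_rn`, `val_l`, `val_h`,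
`ap_eN`, `ap_eN_iff`, `chi_mem`; forced forms: `F.sn`, `F.baN`, `F.valr`, `F.kn_eq`. To reorder the
premises of a statement (so that all quantifiers become bounded) prove the reordered statement in all
`NG G` (or `F p`) and apply it: `fun G hG x y hx hy => h G hG x hx y hy`. If `rw` does not find a
pattern, use `beta_reduce` or `show`. From `q ∈ φ a` and `RO.up q ∈ G.s` one gets `φ a ∈ G.s` by
`G.up hG (RO.up_le.2 h)`; `q ∈ chi c ↔ c` is `RO.mem_chi`, `q ∈ lv fv b` is `mem_lv`. -/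

set_option autoImplicit false

namespace CPI

open STP STP.BSet Cardinal

variable {P : Type} [PartialOrder P] {A W Z : Type} {av : A → RO P} {fv : W → RO P}
  {ev : A → W → ℝ} {zv : Z → RO P} {ev' : Z → A → ℝ}

/-- the forced covering hypothesis -/
private theorem cov_aux {O : BSet (RO P)} {q : P}
    (hs : F q fun G => Sub (EG G) (NG.mk G O) (NG.mk G (baN fv)))
    (hc : F q fun G => CCov (EG G) (NG.mk G (sn av)) (NG.mk G (hN ev)) (NG.mk G O)) :
    ∀ q1 ≤ q, ∀ a, q1 ∈ av a →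
      ∃ r ≤ q1, ∃ b, r ∈ mem (kn b) O ⊓ lv fv b ∧ hit ev a b := by
  intro q1 hq1 a ha
  have h1 : F q1 fun G => ∃ x, EG G x (NG.mk G O) ∧
      Val (EG G) (NG.mk G (hN ev)) (NG.mk G (kn a)) x := by
    intro G hG
    exact hc G (up_mem hq1 hG) _ (F.sn.2 ha G hG)
  have hs1 : F q1 fun G => Sub (EG G) (NG.mk G O) (NG.mk G (sn (lv fv))) := hs.mono hq1
  obtain ⟨r, hr, b, h2, h3⟩ := F.esub hs1 h1 q1 le_rfl
  refine ⟨r, hr, b, ⟨F.mem.1 h2, ?_⟩, ?_⟩
  · exact F.baN.1 fun G hG => hs G (up_mem (hr.trans hq1) hG) _ (h2 G hG)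
  · exact F.const.1 fun G hG => (val_h G).1 (h3 G hG)

theorem br_cpt (h : TCpt av fv ev) (G : Ult (RO P)) :
    CCpt (EG G) (NG.mk G (sn av)) (NG.mk G (baN fv)) (NG.mk G (hN ev)) := by
  refine F.top (S := fun G => CCpt (EG G) (NG.mk G (sn av)) (NG.mk G (baN fv))
    (NG.mk G (hN ev))) (fun p => ?_) G
  refine F.all.2 fun O => F.imp.2 fun q _ hs => F.imp.2 fun q' hq' hc => F.loc fun q0 hq0 => ?_
  have hs' := hs.mono (hq0.trans hq')
  have hc' := hc.mono hq0
  obtain ⟨q1, hq1, β, hβ, hcov⟩ := h (fun b => mem (kn b) O ⊓ lv fv b) q0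
    (fun b => inf_le_right) (cov_aux hs' hc')
  refine ⟨q1, hq1, F.ex.2 ⟨sn fun b => chi (b ∈ β), F.and.2 ⟨?_, F.and.2 ⟨?_, ?_⟩⟩⟩⟩
  · refine F.bsn.2 fun b r hr hb => ?_
    have hb' : b ∈ β := RO.mem_chi.1 hb
    exact (F.mem.2 (hβ b hb').1).mono hr
  · exact fun G _ => fin_list β G
  · refine F.bsn.2 fun a r hr ha => ?_
    obtain ⟨b, hb, h1⟩ := hcov r hr a ha
    exact fun G hG => ⟨NG.mk G (kn b), (kn_sn_chi G).2 hb, (val_h G).2 h1⟩

theorem br_lin (h : TLin av fv ev) (G : Ult (RO P)) :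
    CLin (EG G) (NG.mk G (sn av)) (NG.mk G (baN fv)) (NG.mk G (hN ev)) := by
  refine F.top (S := fun G => CLin (EG G) (NG.mk G (sn av)) (NG.mk G (baN fv))
    (NG.mk G (hN ev))) (fun p => ?_) G
  refine F.all.2 fun O => F.imp.2 fun q _ hs => F.imp.2 fun q' hq' hc => F.loc fun q0 hq0 => ?_
  have hs' := hs.mono (hq0.trans hq')
  have hc' := hc.mono hq0
  obtain ⟨q1, hq1, β, hβ, hcov⟩ := h (fun b => mem (kn b) O ⊓ lv fv b) q0
    (fun b => inf_le_right) (cov_aux hs' hc')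
  refine ⟨q1, hq1, F.ex.2 ⟨sn fun b => chi (b ∈ Set.range β), F.and.2 ⟨?_, F.and.2 ⟨?_, ?_⟩⟩⟩⟩
  · refine F.bsn.2 fun b r hr hb => ?_
    obtain ⟨k, rfl⟩ := RO.mem_chi.1 hb
    exact (F.mem.2 (hβ k).1).mono hr
  · exact fun G _ => br_cnt (Set.countable_range β) G
  · refine F.bsn.2 fun a r hr ha => ?_
    obtain ⟨k, h1⟩ := hcov r hr a ha
    exact fun G hG => ⟨NG.mk G (kn (β k)), (kn_sn_chi G).2 ⟨k, rfl⟩, (val_h G).2 h1⟩

end CPI
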