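import Pool.Agent.CPI.BNam

/-! # Evaluation, injectivity (package B07)

(problem MP_ba5606_gt, project CPI, part B)

* `br_ev`: both clauses reordered as `∀ z ∈ Z, ∀ y ∈ Y, ..`; `F.top`, `F.bsn` twice: ground `z`, `a`.
  First clause: `t = kn (ev' z a)` (`kn_RN`, `ap_eN`). Second clause: `ap_eN_iff` for both values.
* `br_inj`: reordered as `∀ z ∈ Z, ∀ z' ∈ Z, (∀ y t, ..) → z = z'`; `F.bsn` twice: ground `z`, `z'` and
  a condition `q` with `q ∈ zv z`, `q ∈ zv z'`; `F.imp`: let `q' ≤ q` force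
  `∀ y t, y ∈ Y → Ap e (kn z) y t → Ap e (kn z') y t`. If `z = z'` we are done (`F.kn_eq`). Otherwise
  `h q' z z'` gives `r ≤ q'` and `a` with `r ∈ av a` and `ev' z a ≠ ev' z' a`. In all `NG G` with
  `up r ∈ G` the hypothesis for `y = kn a`, `t = kn (ev' z a)` gives `ev' z' a = ev' z a` (`ap_eN`), so
  `F r (False)`, a contradiction (`F.not_false`).

How to work with these statements: `F p S` (file `BTv.lean`) means that `S G` is true in all quotients
`NG G` with `RO.up p ∈ G.s`. A statement `S G` for an arbitrary `G` is proved by `F.top fun p => ?_`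
(all statements about names have a truth value: class `TV`, found by instance search; state the
statement as a function of `G`). Quantifiers: `F.all`, `F.ex`, `F.bsn` (`∀ x ∈ sn φ`: it is enough to
treat `x = kn a` below conditions `q ∈ φ a`), `F.esn`, `F.bck`, `F.eck` (`∀/∃ x ∈ ω`), `F.bsub`,
`F.esub` (names of subsets of `sn φ`), connectives: `F.imp`, `F.and`, `F.no`, `F.or`, `F.loc`
(densely), `F.mono`, `F.const`, `F.not_false`. Atomic statements about `kn a` are evaluated in every
`NG G` by `simp`: `kn_eq`, `kn_sn`, `kn_sn_chi`, `kn_baN`, `kn_RN`, `val_rn`, `val_l`, `val_h`,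
`ap_eN`, `ap_eN_iff`, `chi_mem`; forced forms: `F.sn`, `F.baN`, `F.valr`, `F.kn_eq`. To reorder the
premises of a statement (so that all quantifiers become bounded) prove the reordered statement in all
`NG G` (or `F p`) and apply it: `fun G hG x y hx hy => h G hG x hx y hy`. If `rw` does not find a
pattern, use `beta_reduce` or `show`. From `q ∈ φ a` and `RO.up q ∈ G.s` one gets `φ a ∈ G.s` by
`G.up hG (RO.up_le.2 h)`; `q ∈ chi c ↔ c` is `RO.mem_chi`, `q ∈ lv fv b` is `mem_lv`. -/

set_option autoImplicit false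

namespace CPI

open STP STP.BSet Cardinal

variable {P : Type} [PartialOrder P] {A W Z : Type} {av : A → RO P} {fv : W → RO P}
  {ev : A → W → ℝ} {zv : Z → RO P} {ev' : Z → A → ℝ}

theorem br_ev (av : A → RO P) (zv : Z → RO P) (ev' : Z → A → ℝ) (G : Ult (RO P)) :
    CEv (EG G) (NG.mk G RN) (NG.mk G (sn av)) (NG.mk G (sn zv)) (NG.mk G (eN ev')) := by
  constructor
  · have h : ∀ G : Ult (RO P), ∀ z, EG G z (NG.mk G (sn zv)) → ∀ y, EG G y (NG.mk G (sn av)) →
        ∃ t, EG G t (NG.mk G RN) ∧ Ap (EG G) (NG.mk G (eN ev')) z y t := by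
      refine F.top fun p => F.bsn.2 fun z q _ _ => F.bsn.2 fun a r _ _ => ?_
      intro G _
      exact ⟨NG.mk G (kn (ev' z a)), kn_RN G _, (ap_eN G).2 rfl⟩
    exact fun z y hz hy => h G z hz y hy
  · have h : ∀ G : Ult (RO P), ∀ z, EG G z (NG.mk G (sn zv)) → ∀ y, EG G y (NG.mk G (sn av)) →
        ∀ t t', Ap (EG G) (NG.mk G (eN ev')) z y t → Ap (EG G) (NG.mk G (eN ev')) z y t' →
          t = t' := by
      refine F.top fun p => F.bsn.2 fun z q _ _ => F.bsn.2 fun a r _ _ => ?_
      intro G _ t t' h1 h2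
      exact ((ap_eN_iff G).1 h1).trans ((ap_eN_iff G).1 h2).symm
    exact fun z y t t' hz hy => h G z hz y hy t t'

theorem br_inj (h : TInj av zv ev') (G : Ult (RO P)) :
    CInj (EG G) (NG.mk G (sn av)) (NG.mk G (sn zv)) (NG.mk G (eN ev')) := by
  have key : ∀ G : Ult (RO P), ∀ z, EG G z (NG.mk G (sn zv)) →
      ∀ z', EG G z' (NG.mk G (sn zv)) →
        ((∀ y t, EG G y (NG.mk G (sn av)) → Ap (EG G) (NG.mk G (eN ev')) z y t →
          Ap (EG G) (NG.mk G (eN ev')) z' y t) → z = z') := by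
    refine F.top fun p => F.bsn.2 fun z q _ hz => F.bsn.2 fun z' r hr hz' => ?_
    refine F.imp.2 fun q' hq' h1 => ?_
    by_cases hzz : z = z'
    · exact F.kn_eq.2 hzz
    · exfalso
      obtain ⟨s, hs, a, ha, hne⟩ := h q' z z' ((zv z).down (hq'.trans hr) hz)
        ((zv z').down hq' hz') hzz
      refine F.not_false (p := s) fun G hG => hne ?_
      have h2 := h1 G (up_mem hs hG) (NG.mk G (kn a)) (NG.mk G (kn (ev' z a)))
        ((kn_sn G).2 (G.up hG (RO.up_le.2 ha))) ((ap_eN G).2 rfl)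
      exact ((ap_eN G).1 h2).symm
  exact fun z z' hz hz' => key G z hz z' hz'

end CPI
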