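import Pool.Agent.CPI.Coded
import Pool.Agent.STP.FLang

/-! # Formulas for the notions of `Lang.lean` and `Coded.lean`

(problem MP_ba5606_gt, project CPI; no sorry in this file)

For each predicate `R` a formula `fR i j ...` whose free variables are `i, j, ...`, and
`sat E (fR i j ...) v ↔ R E (v i) (v j) ...`. -/

universe v

namespace CPI

open STP STP.Fml

/-- `x_i` is countable -/
def fCnt (i : ℕ) : Fml :=
  ex (ex (an (fOm 1) (an (fFun 0 1) (.all (.imp (.mem 0 (i + 3))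
    (ex (an (.mem 0 3) (fVal 2 0 1))))))))

/-- `x_i` is finite -/
def fFin (i : ℕ) : Fml := ex (an (fOm 0) (fSm (i + 1) 0))

/-- `x_t` is a topology on `x_X` -/
def fTop (X t : ℕ) : Fml :=
  an (.all (.imp (.mem 0 (t + 1)) (fSub 0 (X + 1)))) (an (.mem X t)
    (an (.all (.all (.imp (fSub 1 (t + 2)) (.imp (fUn 0 1) (.mem 0 (t + 2))))))
      (.all (.all (.all (.imp (.mem 2 (t + 3)) (.imp (.mem 1 (t + 3))
        (.imp (fInt 0 2 1) (.mem 0 (t + 3))))))))))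

/-- the members of `x_S` cover `x_X` -/
def fCov (X S : ℕ) : Fml :=
  .all (.imp (.mem 0 (X + 1)) (ex (an (.mem 0 (S + 2)) (.mem 1 0))))

/-- `(x_R, x_l)` is the real line -/
def fRL (R l : ℕ) : Fml :=
  an (ex (.mem 0 (R + 1)))
  (an (.all (.all (.imp (fVal (l + 2) 1 0) (an (.mem 1 (R + 2)) (.mem 0 (R + 2))))))
  (an (.all (no (fVal (l + 1) 0 0)))
  (an (.all (.all (.all (.imp (fVal (l + 3) 2 1) (.imp (fVal (l + 3) 1 0)
    (fVal (l + 3) 2 0))))))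
  (an (.all (.all (.imp (.mem 1 (R + 2)) (.imp (.mem 0 (R + 2))
    (or (fVal (l + 2) 1 0) (or (.eq 1 0) (fVal (l + 2) 0 1)))))))
  (an (.all (.imp (.mem 0 (R + 1)) (an (ex (fVal (l + 2) 0 1)) (ex (fVal (l + 2) 1 0)))))
  (an (ex (an (fSub 0 (R + 1)) (an (fCnt 0) (.all (.all (.imp (fVal (l + 3) 1 0)
    (ex (an (.mem 0 3) (an (fVal (l + 4) 2 0) (fVal (l + 4) 0 1))))))))))
  (.all (.imp (fSub 0 (R + 1)) (.imp (ex (.mem 0 1))
    (.imp (ex (an (.mem 0 (R + 2)) (.all (.imp (.mem 0 2) (no (fVal (l + 3) 1 0))))))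
      (ex (an (.mem 0 (R + 2)) (an (.all (.imp (.mem 0 2) (no (fVal (l + 3) 1 0))))
        (.all (.imp (.mem 0 (R + 3)) (.imp (.all (.imp (.mem 0 3) (no (fVal (l + 4) 1 0))))
          (no (fVal (l + 3) 0 1))))))))))))))))))

/-- `x_g` is continuous on the space `(x_X, x_t)` -/
def fCts (R l X t g : ℕ) : Fml :=
  an (fFun g X) (an (.all (.all (.imp (fVal (g + 2) 1 0) (.mem 0 (R + 2)))))
    (.all (.imp (.mem 0 (R + 1))
      (an (ex (an (.mem 0 (t + 2)) (.all (iff (.mem 0 1)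
          (ex (an (fVal (g + 4) 1 0) (fVal (l + 4) 0 3)))))))
        (ex (an (.mem 0 (t + 2)) (.all (iff (.mem 0 1)
          (ex (an (fVal (g + 4) 1 0) (fVal (l + 4) 3 0)))))))))))

/-- `x_s` contains the subbasic sets of pointwise convergence -/
def fPw (R l X C s : ℕ) : Fml :=
  .all (.all (.all (.imp (.mem 2 (X + 3)) (.imp (.mem 1 (R + 3))
    (an (.imp (.all (iff (.mem 0 1) (an (.mem 0 (C + 4))
        (ex (an (fVal 1 4 0) (fVal (l + 5) 0 3)))))) (.mem 0 (s + 3)))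
      (.imp (.all (iff (.mem 0 1) (an (.mem 0 (C + 4))
        (ex (an (fVal 1 4 0) (fVal (l + 5) 3 0)))))) (.mem 0 (s + 3))))))))

/-- `(x_Y, x_B, x_h)` is a coded space -/
def fCSp (Y B h : ℕ) : Fml :=
  an (.all (.imp (.mem 0 (Y + 1)) (ex (an (.mem 0 (B + 2)) (fVal (h + 2) 1 0)))))
    (.all (.all (.all (.imp (.mem 2 (Y + 3)) (.imp (.mem 1 (B + 3)) (.imp (.mem 0 (B + 3))
      (.imp (fVal (h + 3) 2 1) (.imp (fVal (h + 3) 2 0)
        (ex (an (.mem 0 (B + 4)) (an (fVal (h + 4) 3 0)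
          (.all (.imp (.mem 0 (Y + 5)) (.imp (fVal (h + 5) 0 1)
            (an (fVal (h + 5) 0 3) (fVal (h + 5) 0 2))))))))))))))))

/-- Hausdorff -/
def fCHd (Y B h : ℕ) : Fml :=
  .all (.all (.imp (.mem 1 (Y + 2)) (.imp (.mem 0 (Y + 2)) (.imp (no (.eq 1 0))
    (ex (ex (an (.mem 1 (B + 4)) (an (.mem 0 (B + 4)) (an (fVal (h + 4) 3 1)
      (an (fVal (h + 4) 2 0) (.all (.imp (.mem 0 (Y + 5))
        (no (an (fVal (h + 5) 0 2) (fVal (h + 5) 0 1)))))))))))))))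

/-- the basic sets with codes in `x_O` cover `x_Y` -/
def fCCov (Y h O : ℕ) : Fml :=
  .all (.imp (.mem 0 (Y + 1)) (ex (an (.mem 0 (O + 2)) (fVal (h + 2) 1 0))))

/-- Lindelof -/
def fCLin (Y B h : ℕ) : Fml :=
  .all (.imp (fSub 0 (B + 1)) (.imp (fCCov (Y + 1) (h + 1) 0)
    (ex (an (fSub 0 1) (an (fCnt 0) (fCCov (Y + 2) (h + 2) 0))))))

/-- compact -/
def fCCpt (Y B h : ℕ) : Fml :=
  .all (.imp (fSub 0 (B + 1)) (.imp (fCCov (Y + 1) (h + 1) 0)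
    (ex (an (fSub 0 1) (an (fFin 0) (fCCov (Y + 2) (h + 2) 0))))))

/-- `x_g` is continuous on the coded space -/
def fCCts (R l Y B h g : ℕ) : Fml :=
  an (fFun g Y) (an (.all (.all (.imp (fVal (g + 2) 1 0) (.mem 0 (R + 2)))))
    (.all (.all (.all (.imp (.mem 2 (Y + 3)) (.imp (fVal (g + 3) 2 1) (.imp (.mem 0 (R + 3))
      (an (.imp (fVal (l + 3) 1 0) (ex (an (.mem 0 (B + 4)) (an (fVal (h + 4) 3 0)
          (.all (.all (.imp (.mem 1 (Y + 6)) (.imp (fVal (h + 6) 1 2)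
            (.imp (fVal (g + 6) 1 0) (fVal (l + 6) 0 3))))))))))
        (.imp (fVal (l + 3) 0 1) (ex (an (.mem 0 (B + 4)) (an (fVal (h + 4) 3 0)
          (.all (.all (.imp (.mem 1 (Y + 6)) (.imp (fVal (h + 6) 1 2)
            (.imp (fVal (g + 6) 1 0) (fVal (l + 6) 3 0))))))))))))))))))

/-- `x_e(x_z, x_y) = x_t` -/
def fAp (e z y t : ℕ) : Fml := ex (an (fOP 0 (z + 1) (y + 1)) (fVal (e + 1) 0 (t + 1)))

/-- `x_e` is a function from `x_Z × x_Y` to `x_R` -/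
def fCEv (R Y Z e : ℕ) : Fml :=
  an (.all (.all (.imp (.mem 1 (Z + 2)) (.imp (.mem 0 (Y + 2))
      (ex (an (.mem 0 (R + 3)) (fAp (e + 3) 2 1 0)))))))
    (.all (.all (.all (.all (.imp (.mem 3 (Z + 4)) (.imp (.mem 2 (Y + 4))
      (.imp (fAp (e + 4) 3 2 1) (.imp (fAp (e + 4) 3 2 0) (.eq 1 0)))))))))

/-- the sections are continuous -/
def fCSec (R l Y B h Z e : ℕ) : Fml :=
  .all (.all (.all (.all (.imp (.mem 3 (Z + 4)) (.imp (.mem 2 (Y + 4))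
    (.imp (fAp (e + 4) 3 2 1) (.imp (.mem 0 (R + 4))
      (an (.imp (fVal (l + 4) 1 0) (ex (an (.mem 0 (B + 5)) (an (fVal (h + 5) 3 0)
          (.all (.all (.imp (.mem 1 (Y + 7)) (.imp (fVal (h + 7) 1 2)
            (.imp (fAp (e + 7) 6 1 0) (fVal (l + 7) 0 3))))))))))
        (.imp (fVal (l + 4) 0 1) (ex (an (.mem 0 (B + 5)) (an (fVal (h + 5) 3 0)
          (.all (.all (.imp (.mem 1 (Y + 7)) (.imp (fVal (h + 7) 1 2)
            (.imp (fAp (e + 7) 6 1 0) (fVal (l + 7) 3 0))))))))))))))))))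

/-- every continuous function is a section -/
def fCSur (R l Y B h Z e : ℕ) : Fml :=
  .all (.imp (fCCts (R + 1) (l + 1) (Y + 1) (B + 1) (h + 1) 0)
    (ex (an (.mem 0 (Z + 2)) (.all (.all (.imp (.mem 1 (Y + 4)) (.imp (fVal 3 1 0)
      (fAp (e + 4) 2 1 0))))))))

/-- the subbasic sets are open -/
def fCSb (R l Y Z B' h' e : ℕ) : Fml :=
  .all (.all (.all (.all (.imp (.mem 3 (Z + 4)) (.imp (.mem 2 (Y + 4))
    (.imp (fAp (e + 4) 3 2 1) (.imp (.mem 0 (R + 4))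
      (an (.imp (fVal (l + 4) 1 0) (ex (an (.mem 0 (B' + 5)) (an (fVal (h' + 5) 4 0)
          (.all (.all (.imp (.mem 1 (Z + 7)) (.imp (fVal (h' + 7) 1 2)
            (.imp (fAp (e + 7) 1 5 0) (fVal (l + 7) 0 3))))))))))
        (.imp (fVal (l + 4) 0 1) (ex (an (.mem 0 (B' + 5)) (an (fVal (h' + 5) 4 0)
          (.all (.all (.imp (.mem 1 (Z + 7)) (.imp (fVal (h' + 7) 1 2)
            (.imp (fAp (e + 7) 1 5 0) (fVal (l + 7) 3 0))))))))))))))))))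

/-- `x_s` contains the subbasic sets -/
def fCPw (R l Y Z e s : ℕ) : Fml :=
  .all (.all (.all (.imp (.mem 2 (Y + 3)) (.imp (.mem 1 (R + 3))
    (an (.imp (.all (iff (.mem 0 1) (an (.mem 0 (Z + 4))
        (ex (an (fAp (e + 5) 1 4 0) (fVal (l + 5) 0 3)))))) (.mem 0 (s + 3)))
      (.imp (.all (iff (.mem 0 1) (an (.mem 0 (Z + 4))
        (ex (an (fAp (e + 5) 1 4 0) (fVal (l + 5) 3 0)))))) (.mem 0 (s + 3))))))))

/-- the basic sets are open in every topology containing the subbasic sets -/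
def fCTop (R l Y Z B' h' e : ℕ) : Fml :=
  .all (.imp (fTop (Z + 1) 0) (.imp (fCPw (R + 1) (l + 1) (Y + 1) (Z + 1) (e + 1) 0)
    (.all (.all (.imp (.mem 1 (B' + 3)) (.imp (.all (iff (.mem 0 1) (an (.mem 0 (Z + 4))
      (fVal (h' + 4) 0 2)))) (.mem 0 2)))))))

/-- different elements define different functions -/
def fCInj (Y Z e : ℕ) : Fml :=
  .all (.all (.imp (.mem 1 (Z + 2)) (.imp (.mem 0 (Z + 2))
    (.imp (.all (.all (.imp (.mem 1 (Y + 4)) (.imp (fAp (e + 4) 3 1 0)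
      (fAp (e + 4) 2 1 0))))) (.eq 1 0)))))

/-- `x_A` is dense -/
def fCDn (Y B h A : ℕ) : Fml :=
  an (fSub A Y) (.all (.all (.imp (.mem 1 (Y + 2)) (.imp (.mem 0 (B + 2))
    (.imp (fVal (h + 2) 1 0) (ex (an (.mem 0 (A + 3)) (fVal (h + 3) 0 1))))))))

/-- countable network -/
def fCNet (Y B h : ℕ) : Fml :=
  ex (ex (an (fOm 0) (.all (.all (.imp (.mem 1 (Y + 4)) (.imp (.mem 0 (B + 4))
    (.imp (fVal (h + 4) 1 0) (ex (an (.mem 0 3) (an (fVal 4 0 2)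
      (.all (.imp (.mem 0 (Y + 6)) (.imp (fVal 5 1 0) (fVal (h + 6) 0 2))))))))))))))

section

variable {N : Type v} {E : N → N → Prop} {v : ℕ → N}

@[simp] theorem sat_fCnt {i : ℕ} : sat E (fCnt i) v ↔ IsCnt E (v i) := by
  simp [fCnt, IsCnt]

@[simp] theorem sat_fFin {i : ℕ} : sat E (fFin i) v ↔ IsFin E (v i) := by
  simp [fFin, IsFin]

@[simp] theorem sat_fTop {X t : ℕ} : sat E (fTop X t) v ↔ IsTop E (v X) (v t) := by
  simp [fTop, IsTop]

@[simp] theorem sat_fCov {X S : ℕ} : sat E (fCov X S) v ↔ IsCov E (v X) (v S) := by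
  simp [fCov, IsCov]

@[simp] theorem sat_fRL {R l : ℕ} : sat E (fRL R l) v ↔ IsRL E (v R) (v l) := by
  simp [fRL, IsRL]

@[simp] theorem sat_fCts {R l X t g : ℕ} :
    sat E (fCts R l X t g) v ↔ IsCts E (v R) (v l) (v X) (v t) (v g) := by
  simp [fCts, IsCts]

@[simp] theorem sat_fPw {R l X C s : ℕ} :
    sat E (fPw R l X C s) v ↔ IsPw E (v R) (v l) (v X) (v C) (v s) := by
  simp [fPw, IsPw]

@[simp] theorem sat_fCSp {Y B h : ℕ} : sat E (fCSp Y B h) v ↔ CSp E (v Y) (v B) (v h) := by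
  simp [fCSp, CSp]

@[simp] theorem sat_fCHd {Y B h : ℕ} : sat E (fCHd Y B h) v ↔ CHd E (v Y) (v B) (v h) := by
  simp [fCHd, CHd]

@[simp] theorem sat_fCCov {Y h O : ℕ} :
    sat E (fCCov Y h O) v ↔ CCov E (v Y) (v h) (v O) := by
  simp [fCCov, CCov]

@[simp] theorem sat_fCLin {Y B h : ℕ} :
    sat E (fCLin Y B h) v ↔ CLin E (v Y) (v B) (v h) := by
  simp [fCLin, CLin]

@[simp] theorem sat_fCCpt {Y B h : ℕ} :
    sat E (fCCpt Y B h) v ↔ CCpt E (v Y) (v B) (v h) := by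
  simp [fCCpt, CCpt]

@[simp] theorem sat_fCCts {R l Y B h g : ℕ} :
    sat E (fCCts R l Y B h g) v ↔ CCts E (v R) (v l) (v Y) (v B) (v h) (v g) := by
  simp [fCCts, CCts]

@[simp] theorem sat_fAp {e z y t : ℕ} :
    sat E (fAp e z y t) v ↔ Ap E (v e) (v z) (v y) (v t) := by
  simp [fAp, Ap]

@[simp] theorem sat_fCEv {R Y Z e : ℕ} :
    sat E (fCEv R Y Z e) v ↔ CEv E (v R) (v Y) (v Z) (v e) := by
  simp [fCEv, CEv]

@[simp] theorem sat_fCSec {R l Y B h Z e : ℕ} : sat E (fCSec R l Y B h Z e) v ↔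
    CSec E (v R) (v l) (v Y) (v B) (v h) (v Z) (v e) := by
  simp [fCSec, CSec]

@[simp] theorem sat_fCSur {R l Y B h Z e : ℕ} : sat E (fCSur R l Y B h Z e) v ↔
    CSur E (v R) (v l) (v Y) (v B) (v h) (v Z) (v e) := by
  simp [fCSur, CSur]

@[simp] theorem sat_fCSb {R l Y Z B' h' e : ℕ} : sat E (fCSb R l Y Z B' h' e) v ↔
    CSb E (v R) (v l) (v Y) (v Z) (v B') (v h') (v e) := by
  simp [fCSb, CSb]

@[simp] theorem sat_fCPw {R l Y Z e s : ℕ} : sat E (fCPw R l Y Z e s) v ↔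
    CPw E (v R) (v l) (v Y) (v Z) (v e) (v s) := by
  simp [fCPw, CPw]

@[simp] theorem sat_fCTop {R l Y Z B' h' e : ℕ} : sat E (fCTop R l Y Z B' h' e) v ↔
    CTop E (v R) (v l) (v Y) (v Z) (v B') (v h') (v e) := by
  simp [fCTop, CTop]

@[simp] theorem sat_fCInj {Y Z e : ℕ} :
    sat E (fCInj Y Z e) v ↔ CInj E (v Y) (v Z) (v e) := by
  simp [fCInj, CInj]

@[simp] theorem sat_fCDn {Y B h A : ℕ} :
    sat E (fCDn Y B h A) v ↔ CDn E (v Y) (v B) (v h) (v A) := by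
  simp [fCDn, CDn]

@[simp] theorem sat_fCNet {Y B h : ℕ} :
    sat E (fCNet Y B h) v ↔ CNet E (v Y) (v B) (v h) := by
  simp [fCNet, CNet]

end

end CPI
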