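import Pool.Agent.CPI.Typed
import Pool.Agent.CPI.FLang
import Pool.Agent.STP.YSeq
import Pool.Agent.STP.YOrd

/-! # Names of ground-coded sets and relations (definitions)

(problem MP_ba5606_gt, project CPI; no sorry in this file)

Every element of a type `A : Type` is coded by an ordinal (`cd`, injective on each type), `kn a` is the canonical
name of its code.
* `sn φ`: the set with the elements `kn a` (truth value `φ a`).
* `rn ρ`: the set of pairs `(kn a, kn c)` (truth value `ρ a c`).
* `en ρ`: the set of `((kn a, kn c), kn d)` (truth value `ρ a c d`).
* `RN`, `lN`: the real line. `baN fv`, `hN ev`: codes and membership relation of a typed space. `eN ev'`: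
  evaluation. -/

namespace CPI

open STP STP.BSet

/-- the code of an element: an ordinal -/
noncomputable def cd {A : Type} (a : A) : Ordinal.{0} := Ordinal.typein (WellOrderingRel (α := A)) a

theorem cd_inj {A : Type} {a b : A} : cd a = cd b ↔ a = b := by
  unfold cd
  exact Ordinal.typein_inj _

section

variable {P : Type} [PartialOrder P] {A C D F Z : Type}

/-- the canonical name of (the code of) an element -/
noncomputable def kn (a : A) : BSet (RO P) := ck (cd a)

/-- the name of the subset of `A` with the truth values `φ` -/
noncomputable def sn (φ : A → RO P) : BSet (RO P) := BSet.mk A (fun a => kn a) φ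

/-- the name of the relation with the truth values `ρ` -/
noncomputable def rn (ρ : A → C → RO P) : BSet (RO P) :=
  BSet.mk (A × C) (fun z => opN (kn z.1) (kn z.2)) fun z => ρ z.1 z.2

/-- the name of the set of `((a, c), d)` with the truth values `ρ` -/
noncomputable def en (ρ : A → C → D → RO P) : BSet (RO P) :=
  BSet.mk (A × C × D) (fun z => opN (opN (kn z.1) (kn z.2.1)) (kn z.2.2))
    fun z => ρ z.1 z.2.1 z.2.2

/-- the name of the set of real numbers -/
noncomputable def RN : BSet (RO P) := sn fun _ : ℝ => ⊤

/-- the name of the order of the real numbers -/
noncomputable def lN : BSet (RO P) := rn fun x y : ℝ => chi (x < y)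

/-- the name of the set of codes of basic sets -/
noncomputable def baN (fv : F → RO P) : BSet (RO P) := sn (lv fv)

/-- the name of the relation: the point is in the basic set -/
noncomputable def hN (ev : A → F → ℝ) : BSet (RO P) := rn fun a b => chi (hit ev a b)

/-- the name of the evaluation function -/
noncomputable def eN (ev' : Z → A → ℝ) : BSet (RO P) := en fun z a t => chi (ev' z a = t)

end

end CPI
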