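import Pool.Agent.CPI.BTv
import Pool.Agent.CPI.Nam

/-! # Forcing rules for the names `kn`, `sn`, `rn`, `en`

(problem MP_ba5606_gt, project CPI, part B; no sorry in this file)

* in `NG G`: `kn_eq`, `kn_sn`, `kn_RN`, `val_rn`, `val_l`, `val_h`, `ap_en`, `ap_eN` (atomic statements
  about `kn a`).
* `F.sn`, `F.rn`, `F.apn`: the forced atomic statements.
* `F.elim_sn`, `F.elim_rn`, `F.elim_en`, `F.elim_ck`: to prove `F p S` one may assume that a name of an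
  element of `sn φ` (a pair in `rn ρ`, a value of `en ρ`, an element of `ck ω`) is some `kn a`.
* `F.bsn`, `F.esn`, `F.bck`, `F.eck`: bounded quantifiers over `sn φ`, `ck ω`. -/

namespace CPI

open STP STP.BSet

section

variable {P : Type} [PartialOrder P] {A B C D : Type}

theorem mem_sn (x : BSet (RO P)) (φ : A → RO P) : mem x (sn φ) = ⨆ a, φ a ⊓ eq x (kn a) := rfl

theorem mem_rn (x : BSet (RO P)) (ρ : A → C → RO P) :
    mem x (rn ρ) = ⨆ z : A × C, ρ z.1 z.2 ⊓ eq x (opN (kn z.1) (kn z.2)) := rfl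

theorem mem_en (x : BSet (RO P)) (ρ : A → C → D → RO P) :
    mem x (en ρ) = ⨆ z : A × C × D, ρ z.1 z.2.1 z.2.2 ⊓
      eq x (opN (opN (kn z.1) (kn z.2.1)) (kn z.2.2)) := rfl

@[simp] theorem kn_eq (G : Ult (RO P)) {a b : A} : NG.mk G (kn a) = NG.mk G (kn b) ↔ a = b := by
  unfold kn
  rw [ck_eq_iff, cd_inj]

theorem F.kn_eq {p : P} {a b : A} : F p (fun G => NG.mk G (kn a) = NG.mk G (kn b)) ↔ a = b := by
  simp only [CPI.kn_eq, F.const]

theorem eq_opN {G : Ult (RO P)} {x y x' y' : BSet (RO P)}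
    (h : NG.mk G (opN x y) = NG.mk G (opN x' y')) :
    NG.mk G x = NG.mk G x' ∧ NG.mk G y = NG.mk G y' := by
  have h1 := opN_op G x y
  rw [h] at h1
  exact IsOP.inj (NG_zfc G) h1 (opN_op G x' y')

/-- an ordered pair with the names `x`, `y` as components is `opN x y` -/
theorem isOP_iff {G : Ult (RO P)} {z : NG G} {x y : BSet (RO P)} :
    IsOP (EG G) z (NG.mk G x) (NG.mk G y) ↔ z = NG.mk G (opN x y) := by
  constructor
  · intro h
    exact IsOP.uniq (NG_zfc G) h (opN_op G x y)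
  · rintro rfl
    exact opN_op G x y

theorem val_iff {G : Ult (RO P)} {f x y : BSet (RO P)} :
    Val (EG G) (NG.mk G f) (NG.mk G x) (NG.mk G y) ↔
      EG G (NG.mk G (opN x y)) (NG.mk G f) := by
  unfold Val
  simp only [isOP_iff, exists_eq_right]

theorem ap_iff {G : Ult (RO P)} {f x y z : BSet (RO P)} :
    Ap (EG G) (NG.mk G f) (NG.mk G x) (NG.mk G y) (NG.mk G z) ↔
      EG G (NG.mk G (opN (opN x y) z)) (NG.mk G f) := by
  unfold Ap
  constructor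
  · rintro ⟨p, hp, h⟩
    rw [isOP_iff.1 hp] at h
    exact val_iff.1 h
  · intro h
    exact ⟨_, opN_op G x y, val_iff.2 h⟩

/-! ## The forced atomic statements -/

theorem F.sn {p : P} {φ : A → RO P} {a : A} :
    F p (fun G => EG G (NG.mk G (kn a)) (NG.mk G (CPI.sn φ))) ↔ p ∈ φ a := by
  rw [F.mem, mem_sn, RO.mem_iSup]
  constructor
  · intro h
    refine (φ a).locally fun q hq => ?_
    obtain ⟨r, hr, b, h1, h2⟩ := h q hq
    have h3 : a = b := F.kn_eq.1 (F.eq.2 h2)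
    subst h3
    exact ⟨r, hr, h1⟩
  · intro h q hq
    refine ⟨q, le_rfl, a, (φ a).down hq h, ?_⟩
    rw [eq_refl]
    exact RO.mem_top

theorem F.valr {p : P} {ρ : A → C → RO P} {a : A} {c : C} :
    F p (fun G => Val (EG G) (NG.mk G (CPI.rn ρ)) (NG.mk G (kn a)) (NG.mk G (kn c))) ↔
      p ∈ ρ a c := by
  simp only [val_iff]
  rw [F.mem, mem_rn, RO.mem_iSup]
  constructor
  · intro h
    refine (ρ a c).locally fun q hq => ?_
    obtain ⟨r, hr, b, h1, h2⟩ := h q hq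
    have h3 := F.eq.2 h2
    have h4 : a = b.1 := F.kn_eq.1 fun G hG => (eq_opN (h3 G hG)).1
    have h5 : c = b.2 := F.kn_eq.1 fun G hG => (eq_opN (h3 G hG)).2
    rw [h4, h5]
    exact ⟨r, hr, h1⟩
  · intro h q hq
    refine ⟨q, le_rfl, (a, c), (ρ a c).down hq h, ?_⟩
    rw [eq_refl]
    exact RO.mem_top

theorem F.apn {p : P} {ρ : A → C → D → RO P} {a : A} {c : C} {d : D} :
    F p (fun G => Ap (EG G) (NG.mk G (CPI.en ρ)) (NG.mk G (kn a)) (NG.mk G (kn c))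
      (NG.mk G (kn d))) ↔ p ∈ ρ a c d := by
  simp only [ap_iff]
  rw [F.mem, mem_en, RO.mem_iSup]
  constructor
  · intro h
    refine (ρ a c d).locally fun q hq => ?_
    obtain ⟨r, hr, b, h1, h2⟩ := h q hq
    have h3 := F.eq.2 h2
    have h4 : a = b.1 := F.kn_eq.1 fun G hG => (eq_opN (eq_opN (h3 G hG)).1).1
    have h5 : c = b.2.1 := F.kn_eq.1 fun G hG => (eq_opN (eq_opN (h3 G hG)).1).2
    have h6 : d = b.2.2 := F.kn_eq.1 fun G hG => (eq_opN (h3 G hG)).2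
    rw [h4, h5, h6]
    exact ⟨r, hr, h1⟩
  · intro h q hq
    refine ⟨q, le_rfl, (a, c, d), (ρ a c d).down hq h, ?_⟩
    rw [eq_refl]
    exact RO.mem_top

/-- from forcing to the quotients: a statement forced exactly by the elements of `b` -/
theorem iff_of_F {S : Ult (RO P) → Prop} [TV S] {b : RO P} (h : ∀ p : P, F p S ↔ p ∈ b)
    (G : Ult (RO P)) : S G ↔ b ∈ G.s := by
  have h1 : tv S = b := RO.ext' fun p => (F.iff_mem (S := S)).symm.trans (h p)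
  rw [← h1]
  exact tv_iff

@[simp] theorem kn_sn (G : Ult (RO P)) {φ : A → RO P} {a : A} :
    EG G (NG.mk G (kn a)) (NG.mk G (sn φ)) ↔ φ a ∈ G.s := iff_of_F (fun _ => F.sn) G

@[simp] theorem kn_sn_chi (G : Ult (RO P)) {s : A → Prop} {a : A} :
    EG G (NG.mk G (kn a)) (NG.mk G (sn fun a => chi (s a))) ↔ s a := by
  rw [kn_sn, chi_mem]

@[simp] theorem kn_RN (G : Ult (RO P)) (x : ℝ) : EG G (NG.mk G (kn x)) (NG.mk G RN) :=
  (kn_sn G).2 G.top

@[simp] theorem val_rn (G : Ult (RO P)) {ρ : A → C → RO P} {a : A} {c : C} :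
    Val (EG G) (NG.mk G (rn ρ)) (NG.mk G (kn a)) (NG.mk G (kn c)) ↔ ρ a c ∈ G.s :=
  iff_of_F (fun _ => F.valr) G

@[simp] theorem val_l (G : Ult (RO P)) {x y : ℝ} :
    Val (EG G) (NG.mk G lN) (NG.mk G (kn x)) (NG.mk G (kn y)) ↔ x < y :=
  (val_rn G).trans chi_mem

@[simp] theorem val_h (G : Ult (RO P)) {ev : A → B → ℝ} {a : A} {b : Iv B} :
    Val (EG G) (NG.mk G (hN ev)) (NG.mk G (kn a)) (NG.mk G (kn b)) ↔ hit ev a b :=
  (val_rn G).trans chi_mem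

@[simp] theorem ap_en (G : Ult (RO P)) {ρ : A → C → D → RO P} {a : A} {c : C} {d : D} :
    Ap (EG G) (NG.mk G (en ρ)) (NG.mk G (kn a)) (NG.mk G (kn c)) (NG.mk G (kn d)) ↔
      ρ a c d ∈ G.s := iff_of_F (fun _ => F.apn) G

@[simp] theorem ap_eN (G : Ult (RO P)) {ev' : C → A → ℝ} {z : C} {a : A} {t : ℝ} :
    Ap (EG G) (NG.mk G (eN ev')) (NG.mk G (kn z)) (NG.mk G (kn a)) (NG.mk G (kn t)) ↔
      ev' z a = t := (ap_en G).trans chi_mem

@[simp] theorem kn_baN (G : Ult (RO P)) {fv : B → RO P} {b : Iv B} :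
    EG G (NG.mk G (kn b)) (NG.mk G (baN fv)) ↔ lv fv b ∈ G.s := kn_sn G

theorem F.baN {p : P} {fv : B → RO P} {b : Iv B} :
    F p (fun G => EG G (NG.mk G (kn b)) (NG.mk G (CPI.baN fv))) ↔ p ∈ lv fv b := F.sn

/-! ## Elimination -/

theorem F.elim_sn {p : P} {S : Ult (RO P) → Prop} [TV S] {φ : A → RO P} {X : BSet (RO P)}
    (h : F p fun G => EG G (NG.mk G X) (NG.mk G (CPI.sn φ)))
    (h' : ∀ r ≤ p, ∀ a, r ∈ φ a → (F r fun G => NG.mk G X = NG.mk G (kn a)) → F r S) : F p S := by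
  rw [F.mem, mem_sn, RO.mem_iSup] at h
  refine F.loc fun q hq => ?_
  obtain ⟨r, hr, a, h1, h2⟩ := h q hq
  exact ⟨r, hr, h' r (hr.trans hq) a h1 (F.eq.2 h2)⟩

theorem F.elim_rn {p : P} {S : Ult (RO P) → Prop} [TV S] {ρ : A → C → RO P}
    {X Y : BSet (RO P)}
    (h : F p fun G => Val (EG G) (NG.mk G (CPI.rn ρ)) (NG.mk G X) (NG.mk G Y))
    (h' : ∀ r ≤ p, ∀ a c, r ∈ ρ a c → (F r fun G => NG.mk G X = NG.mk G (kn a)) →
      (F r fun G => NG.mk G Y = NG.mk G (kn c)) → F r S) : F p S := by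
  simp only [val_iff] at h
  rw [F.mem, mem_rn, RO.mem_iSup] at h
  refine F.loc fun q hq => ?_
  obtain ⟨r, hr, z, h1, h2⟩ := h q hq
  have h3 := F.eq.2 h2
  exact ⟨r, hr, h' r (hr.trans hq) z.1 z.2 h1 (fun G hG => (eq_opN (h3 G hG)).1)
    (fun G hG => (eq_opN (h3 G hG)).2)⟩

theorem F.elim_en {p : P} {S : Ult (RO P) → Prop} [TV S] {ρ : A → C → D → RO P}
    {X Y Z : BSet (RO P)}
    (h : F p fun G => Ap (EG G) (NG.mk G (CPI.en ρ)) (NG.mk G X) (NG.mk G Y) (NG.mk G Z))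
    (h' : ∀ r ≤ p, ∀ a c d, r ∈ ρ a c d → (F r fun G => NG.mk G X = NG.mk G (kn a)) →
      (F r fun G => NG.mk G Y = NG.mk G (kn c)) →
      (F r fun G => NG.mk G Z = NG.mk G (kn d)) → F r S) : F p S := by
  simp only [ap_iff] at h
  rw [F.mem, mem_en, RO.mem_iSup] at h
  refine F.loc fun q hq => ?_
  obtain ⟨r, hr, z, h1, h2⟩ := h q hq
  have h3 := F.eq.2 h2
  exact ⟨r, hr, h' r (hr.trans hq) z.1 z.2.1 z.2.2 h1
    (fun G hG => (eq_opN (eq_opN (h3 G hG)).1).1) (fun G hG => (eq_opN (eq_opN (h3 G hG)).1).2)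
    (fun G hG => (eq_opN (h3 G hG)).2)⟩

/-- the natural number `n` -/
noncomputable abbrev nn (n : ℕ) : BSet (RO P) := ck (n : Ordinal.{0})

/-- the set of natural numbers -/
noncomputable abbrev oN : BSet (RO P) := ck Ordinal.omega0

theorem nn_mem (G : Ult (RO P)) (n : ℕ) : EG G (NG.mk G (nn n)) (NG.mk G oN) :=
  (ck_mem_iff G).2 (Ordinal.natCast_lt_omega0 n)

theorem F.elim_ck {p : P} {S : Ult (RO P) → Prop} [TV S] {X : BSet (RO P)}
    (h : F p fun G => EG G (NG.mk G X) (NG.mk G oN))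
    (h' : ∀ r ≤ p, ∀ n : ℕ, (F r fun G => NG.mk G X = NG.mk G (nn n)) → F r S) : F p S := by
  rw [F.mem, mem_ck, RO.mem_iSup] at h
  refine F.loc fun q hq => ?_
  obtain ⟨r, hr, a, h1⟩ := h q hq
  obtain ⟨n, hn⟩ := Ordinal.lt_omega0.1 a.2
  rw [hn] at h1
  exact ⟨r, hr, h' r (hr.trans hq) n (F.eq.2 h1)⟩

/-- the bounded universal quantifier -/
theorem F.bsn {p : P} {S : (G : Ult (RO P)) → NG G → Prop} [∀ X, TV fun G => S G (NG.mk G X)]
    {φ : A → RO P} : F p (fun G => ∀ x, EG G x (NG.mk G (CPI.sn φ)) → S G x) ↔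
      ∀ a, ∀ q ≤ p, q ∈ φ a → F q fun G => S G (NG.mk G (kn a)) := by
  constructor
  · intro h a q hq h1 G hG
    exact h G (up_mem hq hG) _ (F.sn.2 h1 G hG)
  · intro h
    refine F.all.2 fun X => F.imp.2 fun q hq h1 => ?_
    exact F.elim_sn h1 fun r hr a h2 h3 => F.subst h3 (h a r (hr.trans hq) h2)

/-- the bounded existential quantifier -/
theorem F.esn {p : P} {S : (G : Ult (RO P)) → NG G → Prop} [∀ X, TV fun G => S G (NG.mk G X)]
    {φ : A → RO P} : F p (fun G => ∃ x, EG G x (NG.mk G (CPI.sn φ)) ∧ S G x) ↔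
      ∀ q ≤ p, ∃ r ≤ q, ∃ a, r ∈ φ a ∧ F r fun G => S G (NG.mk G (kn a)) := by
  constructor
  · intro h q hq
    obtain ⟨X, hX⟩ := F.ex.1 h
    obtain ⟨h1, h2⟩ := F.and.1 hX
    rw [F.mem, mem_sn, RO.mem_iSup] at h1
    obtain ⟨r, hr, a, h3, h4⟩ := h1 q hq
    refine ⟨r, hr, a, h3, fun G hG => ?_⟩
    have h5 : NG.mk G X = NG.mk G (kn a) := F.eq.2 h4 G hG
    have h6 : S G (NG.mk G X) := h2 G (up_mem (hr.trans hq) hG)
    rwa [h5] at h6
  · intro h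
    refine F.loc fun q hq => ?_
    obtain ⟨r, hr, a, h1, h2⟩ := h q hq
    exact ⟨r, hr, fun G hG => ⟨_, F.sn.2 h1 G hG, h2 G hG⟩⟩

theorem F.bck {p : P} {S : (G : Ult (RO P)) → NG G → Prop} [∀ X, TV fun G => S G (NG.mk G X)] :
    F p (fun G => ∀ x, EG G x (NG.mk G oN) → S G x) ↔
      ∀ n : ℕ, F p fun G => S G (NG.mk G (nn n)) := by
  constructor
  · intro h n G hG
    exact h G hG _ (nn_mem G n)
  · intro h
    refine F.all.2 fun X => F.imp.2 fun q hq h1 => ?_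
    exact F.elim_ck h1 fun r hr n h2 => F.subst h2 ((h n).mono (hr.trans hq))

theorem F.eck {p : P} {S : (G : Ult (RO P)) → NG G → Prop} [∀ X, TV fun G => S G (NG.mk G X)] :
    F p (fun G => ∃ x, EG G x (NG.mk G oN) ∧ S G x) ↔
      ∀ q ≤ p, ∃ r ≤ q, ∃ n : ℕ, F r fun G => S G (NG.mk G (nn n)) := by
  constructor
  · intro h q hq
    obtain ⟨X, hX⟩ := F.ex.1 h
    obtain ⟨h1, h2⟩ := F.and.1 hX
    rw [F.mem, mem_ck, RO.mem_iSup] at h1
    obtain ⟨r, hr, a, h4⟩ := h1 q hq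
    obtain ⟨n, hn⟩ := Ordinal.lt_omega0.1 a.2
    rw [hn] at h4
    refine ⟨r, hr, n, fun G hG => ?_⟩
    have h5 : NG.mk G X = NG.mk G (nn n) := F.eq.2 h4 G hG
    have h6 : S G (NG.mk G X) := h2 G (up_mem (hr.trans hq) hG)
    rwa [h5] at h6
  · intro h
    refine F.loc fun q hq => ?_
    obtain ⟨r, hr, n, h2⟩ := h q hq
    exact ⟨r, hr, fun G hG => ⟨_, nn_mem G n, h2 G hG⟩⟩

/-! ## Names of elements and of subsets -/

theorem F.dest_sn {p : P} {φ : A → RO P} {X : BSet (RO P)}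
    (h : F p fun G => EG G (NG.mk G X) (NG.mk G (CPI.sn φ))) :
    ∀ q ≤ p, ∃ r ≤ q, ∃ a, r ∈ φ a ∧ F r fun G => NG.mk G X = NG.mk G (kn a) := by
  rw [F.mem, mem_sn, RO.mem_iSup] at h
  intro q hq
  obtain ⟨r, hr, a, h1, h2⟩ := h q hq
  exact ⟨r, hr, a, h1, F.eq.2 h2⟩

theorem F.dest_ck {p : P} {X : BSet (RO P)}
    (h : F p fun G => EG G (NG.mk G X) (NG.mk G oN)) :
    ∀ q ≤ p, ∃ r ≤ q, ∃ n : ℕ, F r fun G => NG.mk G X = NG.mk G (nn n) := by
  rw [F.mem, mem_ck, RO.mem_iSup] at h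
  intro q hq
  obtain ⟨r, hr, a, h1⟩ := h q hq
  obtain ⟨n, hn⟩ := Ordinal.lt_omega0.1 a.2
  rw [hn] at h1
  exact ⟨r, hr, n, F.eq.2 h1⟩

/-- the universal quantifier over a name `O` of a subset of `sn φ` -/
theorem F.bsub {p : P} {S : (G : Ult (RO P)) → NG G → Prop} [∀ X, TV fun G => S G (NG.mk G X)]
    {φ : A → RO P} {O : BSet (RO P)}
    (hO : F p fun G => Sub (EG G) (NG.mk G O) (NG.mk G (CPI.sn φ)))
    (h : ∀ a : A, ∀ q ≤ p, (F q fun G => EG G (NG.mk G (kn a)) (NG.mk G O)) →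
      F q fun G => S G (NG.mk G (kn a))) :
    F p fun G => ∀ x, EG G x (NG.mk G O) → S G x := by
  refine F.all.2 fun X => F.imp.2 fun q hq h1 => ?_
  have h2 : F q fun G => EG G (NG.mk G X) (NG.mk G (CPI.sn φ)) :=
    fun G hG => hO G (up_mem hq hG) _ (h1 G hG)
  refine F.elim_sn h2 fun r hr a h3 h4 => F.subst h4 (h a r (hr.trans hq) fun G hG => ?_)
  have h5 : NG.mk G X = NG.mk G (kn a) := h4 G hG
  have h6 : EG G (NG.mk G X) (NG.mk G O) := h1 G (up_mem hr hG)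
  rwa [h5] at h6

/-- the existential quantifier over a name `O` of a subset of `sn φ` -/
theorem F.esub {p : P} {S : (G : Ult (RO P)) → NG G → Prop} [∀ X, TV fun G => S G (NG.mk G X)]
    {φ : A → RO P} {O : BSet (RO P)}
    (hO : F p fun G => Sub (EG G) (NG.mk G O) (NG.mk G (CPI.sn φ)))
    (h : F p fun G => ∃ x, EG G x (NG.mk G O) ∧ S G x) :
    ∀ q ≤ p, ∃ r ≤ q, ∃ a : A, (F r fun G => EG G (NG.mk G (kn a)) (NG.mk G O)) ∧
      F r fun G => S G (NG.mk G (kn a)) := by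
  intro q hq
  obtain ⟨X, hX⟩ := F.ex.1 h
  obtain ⟨h1, h2⟩ := F.and.1 hX
  have h3 : F p fun G => EG G (NG.mk G X) (NG.mk G (CPI.sn φ)) :=
    fun G hG => hO G hG _ (h1 G hG)
  obtain ⟨r, hr, a, -, h4⟩ := F.dest_sn h3 q hq
  refine ⟨r, hr, a, fun G hG => ?_, fun G hG => ?_⟩
  · have h5 : NG.mk G X = NG.mk G (kn a) := h4 G hG
    have h6 : EG G (NG.mk G X) (NG.mk G O) := h1 G (up_mem (hr.trans hq) hG)
    rwa [h5] at h6
  · have h5 : NG.mk G X = NG.mk G (kn a) := h4 G hG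
    have h6 : S G (NG.mk G X) := h2 G (up_mem (hr.trans hq) hG)
    rwa [h5] at h6

/-- the universal quantifier over the pairs of `rn ρ` -/
theorem F.brn {p : P} {S : (G : Ult (RO P)) → NG G → NG G → Prop}
    [∀ X Y, TV fun G => S G (NG.mk G X) (NG.mk G Y)] {ρ : A → C → RO P} :
    F p (fun G => ∀ x y, Val (EG G) (NG.mk G (rn ρ)) x y → S G x y) ↔
      ∀ a c, ∀ q ≤ p, q ∈ ρ a c → F q fun G => S G (NG.mk G (kn a)) (NG.mk G (kn c)) := by
  constructor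
  · intro h a c q hq h1 G hG
    exact h G (up_mem hq hG) _ _ (F.valr.2 h1 G hG)
  · intro h
    refine F.all.2 fun X => F.all.2 fun Y => F.imp.2 fun q hq h1 => ?_
    refine F.elim_rn h1 fun r hr a c h2 h3 h4 G hG => ?_
    have h5 : NG.mk G X = NG.mk G (kn a) := h3 G hG
    have h6 : NG.mk G Y = NG.mk G (kn c) := h4 G hG
    rw [h5, h6]
    exact h a c r (hr.trans hq) h2 G hG

/-- the value of the evaluation -/
theorem ap_eN_iff (G : Ult (RO P)) {ev' : C → A → ℝ} {z : C} {a : A} {t : NG G} :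
    Ap (EG G) (NG.mk G (eN ev')) (NG.mk G (kn z)) (NG.mk G (kn a)) t ↔
      t = NG.mk G (kn (ev' z a)) := by
  have key : ∀ G : Ult (RO P), ∀ t : NG G,
      Ap (EG G) (NG.mk G (eN ev')) (NG.mk G (kn z)) (NG.mk G (kn a)) t →
        t = NG.mk G (kn (ev' z a)) := by
    refine F.top fun p => F.all.2 fun T => F.imp.2 fun q _ h => ?_
    refine F.elim_en h fun r _ z1 a1 d h1 h2 h3 h4 => ?_
    have h5 := F.kn_eq.1 h2
    have h6 := F.kn_eq.1 h3
    have h7 : ev' z1 a1 = d := RO.mem_chi.1 h1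
    rw [h5, h6, h7]
    exact h4
  constructor
  · exact key G t
  · rintro rfl
    exact (ap_eN G).2 rfl

/-- separation for `sn` -/
theorem sn_sep (S : (G : Ult (RO P)) → NG G → Prop) [∀ X, TV fun G => S G (NG.mk G X)]
    (φ c : A → RO P) (hc : ∀ a, ∀ G : Ult (RO P), S G (NG.mk G (kn a)) ↔ c a ∈ G.s)
    (G : Ult (RO P)) (z : NG G) :
    EG G z (NG.mk G (sn fun a => φ a ⊓ c a)) ↔ EG G z (NG.mk G (sn φ)) ∧ S G z := by
  have h1 : ∀ G : Ult (RO P), ∀ z, EG G z (NG.mk G (sn fun a => φ a ⊓ c a)) →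
      EG G z (NG.mk G (sn φ)) ∧ S G z := by
    refine F.top fun p => F.bsn.2 fun a q _ hq G hG => ?_
    have h2 : φ a ⊓ c a ∈ G.s := G.up hG (RO.up_le.2 hq)
    beta_reduce
    rw [kn_sn, hc]
    exact inf_mem.1 h2
  have h2 : ∀ G : Ult (RO P), ∀ z, EG G z (NG.mk G (sn φ)) →
      (S G z → EG G z (NG.mk G (sn fun a => φ a ⊓ c a))) := by
    refine F.top fun p => F.bsn.2 fun a q _ hq G hG => ?_
    have h2 : φ a ∈ G.s := G.up hG (RO.up_le.2 hq)
    beta_reduce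
    rw [kn_sn, hc]
    exact fun h3 => inf_mem.2 ⟨h2, h3⟩
  exact ⟨fun h => h1 G z h, fun h => h2 G z h.1 h.2⟩

/-- intersections of `sn` names -/
theorem sn_int (φ ψ : A → RO P) (G : Ult (RO P)) :
    IsInt (EG G) (NG.mk G (sn fun a => φ a ⊓ ψ a)) (NG.mk G (sn φ)) (NG.mk G (sn ψ)) := by
  intro z
  exact sn_sep (fun G x => EG G x (NG.mk G (sn ψ))) φ ψ (fun a G => kn_sn G) G z

theorem sn_sub {φ ψ : A → RO P} (h : ∀ a, φ a ≤ ψ a) (G : Ult (RO P)) :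
    Sub (EG G) (NG.mk G (sn φ)) (NG.mk G (sn ψ)) := by
  have h1 : ∀ G : Ult (RO P), ∀ z, EG G z (NG.mk G (sn φ)) → EG G z (NG.mk G (sn ψ)) := by
    refine F.top fun p => F.bsn.2 fun a q _ hq => F.sn.2 (RO.le_def.1 (h a) q hq)
  exact h1 G

/-- `P` is `σ`-closed -/
abbrev Sig (P : Type) [Preorder P] : Prop := DC (Order.succ Cardinal.aleph0) P

end

end CPI
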