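import Pool.Agent.CPI.BOmA

/-! # No countable network (package B11)

(problem MP_ba5606_gt, project CPI, part B)

Suppose `CNet` is true in `NG G`. By `F.of_not` some `p` forces `CNet`. Unfold: `p` forces
`∃ K w, IsOm w ∧ ∀ y b, y ∈ Y → b ∈ B → Val h y b → ∃ k ∈ w, Val K k y ∧ ∀ z ∈ Y, Val K k z → Val h z b`;
`F.ex` twice gives names `K`, `w`; `w = oN` by `om_eq` in all `NG G` with `up p ∈ G`. Let
`Kt k a := mem (opN (nn k) (kn a)) K : RO P`; by `val_iff`, `F.mem`:
`r ∈ Kt k a ↔ F r (Val K (nn k) (kn a))`. Apply `h p Kt`; it remains to prove: if `r ≤ p`, `r ∈ av a`,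
`r ∈ lv fv b`, `hit ev a b` then there are `r' ≤ r` and `k` with `r' ∈ Kt k a` and
`∀ a', ∀ r'' ≤ r', r'' ∈ av a' → r'' ∈ Kt k a' → hit ev a' b`. In all `NG G` with `up r ∈ G` the
premises for `y = kn a`, `b = kn b` are true (`F.sn`, `F.baN`, `val_h`), so `r` forces
`∃ k ∈ oN, Val K k (kn a) ∧ ∀ z ∈ Y, ..`; by `F.eck` there are `r' ≤ r` and `k` such that `r'` forces the
rest for `nn k`. If `r'' ≤ r'`, `r'' ∈ av a'`, `r'' ∈ Kt k a'` then `r''` forces `Val h (kn a') (kn b)`,
so `hit ev a' b` (`val_h`, `F.const`).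

How to work with these statements: `F p S` (file `BTv.lean`) means that `S G` is true in all quotients
`NG G` with `RO.up p ∈ G.s`. A statement `S G` for an arbitrary `G` is proved by `F.top fun p => ?_`
(all statements about names have a truth value: class `TV`, found by instance search; state the
statement as a function of `G`). Quantifiers: `F.all`, `F.ex`, `F.bsn` (`∀ x ∈ sn φ`: it is enough to
treat `x = kn a` below conditions `q ∈ φ a`), `F.esn`, `F.bck`, `F.eck` (`∀/∃ x ∈ ω`), `F.bsub`,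
`F.esub` (names of subsets of `sn φ`), connectives: `F.imp`, `F.and`, `F.no`, `F.or`, `F.loc`
(densely), `F.mono`, `F.const`, `F.not_false`. Atomic statements about `kn a` are evaluated in every
`NG G` by `simp`: `kn_eq`, `kn_sn`, `kn_sn_chi`, `kn_baN`, `kn_RN`, `val_rn`, `val_l`, `val_h`,
`ap_eN`, `ap_eN_iff`, `chi_mem`; forced forms: `F.sn`, `F.baN`, `F.valr`, `F.kn_eq`. To reorder the
premises of a statement (so that all quantifiers become bounded) prove the reordered statement in all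
`NG G` (or `F p`) and apply it: `fun G hG x y hx hy => h G hG x hx y hy`. If `rw` does not find a
pattern, use `beta_reduce` or `show`. From `q ∈ φ a` and `RO.up q ∈ G.s` one gets `φ a ∈ G.s` by
`G.up hG (RO.up_le.2 h)`; `q ∈ chi c ↔ c` is `RO.mem_chi`, `q ∈ lv fv b` is `mem_lv`. -/

set_option autoImplicit false

namespace CPI

open STP STP.BSet Cardinal

variable {P : Type} [PartialOrder P] {A W Z : Type} {av : A → RO P} {fv : W → RO P}
  {ev : A → W → ℝ} {zv : Z → RO P} {ev' : Z → A → ℝ}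

theorem br_net (h : TNet av fv ev) (G : Ult (RO P)) :
    ¬ CNet (EG G) (NG.mk G (sn av)) (NG.mk G (baN fv)) (NG.mk G (hN ev)) := by
  intro hcn
  obtain ⟨p, hp⟩ := F.of_not (S := fun G => CNet (EG G) (NG.mk G (sn av)) (NG.mk G (baN fv))
    (NG.mk G (hN ev))) hcn
  unfold CNet at hp
  obtain ⟨K, hK⟩ := F.ex.1 hp
  obtain ⟨w, hw⟩ := F.ex.1 hK
  refine h p (fun k a => BSet.mem (opN (nn k) (kn a)) K) fun r hr a b ha hb hab => ?_
  have h1 : F r fun G => ∃ k, EG G k (NG.mk G oN) ∧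
      (Val (EG G) (NG.mk G K) k (NG.mk G (kn a)) ∧
        ∀ z, EG G z (NG.mk G (sn av)) → Val (EG G) (NG.mk G K) k z →
          Val (EG G) (NG.mk G (hN ev)) z (NG.mk G (kn b))) := by
    intro G hG
    obtain ⟨h2, h3⟩ := hw G (up_mem hr hG)
    rw [om_eq G h2] at h3
    exact h3 (NG.mk G (kn a)) (NG.mk G (kn b)) (F.sn.2 ha G hG) (F.baN.2 hb G hG)
      ((val_h G).2 hab)
  obtain ⟨r', hr', k, hk⟩ := F.eck.1 h1 r le_rfl
  refine ⟨r', hr', k, ?_, fun a' r'' hr'' ha' hka' => ?_⟩
  · rw [← F.mem]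
    intro G hG
    exact val_iff.1 (hk G hG).1
  · rw [← F.mem] at hka'
    refine (F.const (p := r'')).1 fun G hG => ?_
    have h2 := (hk G (up_mem hr'' hG)).2 (NG.mk G (kn a')) (F.sn.2 ha' G hG)
      (val_iff.2 (hka' G hG))
    exact (val_h G).1 h2

end CPI
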