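import Pool.Agent.CPI.BOmC

/-! # A coded space which is not Lindelof (package B06)

(problem MP_ba5606_gt, project CPI, part B)

`h : TNLin av fv ev` gives a set `O : Set (Iv W)`. Suppose `CLin` is true in `NG G`. By `F.of_not`
(a true statement with a truth value is forced by some condition) there is `p` with
`F p (CLin ..)`. Let `ON := sn fun b => lv fv b ⊓ chi (b ∈ O)`.
* `ON ⊆ baN fv` in all `NG G`: `sn_sub`.
* `CCov Y h ON` in all `NG G`: `F.top`, `F.bsn`: `q ∈ av a`; by `F.esn` (or `F.loc`) it is enough to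
  find below each `q' ≤ q` some `r ≤ q'` and `b` with `r ∈ lv fv b ⊓ chi (b ∈ O)` and `hit ev a b`:
  first clause of `h`.
* So `p` forces `∃ O', Sub O' ON ∧ IsCnt O' ∧ CCov Y h O'`; let `O'` be a name (`F.ex`). `cnt_cover hP`
  gives `r ≤ p` and a countable `C : Set (Iv W)`. Apply the second clause of `h` to `r` and `C ∩ O`
  (`Set.Countable.mono`): `r' ≤ r` and `a` with `r' ∈ av a` and `¬ hit ev a b` for all `b ∈ C ∩ O`.
  But `r'` forces `∃ b, b ∈ O' ∧ Val h (kn a) b`; by `F.esub` (`O' ⊆ ON` is forced) there are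
  `r'' ≤ r'` and `b` with `F r'' (kn b ∈ O')` and `hit ev a b` (`val_h`, `F.const`). Then `b ∈ C`, and
  `b ∈ O` since `r''` forces `kn b ∈ ON`, i.e. `r'' ∈ lv fv b ⊓ chi (b ∈ O)` (`F.sn`, `RO.mem_inf`,
  `RO.mem_chi`). A contradiction.

How to work with these statements: `F p S` (file `BTv.lean`) means that `S G` is true in all quotients
`NG G` with `RO.up p ∈ G.s`. A statement `S G` for an arbitrary `G` is proved by `F.top fun p => ?_`
(all statements about names have a truth value: class `TV`, found by instance search; state the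
statement as a function of `G`). Quantifiers: `F.all`, `F.ex`, `F.bsn` (`∀ x ∈ sn φ`: it is enough to
treat `x = kn a` below conditions `q ∈ φ a`), `F.esn`, `F.bck`, `F.eck` (`∀/∃ x ∈ ω`), `F.bsub`,
`F.esub` (names of subsets of `sn φ`), connectives: `F.imp`, `F.and`, `F.no`, `F.or`, `F.loc`
(densely), `F.mono`, `F.const`, `F.not_false`. Atomic statements about `kn a` are evaluated in every
`NG G` by `simp`: `kn_eq`, `kn_sn`, `kn_sn_chi`, `kn_baN`, `kn_RN`, `val_rn`, `val_l`, `val_h`,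
`ap_eN`, `ap_eN_iff`, `chi_mem`; forced forms: `F.sn`, `F.baN`, `F.valr`, `F.kn_eq`. To reorder the
premises of a statement (so that all quantifiers become bounded) prove the reordered statement in all
`NG G` (or `F p`) and apply it: `fun G hG x y hx hy => h G hG x hx y hy`. If `rw` does not find a
pattern, use `beta_reduce` or `show`. From `q ∈ φ a` and `RO.up q ∈ G.s` one gets `φ a ∈ G.s` by
`G.up hG (RO.up_le.2 h)`; `q ∈ chi c ↔ c` is `RO.mem_chi`, `q ∈ lv fv b` is `mem_lv`. -/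

set_option autoImplicit false

namespace CPI

open STP STP.BSet Cardinal

variable {P : Type} [PartialOrder P] {A W Z : Type} {av : A → RO P} {fv : W → RO P}
  {ev : A → W → ℝ} {zv : Z → RO P} {ev' : Z → A → ℝ}

theorem br_nlin (hP : Sig P) (h : TNLin av fv ev) (G : Ult (RO P)) :
    ¬ CLin (EG G) (NG.mk G (sn av)) (NG.mk G (baN fv)) (NG.mk G (hN ev)) := by
  intro hG
  obtain ⟨p, hp⟩ := F.of_not (S := fun G => CLin (EG G) (NG.mk G (sn av)) (NG.mk G (baN fv))
    (NG.mk G (hN ev))) hG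
  obtain ⟨O, hO1, hO2⟩ := h
  let c : Iv W → RO P := fun b => lv fv b ⊓ chi (b ∈ O)
  have hsub : ∀ G : Ult (RO P), Sub (EG G) (NG.mk G (sn c)) (NG.mk G (baN fv)) :=
    sn_sub fun b => inf_le_left
  have hcov : ∀ G : Ult (RO P), CCov (EG G) (NG.mk G (sn av)) (NG.mk G (hN ev))
      (NG.mk G (sn c)) := by
    refine F.top fun p => ?_
    refine F.bsn.2 fun a q _ hq => ?_
    refine F.esn.2 fun q' hq' => ?_
    obtain ⟨r, hr, b, hb, h1, h2⟩ := hO1 q' a ((av a).down hq' hq)
    exact ⟨r, hr, b, RO.mem_inf.2 ⟨h1, RO.mem_chi.2 hb⟩, fun G _ => (val_h G).2 h2⟩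
  have h1 : F p fun G => ∃ O', Sub (EG G) O' (NG.mk G (sn c)) ∧ IsCnt (EG G) O' ∧
      CCov (EG G) (NG.mk G (sn av)) (NG.mk G (hN ev)) O' :=
    fun G hG => hp G hG _ (hsub G) (hcov G)
  obtain ⟨O', hO'⟩ := F.ex.1 h1
  obtain ⟨h2, h3⟩ := F.and.1 hO'
  obtain ⟨h3, h4⟩ := F.and.1 h3
  obtain ⟨r, hr, C, hC, h5⟩ := cnt_cover (A := Iv W) hP h3
  obtain ⟨r', hr', a, ha, hna⟩ := hO2 r (C ∩ O) (hC.mono Set.inter_subset_left)
    Set.inter_subset_right
  have h6 : F r' fun G => ∃ b, EG G b (NG.mk G O') ∧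
      Val (EG G) (NG.mk G (hN ev)) (NG.mk G (kn a)) b := fun G hG =>
    h4 G (up_mem (hr'.trans hr) hG) _ (F.sn.2 ha G hG)
  obtain ⟨r'', hr'', b, h7, h8⟩ := F.esub (h2.mono (hr'.trans hr)) h6 r' le_rfl
  have h9 : b ∈ C := h5 r'' (hr''.trans hr') b h7
  have h10 : F r'' fun G => EG G (NG.mk G (kn b)) (NG.mk G (sn c)) := fun G hG =>
    h2 G (up_mem ((hr''.trans hr').trans hr) hG) _ (h7 G hG)
  have h13 : r'' ∈ c b := F.sn.1 h10
  have h11 : b ∈ O := RO.mem_chi.1 (RO.mem_inf.1 h13).2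
  have h12 : hit ev a b := F.const.1 fun G hG => (val_h G).1 (h8 G hG)
  exact hna b ⟨h9, h11⟩ h12

end CPI
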