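import Pool.Agent.CPI.BNam

/-! # The set of natural numbers in the quotients (package B01)

(problem MP_ba5606_gt, project CPI, part B)

* `om_eq`: a set `w` of the quotient which satisfies `IsOm` is `NG.mk G oN` (the set of natural
  numbers is unique). By `NG_ext` it is enough that both have the same elements. `ck ω ⊆ w` is
  `om_sub` (file `STP/YOrd.lean`). Conversely suppose that `x0 ∈ w` and `x0 ∉ ck ω`. By separation
  (`(NG_zfc G).separation` with the formula `.no (.mem 0 1)` and the valuation `fun _ => NG.mk G oN`)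
  there is `D = {x ∈ w | x ∉ ck ω}`, it is not empty, and by foundation (`NG_found`) it has an element
  `x` such that no `y ∈ x` is in `D`. `x` has an element: otherwise `x = ck 0` (`NG_ext`, `ck_zero`),
  and `ck 0 ∈ ck ω` (`nn_mem G 0`, `Nat.cast_zero`). By the last clause of `IsOm` for `w`, `x` is a
  successor: `IsSc (EG G) x y`. Then `y ∈ x`, so `y ∈ w` (`w` is transitive), and `y ∉ D`, so
  `y ∈ ck ω`. By `ck_om G` (third clause) there is `s ∈ ck ω` with `IsSc (EG G) s y`, and `s = x` by
  `NG_ext`. So `x ∈ ck ω`, a contradiction.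

How to work with these statements: `F p S` (file `BTv.lean`) means that `S G` is true in all quotients
`NG G` with `RO.up p ∈ G.s`. A statement `S G` for an arbitrary `G` is proved by `F.top fun p => ?_`
(all statements about names have a truth value: class `TV`, found by instance search; state the
statement as a function of `G`). Quantifiers: `F.all`, `F.ex`, `F.bsn` (`∀ x ∈ sn φ`: it is enough to
treat `x = kn a` below conditions `q ∈ φ a`), `F.esn`, `F.bck`, `F.eck` (`∀/∃ x ∈ ω`), `F.bsub`,
`F.esub` (names of subsets of `sn φ`), connectives: `F.imp`, `F.and`, `F.no`, `F.or`, `F.loc`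
(densely), `F.mono`, `F.const`, `F.not_false`. Atomic statements about `kn a` are evaluated in every
`NG G` by `simp`: `kn_eq`, `kn_sn`, `kn_sn_chi`, `kn_baN`, `kn_RN`, `val_rn`, `val_l`, `val_h`,
`ap_eN`, `ap_eN_iff`, `chi_mem`; forced forms: `F.sn`, `F.baN`, `F.valr`, `F.kn_eq`. To reorder the
premises of a statement (so that all quantifiers become bounded) prove the reordered statement in all
`NG G` (or `F p`) and apply it: `fun G hG x y hx hy => h G hG x hx y hy`. If `rw` does not find a
pattern, use `beta_reduce` or `show`. From `q ∈ φ a` and `RO.up q ∈ G.s` one gets `φ a ∈ G.s` by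
`G.up hG (RO.up_le.2 h)`; `q ∈ chi c ↔ c` is `RO.mem_chi`, `q ∈ lv fv b` is `mem_lv`. -/

set_option autoImplicit false

namespace CPI

open STP STP.BSet Cardinal

variable {P : Type} [PartialOrder P] {A W Z : Type} {av : A → RO P} {fv : W → RO P}
  {ev : A → W → ℝ} {zv : Z → RO P} {ev' : Z → A → ℝ}

theorem om_eq (G : Ult (RO P)) {w : NG G} (h : IsOm (EG G) w) : w = NG.mk G oN := by
  refine NG_ext G _ _ fun x0 => ⟨fun hx0 => ?_, fun hx0 => om_sub G h x0 hx0⟩
  by_contra hx0'
  obtain ⟨D, hD⟩ := (NG_zfc G).separation (.no (.mem 0 1)) (fun _ => NG.mk G oN) w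
  have hD' : ∀ z, EG G z D ↔ EG G z w ∧ ¬ EG G z (NG.mk G oN) := hD
  obtain ⟨x, hx, hx'⟩ := NG_found G D ⟨x0, (hD' x0).2 ⟨hx0, hx0'⟩⟩
  obtain ⟨hxw, hxo⟩ := (hD' x).1 hx
  have hne : ∃ z, EG G z x := by
    by_contra hcon
    push Not at hcon
    have h1 : x = NG.mk G (nn 0) := by
      refine NG_ext G _ _ fun z => ⟨fun hz => absurd hz (hcon z), fun hz => ?_⟩
      have h2 : (nn 0 : BSet (RO P)) = ck 0 := by
        unfold nn
        rw [Nat.cast_zero]
      rw [h2] at hz
      exact absurd hz (ck_zero G z)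
    exact hxo (h1 ▸ nn_mem G 0)
  obtain ⟨y, hy⟩ := h.2.2.2 x hxw hne
  have hyx : EG G y x := (hy y).2 (Or.inr rfl)
  have hyw : EG G y w := h.1.1 x hxw y hyx
  have hyo : EG G y (NG.mk G oN) := by
    by_contra hcon
    exact hx' y ((hD' y).2 ⟨hyw, hcon⟩) hyx
  obtain ⟨s, hs, hs'⟩ := (ck_om G).2.2.1 y hyo
  have h3 : s = x := NG_ext G _ _ fun z => (hs' z).trans (hy z).symm
  exact hxo (h3 ▸ hs)

end CPI
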