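import Pool.Agent.CPI.BNam

/-! # Names of sequences, countable sets, finite sets (package B02)

(problem MP_ba5606_gt, project CPI, part B)

* `wN_fun`, `wN_val`, `fnN_fun`, `fnN_val`: from `seqN_fun`, `seqN_val` (file `STP/YSeq.lean`). The
  index: for `o = (n : Ordinal)` the chosen `m` with `o = m` is `n` (`Nat.cast_inj`),
  `(n : Ordinal) < ω` is `Ordinal.natCast_lt_omega0 n`, `(i : Ordinal) < n` is `Nat.cast_lt`.
* `br_cnt`: `IsCnt` needs `w`, `f` with `IsOm w` (`ck_om G`), `IsFun f w` and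
  `∀ y ∈ sn .., ∃ n ∈ w, Val f n y`. If `D` is not empty then `D = Set.range e` for some `e : ℕ → A`
  (`Set.Countable.exists_eq_range`); `f := wN fun n => kn (e n)`. The last clause in all `NG G`: by
  `F.top`, `F.bsn`: `q ∈ chi (a ∈ D)` gives `a = e n`, and `n := NG.mk G (nn n)` (`nn_mem`, `wN_val`).
  If `D` is empty take `f := wN fun _ => ck 0`, and the last clause is `F.bsn` with no case.
* `fin_list`: `IsFin x` is `∃ w, IsOm w ∧ Sm x w`, and `Sm x w` is: there are `a ∈ w` and `f` with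
  `IsFun f a` and `∀ y ∈ x, ∃ z ∈ a, Val f z y`. Take `w = oN`, `a = nn β.length`,
  `f = fnN β.length fun i => if h : i < β.length then kn (β.get ⟨i, h⟩) else ck 0`; the last clause by
  `F.top`, `F.bsn` and `List.mem_iff_get`.

How to work with these statements: `F p S` (file `BTv.lean`) means that `S G` is true in all quotients
`NG G` with `RO.up p ∈ G.s`. A statement `S G` for an arbitrary `G` is proved by `F.top fun p => ?_`
(all statements about names have a truth value: class `TV`, found by instance search; state the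
statement as a function of `G`). Quantifiers: `F.all`, `F.ex`, `F.bsn` (`∀ x ∈ sn φ`: it is enough to
treat `x = kn a` below conditions `q ∈ φ a`), `F.esn`, `F.bck`, `F.eck` (`∀/∃ x ∈ ω`), `F.bsub`,
`F.esub` (names of subsets of `sn φ`), connectives: `F.imp`, `F.and`, `F.no`, `F.or`, `F.loc`
(densely), `F.mono`, `F.const`, `F.not_false`. Atomic statements about `kn a` are evaluated in every
`NG G` by `simp`: `kn_eq`, `kn_sn`, `kn_sn_chi`, `kn_baN`, `kn_RN`, `val_rn`, `val_l`, `val_h`,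
`ap_eN`, `ap_eN_iff`, `chi_mem`; forced forms: `F.sn`, `F.baN`, `F.valr`, `F.kn_eq`. To reorder the
premises of a statement (so that all quantifiers become bounded) prove the reordered statement in all
`NG G` (or `F p`) and apply it: `fun G hG x y hx hy => h G hG x hx y hy`. If `rw` does not find a
pattern, use `beta_reduce` or `show`. From `q ∈ φ a` and `RO.up q ∈ G.s` one gets `φ a ∈ G.s` by
`G.up hG (RO.up_le.2 h)`; `q ∈ chi c ↔ c` is `RO.mem_chi`, `q ∈ lv fv b` is `mem_lv`. -/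

set_option autoImplicit false

namespace CPI

open STP STP.BSet Cardinal

variable {P : Type} [PartialOrder P] {A W Z : Type} {av : A → RO P} {fv : W → RO P}
  {ev : A → W → ℝ} {zv : Z → RO P} {ev' : Z → A → ℝ}

/-- the index `n` of the ordinal `n` -/
noncomputable def nix (o : Ordinal.{0}) : ℕ :=
  open Classical in if h : ∃ n : ℕ, o = n then h.choose else 0

theorem nix_nat (n : ℕ) : nix (n : Ordinal.{0}) = n := by
  have h : ∃ m : ℕ, (n : Ordinal.{0}) = m := ⟨n, rfl⟩
  unfold nix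
  rw [dif_pos h]
  exact (Nat.cast_injective h.choose_spec).symm

/-- the name of the sequence `(w n)_{n ∈ ω}` -/
noncomputable def wN (w : ℕ → BSet (RO P)) : BSet (RO P) := seqN Ordinal.omega0 fun o => w (nix o)

/-- the name of the sequence `(w i)_{i < n}` -/
noncomputable def fnN (n : ℕ) (w : ℕ → BSet (RO P)) : BSet (RO P) :=
  seqN (n : Ordinal.{0}) fun o => w (nix o)

theorem wN_fun (w : ℕ → BSet (RO P)) (G : Ult (RO P)) :
    IsFun (EG G) (NG.mk G (wN w)) (NG.mk G oN) := by
  exact seqN_fun _ _ G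

theorem wN_val (w : ℕ → BSet (RO P)) (n : ℕ) (G : Ult (RO P)) :
    Val (EG G) (NG.mk G (wN w)) (NG.mk G (nn n)) (NG.mk G (w n)) := by
  have h := seqN_val Ordinal.omega0 (fun o => w (nix o)) (Ordinal.natCast_lt_omega0 n) G
  rw [nix_nat] at h
  exact h

theorem fnN_fun (n : ℕ) (w : ℕ → BSet (RO P)) (G : Ult (RO P)) :
    IsFun (EG G) (NG.mk G (fnN n w)) (NG.mk G (nn n)) := by
  exact seqN_fun _ _ G

theorem fnN_val (n : ℕ) (w : ℕ → BSet (RO P)) {i : ℕ} (hi : i < n) (G : Ult (RO P)) :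
    Val (EG G) (NG.mk G (fnN n w)) (NG.mk G (nn i)) (NG.mk G (w i)) := by
  have h := seqN_val (n : Ordinal.{0}) (fun o => w (nix o)) (Nat.cast_lt.2 hi) G
  rw [nix_nat] at h
  exact h

private theorem cnt_seq {D : Set A} (hD : D.Countable) :
    ∃ g : ℕ → BSet (RO P), ∀ a ∈ D, ∃ n, g n = kn a := by
  rcases D.eq_empty_or_nonempty with h | h
  · refine ⟨fun _ => ck 0, fun a ha => ?_⟩
    rw [h] at ha
    exact absurd ha (Set.notMem_empty a)
  · obtain ⟨e, he⟩ := hD.exists_eq_range h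
    refine ⟨fun n => kn (e n), fun a ha => ?_⟩
    rw [he] at ha
    obtain ⟨n, hn⟩ := ha
    exact ⟨n, congrArg kn hn⟩

theorem br_cnt {D : Set A} (hD : D.Countable) (G : Ult (RO P)) :
    IsCnt (EG G) (NG.mk G (sn fun a => chi (a ∈ D))) := by
  obtain ⟨g, hg⟩ := cnt_seq (P := P) hD
  have key : ∀ G : Ult (RO P), ∀ y, EG G y (NG.mk G (sn fun a => chi (a ∈ D))) →
      ∃ n, EG G n (NG.mk G oN) ∧ Val (EG G) (NG.mk G (wN g)) n y := by
    refine F.top fun p => F.bsn.2 fun a q _ hq G hG => ?_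
    obtain ⟨n, hn⟩ := hg a (RO.mem_chi.1 hq)
    have h1 := wN_val g n G
    rw [hn] at h1
    exact ⟨NG.mk G (nn n), nn_mem G n, h1⟩
  exact ⟨NG.mk G oN, NG.mk G (wN g), ck_om G, wN_fun g G, key G⟩

theorem fin_list (β : List A) (G : Ult (RO P)) :
    IsFin (EG G) (NG.mk G (sn fun a => chi (a ∈ β))) := by
  obtain ⟨g, hg⟩ : ∃ g : ℕ → BSet (RO P), ∀ a ∈ β, ∃ n < β.length, g n = kn a := by
    classical
    refine ⟨fun n => if h : n < β.length then kn (β.get ⟨n, h⟩) else ck 0, fun a ha => ?_⟩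
    obtain ⟨⟨n, hn⟩, h1⟩ := List.mem_iff_get.1 ha
    refine ⟨n, hn, ?_⟩
    beta_reduce
    rw [dif_pos hn, h1]
  have key : ∀ G : Ult (RO P), ∀ y, EG G y (NG.mk G (sn fun a => chi (a ∈ β))) →
      ∃ n, EG G n (NG.mk G (nn β.length)) ∧ Val (EG G) (NG.mk G (fnN β.length g)) n y := by
    refine F.top fun p => F.bsn.2 fun a q _ hq G hG => ?_
    obtain ⟨n, hn, hn'⟩ := hg a (RO.mem_chi.1 hq)
    have h1 := fnN_val β.length g hn G
    rw [hn'] at h1
    exact ⟨NG.mk G (nn n), (ck_mem_iff G).2 (Nat.cast_lt.2 hn), h1⟩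
  exact ⟨NG.mk G oN, ck_om G, NG.mk G (nn β.length), nn_mem G _, NG.mk G (fnN β.length g),
    fnN_fun _ g G, key G⟩

end CPI
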