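import Pool.Agent.CPI.BOmA

/-! # Countable sets in the extension by a sigma-closed poset (package B03)

(problem MP_ba5606_gt, project CPI, part B)

`cnt_cover`. Unfold `IsCnt` in `h`: `F q` of `∃ w f, IsOm w ∧ IsFun f w ∧ ∀ y ∈ O, ∃ n ∈ w, Val f n y`;
`F.ex` twice gives names `w`, `f`. By `om_eq`, `NG.mk G w = NG.mk G oN` in all `NG G` with `up q ∈ G`.
For each `n : ℕ` the condition `q` forces `∃ y, Val f (nn n) y` (`nn_mem`, second clause of `IsFun`);
let `y n` be such a name (`F.ex`, `choose`).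
Let `D n r` be the property `(∃ a : A, F r (y n = kn a)) ∨ F r (¬ y n ∈ sn (fun _ : A => ⊤))`. It is
inherited by stronger conditions (`F.mono`) and dense: `F.dec r (y n ∈ sn ⊤)`; in the first case
`F.dest_sn`. By `REC hP` (with `J = ℕ`, `#ℕ = ℵ₀ < succ ℵ₀`: `Cardinal.mk_nat`,
`Order.lt_succ`) there is `r ≤ q` with `D n r` for all `n`. Let `C = {a | ∃ n, F r (y n = kn a)}`. It
is countable: the union over `n : ℕ` (`Set.countable_iUnion`) of sets with at most one element
(`Set.Subsingleton.countable`; if `F r (y n = kn a)` and `F r (y n = kn a')` then `F r (kn a = kn a')`,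
so `a = a'` by `F.kn_eq`).
Let `r' ≤ r` force `kn a ∈ O`. Then `r'` forces `∃ n ∈ oN, Val f n (kn a)` (use `w = oN`). By `F.eck`
there are `r'' ≤ r'` and `n` such that `r''` forces `Val f (nn n) (kn a)`, so `r''` forces
`y n = kn a` (third clause of `IsFun`). Now `D n r`: if `F r (y n = kn a')` then `F r'' (kn a' = kn a)`,
so `a' = a` and `a ∈ C`. Otherwise `F r (¬ y n ∈ sn ⊤)`, but in all `NG G` with `up r'' ∈ G` we have
`y n = kn a ∈ sn ⊤` (`kn_sn`, `G.top`), a contradiction (`F.not_false`).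

How to work with these statements: `F p S` (file `BTv.lean`) means that `S G` is true in all quotients
`NG G` with `RO.up p ∈ G.s`. A statement `S G` for an arbitrary `G` is proved by `F.top fun p => ?_`
(all statements about names have a truth value: class `TV`, found by instance search; state the
statement as a function of `G`). Quantifiers: `F.all`, `F.ex`, `F.bsn` (`∀ x ∈ sn φ`: it is enough to
treat `x = kn a` below conditions `q ∈ φ a`), `F.esn`, `F.bck`, `F.eck` (`∀/∃ x ∈ ω`), `F.bsub`,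
`F.esub` (names of subsets of `sn φ`), connectives: `F.imp`, `F.and`, `F.no`, `F.or`, `F.loc`
(densely), `F.mono`, `F.const`, `F.not_false`. Atomic statements about `kn a` are evaluated in every
`NG G` by `simp`: `kn_eq`, `kn_sn`, `kn_sn_chi`, `kn_baN`, `kn_RN`, `val_rn`, `val_l`, `val_h`,
`ap_eN`, `ap_eN_iff`, `chi_mem`; forced forms: `F.sn`, `F.baN`, `F.valr`, `F.kn_eq`. To reorder the
premises of a statement (so that all quantifiers become bounded) prove the reordered statement in all
`NG G` (or `F p`) and apply it: `fun G hG x y hx hy => h G hG x hx y hy`. If `rw` does not find a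
pattern, use `beta_reduce` or `show`. From `q ∈ φ a` and `RO.up q ∈ G.s` one gets `φ a ∈ G.s` by
`G.up hG (RO.up_le.2 h)`; `q ∈ chi c ↔ c` is `RO.mem_chi`, `q ∈ lv fv b` is `mem_lv`. -/

set_option autoImplicit false

namespace CPI

open STP STP.BSet Cardinal

variable {P : Type} [PartialOrder P] {A W Z : Type} {av : A → RO P} {fv : W → RO P}
  {ev : A → W → ℝ} {zv : Z → RO P} {ev' : Z → A → ℝ}

/-- `P` is `σ`-closed. A name `O` of a countable set: below `q` there is a condition `r` and a
countable set `C` of the ground model which contains all `a` such that `kn a` may be in `O`. -/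
theorem cnt_cover (hP : Sig P) {q : P} {O : BSet (RO P)}
    (h : F q fun G => IsCnt (EG G) (NG.mk G O)) :
    ∃ r ≤ q, ∃ C : Set A, C.Countable ∧
      ∀ r' ≤ r, ∀ a : A, (F r' fun G => EG G (NG.mk G (kn a)) (NG.mk G O)) → a ∈ C := by
  obtain ⟨w, hw⟩ := F.ex.1 h
  obtain ⟨f, hf⟩ := F.ex.1 hw
  have hwo : ∀ G : Ult (RO P), RO.up q ∈ G.s → NG.mk G w = NG.mk G oN :=
    fun G hG => om_eq G (hf G hG).1
  have hfun : ∀ G : Ult (RO P), RO.up q ∈ G.s → IsFun (EG G) (NG.mk G f) (NG.mk G oN) := by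
    intro G hG
    rw [← hwo G hG]
    exact (hf G hG).2.1
  have hex : ∀ n : ℕ, F q fun G => ∃ y, Val (EG G) (NG.mk G f) (NG.mk G (nn n)) y :=
    fun n G hG => (hfun G hG).2.1 _ (nn_mem G n)
  have hex' : ∀ n : ℕ, ∃ y, F q fun G => Val (EG G) (NG.mk G f) (NG.mk G (nn n)) (NG.mk G y) :=
    fun n => F.ex.1 (hex n)
  choose y hy using hex'
  obtain ⟨r, hr, hD⟩ := REC hP (J := ℕ) (by rw [Cardinal.mk_nat]; exact Order.lt_succ _)
    (fun n r => (∃ a : A, F r fun G => NG.mk G (y n) = NG.mk G (kn a)) ∨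
      F r fun G => ¬ EG G (NG.mk G (y n)) (NG.mk G (sn fun _ : A => (⊤ : RO P)))) q
    (by
      rintro n s t hts (⟨a, ha⟩ | h1)
      · exact Or.inl ⟨a, ha.mono hts⟩
      · exact Or.inr (h1.mono hts))
    (by
      intro n s _
      obtain ⟨t, ht, h1 | h1⟩ := F.dec s
        fun G => EG G (NG.mk G (y n)) (NG.mk G (sn fun _ : A => (⊤ : RO P)))
      · obtain ⟨t', ht', a, -, ha⟩ := F.dest_sn h1 t le_rfl
        exact ⟨t', ht'.trans ht, Or.inl ⟨a, ha⟩⟩
      · exact ⟨t, ht, Or.inr h1⟩)
  refine ⟨r, hr, {a | ∃ n, F r fun G => NG.mk G (y n) = NG.mk G (kn a)}, ?_, ?_⟩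
  · have e : {a : A | ∃ n, F r fun G => NG.mk G (y n) = NG.mk G (kn a)} =
        ⋃ n, {a : A | F r fun G => NG.mk G (y n) = NG.mk G (kn a)} := by
      ext a
      simp
    rw [e]
    refine Set.countable_iUnion fun n => Set.Subsingleton.countable ?_
    intro a ha b hb
    exact F.kn_eq.1 fun G hG => ((ha G hG : _ = _).symm.trans (hb G hG))
  · intro r' hr' a ha
    have h1 : F r' fun G => ∃ n, EG G n (NG.mk G oN) ∧
        Val (EG G) (NG.mk G f) n (NG.mk G (kn a)) := by
      intro G hG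
      have hG' : RO.up q ∈ G.s := up_mem (hr'.trans hr) hG
      obtain ⟨n, hn, hn'⟩ := (hf G hG').2.2 _ (ha G hG)
      rw [hwo G hG'] at hn
      exact ⟨n, hn, hn'⟩
    obtain ⟨r'', hr'', n, hn⟩ := F.eck.1 h1 r' le_rfl
    have h2 : F r'' fun G => NG.mk G (y n) = NG.mk G (kn a) := by
      intro G hG
      have hG' : RO.up q ∈ G.s := up_mem (hr''.trans (hr'.trans hr)) hG
      exact (hfun G hG').2.2 _ _ _ (hy n G hG') (hn G hG)
    rcases hD n with ⟨a', ha'⟩ | hno
    · have h4 : F r'' fun G => NG.mk G (kn a') = NG.mk G (kn a) := by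
        intro G hG
        exact (ha' G (up_mem (hr''.trans hr') hG)).symm.trans (h2 G hG)
      have h3 : a' = a := F.kn_eq.1 h4
      exact ⟨n, h3 ▸ ha'⟩
    · refine (F.not_false (p := r'') fun G hG => ?_).elim
      refine hno G (up_mem (hr''.trans hr') hG) ?_
      have h3 : NG.mk G (y n) = NG.mk G (kn a) := h2 G hG
      rw [h3]
      exact (kn_sn G).2 G.top

end CPI
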