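import Pool.Agent.CPI.BOmB

/-! # The real line: order and separability (package B12)

(problem MP_ba5606_gt, project CPI, part B)

`R = RN = sn fun _ : ℝ => ⊤`, `l = lN = rn fun x y : ℝ => chi (x < y)`.
* `rl_ne`: `kn (0 : ℝ)`.
* `rl_dom`: `F.top`, `F.brn` and `kn_RN`.
* `rl_irr`: by `rl_dom` it is enough to treat `x ∈ R`; `F.top`, `F.bsn`, `val_l`.
* `rl_tr`: by `rl_dom` all three are in `R`; `F.bsn` three times (for the reordered statement
  `∀ x ∈ R, ∀ y ∈ R, ∀ z ∈ R, ..`), `val_l`.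
* `rl_tot`: `F.bsn` twice, `val_l`, `kn_eq`, `lt_trichotomy`.
* `rl_end`: `F.bsn`, `kn (x - 1)`, `kn (x + 1)`.
* `rl_sep`: `D := sn fun x : ℝ => chi (x ∈ Set.range (Rat.cast : ℚ → ℝ))`; `D ⊆ R` by `sn_sub`;
  countable by `br_cnt (Set.countable_range _)`; dense: `F.top`, `F.brn`: `x < y` real
  (`RO.mem_chi`), a rational `c` with `x < c < y` (`exists_rat_btwn`), `kn (c : ℝ)` (`kn_sn_chi`, `val_l`).

How to work with these statements: `F p S` (file `BTv.lean`) means that `S G` is true in all quotients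
`NG G` with `RO.up p ∈ G.s`. A statement `S G` for an arbitrary `G` is proved by `F.top fun p => ?_`
(all statements about names have a truth value: class `TV`, found by instance search; state the
statement as a function of `G`). Quantifiers: `F.all`, `F.ex`, `F.bsn` (`∀ x ∈ sn φ`: it is enough to
treat `x = kn a` below conditions `q ∈ φ a`), `F.esn`, `F.bck`, `F.eck` (`∀/∃ x ∈ ω`), `F.bsub`,
`F.esub` (names of subsets of `sn φ`), connectives: `F.imp`, `F.and`, `F.no`, `F.or`, `F.loc`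
(densely), `F.mono`, `F.const`, `F.not_false`. Atomic statements about `kn a` are evaluated in every
`NG G` by `simp`: `kn_eq`, `kn_sn`, `kn_sn_chi`, `kn_baN`, `kn_RN`, `val_rn`, `val_l`, `val_h`,
`ap_eN`, `ap_eN_iff`, `chi_mem`; forced forms: `F.sn`, `F.baN`, `F.valr`, `F.kn_eq`. To reorder the
premises of a statement (so that all quantifiers become bounded) prove the reordered statement in all
`NG G` (or `F p`) and apply it: `fun G hG x y hx hy => h G hG x hx y hy`. If `rw` does not find a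
pattern, use `beta_reduce` or `show`. From `q ∈ φ a` and `RO.up q ∈ G.s` one gets `φ a ∈ G.s` by
`G.up hG (RO.up_le.2 h)`; `q ∈ chi c ↔ c` is `RO.mem_chi`, `q ∈ lv fv b` is `mem_lv`. -/

set_option autoImplicit false

namespace CPI

open STP STP.BSet Cardinal

variable {P : Type} [PartialOrder P] {A W Z : Type} {av : A → RO P} {fv : W → RO P}
  {ev : A → W → ℝ} {zv : Z → RO P} {ev' : Z → A → ℝ}

theorem rl_ne (G : Ult (RO P)) : ∃ x, EG G x (NG.mk G RN) := ⟨_, kn_RN G 0⟩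

theorem rl_dom (G : Ult (RO P)) : ∀ x y, Val (EG G) (NG.mk G lN) x y →
    EG G x (NG.mk G RN) ∧ EG G y (NG.mk G RN) := by
  have h : ∀ G : Ult (RO P), ∀ x y, Val (EG G) (NG.mk G lN) x y →
      EG G x (NG.mk G RN) ∧ EG G y (NG.mk G RN) := by
    refine F.top fun p => F.brn.2 fun a c q _ _ G _ => ?_
    exact ⟨kn_RN G a, kn_RN G c⟩
  exact h G

theorem rl_irr (G : Ult (RO P)) : ∀ x, ¬ Val (EG G) (NG.mk G lN) x x := by
  have h : ∀ G : Ult (RO P), ∀ x, EG G x (NG.mk G RN) → ¬ Val (EG G) (NG.mk G lN) x x := by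
    refine F.top fun p => F.bsn.2 fun a q _ _ G _ => ?_
    exact fun h1 => lt_irrefl a ((val_l G).1 h1)
  exact fun x hx => h G x (rl_dom G x x hx).1 hx

theorem rl_tr (G : Ult (RO P)) : ∀ x y z, Val (EG G) (NG.mk G lN) x y →
    Val (EG G) (NG.mk G lN) y z → Val (EG G) (NG.mk G lN) x z := by
  have h : ∀ G : Ult (RO P), ∀ x, EG G x (NG.mk G RN) → ∀ y, EG G y (NG.mk G RN) →
      ∀ z, EG G z (NG.mk G RN) → Val (EG G) (NG.mk G lN) x y →
      Val (EG G) (NG.mk G lN) y z → Val (EG G) (NG.mk G lN) x z := by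
    refine F.top fun p => F.bsn.2 fun a q _ _ => F.bsn.2 fun b r _ _ =>
      F.bsn.2 fun c s _ _ G _ => ?_
    exact fun h1 h2 => (val_l G).2 (lt_trans ((val_l G).1 h1) ((val_l G).1 h2))
  exact fun x y z h1 h2 => h G x (rl_dom G x y h1).1 y (rl_dom G x y h1).2 z
    (rl_dom G y z h2).2 h1 h2

theorem rl_tot (G : Ult (RO P)) : ∀ x y, EG G x (NG.mk G RN) → EG G y (NG.mk G RN) →
    Val (EG G) (NG.mk G lN) x y ∨ x = y ∨ Val (EG G) (NG.mk G lN) y x := by
  have h : ∀ G : Ult (RO P), ∀ x, EG G x (NG.mk G RN) → ∀ y, EG G y (NG.mk G RN) →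
      Val (EG G) (NG.mk G lN) x y ∨ x = y ∨ Val (EG G) (NG.mk G lN) y x := by
    refine F.top fun p => F.bsn.2 fun a q _ _ => F.bsn.2 fun b r _ _ G _ => ?_
    rcases lt_trichotomy a b with h1 | h1 | h1
    · exact Or.inl ((val_l G).2 h1)
    · exact Or.inr (Or.inl ((kn_eq G).2 h1))
    · exact Or.inr (Or.inr ((val_l G).2 h1))
  exact fun x y hx hy => h G x hx y hy

theorem rl_end (G : Ult (RO P)) : ∀ x, EG G x (NG.mk G RN) →
    (∃ y, Val (EG G) (NG.mk G lN) y x) ∧ ∃ y, Val (EG G) (NG.mk G lN) x y := by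
  have h : ∀ G : Ult (RO P), ∀ x, EG G x (NG.mk G RN) →
      (∃ y, Val (EG G) (NG.mk G lN) y x) ∧ ∃ y, Val (EG G) (NG.mk G lN) x y := by
    refine F.top fun p => F.bsn.2 fun a q _ _ G _ => ?_
    exact ⟨⟨_, (val_l G).2 (sub_one_lt a)⟩, ⟨_, (val_l G).2 (lt_add_one a)⟩⟩
  exact h G

theorem rl_sep (G : Ult (RO P)) : ∃ D, Sub (EG G) D (NG.mk G RN) ∧ IsCnt (EG G) D ∧
    ∀ x y, Val (EG G) (NG.mk G lN) x y →
      ∃ d, EG G d D ∧ Val (EG G) (NG.mk G lN) x d ∧ Val (EG G) (NG.mk G lN) d y := by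
  have h : ∀ G : Ult (RO P), ∀ x y, Val (EG G) (NG.mk G lN) x y →
      ∃ d, EG G d (NG.mk G (sn fun x : ℝ => chi (x ∈ Set.range (Rat.cast : ℚ → ℝ)))) ∧
        Val (EG G) (NG.mk G lN) x d ∧ Val (EG G) (NG.mk G lN) d y := by
    refine F.top fun p => F.brn.2 fun a c q _ hq G _ => ?_
    obtain ⟨r, h1, h2⟩ := exists_rat_btwn (RO.mem_chi.1 hq)
    exact ⟨NG.mk G (kn (r : ℝ)), (kn_sn_chi G).2 ⟨r, rfl⟩, (val_l G).2 h1, (val_l G).2 h2⟩
  exact ⟨_, sn_sub (fun _ => le_top) G, br_cnt (Set.countable_range _) G, h G⟩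

end CPI
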