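import Pool.Agent.CPI.BNam

/-! # The real line: completeness (package B13)

(problem MP_ba5606_gt, project CPI, part B)

`F.top fun p => F.all.2 fun A => F.imp.2 fun q1 _ hA => F.imp.2 fun q2 _ hne => F.imp.2 fun q3 _ hbd =>
F.loc fun q0 _ => ?_`: `A` is a name of a nonempty bounded subset of `R = sn fun _ : ℝ => ⊤` (all three
premises are forced by `q0`, `F.mono`).
For `c : ℚ` let `T c` be the statement `fun G => ∃ a, EG G a (NG.mk G A) ∧ Val (EG G) (NG.mk G lN)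
(NG.mk G (kn (c : ℝ))) a`. By `REC hP` (`J = ℚ`, `#ℚ < succ ℵ₀`: `Cardinal.mkRat`, `Order.lt_succ`) with
`D c r := F r (T c) ∨ F r (¬ T c)` (inherited: `F.mono`; dense: `F.dec`) there is `r ≤ q0` with
`F r (T c) ∨ F r (fun G => ¬ T c G)` for all `c`. (*) If some `r' ≤ r` forces `T c` then `r` forces
`T c` (otherwise `r'` forces `T c` and `¬ T c`, `F.not_false`).
By `hne` and `F.esub` (with `S := fun _ _ => True`; `F r (∃ a, a ∈ A ∧ True)`) there are `r1 ≤ r` and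
`a0 : ℝ` such that `r1` forces `kn a0 ∈ A`. By `hbd` and `F.esn` there are `r2 ≤ r1` and `b0 : ℝ` such
that `r2` forces `∀ a ∈ A, ¬ Val l (kn b0) a`.
Let `L : Set ℝ := {x | ∃ c : ℚ, x = c ∧ F r (T c)}`. Nonempty: a rational `c < a0`; `r1` forces `T c`
(witness `kn a0`, `val_l`), (*). Bounded above by `b0`: let `F r (T c)`; if `b0 < c`, then by `F.esub`
below `r2` there are `r3 ≤ r2` and `a : ℝ` with `F r3 (kn a ∈ A)` and `c < a` (`val_l`, `F.const`), but
`r3` forces `¬ Val l (kn b0) (kn a)`, i.e. `¬ b0 < a` (`F.const`), a contradiction.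
Let `s := sSup L`. Claim: `r2` forces the conclusion with the witness `kn s` (`kn_RN`).
(i) `∀ a ∈ A, ¬ Val l (kn s) a`: `F.bsub`: let `q ≤ r2` force `kn a ∈ A`; if `s < a` choose a rational
`c` with `s < c < a`; `q` forces `T c`, so by (*) `c ∈ L` and `c ≤ s` (`le_csSup`), a contradiction; so
`¬ s < a` and `val_l`.
(ii) `∀ b ∈ R, (∀ a ∈ A, ¬ Val l b a) → ¬ Val l b (kn s)`: `F.bsn`, `F.imp`: let `q` force
`∀ a ∈ A, ¬ Val l (kn b) a`; if `b < s` there is `c` with `F r (T c)` and `b < c` (`exists_lt_of_lt_csSup`);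
by `F.esub` there are `r3 ≤ q` and `a` with `F r3 (kn a ∈ A)` and `c < a`; but `r3` forces
`¬ Val l (kn b) (kn a)`, so `¬ b < a`, a contradiction. So `¬ b < s` and `val_l`.

How to work with these statements: `F p S` (file `BTv.lean`) means that `S G` is true in all quotients
`NG G` with `RO.up p ∈ G.s`. A statement `S G` for an arbitrary `G` is proved by `F.top fun p => ?_`
(all statements about names have a truth value: class `TV`, found by instance search; state the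
statement as a function of `G`). Quantifiers: `F.all`, `F.ex`, `F.bsn` (`∀ x ∈ sn φ`: it is enough to
treat `x = kn a` below conditions `q ∈ φ a`), `F.esn`, `F.bck`, `F.eck` (`∀/∃ x ∈ ω`), `F.bsub`,
`F.esub` (names of subsets of `sn φ`), connectives: `F.imp`, `F.and`, `F.no`, `F.or`, `F.loc`
(densely), `F.mono`, `F.const`, `F.not_false`. Atomic statements about `kn a` are evaluated in every
`NG G` by `simp`: `kn_eq`, `kn_sn`, `kn_sn_chi`, `kn_baN`, `kn_RN`, `val_rn`, `val_l`, `val_h`,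
`ap_eN`, `ap_eN_iff`, `chi_mem`; forced forms: `F.sn`, `F.baN`, `F.valr`, `F.kn_eq`. To reorder the
premises of a statement (so that all quantifiers become bounded) prove the reordered statement in all
`NG G` (or `F p`) and apply it: `fun G hG x y hx hy => h G hG x hx y hy`. If `rw` does not find a
pattern, use `beta_reduce` or `show`. From `q ∈ φ a` and `RO.up q ∈ G.s` one gets `φ a ∈ G.s` by
`G.up hG (RO.up_le.2 h)`; `q ∈ chi c ↔ c` is `RO.mem_chi`, `q ∈ lv fv b` is `mem_lv`. -/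

set_option autoImplicit false

namespace CPI

open STP STP.BSet Cardinal

variable {P : Type} [PartialOrder P] {A W Z : Type} {av : A → RO P} {fv : W → RO P}
  {ev : A → W → ℝ} {zv : Z → RO P} {ev' : Z → A → ℝ}

/-- a rational number below an element of `A` -/
private def TT (X : BSet (RO P)) (c : ℚ) (G : Ult (RO P)) : Prop :=
  ∃ a, EG G a (NG.mk G X) ∧ Val (EG G) (NG.mk G lN) (NG.mk G (kn (c : ℝ))) a

private instance (X : BSet (RO P)) (c : ℚ) : TV (TT X c) :=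
  inferInstanceAs (TV fun G => ∃ a, EG G a (NG.mk G X) ∧
    Val (EG G) (NG.mk G lN) (NG.mk G (kn (c : ℝ))) a)

private theorem TT_dest {X : BSet (RO P)} {c : ℚ} {q : P}
    (hX : F q fun G => Sub (EG G) (NG.mk G X) (NG.mk G RN)) (h : F q (TT X c)) :
    ∃ r ≤ q, ∃ a : ℝ, (F r fun G => EG G (NG.mk G (kn a)) (NG.mk G X)) ∧ (c : ℝ) < a := by
  obtain ⟨r, hr, a, h1, h2⟩ := F.esub
    (S := fun G x => Val (EG G) (NG.mk G lN) (NG.mk G (kn (c : ℝ))) x)
    (φ := fun _ : ℝ => (⊤ : RO P)) hX h q le_rfl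
  exact ⟨r, hr, a, h1, (F.const (p := r)).1 fun G hG => (val_l G).1 (h2 G hG)⟩

private theorem rl_sup' (hP : Sig P) (p : P) : F p fun G => ∀ A, Sub (EG G) A (NG.mk G RN) →
    (∃ a, EG G a A) → (∃ b, EG G b (NG.mk G RN) ∧ ∀ a, EG G a A →
      ¬ Val (EG G) (NG.mk G lN) b a) →
    ∃ s, EG G s (NG.mk G RN) ∧ (∀ a, EG G a A → ¬ Val (EG G) (NG.mk G lN) s a) ∧
      ∀ b, EG G b (NG.mk G RN) → (∀ a, EG G a A → ¬ Val (EG G) (NG.mk G lN) b a) →
        ¬ Val (EG G) (NG.mk G lN) b s := by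
  refine F.all.2 fun X => F.imp.2 fun q1 _ hA => F.imp.2 fun q2 h2 hne => F.imp.2
    fun q3 h3 hbd => F.loc fun q0 h0 => ?_
  obtain ⟨r, hr, hD⟩ := REC hP (J := ℚ) (by rw [Cardinal.mkRat]; exact Order.lt_succ _)
    (fun c r => F r (TT X c) ∨ F r (fun G => ¬ TT X c G)) q0
    (fun s q r hrq h => h.imp (F.mono hrq) (F.mono hrq)) (fun s q _ => F.dec q (TT X s))
  have star : ∀ c : ℚ, ∀ r' ≤ r, F r' (TT X c) → F r (TT X c) := by
    intro c r' hr' h
    rcases hD c with h1 | h1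
    · exact h1
    · exact (F.not_false (p := r') fun G hG => h1 G (up_mem hr' hG) (h G hG)).elim
  have hq2 : r ≤ q2 := hr.trans (h0.trans h3)
  have hA0 : F r fun G => Sub (EG G) (NG.mk G X) (NG.mk G RN) := hA.mono (hq2.trans h2)
  obtain ⟨r1, hr1, a0, ha0, -⟩ := F.esub (S := fun _ _ => True)
    (φ := fun _ : ℝ => (⊤ : RO P)) hA0
    (fun G hG => (hne G (up_mem hq2 hG)).imp fun _ h => ⟨h, trivial⟩) r le_rfl
  obtain ⟨r2, hr2, b0, -, hb0⟩ := (F.esn (φ := fun _ : ℝ => (⊤ : RO P))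
    (S := fun G b => ∀ a, EG G a (NG.mk G X) → ¬ Val (EG G) (NG.mk G lN) b a)).1
    (hbd.mono (hr1.trans (hr.trans h0))) r1 le_rfl
  have hr2r : r2 ≤ r := hr2.trans hr1
  obtain ⟨L, hL⟩ : ∃ L : Set ℝ, ∀ x, x ∈ L ↔ ∃ c : ℚ, x = c ∧ F r (TT X c) :=
    ⟨{x | ∃ c : ℚ, x = c ∧ F r (TT X c)}, fun _ => Iff.rfl⟩
  have hLne : L.Nonempty := by
    obtain ⟨c, hc⟩ := exists_rat_lt a0
    exact ⟨c, (hL c).2 ⟨c, rfl, star c r1 hr1 fun G hG => ⟨_, ha0 G hG, (val_l G).2 hc⟩⟩⟩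
  have hLbd : BddAbove L := by
    refine ⟨b0, fun x hx => ?_⟩
    obtain ⟨c, rfl, hc⟩ := (hL x).1 hx
    by_contra hcon
    push Not at hcon
    obtain ⟨r3, hr3, a, h4, h5⟩ := TT_dest (hA0.mono hr2r) (hc.mono hr2r)
    refine F.not_false (p := r3) fun G hG => ?_
    exact hb0 G (up_mem hr3 hG) _ (h4 G hG) ((val_l G).2 (hcon.trans h5))
  have hi : F r2 fun G => ∀ a, EG G a (NG.mk G X) →
      ¬ Val (EG G) (NG.mk G lN) (NG.mk G (kn (sSup L))) a := by
    refine F.bsub (S := fun G a => ¬ Val (EG G) (NG.mk G lN) (NG.mk G (kn (sSup L))) a)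
      (φ := fun _ : ℝ => (⊤ : RO P)) (hA0.mono hr2r) fun a q hq h6 => ?_
    have h7 : ¬ sSup L < a := by
      intro h8
      obtain ⟨c, hc1, hc2⟩ := exists_rat_btwn h8
      have h9 : (c : ℝ) ∈ L := (hL c).2
        ⟨c, rfl, star c q (hq.trans hr2r) fun G hG => ⟨_, h6 G hG, (val_l G).2 hc2⟩⟩
      exact absurd (le_csSup hLbd h9) (not_le.2 hc1)
    exact fun G _ h8 => h7 ((val_l G).1 h8)
  have hii : F r2 fun G => ∀ b, EG G b (NG.mk G RN) →
      (∀ a, EG G a (NG.mk G X) → ¬ Val (EG G) (NG.mk G lN) b a) →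
        ¬ Val (EG G) (NG.mk G lN) b (NG.mk G (kn (sSup L))) := by
    refine (F.bsn (φ := fun _ : ℝ => (⊤ : RO P))
      (S := fun G b => (∀ a, EG G a (NG.mk G X) → ¬ Val (EG G) (NG.mk G lN) b a) →
        ¬ Val (EG G) (NG.mk G lN) b (NG.mk G (kn (sSup L))))).2 fun b q hq _ =>
      F.imp.2 fun q' hq' h6 => ?_
    have h7 : ¬ b < sSup L := by
      intro h8
      obtain ⟨x, hx, hbx⟩ := exists_lt_of_lt_csSup hLne h8
      obtain ⟨c, rfl, hc⟩ := (hL x).1 hx
      have hq'r : q' ≤ r := hq'.trans (hq.trans hr2r)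
      obtain ⟨r3, hr3, a, h4, h5⟩ := TT_dest (hA0.mono hq'r) (hc.mono hq'r)
      refine F.not_false (p := r3) fun G hG => ?_
      exact h6 G (up_mem hr3 hG) _ (h4 G hG) ((val_l G).2 (hbx.trans h5))
    exact fun G _ h8 => h7 ((val_l G).1 h8)
  exact ⟨r2, hr2r.trans hr, fun G hG => ⟨_, kn_RN G (sSup L), hi G hG, hii G hG⟩⟩

theorem rl_sup (hP : Sig P) (G : Ult (RO P)) : ∀ A, Sub (EG G) A (NG.mk G RN) →
    (∃ a, EG G a A) → (∃ b, EG G b (NG.mk G RN) ∧ ∀ a, EG G a A →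
      ¬ Val (EG G) (NG.mk G lN) b a) →
    ∃ s, EG G s (NG.mk G RN) ∧ (∀ a, EG G a A → ¬ Val (EG G) (NG.mk G lN) s a) ∧
      ∀ b, EG G b (NG.mk G RN) → (∀ a, EG G a A → ¬ Val (EG G) (NG.mk G lN) b a) →
        ¬ Val (EG G) (NG.mk G lN) b s := by
  exact F.top (rl_sup' hP) G

end CPI
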