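import Pool.Agent.CPI.BNam

/-! # Continuity of the sections, the subbasic sets are open (package B08)

(problem MP_ba5606_gt, project CPI, part B)

* `br_sec`: reordered as `∀ z ∈ Z, ∀ y ∈ Y, ∀ r ∈ R, ∀ t, Ap e z y t → ..`; `F.top`, `F.bsn` three times
  (`RN` is `sn fun _ : ℝ => ⊤`): ground `z`, `a`, `c : ℝ` and a condition `q` with `q ∈ zv z`,
  `q ∈ av a` (`RO.down` for the inheritance). By `ap_eN_iff` `t = kn (ev' z a)`. It is enough that `q`
  forces both conclusions for this `t`. First: if not `ev' z a < c` the premise is false (`val_l`).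
  Otherwise `F.loc`: for `q' ≤ q` the hypothesis `h q' z a c` gives `r ≤ q'` and `b` with `r ∈ lv fv b`,
  `hit ev a b` and a bound for all `a'`; take `b := kn b`; the clause
  `∀ y' s, y' ∈ Y → Val h y' b → Ap e z y' s → Val l s r` reordered (`∀ y' ∈ Y, Val .. → ∀ s, ..`) by
  `F.bsn`: for `a'` and `r' ≤ r` with `r' ∈ av a'`: `val_h`, `ap_eN_iff`, `val_l`. The second
  conclusion is symmetric.
* `br_sb` (no hypothesis): the same reordering, ground `z`, `a`, `c`, `q ∈ zv z`, `q ∈ av a`. If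
  `ev' z a < c` choose rationals `u`, `w` with `u < ev' z a < w < c` (`exists_rat_btwn`) and
  `b := [(a, u, w)] : Iv A`; `q ∈ lv av b` (`mem_lv`), `hit ev' z b`, and `hit ev' z' b` implies
  `ev' z' a < w < c`. Similarly for `c < ev' z a`. (The codes of the space `Z` are `baN av`, and the
  membership relation is `hN ev'`.)

How to work with these statements: `F p S` (file `BTv.lean`) means that `S G` is true in all quotients
`NG G` with `RO.up p ∈ G.s`. A statement `S G` for an arbitrary `G` is proved by `F.top fun p => ?_`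
(all statements about names have a truth value: class `TV`, found by instance search; state the
statement as a function of `G`). Quantifiers: `F.all`, `F.ex`, `F.bsn` (`∀ x ∈ sn φ`: it is enough to
treat `x = kn a` below conditions `q ∈ φ a`), `F.esn`, `F.bck`, `F.eck` (`∀/∃ x ∈ ω`), `F.bsub`,
`F.esub` (names of subsets of `sn φ`), connectives: `F.imp`, `F.and`, `F.no`, `F.or`, `F.loc`
(densely), `F.mono`, `F.const`, `F.not_false`. Atomic statements about `kn a` are evaluated in every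
`NG G` by `simp`: `kn_eq`, `kn_sn`, `kn_sn_chi`, `kn_baN`, `kn_RN`, `val_rn`, `val_l`, `val_h`,
`ap_eN`, `ap_eN_iff`, `chi_mem`; forced forms: `F.sn`, `F.baN`, `F.valr`, `F.kn_eq`. To reorder the
premises of a statement (so that all quantifiers become bounded) prove the reordered statement in all
`NG G` (or `F p`) and apply it: `fun G hG x y hx hy => h G hG x hx y hy`. If `rw` does not find a
pattern, use `beta_reduce` or `show`. From `q ∈ φ a` and `RO.up q ∈ G.s` one gets `φ a ∈ G.s` by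
`G.up hG (RO.up_le.2 h)`; `q ∈ chi c ↔ c` is `RO.mem_chi`, `q ∈ lv fv b` is `mem_lv`. -/

set_option autoImplicit false

namespace CPI

open STP STP.BSet Cardinal

variable {P : Type} [PartialOrder P] {A W Z : Type} {av : A → RO P} {fv : W → RO P}
  {ev : A → W → ℝ} {zv : Z → RO P} {ev' : Z → A → ℝ}

private theorem sec_lt (h : TSec av fv ev zv ev') (p : P) (z : Z) (a : A) (c : ℝ)
    (hz : p ∈ zv z) (ha : p ∈ av a) :
    F p fun G => Val (EG G) (NG.mk G lN) (NG.mk G (kn (ev' z a))) (NG.mk G (kn c)) →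
      ∃ b, EG G b (NG.mk G (baN fv)) ∧ Val (EG G) (NG.mk G (hN ev)) (NG.mk G (kn a)) b ∧
        ∀ y' s, EG G y' (NG.mk G (sn av)) → Val (EG G) (NG.mk G (hN ev)) y' b →
          Ap (EG G) (NG.mk G (eN ev')) (NG.mk G (kn z)) y' s →
            Val (EG G) (NG.mk G lN) s (NG.mk G (kn c)) := by
  by_cases hlt : ev' z a < c
  · refine F.loc fun q hq => ?_
    obtain ⟨r, hr, b, hb, hit, hall⟩ :=
      (h q z a c ((zv z).down hq hz) ((av a).down hq ha)).1 hlt
    refine ⟨r, hr, fun G hG _ => ⟨NG.mk G (kn b), F.baN.2 hb G hG, (val_h G).2 hit, ?_⟩⟩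
    have key2 : F r fun G => ∀ y', EG G y' (NG.mk G (sn av)) → ∀ s,
        Val (EG G) (NG.mk G (hN ev)) y' (NG.mk G (kn b)) →
          Ap (EG G) (NG.mk G (eN ev')) (NG.mk G (kn z)) y' s →
            Val (EG G) (NG.mk G lN) s (NG.mk G (kn c)) := by
      refine F.bsn.2 fun a' r' hr' ha' G hG s hv hs => ?_
      rw [ap_eN_iff] at hs
      rw [hs]
      exact (val_l G).2 (hall a' r' hr' ha' ((val_h G).1 hv))
    exact fun y' s hy' hv hs => key2 G hG y' hy' s hv hs
  · intro G _ hv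
    exact absurd ((val_l G).1 hv) hlt

private theorem sec_gt (h : TSec av fv ev zv ev') (p : P) (z : Z) (a : A) (c : ℝ)
    (hz : p ∈ zv z) (ha : p ∈ av a) :
    F p fun G => Val (EG G) (NG.mk G lN) (NG.mk G (kn c)) (NG.mk G (kn (ev' z a))) →
      ∃ b, EG G b (NG.mk G (baN fv)) ∧ Val (EG G) (NG.mk G (hN ev)) (NG.mk G (kn a)) b ∧
        ∀ y' s, EG G y' (NG.mk G (sn av)) → Val (EG G) (NG.mk G (hN ev)) y' b →
          Ap (EG G) (NG.mk G (eN ev')) (NG.mk G (kn z)) y' s →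
            Val (EG G) (NG.mk G lN) (NG.mk G (kn c)) s := by
  by_cases hlt : c < ev' z a
  · refine F.loc fun q hq => ?_
    obtain ⟨r, hr, b, hb, hit, hall⟩ :=
      (h q z a c ((zv z).down hq hz) ((av a).down hq ha)).2 hlt
    refine ⟨r, hr, fun G hG _ => ⟨NG.mk G (kn b), F.baN.2 hb G hG, (val_h G).2 hit, ?_⟩⟩
    have key2 : F r fun G => ∀ y', EG G y' (NG.mk G (sn av)) → ∀ s,
        Val (EG G) (NG.mk G (hN ev)) y' (NG.mk G (kn b)) →
          Ap (EG G) (NG.mk G (eN ev')) (NG.mk G (kn z)) y' s →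
            Val (EG G) (NG.mk G lN) (NG.mk G (kn c)) s := by
      refine F.bsn.2 fun a' r' hr' ha' G hG s hv hs => ?_
      rw [ap_eN_iff] at hs
      rw [hs]
      exact (val_l G).2 (hall a' r' hr' ha' ((val_h G).1 hv))
    exact fun y' s hy' hv hs => key2 G hG y' hy' s hv hs
  · intro G _ hv
    exact absurd ((val_l G).1 hv) hlt

private theorem sb_lt (av : A → RO P) (zv : Z → RO P) (ev' : Z → A → ℝ) (p : P) (z : Z) (a : A)
    (c : ℝ) (ha : p ∈ av a) :
    F p fun G => Val (EG G) (NG.mk G lN) (NG.mk G (kn (ev' z a))) (NG.mk G (kn c)) →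
      ∃ b, EG G b (NG.mk G (baN av)) ∧ Val (EG G) (NG.mk G (hN ev')) (NG.mk G (kn z)) b ∧
        ∀ z' s, EG G z' (NG.mk G (sn zv)) → Val (EG G) (NG.mk G (hN ev')) z' b →
          Ap (EG G) (NG.mk G (eN ev')) z' (NG.mk G (kn a)) s →
            Val (EG G) (NG.mk G lN) s (NG.mk G (kn c)) := by
  by_cases hlt : ev' z a < c
  · obtain ⟨w, hw1, hw2⟩ := exists_rat_btwn hlt
    obtain ⟨u, hu1, hu2⟩ := exists_rat_btwn (sub_one_lt (ev' z a))
    have hb : p ∈ lv av ([(a, u, w)] : Iv A) := by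
      rw [mem_lv]
      intro x hx
      rw [List.mem_singleton.1 hx]
      exact ha
    have hit0 : hit ev' z ([(a, u, w)] : Iv A) := by
      intro x hx
      rw [List.mem_singleton.1 hx]
      exact ⟨hu2, hw1⟩
    have key2 : F p fun G => ∀ z', EG G z' (NG.mk G (sn zv)) → ∀ s,
        Val (EG G) (NG.mk G (hN ev')) z' (NG.mk G (kn ([(a, u, w)] : Iv A))) →
          Ap (EG G) (NG.mk G (eN ev')) z' (NG.mk G (kn a)) s →
            Val (EG G) (NG.mk G lN) s (NG.mk G (kn c)) := by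
      refine F.bsn.2 fun z' r' _ _ G hG s hv hs => ?_
      rw [ap_eN_iff] at hs
      rw [hs]
      have h1 : hit ev' z' ([(a, u, w)] : Iv A) := (val_h G).1 hv
      exact (val_l G).2 ((h1 _ (List.mem_singleton.2 rfl)).2.trans hw2)
    intro G hG _
    exact ⟨NG.mk G (kn ([(a, u, w)] : Iv A)), F.baN.2 hb G hG, (val_h G).2 hit0,
      fun z' s hz' hv hs => key2 G hG z' hz' s hv hs⟩
  · intro G _ hv
    exact absurd ((val_l G).1 hv) hlt

private theorem sb_gt (av : A → RO P) (zv : Z → RO P) (ev' : Z → A → ℝ) (p : P) (z : Z) (a : A)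
    (c : ℝ) (ha : p ∈ av a) :
    F p fun G => Val (EG G) (NG.mk G lN) (NG.mk G (kn c)) (NG.mk G (kn (ev' z a))) →
      ∃ b, EG G b (NG.mk G (baN av)) ∧ Val (EG G) (NG.mk G (hN ev')) (NG.mk G (kn z)) b ∧
        ∀ z' s, EG G z' (NG.mk G (sn zv)) → Val (EG G) (NG.mk G (hN ev')) z' b →
          Ap (EG G) (NG.mk G (eN ev')) z' (NG.mk G (kn a)) s →
            Val (EG G) (NG.mk G lN) (NG.mk G (kn c)) s := by
  by_cases hlt : c < ev' z a
  · obtain ⟨u, hu1, hu2⟩ := exists_rat_btwn hlt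
    obtain ⟨w, hw1, hw2⟩ := exists_rat_btwn (lt_add_one (ev' z a))
    have hb : p ∈ lv av ([(a, u, w)] : Iv A) := by
      rw [mem_lv]
      intro x hx
      rw [List.mem_singleton.1 hx]
      exact ha
    have hit0 : hit ev' z ([(a, u, w)] : Iv A) := by
      intro x hx
      rw [List.mem_singleton.1 hx]
      exact ⟨hu2, hw1⟩
    have key2 : F p fun G => ∀ z', EG G z' (NG.mk G (sn zv)) → ∀ s,
        Val (EG G) (NG.mk G (hN ev')) z' (NG.mk G (kn ([(a, u, w)] : Iv A))) →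
          Ap (EG G) (NG.mk G (eN ev')) z' (NG.mk G (kn a)) s →
            Val (EG G) (NG.mk G lN) (NG.mk G (kn c)) s := by
      refine F.bsn.2 fun z' r' _ _ G hG s hv hs => ?_
      rw [ap_eN_iff] at hs
      rw [hs]
      have h1 : hit ev' z' ([(a, u, w)] : Iv A) := (val_h G).1 hv
      exact (val_l G).2 (hu1.trans (h1 _ (List.mem_singleton.2 rfl)).1)
    intro G hG _
    exact ⟨NG.mk G (kn ([(a, u, w)] : Iv A)), F.baN.2 hb G hG, (val_h G).2 hit0,
      fun z' s hz' hv hs => key2 G hG z' hz' s hv hs⟩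
  · intro G _ hv
    exact absurd ((val_l G).1 hv) hlt

private def Lo1 (av : A → RO P) (fv : W → RO P) (ev : A → W → ℝ) (ev' : Z → A → ℝ)
    (G : Ult (RO P)) (z y r t : NG G) : Prop :=
  Val (EG G) (NG.mk G lN) t r → ∃ b, EG G b (NG.mk G (baN fv)) ∧
    Val (EG G) (NG.mk G (hN ev)) y b ∧ ∀ y' s, EG G y' (NG.mk G (sn av)) →
      Val (EG G) (NG.mk G (hN ev)) y' b → Ap (EG G) (NG.mk G (eN ev')) z y' s →
        Val (EG G) (NG.mk G lN) s r

private def Hi1 (av : A → RO P) (fv : W → RO P) (ev : A → W → ℝ) (ev' : Z → A → ℝ)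
    (G : Ult (RO P)) (z y r t : NG G) : Prop :=
  Val (EG G) (NG.mk G lN) r t → ∃ b, EG G b (NG.mk G (baN fv)) ∧
    Val (EG G) (NG.mk G (hN ev)) y b ∧ ∀ y' s, EG G y' (NG.mk G (sn av)) →
      Val (EG G) (NG.mk G (hN ev)) y' b → Ap (EG G) (NG.mk G (eN ev')) z y' s →
        Val (EG G) (NG.mk G lN) r s

private def Lo2 (av : A → RO P) (zv : Z → RO P) (ev' : Z → A → ℝ)
    (G : Ult (RO P)) (z y r t : NG G) : Prop :=
  Val (EG G) (NG.mk G lN) t r → ∃ b, EG G b (NG.mk G (baN av)) ∧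
    Val (EG G) (NG.mk G (hN ev')) z b ∧ ∀ z' s, EG G z' (NG.mk G (sn zv)) →
      Val (EG G) (NG.mk G (hN ev')) z' b → Ap (EG G) (NG.mk G (eN ev')) z' y s →
        Val (EG G) (NG.mk G lN) s r

private def Hi2 (av : A → RO P) (zv : Z → RO P) (ev' : Z → A → ℝ)
    (G : Ult (RO P)) (z y r t : NG G) : Prop :=
  Val (EG G) (NG.mk G lN) r t → ∃ b, EG G b (NG.mk G (baN av)) ∧
    Val (EG G) (NG.mk G (hN ev')) z b ∧ ∀ z' s, EG G z' (NG.mk G (sn zv)) →
      Val (EG G) (NG.mk G (hN ev')) z' b → Ap (EG G) (NG.mk G (eN ev')) z' y s →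
        Val (EG G) (NG.mk G lN) r s

private theorem tv1 (av : A → RO P) (fv : W → RO P) (ev : A → W → ℝ) (ev' : Z → A → ℝ)
    (x y r t : BSet (RO P)) :
    TV fun G => Lo1 av fv ev ev' G (NG.mk G x) (NG.mk G y) (NG.mk G r) (NG.mk G t) := by
  unfold Lo1
  infer_instance

private theorem tv2 (av : A → RO P) (fv : W → RO P) (ev : A → W → ℝ) (ev' : Z → A → ℝ)
    (x y r t : BSet (RO P)) :
    TV fun G => Hi1 av fv ev ev' G (NG.mk G x) (NG.mk G y) (NG.mk G r) (NG.mk G t) := by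
  unfold Hi1
  infer_instance

private theorem tv3 (av : A → RO P) (zv : Z → RO P) (ev' : Z → A → ℝ) (x y r t : BSet (RO P)) :
    TV fun G => Lo2 av zv ev' G (NG.mk G x) (NG.mk G y) (NG.mk G r) (NG.mk G t) := by
  unfold Lo2
  infer_instance

private theorem tv4 (av : A → RO P) (zv : Z → RO P) (ev' : Z → A → ℝ) (x y r t : BSet (RO P)) :
    TV fun G => Hi2 av zv ev' G (NG.mk G x) (NG.mk G y) (NG.mk G r) (NG.mk G t) := by
  unfold Hi2
  infer_instance

/-- the quantifiers over `z`, `y`, `r`, `t` -/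
private theorem reord (av : A → RO P) (zv : Z → RO P) (ev' : Z → A → ℝ)
    (S : (G : Ult (RO P)) → NG G → NG G → NG G → NG G → Prop)
    (hS : ∀ x y r t : BSet (RO P),
      TV fun G => S G (NG.mk G x) (NG.mk G y) (NG.mk G r) (NG.mk G t))
    (h : ∀ (p : P) (z : Z) (a : A) (c : ℝ), p ∈ zv z → p ∈ av a →
      F p fun G => S G (NG.mk G (kn z)) (NG.mk G (kn a)) (NG.mk G (kn c))
        (NG.mk G (kn (ev' z a)))) (G : Ult (RO P)) (z y t r : NG G)
    (hz : EG G z (NG.mk G (sn zv))) (hy : EG G y (NG.mk G (sn av)))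
    (ht : Ap (EG G) (NG.mk G (eN ev')) z y t) (hr : EG G r (NG.mk G RN)) : S G z y r t := by
  have key : ∀ G : Ult (RO P), ∀ z, EG G z (NG.mk G (sn zv)) → ∀ y,
      EG G y (NG.mk G (sn av)) → ∀ r, EG G r (NG.mk G (sn fun _ : ℝ => ⊤)) → ∀ t,
      Ap (EG G) (NG.mk G (eN ev')) z y t → S G z y r t := by
    refine F.top fun p => F.bsn.2 fun z q _ hz => ?_
    refine F.bsn.2 fun a q' hq' ha => ?_
    refine F.bsn.2 fun c q'' hq'' _ => ?_
    intro G hG t ht
    rw [ap_eN_iff] at ht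
    rw [ht]
    have hz' : q'' ∈ zv z := (zv z).down (hq''.trans hq') hz
    have ha' : q'' ∈ av a := (av a).down hq'' ha
    exact h q'' z a c hz' ha' G hG
  exact key G z hz y hy r hr t ht

theorem br_sec (h : TSec av fv ev zv ev') (G : Ult (RO P)) :
    CSec (EG G) (NG.mk G RN) (NG.mk G lN) (NG.mk G (sn av)) (NG.mk G (baN fv))
      (NG.mk G (hN ev)) (NG.mk G (sn zv)) (NG.mk G (eN ev')) := by
  intro z y t r hz hy ht hr
  exact ⟨reord av zv ev' (Lo1 av fv ev ev') (tv1 av fv ev ev') (sec_lt h) G z y t r hz hy ht hr,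
    reord av zv ev' (Hi1 av fv ev ev') (tv2 av fv ev ev') (sec_gt h) G z y t r hz hy ht hr⟩

theorem br_sb (av : A → RO P) (zv : Z → RO P) (ev' : Z → A → ℝ) (G : Ult (RO P)) :
    CSb (EG G) (NG.mk G RN) (NG.mk G lN) (NG.mk G (sn av)) (NG.mk G (sn zv))
      (NG.mk G (baN av)) (NG.mk G (hN ev')) (NG.mk G (eN ev')) := by
  intro z y t r hz hy ht hr
  exact ⟨reord av zv ev' (Lo2 av zv ev') (tv3 av zv ev')
      (fun p z a c _ ha => sb_lt av zv ev' p z a c ha) G z y t r hz hy ht hr,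
    reord av zv ev' (Hi2 av zv ev') (tv4 av zv ev')
      (fun p z a c _ ha => sb_gt av zv ev' p z a c ha) G z y t r hz hy ht hr⟩

end CPI
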