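import Pool.Agent.CPI.BNam

/-! # Coded spaces, Hausdorff, dense sets (package B04)

(problem MP_ba5606_gt, project CPI, part B)

* `br_sp`, first clause: for ground `a` (`F.top`, `F.bsn`) take the code `kn ([] : Iv W)`: `hit` and
  `lv` of `[]` are trivial. Second clause, reordered as `∀ y ∈ Y, ∀ b ∈ B, ∀ b' ∈ B, ..`: `F.bsn` three
  times; if `hit ev a b` and `hit ev a b'` take the code `kn (b ++ b')` (`hit_append`,
  `mem_lv_append`), the clause `∀ z ∈ Y, ..` by `F.bsn` and `hit_append`.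
* `br_hd`: reordered as `∀ x ∈ Y, ∀ y ∈ Y, x ≠ y → ..`; `F.bsn` twice: ground `a`, `a'` and a condition
  `q`. If `a = a'` the premise is false (`kn_eq`). Otherwise `F.loc`: below `q' ≤ q` the hypothesis
  `h q' a a'` gives `r ≤ q'`, `b`, `b'`; the codes are `kn b`, `kn b'` (`kn_baN` or `F.baN`), and the
  last clause is `F.bsn`.
* `br_dn`: the first clause is `sn_sub` or `F.bsn` (`q ∈ chi (a ∈ D)` gives `a ∈ D`); second clause,
  reordered: `F.bsn` twice, `a`, `b` with `q ∈ av a`, `q ∈ lv fv b`; if `hit ev a b` then `h.2` gives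
  `d ∈ D` with `hit ev d b`, take `kn d`.

How to work with these statements: `F p S` (file `BTv.lean`) means that `S G` is true in all quotients
`NG G` with `RO.up p ∈ G.s`. A statement `S G` for an arbitrary `G` is proved by `F.top fun p => ?_`
(all statements about names have a truth value: class `TV`, found by instance search; state the
statement as a function of `G`). Quantifiers: `F.all`, `F.ex`, `F.bsn` (`∀ x ∈ sn φ`: it is enough to
treat `x = kn a` below conditions `q ∈ φ a`), `F.esn`, `F.bck`, `F.eck` (`∀/∃ x ∈ ω`), `F.bsub`,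
`F.esub` (names of subsets of `sn φ`), connectives: `F.imp`, `F.and`, `F.no`, `F.or`, `F.loc`
(densely), `F.mono`, `F.const`, `F.not_false`. Atomic statements about `kn a` are evaluated in every
`NG G` by `simp`: `kn_eq`, `kn_sn`, `kn_sn_chi`, `kn_baN`, `kn_RN`, `val_rn`, `val_l`, `val_h`,
`ap_eN`, `ap_eN_iff`, `chi_mem`; forced forms: `F.sn`, `F.baN`, `F.valr`, `F.kn_eq`. To reorder the
premises of a statement (so that all quantifiers become bounded) prove the reordered statement in all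
`NG G` (or `F p`) and apply it: `fun G hG x y hx hy => h G hG x hx y hy`. If `rw` does not find a
pattern, use `beta_reduce` or `show`. From `q ∈ φ a` and `RO.up q ∈ G.s` one gets `φ a ∈ G.s` by
`G.up hG (RO.up_le.2 h)`; `q ∈ chi c ↔ c` is `RO.mem_chi`, `q ∈ lv fv b` is `mem_lv`. -/

set_option autoImplicit false

namespace CPI

open STP STP.BSet Cardinal

variable {P : Type} [PartialOrder P] {A W Z : Type} {av : A → RO P} {fv : W → RO P}
  {ev : A → W → ℝ} {zv : Z → RO P} {ev' : Z → A → ℝ}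

theorem br_sp (av : A → RO P) (fv : W → RO P) (ev : A → W → ℝ) (G : Ult (RO P)) :
    CSp (EG G) (NG.mk G (sn av)) (NG.mk G (baN fv)) (NG.mk G (hN ev)) := by
  refine ⟨?_, ?_⟩
  · have h1 : ∀ G : Ult (RO P), ∀ y, EG G y (NG.mk G (sn av)) →
        ∃ b, EG G b (NG.mk G (baN fv)) ∧ Val (EG G) (NG.mk G (hN ev)) y b := by
      refine F.top fun p => F.bsn.2 fun a q _ _ G hG => ?_
      refine ⟨NG.mk G (kn ([] : Iv W)), ?_, ?_⟩
      · rw [kn_baN]
        exact G.up hG (RO.up_le.2 (mem_lv.2 fun z hz => absurd hz List.not_mem_nil))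
      · rw [val_h]
        exact fun z hz => absurd hz List.not_mem_nil
    exact h1 G
  · have h3 : ∀ (b b' : Iv W) (G : Ult (RO P)), ∀ z, EG G z (NG.mk G (sn av)) →
        (Val (EG G) (NG.mk G (hN ev)) z (NG.mk G (kn (b ++ b'))) →
          Val (EG G) (NG.mk G (hN ev)) z (NG.mk G (kn b)) ∧
          Val (EG G) (NG.mk G (hN ev)) z (NG.mk G (kn b'))) := by
      intro b b'
      refine F.top fun p => F.bsn.2 fun a q _ _ G hG => ?_
      beta_reduce
      rw [val_h, val_h, val_h]
      exact hit_append.1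
    have h1 : ∀ G : Ult (RO P), ∀ y, EG G y (NG.mk G (sn av)) →
        ∀ b, EG G b (NG.mk G (baN fv)) → ∀ b', EG G b' (NG.mk G (baN fv)) →
          (Val (EG G) (NG.mk G (hN ev)) y b → Val (EG G) (NG.mk G (hN ev)) y b' →
            ∃ c, EG G c (NG.mk G (baN fv)) ∧ Val (EG G) (NG.mk G (hN ev)) y c ∧
              ∀ z, EG G z (NG.mk G (sn av)) → Val (EG G) (NG.mk G (hN ev)) z c →
                Val (EG G) (NG.mk G (hN ev)) z b ∧ Val (EG G) (NG.mk G (hN ev)) z b') := by
      refine F.top fun p => F.bsn.2 fun a q1 _ _ => F.bsn.2 fun b q2 hq2 hb =>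
        F.bsn.2 fun b' q3 hq3 hb' G hG => ?_
      beta_reduce
      intro h4 h5
      rw [val_h] at h4 h5
      refine ⟨NG.mk G (kn (b ++ b')), ?_, ?_, h3 b b' G⟩
      · rw [kn_baN]
        exact G.up hG (RO.up_le.2 (mem_lv_append.2 ⟨(lv fv b).down hq3 hb, hb'⟩))
      · rw [val_h]
        exact hit_append.2 ⟨h4, h5⟩
    exact fun y b b' hy hb hb' h4 h5 => h1 G y hy b hb b' hb' h4 h5

theorem br_hd (h : THd av fv ev) (G : Ult (RO P)) :
    CHd (EG G) (NG.mk G (sn av)) (NG.mk G (baN fv)) (NG.mk G (hN ev)) := by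
  have h1 : ∀ G : Ult (RO P), ∀ x, EG G x (NG.mk G (sn av)) →
      ∀ y, EG G y (NG.mk G (sn av)) → (¬ x = y →
        ∃ b c, EG G b (NG.mk G (baN fv)) ∧ EG G c (NG.mk G (baN fv)) ∧
          Val (EG G) (NG.mk G (hN ev)) x b ∧ Val (EG G) (NG.mk G (hN ev)) y c ∧
          ∀ z, EG G z (NG.mk G (sn av)) →
            ¬ (Val (EG G) (NG.mk G (hN ev)) z b ∧ Val (EG G) (NG.mk G (hN ev)) z c)) := by
    refine F.top fun p => F.bsn.2 fun a q1 _ ha => F.bsn.2 fun a' q2 hq2 ha' => ?_
    by_cases haa : a = a'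
    · subst haa
      exact fun G _ h2 => absurd rfl h2
    · have h2 : F q2 fun G => ∃ b c, EG G b (NG.mk G (baN fv)) ∧ EG G c (NG.mk G (baN fv)) ∧
          Val (EG G) (NG.mk G (hN ev)) (NG.mk G (kn a)) b ∧
          Val (EG G) (NG.mk G (hN ev)) (NG.mk G (kn a')) c ∧
          ∀ z, EG G z (NG.mk G (sn av)) →
            ¬ (Val (EG G) (NG.mk G (hN ev)) z b ∧ Val (EG G) (NG.mk G (hN ev)) z c) := by
        refine F.loc fun r hr => ?_
        obtain ⟨r', hr', b, b', hb, hb', hab, hab', hl⟩ :=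
          h r a a' ((av a).down (hr.trans hq2) ha) ((av a').down hr ha') haa
        have h3 : F r' fun G => ∀ z, EG G z (NG.mk G (sn av)) →
            ¬ (Val (EG G) (NG.mk G (hN ev)) z (NG.mk G (kn b)) ∧
              Val (EG G) (NG.mk G (hN ev)) z (NG.mk G (kn b'))) := by
          refine F.bsn.2 fun a2 s hs hs2 G hG => ?_
          beta_reduce
          rw [val_h, val_h]
          exact hl a2 s hs hs2
        refine ⟨r', hr', fun G hG => ⟨NG.mk G (kn b), NG.mk G (kn b'), ?_, ?_, ?_, ?_, h3 G hG⟩⟩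
        · exact F.baN.2 hb G hG
        · exact F.baN.2 hb' G hG
        · rw [val_h]
          exact hab
        · rw [val_h]
          exact hab'
      exact fun G hG _ => h2 G hG
  exact fun x y hx hy hxy => h1 G x hx y hy hxy

theorem br_dn {D : Set A} (h : TDn av fv ev D) (G : Ult (RO P)) :
    CDn (EG G) (NG.mk G (sn av)) (NG.mk G (baN fv)) (NG.mk G (hN ev))
      (NG.mk G (sn fun a => chi (a ∈ D))) := by
  refine ⟨sn_sub (fun a => RO.le_def.2 fun q hq => h.1 a (RO.mem_chi.1 hq) q) G, ?_⟩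
  have h1 : ∀ G : Ult (RO P), ∀ y, EG G y (NG.mk G (sn av)) →
      ∀ b, EG G b (NG.mk G (baN fv)) → (Val (EG G) (NG.mk G (hN ev)) y b →
        ∃ a, EG G a (NG.mk G (sn fun a => chi (a ∈ D))) ∧
          Val (EG G) (NG.mk G (hN ev)) a b) := by
    refine F.top fun p => F.bsn.2 fun a q1 _ ha => F.bsn.2 fun b q2 hq2 hb G hG => ?_
    beta_reduce
    intro h2
    rw [val_h] at h2
    obtain ⟨d, hd, hdb⟩ := h.2 q2 a b ((av a).down hq2 ha) hb h2
    refine ⟨NG.mk G (kn d), ?_, ?_⟩
    · exact (kn_sn_chi G).2 hd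
    · rw [val_h]
      exact hdb
  exact fun y b hy hb hv => h1 G y hy b hb hv

end CPI
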