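import Pool.Agent.CPI.BNam

/-! # Every continuous function is a section (package B09)

(problem MP_ba5606_gt, project CPI, part B)

`F.top fun p => F.all.2 fun g => F.imp.2 fun q _ hg => F.loc fun q0 hq0 => ?_`: `g` is a name of a
continuous function. Let `V a t := mem (opN (kn a) (kn t)) g : RO P`; by `val_iff` and `F.mem`:
`r ∈ V a t ↔ F r (Val g (kn a) (kn t))`. Claim: `TCts q0 av fv ev V`.
* `ex`: `r ≤ q0`, `r ∈ av a`. As `r` forces `kn a ∈ Y` (`F.sn`) it forces `∃ t, Val g (kn a) t`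
  (`IsFun`); let `T` be a name (`F.ex`). `r` forces `T ∈ RN` (second clause of `CCts`), so by
  `F.dest_sn` there are `r' ≤ r` and `t : ℝ` such that `r'` forces `T = kn t`. So `r' ∈ V a t`.
* `un`: `r` forces `kn t = kn t'` (third clause of `IsFun`), `F.kn_eq`.
* `lt`: `r ∈ av a`, `r ∈ V a t`, `t < c`. By the third clause of `CCts` with `y = kn a`, `t = kn t`,
  `r = kn c` (`val_l`) the condition `r` forces `∃ b, b ∈ baN fv ∧ Val h (kn a) b ∧ ∀ z s, ..`. By `F.esn`
  (`baN fv` is `sn (lv fv)`) there are `r' ≤ r` and `b` with `r' ∈ lv fv b` and `r'` forces the rest for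
  `kn b`; `hit ev a b` by `val_h`, `F.const`. If `r'' ≤ r'`, `r'' ∈ av a'`, `hit ev a' b`,
  `r'' ∈ V a' t'` then `r''` forces `Val l (kn t') (kn c)`, so `t' < c` (`val_l`, `F.const`). `gt` is
  symmetric.
`h q0 V` gives `r ≤ q0`, `z` with `r ∈ zv z` and `r' ∈ V a (ev' z a)` for all `a` and `r' ≤ r` with
`r' ∈ av a`. In all `NG G` with `up r ∈ G`: `kn z ∈ Z`, and `∀ y t, y ∈ Y → Val g y t → Ap e (kn z) y t`:
reordered as `∀ y ∈ Y, ∀ t, ..` by `F.bsn`: for `a`, `r' ≤ r`, `r' ∈ av a`, in each `NG G`: `Val g (kn a)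
(kn (ev' z a))`, so `t = kn (ev' z a)` by uniqueness (`IsFun`), and `ap_eN`.

How to work with these statements: `F p S` (file `BTv.lean`) means that `S G` is true in all quotients
`NG G` with `RO.up p ∈ G.s`. A statement `S G` for an arbitrary `G` is proved by `F.top fun p => ?_`
(all statements about names have a truth value: class `TV`, found by instance search; state the
statement as a function of `G`). Quantifiers: `F.all`, `F.ex`, `F.bsn` (`∀ x ∈ sn φ`: it is enough to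
treat `x = kn a` below conditions `q ∈ φ a`), `F.esn`, `F.bck`, `F.eck` (`∀/∃ x ∈ ω`), `F.bsub`,
`F.esub` (names of subsets of `sn φ`), connectives: `F.imp`, `F.and`, `F.no`, `F.or`, `F.loc`
(densely), `F.mono`, `F.const`, `F.not_false`. Atomic statements about `kn a` are evaluated in every
`NG G` by `simp`: `kn_eq`, `kn_sn`, `kn_sn_chi`, `kn_baN`, `kn_RN`, `val_rn`, `val_l`, `val_h`,
`ap_eN`, `ap_eN_iff`, `chi_mem`; forced forms: `F.sn`, `F.baN`, `F.valr`, `F.kn_eq`. To reorder the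
premises of a statement (so that all quantifiers become bounded) prove the reordered statement in all
`NG G` (or `F p`) and apply it: `fun G hG x y hx hy => h G hG x hx y hy`. If `rw` does not find a
pattern, use `beta_reduce` or `show`. From `q ∈ φ a` and `RO.up q ∈ G.s` one gets `φ a ∈ G.s` by
`G.up hG (RO.up_le.2 h)`; `q ∈ chi c ↔ c` is `RO.mem_chi`, `q ∈ lv fv b` is `mem_lv`. -/

set_option autoImplicit false

namespace CPI

open STP STP.BSet Cardinal

variable {P : Type} [PartialOrder P] {A W Z : Type} {av : A → RO P} {fv : W → RO P}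
  {ev : A → W → ℝ} {zv : Z → RO P} {ev' : Z → A → ℝ}

theorem br_sur (h : TSur av fv ev zv ev') (G : Ult (RO P)) :
    CSur (EG G) (NG.mk G RN) (NG.mk G lN) (NG.mk G (sn av)) (NG.mk G (baN fv))
      (NG.mk G (hN ev)) (NG.mk G (sn zv)) (NG.mk G (eN ev')) := by
  refine F.top (S := fun G => CSur (EG G) (NG.mk G RN) (NG.mk G lN) (NG.mk G (sn av))
    (NG.mk G (baN fv)) (NG.mk G (hN ev)) (NG.mk G (sn zv)) (NG.mk G (eN ev'))) (fun p => ?_) G
  change F p fun G => ∀ g, CCts (EG G) (NG.mk G RN) (NG.mk G lN) (NG.mk G (sn av))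
    (NG.mk G (baN fv)) (NG.mk G (hN ev)) g → ∃ z, EG G z (NG.mk G (sn zv)) ∧
      ∀ y t, EG G y (NG.mk G (sn av)) → Val (EG G) g y t → Ap (EG G) (NG.mk G (eN ev')) z y t
  refine F.all.2 fun g => F.imp.2 fun q _ hg => F.loc fun q0 hq0 => ?_
  have hV : ∀ (r : P) (a : A) (t : ℝ), r ∈ BSet.mem (opN (kn a) (kn t)) g ↔
      F r fun G => Val (EG G) (NG.mk G g) (NG.mk G (kn a)) (NG.mk G (kn t)) := by
    intro r a t
    simp only [val_iff]
    exact F.mem.symm
  have hT : TCts q0 av fv ev fun (a : A) (t : ℝ) => BSet.mem (opN (kn a) (kn t)) g := by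
    refine ⟨fun r hr a hra => ?_, fun r hr a t t' h1 h2 => ?_,
      fun r hr a t c hra hrV htc => ?_, fun r hr a t c hra hrV htc => ?_⟩
    · have h1 : F r fun G => ∃ t, Val (EG G) (NG.mk G g) (NG.mk G (kn a)) t := fun G hG =>
        (hg G (up_mem (hr.trans hq0) hG)).1.2.1 _ (F.sn.2 hra G hG)
      obtain ⟨T, hT⟩ := F.ex.1 h1
      have h2 : F r fun G => EG G (NG.mk G T) (NG.mk G RN) := fun G hG =>
        (hg G (up_mem (hr.trans hq0) hG)).2.1 _ _ (hT G hG)
      obtain ⟨r', hr', t, -, ht⟩ := F.dest_sn h2 r le_rfl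
      refine ⟨r', hr', t, (hV r' a t).2 fun G hG => ?_⟩
      have h3 : Val (EG G) (NG.mk G g) (NG.mk G (kn a)) (NG.mk G T) := hT G (up_mem hr' hG)
      have h4 : NG.mk G T = NG.mk G (kn t) := ht G hG
      rwa [h4] at h3
    · exact F.kn_eq.1 fun G hG => (hg G (up_mem (hr.trans hq0) hG)).1.2.2 _ _ _
        ((hV r a t).1 h1 G hG) ((hV r a t').1 h2 G hG)
    · have h1 : F r fun G => ∃ b, EG G b (NG.mk G (sn (lv fv))) ∧
          (Val (EG G) (NG.mk G (hN ev)) (NG.mk G (kn a)) b ∧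
            ∀ z s, EG G z (NG.mk G (sn av)) → Val (EG G) (NG.mk G (hN ev)) z b →
              Val (EG G) (NG.mk G g) z s → Val (EG G) (NG.mk G lN) s (NG.mk G (kn c))) :=
        fun G hG => ((hg G (up_mem (hr.trans hq0) hG)).2.2 _ _ _ (F.sn.2 hra G hG)
          ((hV r a t).1 hrV G hG) (kn_RN G c)).1 ((val_l G).2 htc)
      obtain ⟨r', hr', b, hb, h2⟩ := F.esn.1 h1 r le_rfl
      refine ⟨r', hr', b, hb, (F.const (p := r')).1 fun G hG => (val_h G).1 (h2 G hG).1,
        fun a' t' r'' hr'' ha' hit' hV' => (F.const (p := r'')).1 fun G hG => ?_⟩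
      exact (val_l G).1 ((h2 G (up_mem hr'' hG)).2 _ _ (F.sn.2 ha' G hG) ((val_h G).2 hit')
        ((hV r'' a' t').1 hV' G hG))
    · have h1 : F r fun G => ∃ b, EG G b (NG.mk G (sn (lv fv))) ∧
          (Val (EG G) (NG.mk G (hN ev)) (NG.mk G (kn a)) b ∧
            ∀ z s, EG G z (NG.mk G (sn av)) → Val (EG G) (NG.mk G (hN ev)) z b →
              Val (EG G) (NG.mk G g) z s → Val (EG G) (NG.mk G lN) (NG.mk G (kn c)) s) :=
        fun G hG => ((hg G (up_mem (hr.trans hq0) hG)).2.2 _ _ _ (F.sn.2 hra G hG)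
          ((hV r a t).1 hrV G hG) (kn_RN G c)).2 ((val_l G).2 htc)
      obtain ⟨r', hr', b, hb, h2⟩ := F.esn.1 h1 r le_rfl
      refine ⟨r', hr', b, hb, (F.const (p := r')).1 fun G hG => (val_h G).1 (h2 G hG).1,
        fun a' t' r'' hr'' ha' hit' hV' => (F.const (p := r'')).1 fun G hG => ?_⟩
      exact (val_l G).1 ((h2 G (up_mem hr'' hG)).2 _ _ (F.sn.2 ha' G hG) ((val_h G).2 hit')
        ((hV r'' a' t').1 hV' G hG))
  obtain ⟨r, hr, z, hz, hz'⟩ := h q0 _ hT
  refine ⟨r, hr, ?_⟩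
  have key : F r fun G => ∀ y, EG G y (NG.mk G (sn av)) → ∀ t, Val (EG G) (NG.mk G g) y t →
      Ap (EG G) (NG.mk G (eN ev')) (NG.mk G (kn z)) y t := by
    refine F.bsn.2 fun a r' hr' ha G hG t ht => ?_
    have h1 : Val (EG G) (NG.mk G g) (NG.mk G (kn a)) (NG.mk G (kn (ev' z a))) :=
      (hV r' a (ev' z a)).1 (hz' a r' hr' ha) G hG
    have h2 := (hg G (up_mem ((hr'.trans hr).trans hq0) hG)).1.2.2 _ _ _ ht h1
    rw [h2]
    exact (ap_eN G).2 rfl
  exact fun G hG => ⟨NG.mk G (kn z), F.sn.2 hz G hG, fun y t hy ht => key G hG y hy t ht⟩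

end CPI
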