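import Pool.Agent.CPI.BNam

/-! # The basic sets are open in every topology containing the subbasic sets (package B10)

(problem MP_ba5606_gt, project CPI, part B)

`F.top fun p => F.all.2 fun σ => F.imp.2 fun q _ hT => F.imp.2 fun q' _ hW => ?_`; it is enough that `q'`
forces `∀ b ∈ baN av, ∀ U, (∀ z, z ∈ U ↔ z ∈ Z ∧ Val h' z b) → U ∈ σ`; by `F.bsn` we have a ground code
`b : Iv A` and a condition `r ≤ q'` with `r ∈ lv av b`. For `b : Iv A` let
`UN b := sn fun z => zv z ⊓ chi (hit ev' z b)`. By `sn_sep` (with `S G x := Val (EG G) (NG.mk G (hN ev'))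
x (NG.mk G (kn b))`, `val_h`, `chi_mem`) `z ∈ UN b ↔ z ∈ Z ∧ Val h' z (kn b)` in all `NG G`; so `U` is
equal to `UN b` (`NG_ext`), and it is enough that `UN b ∈ σ` in all `NG G` with `up r ∈ G`. Prove this by
induction on `b` (for a fixed `G` in which `σ` is a topology, `CPw` is true, and
`av z.1 ∈ G.s` for all `z ∈ b`, which follows from `r ∈ lv av b` by `mem_lv`).
* `b = []`: `UN [] = Z` (`NG_ext`, `sn_sep`: `hit ev' z []` is true, or the functions are equal:
  `chi True = ⊤`), and `Z ∈ σ` by `IsTop`.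
* `b = (a, u, w) :: b'`: the sets `U1 := sn fun z => zv z ⊓ chi (ev' z a < w)` and
  `U2 := sn fun z => zv z ⊓ chi (u < ev' z a)` are in `σ` by `CPw` with `y = kn a` (in `Y` as
  `av a ∈ G.s`), `r = kn (w : ℝ)` and `r = kn (u : ℝ)`: `z ∈ U1 ↔ z ∈ Z ∧ ∃ t, Ap e z y t ∧ Val l t r`
  by `sn_sep` (`ap_eN_iff`, `val_l`). Then `U2 ∩ UN b'` and `U1 ∩ (U2 ∩ UN b')` are in `σ` by the last
  clause of `IsTop` and `sn_int`, and `UN ((a, u, w) :: b')` is the last set (`NG_ext`, `kn`-free: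
  compare the functions, `zv z ⊓ chi (hit ev' z ((a, u, w) :: b')) =
  (zv z ⊓ chi (ev' z a < w)) ⊓ ((zv z ⊓ chi (u < ev' z a)) ⊓ (zv z ⊓ chi (hit ev' z b')))` by
  `RO.ext'`, `RO.mem_inf`, `RO.mem_chi`, `List.mem_cons`).

How to work with these statements: `F p S` (file `BTv.lean`) means that `S G` is true in all quotients
`NG G` with `RO.up p ∈ G.s`. A statement `S G` for an arbitrary `G` is proved by `F.top fun p => ?_`
(all statements about names have a truth value: class `TV`, found by instance search; state the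
statement as a function of `G`). Quantifiers: `F.all`, `F.ex`, `F.bsn` (`∀ x ∈ sn φ`: it is enough to
treat `x = kn a` below conditions `q ∈ φ a`), `F.esn`, `F.bck`, `F.eck` (`∀/∃ x ∈ ω`), `F.bsub`,
`F.esub` (names of subsets of `sn φ`), connectives: `F.imp`, `F.and`, `F.no`, `F.or`, `F.loc`
(densely), `F.mono`, `F.const`, `F.not_false`. Atomic statements about `kn a` are evaluated in every
`NG G` by `simp`: `kn_eq`, `kn_sn`, `kn_sn_chi`, `kn_baN`, `kn_RN`, `val_rn`, `val_l`, `val_h`,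
`ap_eN`, `ap_eN_iff`, `chi_mem`; forced forms: `F.sn`, `F.baN`, `F.valr`, `F.kn_eq`. To reorder the
premises of a statement (so that all quantifiers become bounded) prove the reordered statement in all
`NG G` (or `F p`) and apply it: `fun G hG x y hx hy => h G hG x hx y hy`. If `rw` does not find a
pattern, use `beta_reduce` or `show`. From `q ∈ φ a` and `RO.up q ∈ G.s` one gets `φ a ∈ G.s` by
`G.up hG (RO.up_le.2 h)`; `q ∈ chi c ↔ c` is `RO.mem_chi`, `q ∈ lv fv b` is `mem_lv`. -/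

set_option autoImplicit false

namespace CPI

open STP STP.BSet Cardinal

variable {P : Type} [PartialOrder P] {A W Z : Type} {av : A → RO P} {fv : W → RO P}
  {ev : A → W → ℝ} {zv : Z → RO P} {ev' : Z → A → ℝ}

/-- the name of the basic set with the code `b` -/
private noncomputable def unN (zv : Z → RO P) (ev' : Z → A → ℝ) (b : Iv A) : BSet (RO P) :=
  sn fun z => zv z ⊓ chi (hit ev' z b)

private theorem unN_iff (zv : Z → RO P) (ev' : Z → A → ℝ) (b : Iv A) (G : Ult (RO P))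
    (z : NG G) : EG G z (NG.mk G (unN zv ev' b)) ↔
      EG G z (NG.mk G (sn zv)) ∧ Val (EG G) (NG.mk G (hN ev')) z (NG.mk G (kn b)) :=
  sn_sep (fun G x => Val (EG G) (NG.mk G (hN ev')) x (NG.mk G (kn b))) zv
    (fun z => chi (hit ev' z b)) (fun a G => by rw [val_h, chi_mem]) G z

private theorem lt_iff (zv : Z → RO P) (ev' : Z → A → ℝ) (a : A) (r : ℝ) (G : Ult (RO P))
    (z : NG G) : EG G z (NG.mk G (sn fun z => zv z ⊓ chi (ev' z a < r))) ↔
      EG G z (NG.mk G (sn zv)) ∧ ∃ t, Ap (EG G) (NG.mk G (eN ev')) z (NG.mk G (kn a)) t ∧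
        Val (EG G) (NG.mk G lN) t (NG.mk G (kn r)) :=
  sn_sep (fun G x => ∃ t, Ap (EG G) (NG.mk G (eN ev')) x (NG.mk G (kn a)) t ∧
      Val (EG G) (NG.mk G lN) t (NG.mk G (kn r))) zv
    (fun z => chi (ev' z a < r)) (fun z G => by
      simp only [ap_eN_iff, exists_eq_left, val_l, chi_mem]) G z

private theorem gt_iff (zv : Z → RO P) (ev' : Z → A → ℝ) (a : A) (r : ℝ) (G : Ult (RO P))
    (z : NG G) : EG G z (NG.mk G (sn fun z => zv z ⊓ chi (r < ev' z a))) ↔
      EG G z (NG.mk G (sn zv)) ∧ ∃ t, Ap (EG G) (NG.mk G (eN ev')) z (NG.mk G (kn a)) t ∧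
        Val (EG G) (NG.mk G lN) (NG.mk G (kn r)) t :=
  sn_sep (fun G x => ∃ t, Ap (EG G) (NG.mk G (eN ev')) x (NG.mk G (kn a)) t ∧
      Val (EG G) (NG.mk G lN) (NG.mk G (kn r)) t) zv
    (fun z => chi (r < ev' z a)) (fun z G => by
      simp only [ap_eN_iff, exists_eq_left, val_l, chi_mem]) G z

private theorem unN_mem (av : A → RO P) (zv : Z → RO P) (ev' : Z → A → ℝ) (G : Ult (RO P))
    (σ : NG G) (hT : IsTop (EG G) (NG.mk G (sn zv)) σ)
    (hW : CPw (EG G) (NG.mk G RN) (NG.mk G lN) (NG.mk G (sn av)) (NG.mk G (sn zv))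
      (NG.mk G (eN ev')) σ) (b : Iv A) (hb : ∀ z ∈ b, av z.1 ∈ G.s) :
    EG G (NG.mk G (unN zv ev' b)) σ := by
  induction b with
  | nil =>
    have h1 : unN zv ev' [] = sn zv := by
      unfold unN
      congr 1
      funext z
      refine RO.ext' fun p => ?_
      rw [RO.mem_inf, RO.mem_chi]
      refine ⟨fun h => h.1, fun h => ⟨h, fun w hw => ?_⟩⟩
      exact absurd hw List.not_mem_nil
    rw [h1]
    exact hT.2.1
  | cons w b ih =>
    obtain ⟨a, u, v⟩ := w
    have ha : EG G (NG.mk G (kn a)) (NG.mk G (sn av)) :=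
      (kn_sn G).2 (hb (a, u, v) List.mem_cons_self)
    have i1 : EG G (NG.mk G (sn fun z => zv z ⊓ chi (ev' z a < (v : ℝ)))) σ :=
      (hW _ _ _ ha (kn_RN G (v : ℝ))).1 fun z => lt_iff zv ev' a v G z
    have i2 : EG G (NG.mk G (sn fun z => zv z ⊓ chi ((u : ℝ) < ev' z a))) σ :=
      (hW _ _ _ ha (kn_RN G (u : ℝ))).2 fun z => gt_iff zv ev' a u G z
    have i3 := ih fun z hz => hb z (List.mem_cons_of_mem _ hz)
    have i4 := hT.2.2.2 _ _ _ i2 i3 (sn_int _ _ G)
    have i5 := hT.2.2.2 _ _ _ i1 i4 (sn_int _ _ G)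
    have h1 : unN zv ev' ((a, u, v) :: b) = sn fun z => (zv z ⊓ chi (ev' z a < (v : ℝ))) ⊓
        ((zv z ⊓ chi ((u : ℝ) < ev' z a)) ⊓ (zv z ⊓ chi (hit ev' z b))) := by
      unfold unN
      congr 1
      funext z
      refine RO.ext' fun p => ?_
      simp only [RO.mem_inf, RO.mem_chi]
      unfold hit
      simp only [List.mem_cons, forall_eq_or_imp]
      tauto
    rw [h1]
    exact i5

theorem br_top (av : A → RO P) (zv : Z → RO P) (ev' : Z → A → ℝ) (G : Ult (RO P)) :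
    CTop (EG G) (NG.mk G RN) (NG.mk G lN) (NG.mk G (sn av)) (NG.mk G (sn zv))
      (NG.mk G (baN av)) (NG.mk G (hN ev')) (NG.mk G (eN ev')) := by
  refine F.top (S := fun G => CTop (EG G) (NG.mk G RN) (NG.mk G lN) (NG.mk G (sn av))
    (NG.mk G (sn zv)) (NG.mk G (baN av)) (NG.mk G (hN ev')) (NG.mk G (eN ev'))) (fun p => ?_) G
  have key : ∀ σ : BSet (RO P), ∀ p : P,
      (F p fun G => IsTop (EG G) (NG.mk G (sn zv)) (NG.mk G σ)) →
      (F p fun G => CPw (EG G) (NG.mk G RN) (NG.mk G lN) (NG.mk G (sn av)) (NG.mk G (sn zv))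
        (NG.mk G (eN ev')) (NG.mk G σ)) →
      F p fun G => ∀ b, EG G b (NG.mk G (baN av)) → ∀ U,
        (∀ z, EG G z U ↔ EG G z (NG.mk G (sn zv)) ∧
          Val (EG G) (NG.mk G (hN ev')) z b) → EG G U (NG.mk G σ) := by
    intro σ p hT hW
    unfold baN
    refine F.bsn.2 fun b r hr hb G hG U hU => ?_
    have h1 : U = NG.mk G (unN zv ev' b) :=
      NG_ext G _ _ fun z => (hU z).trans (unN_iff zv ev' b G z).symm
    rw [h1]
    exact unN_mem av zv ev' G _ (hT G (up_mem hr hG)) (hW G (up_mem hr hG)) b fun z hz =>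
      G.up hG (RO.up_le.2 (mem_lv.1 hb z hz))
  refine F.all.2 fun σ => F.imp.2 fun q _ hT => ?_
  refine F.imp.2 fun q' hq' hW G hG b U hb hU => ?_
  exact key σ q' (hT.mono hq') hW G hG b hb U hU

end CPI
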