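import Pool.Agent.CPI.FLang
import Pool.Agent.STP.YOrd
import Pool.Agent.STP.YSeq

/-! # Semantic forcing without formulas

(problem MP_ba5606_gt, project CPI, part B; no sorry in this file)

`TV S`: the statement `S` about the quotients `NG G` has a truth value. This is a class; all
connectives, the quantifiers over `NG G` and all notions of `Lang.lean`, `Coded.lean` applied to
classes `NG.mk G x` of names are instances. `F p S`: `S` is true in all `NG G` with `up p ∈ G`.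
The rules of forcing: `F.imp`, `F.no`, `F.or`, `F.ex`, `F.all`, `F.loc`, `F.top`, `F.dec`. -/

universe u

namespace CPI

open STP STP.BSet

variable {P : Type u} [PartialOrder P]

/-- the statement `S` about the quotients has a truth value -/
class TV (S : Ult (RO P) → Prop) : Prop where
  ex : ∃ b : RO P, ∀ G, S G ↔ b ∈ G.s

/-- `p` forces `S` -/
def F (p : P) (S : Ult (RO P) → Prop) : Prop := ∀ G : Ult (RO P), RO.up p ∈ G.s → S G

/-- the truth value -/
noncomputable def tv (S : Ult (RO P) → Prop) [h : TV S] : RO P := h.ex.choose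

theorem tv_iff {S : Ult (RO P) → Prop} [h : TV S] {G : Ult (RO P)} : S G ↔ tv S ∈ G.s :=
  h.ex.choose_spec G

theorem compl_mem {G : Ult (RO P)} {b : RO P} : bᶜ ∈ G.s ↔ b ∉ G.s := by
  constructor
  · intro h h'
    have h1 := G.inf h' h
    rw [inf_compl_eq_bot] at h1
    exact G.bot h1
  · intro h
    exact (G.dec b).resolve_left h

theorem inf_mem {G : Ult (RO P)} {a b : RO P} : a ⊓ b ∈ G.s ↔ a ∈ G.s ∧ b ∈ G.s :=
  ⟨fun h => ⟨G.up h inf_le_left, G.up h inf_le_right⟩, fun h => G.inf h.1 h.2⟩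

theorem himp_mem {G : Ult (RO P)} {a b : RO P} : a ⇨ b ∈ G.s ↔ (a ∈ G.s → b ∈ G.s) := by
  constructor
  · intro h h'
    exact G.up (G.inf h h') himp_inf_le
  · intro h
    rcases G.dec a with h1 | h1
    · exact G.up (h h1) le_himp
    · refine G.up h1 ?_
      rw [himp_eq]
      exact le_sup_right

theorem chi_mem {G : Ult (RO P)} {q : Prop} : (chi q : RO P) ∈ G.s ↔ q := by
  by_cases h : q
  · have h1 : (chi q : RO P) = ⊤ := iSup_pos h
    rw [h1]
    exact ⟨fun _ => h, fun _ => G.top⟩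
  · have h1 : (chi q : RO P) = ⊥ := iSup_neg h
    rw [h1]
    exact ⟨fun h2 => absurd h2 G.bot, fun h2 => absurd h2 h⟩

/-! ## Truth values -/

theorem TV.mk' {S : Ult (RO P) → Prop} (b : RO P) (h : ∀ G, S G ↔ b ∈ G.s) : TV S := ⟨b, h⟩

theorem TV.of_iff {S T : Ult (RO P) → Prop} [h : TV T] (h' : ∀ G, S G ↔ T G) : TV S :=
  ⟨tv T, fun G => (h' G).trans tv_iff⟩

theorem TV.of_sat (φ : Fml) (v : ℕ → BSet (RO P)) : TV fun G => sat (EG G) φ (ev G v) :=
  ⟨bval φ v, fun G => los' G φ v⟩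

instance TV.const (q : Prop) : TV fun _ : Ult (RO P) => q := ⟨chi q, fun _ => chi_mem.symm⟩

instance TV.and (S T : Ult (RO P) → Prop) [TV S] [TV T] : TV fun G => S G ∧ T G :=
  ⟨tv S ⊓ tv T, fun G => by rw [inf_mem, ← tv_iff, ← tv_iff]⟩

instance TV.imp (S T : Ult (RO P) → Prop) [TV S] [TV T] : TV fun G => S G → T G :=
  ⟨tv S ⇨ tv T, fun G => by rw [himp_mem, ← tv_iff, ← tv_iff]⟩

instance TV.no (S : Ult (RO P) → Prop) [TV S] : TV fun G => ¬ S G :=
  ⟨(tv S)ᶜ, fun G => by rw [compl_mem, ← tv_iff]⟩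

instance TV.or (S T : Ult (RO P) → Prop) [TV S] [TV T] : TV fun G => S G ∨ T G :=
  TV.of_iff (T := fun G => ¬ S G → T G) fun G => by tauto

instance TV.iff (S T : Ult (RO P) → Prop) [TV S] [TV T] : TV fun G => (S G ↔ T G) :=
  TV.of_iff (T := fun G => (S G → T G) ∧ (T G → S G)) fun G => by tauto

theorem ext_tv (S : (G : Ult (RO P)) → NG G → Prop) (b : BSet (RO P) → RO P)
    (hb : ∀ X G, S G (NG.mk G X) ↔ b X ∈ G.s) : Ext b := by
  intro x y
  refine Ult.mem_of_all fun G hG => ?_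
  obtain ⟨h1, h2⟩ := inf_mem.1 hG
  rw [← hb, ← NG.mk_eq.2 h1, hb]
  exact h2

/-- fullness -/
theorem TV.full (S : (G : Ult (RO P)) → NG G → Prop) [h : ∀ X, TV fun G => S G (NG.mk G X)] :
    ∃ X, ∀ G, (∃ x, S G x) ↔ S G (NG.mk G X) := by
  choose b hb using fun X => (h X).ex
  obtain ⟨X, hX⟩ := STP.BSet.full (ext_tv S b hb)
  refine ⟨X, fun G => ⟨?_, fun h1 => ⟨_, h1⟩⟩⟩
  rintro ⟨x, hx⟩
  obtain ⟨Y, rfl⟩ := NG.exists_rep x
  rw [hb] at hx ⊢
  refine G.up hx ?_
  rw [hX]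
  exact le_iSup b Y

instance TV.exi (S : (G : Ult (RO P)) → NG G → Prop) [h : ∀ X, TV fun G => S G (NG.mk G X)] :
    TV fun G => ∃ x, S G x := by
  obtain ⟨X, hX⟩ := TV.full S
  exact TV.of_iff (T := fun G => S G (NG.mk G X)) hX

instance TV.all (S : (G : Ult (RO P)) → NG G → Prop) [h : ∀ X, TV fun G => S G (NG.mk G X)] :
    TV fun G => ∀ x, S G x :=
  TV.of_iff (T := fun G => ¬ ∃ x, ¬ S G x) fun G => by push Not; rfl

instance TV.mem (x y : BSet (RO P)) : TV fun G => EG G (NG.mk G x) (NG.mk G y) :=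
  ⟨BSet.mem x y, fun _ => EG_mk⟩

instance TV.eq (x y : BSet (RO P)) : TV fun G => NG.mk G x = NG.mk G y :=
  ⟨BSet.eq x y, fun _ => NG.mk_eq⟩

/-! ## The rules of forcing -/

section

variable {p q : P} {S T : Ult (RO P) → Prop}

theorem F.mono (hq : q ≤ p) (h : F p S) : F q S := fun G hG => h G (up_mem hq hG)

theorem F.iff_mem [TV S] : F p S ↔ p ∈ tv S := by
  constructor
  · intro h
    exact RO.up_le.1 (Ult.mem_of_all fun G hG => tv_iff.1 (h G hG))
  · intro h G hG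
    exact tv_iff.2 (G.up hG (RO.up_le.2 h))

theorem F.of_val {b : RO P} (h : ∀ G, S G ↔ b ∈ G.s) : F p S ↔ p ∈ b := by
  constructor
  · intro h1
    exact RO.up_le.1 (Ult.mem_of_all fun G hG => (h G).1 (h1 G hG))
  · intro h1 G hG
    exact (h G).2 (G.up hG (RO.up_le.2 h1))

theorem F.loc [TV S] (h : ∀ q ≤ p, ∃ r ≤ q, F r S) : F p S := by
  rw [F.iff_mem]
  refine (tv S).locally fun q hq => ?_
  obtain ⟨r, hr, h1⟩ := h q hq
  exact ⟨r, hr, F.iff_mem.1 h1⟩

theorem F.top [TV S] (h : ∀ p : P, F p S) (G : Ult (RO P)) : S G := by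
  rw [tv_iff (S := S)]
  have h1 : tv S = ⊤ := top_le_iff.1 (RO.le_def.2 fun p _ => F.iff_mem.1 (h p))
  rw [h1]
  exact G.top

theorem F.of_all (h : ∀ G, S G) (p : P) : F p S := fun G _ => h G

theorem F.and : F p (fun G => S G ∧ T G) ↔ F p S ∧ F p T :=
  ⟨fun h => ⟨fun G hG => (h G hG).1, fun G hG => (h G hG).2⟩,
    fun h G hG => ⟨h.1 G hG, h.2 G hG⟩⟩

theorem F.not_false {p : P} : ¬ F p fun _ => False := by
  intro h
  have h1 : RO.up p ≤ ⊥ := Ult.mem_of_all fun G hG => (h G hG).elim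
  exact RO.not_mem_bot (RO.le_def.1 h1 p (RO.self_mem_up p))

theorem F.const {c : Prop} : F p (fun _ => c) ↔ c :=
  ⟨fun h => by
    by_contra hc
    exact F.not_false (p := p) fun G hG => hc (h G hG), fun h _ _ => h⟩

theorem F.imp [TV S] [TV T] : F p (fun G => S G → T G) ↔ ∀ q ≤ p, F q S → F q T := by
  constructor
  · intro h q hq h1 G hG
    exact h G (up_mem hq hG) (h1 G hG)
  · intro h G hG h1
    rw [tv_iff (S := S)] at h1
    rw [tv_iff (S := T)]
    refine G.up (G.inf hG h1) (RO.le_def.2 fun r hr => ?_)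
    refine (tv T).locally fun q hq => ?_
    obtain ⟨t, ht, ht'⟩ := RO.mem_up.1 hr.1 q hq
    exact ⟨t, ht, F.iff_mem.1 (h t ht' (F.iff_mem.2 ((tv S).down (ht.trans hq) hr.2)))⟩

theorem F.no [TV S] : F p (fun G => ¬ S G) ↔ ∀ q ≤ p, ¬ F q S := by
  have h1 : F p (fun G => S G → False) ↔ ∀ q ≤ p, F q S → F q fun _ => False := F.imp
  refine h1.trans ⟨fun h q hq h2 => F.not_false (h q hq h2), fun h q hq h2 => ?_⟩
  exact absurd h2 (h q hq)

theorem F.dec (p : P) (S : Ult (RO P) → Prop) [TV S] : ∃ q ≤ p, F q S ∨ F q fun G => ¬ S G := by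
  by_cases h : ∃ q ≤ p, F q S
  · obtain ⟨q, hq, h1⟩ := h
    exact ⟨q, hq, Or.inl h1⟩
  · push Not at h
    exact ⟨p, le_rfl, Or.inr (F.no.2 h)⟩

theorem F.exists_no [TV S] (h : ¬ F p S) : ∃ q ≤ p, F q fun G => ¬ S G := by
  by_contra hcon
  push Not at hcon
  refine h (F.loc fun q hq => ?_)
  obtain ⟨r, hr, h1 | h1⟩ := F.dec q S
  · exact ⟨r, hr, h1⟩
  · exact absurd h1 (hcon r (hr.trans hq))

theorem F.or [TV S] [TV T] : F p (fun G => S G ∨ T G) ↔ ∀ q ≤ p, ∃ r ≤ q, F r S ∨ F r T := by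
  constructor
  · intro h q hq
    obtain ⟨r, hr, h1 | h1⟩ := F.dec q S
    · exact ⟨r, hr, Or.inl h1⟩
    · exact ⟨r, hr, Or.inr fun G hG => (h G (up_mem (hr.trans hq) hG)).resolve_left (h1 G hG)⟩
  · intro h
    refine F.loc fun q hq => ?_
    obtain ⟨r, hr, h1 | h1⟩ := h q hq
    · exact ⟨r, hr, fun G hG => Or.inl (h1 G hG)⟩
    · exact ⟨r, hr, fun G hG => Or.inr (h1 G hG)⟩

theorem F.all {S : (G : Ult (RO P)) → NG G → Prop} :
    F p (fun G => ∀ x, S G x) ↔ ∀ X, F p fun G => S G (NG.mk G X) := by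
  constructor
  · intro h X G hG
    exact h G hG _
  · intro h G hG x
    obtain ⟨X, rfl⟩ := NG.exists_rep x
    exact h X G hG

theorem F.ex {S : (G : Ult (RO P)) → NG G → Prop} [h : ∀ X, TV fun G => S G (NG.mk G X)] :
    F p (fun G => ∃ x, S G x) ↔ ∃ X, F p fun G => S G (NG.mk G X) := by
  constructor
  · intro h1
    obtain ⟨X, hX⟩ := TV.full S
    exact ⟨X, fun G hG => (hX G).1 (h1 G hG)⟩
  · rintro ⟨X, hX⟩ G hG
    exact ⟨_, hX G hG⟩

/-- a statement which is false in some quotient is forced to be false by some condition -/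
theorem F.of_not [TV S] {G : Ult (RO P)} (h : S G) : ∃ p : P, F p S := by
  by_contra hcon
  push Not at hcon
  have h1 : tv S = ⊥ := le_bot_iff.1 (RO.le_def.2 fun p hp => absurd (F.iff_mem.2 hp) (hcon p))
  rw [tv_iff (S := S), h1] at h
  exact G.bot h

theorem F.mem {x y : BSet (RO P)} :
    F p (fun G => EG G (NG.mk G x) (NG.mk G y)) ↔ p ∈ BSet.mem x y := F.of_val fun _ => EG_mk

theorem F.eq {x y : BSet (RO P)} :
    F p (fun G => NG.mk G x = NG.mk G y) ↔ p ∈ BSet.eq x y := F.of_val fun _ => NG.mk_eq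

/-- a statement about names may be replaced by the statement about equal names -/
theorem F.subst {S : (G : Ult (RO P)) → NG G → Prop} {X Y : BSet (RO P)}
    (h : F p fun G => NG.mk G X = NG.mk G Y) (h' : F p fun G => S G (NG.mk G Y)) :
    F p fun G => S G (NG.mk G X) := fun G hG => by
  have h1 : S G (NG.mk G Y) := h' G hG
  have h2 : NG.mk G X = NG.mk G Y := h G hG
  rw [← h2] at h1
  exact h1

end

/-! ## Truth values of the notions of set theory -/

section

variable (a b c d e f g x y z : BSet (RO P))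

instance : TV fun G => Sub (EG G) (NG.mk G x) (NG.mk G y) :=
  TV.of_iff (h := TV.of_sat (fSub 0 1) (vl [x, y])) fun G => by simp

instance : TV fun G => IsUP (EG G) (NG.mk G a) (NG.mk G x) (NG.mk G y) :=
  TV.of_iff (h := TV.of_sat (fUP 0 1 2) (vl [a, x, y])) fun G => by simp

instance : TV fun G => IsOP (EG G) (NG.mk G a) (NG.mk G x) (NG.mk G y) :=
  TV.of_iff (h := TV.of_sat (fOP 0 1 2) (vl [a, x, y])) fun G => by simp

instance : TV fun G => Val (EG G) (NG.mk G f) (NG.mk G x) (NG.mk G y) :=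
  TV.of_iff (h := TV.of_sat (fVal 0 1 2) (vl [f, x, y])) fun G => by simp

instance : TV fun G => IsFun (EG G) (NG.mk G f) (NG.mk G a) :=
  TV.of_iff (h := TV.of_sat (fFun 0 1) (vl [f, a])) fun G => by simp

instance : TV fun G => IsOrd (EG G) (NG.mk G a) :=
  TV.of_iff (h := TV.of_sat (fOrd 0) (vl [a])) fun G => by simp

instance : TV fun G => IsOm (EG G) (NG.mk G a) :=
  TV.of_iff (h := TV.of_sat (fOm 0) (vl [a])) fun G => by simp

instance : TV fun G => IsSc (EG G) (NG.mk G a) (NG.mk G b) :=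
  TV.of_iff (h := TV.of_sat (fSc 0 1) (vl [a, b])) fun G => by simp

instance : TV fun G => Sm (EG G) (NG.mk G a) (NG.mk G b) :=
  TV.of_iff (h := TV.of_sat (fSm 0 1) (vl [a, b])) fun G => by simp

instance : TV fun G => IsUn (EG G) (NG.mk G a) (NG.mk G b) :=
  TV.of_iff (h := TV.of_sat (fUn 0 1) (vl [a, b])) fun G => by simp

instance : TV fun G => IsInt (EG G) (NG.mk G a) (NG.mk G b) (NG.mk G c) :=
  TV.of_iff (h := TV.of_sat (fInt 0 1 2) (vl [a, b, c])) fun G => by simp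

instance : TV fun G => IsCnt (EG G) (NG.mk G a) :=
  TV.of_iff (h := TV.of_sat (fCnt 0) (vl [a])) fun G => by simp

instance : TV fun G => IsFin (EG G) (NG.mk G a) :=
  TV.of_iff (h := TV.of_sat (fFin 0) (vl [a])) fun G => by simp

instance : TV fun G => IsTop (EG G) (NG.mk G a) (NG.mk G b) :=
  TV.of_iff (h := TV.of_sat (fTop 0 1) (vl [a, b])) fun G => by simp

instance : TV fun G => IsRL (EG G) (NG.mk G a) (NG.mk G b) :=
  TV.of_iff (h := TV.of_sat (fRL 0 1) (vl [a, b])) fun G => by simp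

instance : TV fun G => CSp (EG G) (NG.mk G a) (NG.mk G b) (NG.mk G c) :=
  TV.of_iff (h := TV.of_sat (fCSp 0 1 2) (vl [a, b, c])) fun G => by simp

instance : TV fun G => CHd (EG G) (NG.mk G a) (NG.mk G b) (NG.mk G c) :=
  TV.of_iff (h := TV.of_sat (fCHd 0 1 2) (vl [a, b, c])) fun G => by simp

instance : TV fun G => CCov (EG G) (NG.mk G a) (NG.mk G b) (NG.mk G c) :=
  TV.of_iff (h := TV.of_sat (fCCov 0 1 2) (vl [a, b, c])) fun G => by simp

instance : TV fun G => CLin (EG G) (NG.mk G a) (NG.mk G b) (NG.mk G c) :=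
  TV.of_iff (h := TV.of_sat (fCLin 0 1 2) (vl [a, b, c])) fun G => by simp

instance : TV fun G => CCpt (EG G) (NG.mk G a) (NG.mk G b) (NG.mk G c) :=
  TV.of_iff (h := TV.of_sat (fCCpt 0 1 2) (vl [a, b, c])) fun G => by simp

instance : TV fun G => CCts (EG G) (NG.mk G a) (NG.mk G b) (NG.mk G c) (NG.mk G d) (NG.mk G e)
    (NG.mk G f) :=
  TV.of_iff (h := TV.of_sat (fCCts 0 1 2 3 4 5) (vl [a, b, c, d, e, f])) fun G => by
    simp [STP.vl]

instance : TV fun G => Ap (EG G) (NG.mk G a) (NG.mk G b) (NG.mk G c) (NG.mk G d) :=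
  TV.of_iff (h := TV.of_sat (fAp 0 1 2 3) (vl [a, b, c, d])) fun G => by simp [STP.vl]

instance : TV fun G => CEv (EG G) (NG.mk G a) (NG.mk G b) (NG.mk G c) (NG.mk G d) :=
  TV.of_iff (h := TV.of_sat (fCEv 0 1 2 3) (vl [a, b, c, d])) fun G => by simp [STP.vl]

instance : TV fun G => CSec (EG G) (NG.mk G a) (NG.mk G b) (NG.mk G c) (NG.mk G d) (NG.mk G e)
    (NG.mk G f) (NG.mk G g) :=
  TV.of_iff (h := TV.of_sat (fCSec 0 1 2 3 4 5 6) (vl [a, b, c, d, e, f, g])) fun G => by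
    simp [STP.vl]

instance : TV fun G => CSur (EG G) (NG.mk G a) (NG.mk G b) (NG.mk G c) (NG.mk G d) (NG.mk G e)
    (NG.mk G f) (NG.mk G g) :=
  TV.of_iff (h := TV.of_sat (fCSur 0 1 2 3 4 5 6) (vl [a, b, c, d, e, f, g])) fun G => by
    simp [STP.vl]

instance : TV fun G => CSb (EG G) (NG.mk G a) (NG.mk G b) (NG.mk G c) (NG.mk G d) (NG.mk G e)
    (NG.mk G f) (NG.mk G g) :=
  TV.of_iff (h := TV.of_sat (fCSb 0 1 2 3 4 5 6) (vl [a, b, c, d, e, f, g])) fun G => by
    simp [STP.vl]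

instance : TV fun G => CPw (EG G) (NG.mk G a) (NG.mk G b) (NG.mk G c) (NG.mk G d) (NG.mk G e)
    (NG.mk G f) :=
  TV.of_iff (h := TV.of_sat (fCPw 0 1 2 3 4 5) (vl [a, b, c, d, e, f])) fun G => by
    simp [STP.vl]

instance : TV fun G => CTop (EG G) (NG.mk G a) (NG.mk G b) (NG.mk G c) (NG.mk G d) (NG.mk G e)
    (NG.mk G f) (NG.mk G g) :=
  TV.of_iff (h := TV.of_sat (fCTop 0 1 2 3 4 5 6) (vl [a, b, c, d, e, f, g])) fun G => by
    simp [STP.vl]

instance : TV fun G => CInj (EG G) (NG.mk G a) (NG.mk G b) (NG.mk G c) :=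
  TV.of_iff (h := TV.of_sat (fCInj 0 1 2) (vl [a, b, c])) fun G => by simp

instance : TV fun G => CDn (EG G) (NG.mk G a) (NG.mk G b) (NG.mk G c) (NG.mk G d) :=
  TV.of_iff (h := TV.of_sat (fCDn 0 1 2 3) (vl [a, b, c, d])) fun G => by simp [STP.vl]

instance : TV fun G => CNet (EG G) (NG.mk G a) (NG.mk G b) (NG.mk G c) :=
  TV.of_iff (h := TV.of_sat (fCNet 0 1 2) (vl [a, b, c])) fun G => by simp

end

end CPI
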