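import Pool.Agent.CPI.BSp
import Pool.Agent.CPI.BCpt
import Pool.Agent.CPI.BNlin
import Pool.Agent.CPI.BEv
import Pool.Agent.CPI.BSec
import Pool.Agent.CPI.BSur
import Pool.Agent.CPI.BTop
import Pool.Agent.CPI.BNet
import Pool.Agent.CPI.BRLa
import Pool.Agent.CPI.BRLb

/-! # The bridge: typed statements imply the coded statements in all quotients `NG G`

(problem MP_ba5606_gt, project CPI; assembly of part B: `br_sp`, `br_hd`, `br_dn` (file `BSp`), `br_cpt`,
`br_lin` (`BCpt`), `br_nlin` (`BNlin`), `br_ev`, `br_inj` (`BEv`), `br_sec`, `br_sb` (`BSec`), `br_sur`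
(`BSur`), `br_top` (`BTop`), `br_net` (`BNet`), `br_cnt` (`BOmB`), `br_rl` (here)) -/

namespace CPI

open STP STP.BSet

theorem br_rl {P : Type} [PartialOrder P] (hP : Sig P) (G : Ult (RO P)) :
    IsRL (EG G) (NG.mk G RN) (NG.mk G lN) :=
  ⟨rl_ne G, rl_dom G, rl_irr G, rl_tr G, rl_tot G, rl_end G, rl_sep G, rl_sup hP G⟩

end CPI
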