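import Pool.Agent.CPI.CDef

/-! # Nodes and branches (package C01)

(problem MP_ba5606_gt, project CPI)

* `rs_length`: `rs x n = (List.range n).map x`. `rs_inj`: compare lengths, then the entries
  (`List.getElem_map`, `List.getElem_range`).
* `rs_ne`: if `x i ≠ y i` then `rs x n = rs y m` with `i < n` would give `n = m` and `x i = y i`.
* `ev_not_mem`: a finite set of lists contains `rs x n` for at most `sup of the lengths` many `n`: if
  `n > length t` for all `t ∈ D` then `rs x n ∉ D`.
* `ev_ne`: for a finite set `F` of branches different from `x`, eventually `rs x n ≠ rs y m` for all `y ∈ F` and all `m`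
  (`rs_ne`, finite intersection of eventually true statements, `Filter.eventually_all_finset`). -/

namespace CPI

theorem rs_length (x : Ct) (n : ℕ) : (rs x n).length = n := by
  simp [rs]

theorem rs_inj {x y : Ct} {n m : ℕ} (h : rs x n = rs y m) : n = m ∧ ∀ i < n, x i = y i := by
  have h1 : n = m := by
    have := congrArg List.length h
    rwa [rs_length, rs_length] at this
  subst h1
  refine ⟨rfl, fun i hi => ?_⟩
  have h2 := congrArg (fun l : List Bool => l[i]?) h
  simpa [rs, hi] using h2

theorem rs_ne {x y : Ct} (h : x ≠ y) : ∃ n0, ∀ n, n0 ≤ n → ∀ m, rs x n ≠ rs y m := by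
  obtain ⟨i, hi⟩ := Function.ne_iff.1 h
  exact ⟨i + 1, fun n hn m hnm => hi ((rs_inj hnm).2 i hn)⟩

theorem ev_not_mem (x : Ct) (D : Finset (List Bool)) :
    ∀ᶠ n in Filter.atTop, rs x n ∉ D := by
  filter_upwards [Filter.eventually_gt_atTop (D.sup List.length)] with n hn h
  have h1 : (rs x n).length ≤ D.sup List.length := Finset.le_sup (f := List.length) h
  rw [rs_length] at h1
  omega

theorem ev_ne (x : Ct) (F : Finset Ct) (hx : x ∉ F) :
    ∀ᶠ n in Filter.atTop, ∀ y ∈ F, ∀ m, rs x n ≠ rs y m := by
  rw [Filter.eventually_all_finset]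
  intro y hy
  obtain ⟨n0, h0⟩ := rs_ne (x := x) (y := y) (by rintro rfl; exact hx hy)
  filter_upwards [Filter.eventually_ge_atTop n0] with n hn
  exact h0 n hn

/-- the Cantor set is uncountable -/
theorem exists_not_mem {c : Set Ct} (hc : c.Countable) : ∃ x, x ∉ c := by
  have h4 : Cardinal.mk (ℕ → Bool) = Cardinal.continuum := by simp
  by_contra h
  push Not at h
  have h1 : c = Set.univ := Set.eq_univ_of_forall h
  rw [h1] at hc
  have h2 : Countable Ct := Set.countable_univ_iff.1 hc
  have h3 : Cardinal.mk (ℕ → Bool) ≤ Cardinal.aleph0 := Cardinal.mk_le_aleph0_iff.2 h2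
  rw [h4] at h3
  exact absurd h3 (not_le.2 Cardinal.aleph0_lt_continuum)

end CPI
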