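import Pool.Agent.CPI.CFun

/-! # The set of branches at which a function differs from its value at infinity (package C03)

(problem MP_ba5606_gt, project CPI; uses `CBas.lean`, `CFun.lean`)

* `cf_fin`: let `F`, `D` be as in clause (2) of `IsB` for `ε`. If `x ∉ F` then eventually `rs x n
∉ D` and `rs x n` is on no
  branch of `F` (`ev_not_mem`, `ev_ne`), so `|f (nd (rs x n)) - f oo| < ε` eventually; in the limit
  `|f (br x) - f oo| ≤ ε`. So `{x | ε < |f (br x) - f oo|} ⊆ F`.
* `cf_countable`: `Cf f = ⋃ n, {x | 1/(n+1) < |f (br x) - f oo|}`.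
* `cf_chb`: `indB x 0` is `1` at `br x` and `0` at the other branches and at `oo`. `cf_chn`: all
values at branches and
  `oo` are `0`.
* `cf_sfun`: if `y ∉ l` then all terms `indB z.1 _ (br y)` of the first sum vanish (`z.1 ∈ l` by
`List.of_mem_zip` or
  `List.mem_of_mem_zip...`), the same at `oo`, and the nodes do not contribute at `br y` and `oo`;
so the value at
  `br y` is the value at `oo` (both are `k.1`). -/

namespace CPI

open Filter

theorem cf_fin (f : BF) {ε : ℝ} (hε : 0 < ε) :
    {x : Ct | ε < |f.1 (.br x) - f.1 .oo|}.Finite := by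
  obtain ⟨F, D, h⟩ := f.2.2 ε hε
  refine F.finite_toSet.subset fun x hx => ?_
  by_contra hxF
  have h1 := ev_not_mem x D
  have h2 := ev_ne x F hxF
  have h3 : ∀ᶠ n in atTop, |f.1 (.nd (rs x n)) - f.1 .oo| ≤ ε := by
    filter_upwards [h1, h2] with n hn hn'
    exact (h _ hn fun y hy m => hn' y hy m).le
  have h4 : Tendsto (fun n => |f.1 (.nd (rs x n)) - f.1 .oo|) atTop
      (nhds |f.1 (.br x) - f.1 .oo|) := ((f.2.1 x).sub_const _).abs
  exact absurd hx (not_lt.2 (le_of_tendsto h4 h3))

theorem cf_countable (f : BF) : (Cf f).Countable := by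
  have h1 : Cf f ⊆ ⋃ n : ℕ, {x : Ct | 1 / ((n : ℝ) + 1) < |f.1 (.br x) - f.1 .oo|} := by
    intro x hx
    obtain ⟨n, hn⟩ := exists_nat_one_div_lt (abs_pos.2 (sub_ne_zero.2 hx))
    exact Set.mem_iUnion.2 ⟨n, hn⟩
  exact (Set.countable_iUnion fun n => (cf_fin f (by positivity)).countable).mono h1

private theorem indB_br_ne {x y : Ct} (h : y ≠ x) (m : ℕ) : indB x m (.br y) = 0 := by
  simp only [indB]
  rw [if_neg h]

private theorem indB_br_self (x : Ct) (m : ℕ) : indB x m (.br x) = 1 := by
  simp only [indB]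
  rw [if_pos trivial]

private theorem indN_br (t : List Bool) (y : Ct) : indN t (.br y) = 0 := by
  unfold indN
  rw [if_neg (by simp)]

private theorem indN_oo (t : List Bool) : indN t .oo = 0 := by
  unfold indN
  rw [if_neg (by simp)]

theorem cf_chb (x : Ct) : Cf (chb x) = {x} := by
  ext y
  rw [Set.mem_singleton_iff]
  change indB x 0 (.br y) ≠ (0 : ℝ) ↔ y = x
  constructor
  · intro h
    by_contra hne
    exact h (indB_br_ne hne 0)
  · rintro rfl
    rw [indB_br_self]
    exact one_ne_zero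

theorem cf_chn (t : List Bool) : Cf (chn t) = ∅ := by
  ext y
  change indN t (.br y) ≠ indN t .oo ↔ False
  rw [indN_br, indN_oo]
  simp

theorem cf_sfun (k : KD) (l : List Ct) : ∀ x ∈ Cf (sfun k l), x ∈ l := by
  intro y hy
  by_contra hyl
  refine hy ?_
  change sfunV k l (.br y) = sfunV k l .oo
  unfold sfunV
  have h1 : ((l.zip k.2.1).map fun z => (z.2.2 : ℝ) * indB z.1 z.2.1 (.br y)) =
      (l.zip k.2.1).map fun z => (z.2.2 : ℝ) * indB z.1 z.2.1 .oo := by
    refine List.map_congr_left fun z hz => ?_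
    have h2 : z.1 ∈ l := (List.of_mem_zip hz).1
    have h3 : y ≠ z.1 := fun h => hyl (h ▸ h2)
    rw [indB_br_ne h3]
    rfl
  have h4 : (k.2.2.map fun z => (z.2 : ℝ) * indN z.1 (.br y)) =
      k.2.2.map fun z => (z.2 : ℝ) * indN z.1 .oo := by
    refine List.map_congr_left fun z _ => ?_
    rw [indN_br, indN_oo]
  rw [h1, h4]

end CPI
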