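import Pool.Agent.CPI.CCf

/-! # `K_S` is compact; the nodes are dense (package C17)

(problem MP_ba5606_gt, project CPI; uses `cf_fin`, `cf_countable` (CCf), `ev_not_mem`, `ev_ne`, `exists_not_mem` (CBas))

(N1) if `hit evX (br x) b` then eventually `hit evX (nd (rs x n)) b` (`f (nd (rs x n)) → f (br x)` for `f : BF`, finitely many open conditions).
(N3) if `hit evX oo b` there are finite sets `F`, `D` such that `hit evX (nd t) b` for all nodes `t ∉ D` on no branch of `F` (clause (2) of `IsB` with `ε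
= min (f oo - a) (c - f oo)` for every condition `(f, a, c)`; induction on `b`). (N4) if `hit evX oo b` the set of the branches `x` with `¬ hit evX (br x) b` is
finite (`cf_fin` with half of this `ε`: the condition can fail only if `ε ≤ |f (br x) - f oo|`), and these `x` are in `Cf f` for some `f` in `b`, so in `r.s` if
`r ∈ lv yv b`.
* `tcpt0'`: let `O`, `p` be as in `TCpt`. `a = oo`: `r1 ≤ p`, `b1`, `r1 ∈ O b1`, `hit evX oo b1`. Let `X1` be the finite set of (N4) for `b1`; `X1 ⊆ r1.s` (`hO`, `mem_lv`). By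
  induction on finite sets there are `r2 ≤ r1` and for each `x ∈ X1` a code `b_x` with `r2 ∈ O b_x`, `hit evX (br x) b_x` (`r ∈ ptv (br x)` for `r ≤ r1`; use `RO.down`).
  Nodes: let `F`, `D` be as in (N3) for `b1`. For `x ∈ F`: if `x ∈ X1` then (N1) for `b_x`, otherwise (N1) for `b1` (`hit evX (br x) b1`), show that only finitely many
  nodes of the branch `x` are in none of the basic sets. So the set `T1` of the nodes which are in none of the sets `b1`, `b_x` is finite. Again by induction there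
  are `q ≤ r2` and `b_t`, `t ∈ T1`, with `q ∈ O b_t`, `hit evX (nd t) b_t`. `β := b1 :: (the b_x) ++ (the b_t)`. Every point is in one of these sets (a branch
  `x ∉ X1` is in `b1`). A convenient lemma for both inductions: for a finite set `S` of points and `r ≤ p` with `r ∈ ptv a` for `a ∈ S` there are `q ≤ r` and a list `β` of
  codes in `O` (forced by `q`) such that every `a ∈ S` is in one of them.
* `tdn0'`: first clause: `ptv (nd t) = ⊤`. Second clause: `hit evX a b`: if `a` is a node take it; if `a = br x` use (N1); if `a = oo`: choose a branch `x` outside the countable union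
  of the `Cf f`, `f` in `b` (`cf_countable`, `exists_not_mem`); then `f (br x) = f oo`, so `hit evX (br x) b`, and (N1). -/

namespace CPI

open STP

private theorem n1 {x : Ct} {b : Iv BF} (h : hit evX (.br x) b) :
    ∀ᶠ n in Filter.atTop, hit evX (.nd (rs x n)) b := by
  induction b with
  | nil => exact Filter.Eventually.of_forall fun n z hz => absurd hz List.not_mem_nil
  | cons z b ih =>
    have h1 := h z List.mem_cons_self
    have h2 := ih fun w hw => h w (List.mem_cons_of_mem _ hw)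
    have h3 := z.1.2.1 x
    have h4 := h3.eventually (lt_mem_nhds h1.1)
    have h5 := h3.eventually (gt_mem_nhds h1.2)
    filter_upwards [h2, h4, h5] with n k2 k4 k5 w hw
    rcases List.mem_cons.1 hw with rfl | hw
    · exact ⟨k4, k5⟩
    · exact k2 w hw

private theorem n3 {b : Iv BF} (h : hit evX .oo b) :
    ∃ (F : Finset Ct) (D : Finset (List Bool)),
      ∀ t, t ∉ D → (∀ x ∈ F, ∀ n, t ≠ rs x n) → hit evX (.nd t) b := by
  classical
  induction b with
  | nil => exact ⟨∅, ∅, fun t _ _ z hz => absurd hz List.not_mem_nil⟩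
  | cons z b ih =>
    have h1 := h z List.mem_cons_self
    obtain ⟨F, D, h2⟩ := ih fun w hw => h w (List.mem_cons_of_mem _ hw)
    have h6 : (0 : ℝ) < min (evX .oo z.1 - z.2.1) (z.2.2 - evX .oo z.1) :=
      lt_min (sub_pos.2 h1.1) (sub_pos.2 h1.2)
    obtain ⟨F', D', h3⟩ := z.1.2.2 _ h6
    refine ⟨F ∪ F', D ∪ D', fun t ht hn w hw => ?_⟩
    rw [Finset.mem_union, not_or] at ht
    rcases List.mem_cons.1 hw with rfl | hw
    · have h4 := h3 t ht.2 fun x hx => hn x (Finset.mem_union_right _ hx)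
      have h5 := abs_lt.1 h4
      have h7 := min_le_left (evX .oo w.1 - w.2.1) ((w.2.2 : ℝ) - evX .oo w.1)
      have h8 := min_le_right (evX .oo w.1 - w.2.1) ((w.2.2 : ℝ) - evX .oo w.1)
      change (w.2.1 : ℝ) < w.1.1 (.nd t) ∧ w.1.1 (.nd t) < w.2.2
      unfold evX at h5 h7 h8
      constructor <;> linarith [h5.1, h5.2]
    · exact h2 t ht.1 (fun x hx => hn x (Finset.mem_union_left _ hx)) w hw

private theorem n4 {b : Iv BF} (h : hit evX .oo b) :
    {x | ¬ hit evX (.br x) b}.Finite ∧ ∀ x, ¬ hit evX (.br x) b → ∃ z ∈ b, x ∈ Cf z.1 := by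
  constructor
  · induction b with
    | nil =>
      refine Set.Finite.subset Set.finite_empty fun x hx => hx fun z hz => ?_
      exact absurd hz List.not_mem_nil
    | cons z b ih =>
      have h1 := h z List.mem_cons_self
      have h2 := ih fun w hw => h w (List.mem_cons_of_mem _ hw)
      have h6 : (0 : ℝ) < min (evX .oo z.1 - z.2.1) (z.2.2 - evX .oo z.1) / 2 :=
        half_pos (lt_min (sub_pos.2 h1.1) (sub_pos.2 h1.2))
      refine ((cf_fin z.1 h6).union h2).subset fun x hx => ?_
      by_contra hc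
      rw [Set.mem_union, not_or] at hc
      obtain ⟨k1, k2⟩ := hc
      refine hx fun w hw => ?_
      rcases List.mem_cons.1 hw with rfl | hw
      · have h4 : |w.1.1 (.br x) - w.1.1 .oo| ≤
            min (evX .oo w.1 - w.2.1) ((w.2.2 : ℝ) - evX .oo w.1) / 2 := not_lt.1 k1
        have h5 := abs_le.1 h4
        have h7 := min_le_left (evX .oo w.1 - w.2.1) ((w.2.2 : ℝ) - evX .oo w.1)
        have h8 := min_le_right (evX .oo w.1 - w.2.1) ((w.2.2 : ℝ) - evX .oo w.1)
        change (w.2.1 : ℝ) < w.1.1 (.br x) ∧ w.1.1 (.br x) < w.2.2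
        unfold evX at h5 h6 h7 h8
        constructor <;> linarith [h5.1, h5.2]
      · by_contra hc
        exact k2 fun hh => hc (hh w hw)
  · intro x hx
    by_contra hc
    push Not at hc
    refine hx fun z hz => ?_
    have h1 : z.1.1 (.br x) = z.1.1 .oo := by
      by_contra h2
      exact hc z hz h2
    have h2 := h z hz
    unfold evX at h2 ⊢
    rw [h1]
    exact h2

private theorem cov {O : Iv BF → RO Cd} {p : Cd}
    (hc : ∀ q ≤ p, ∀ a, q ∈ ptv a → ∃ r ≤ q, ∃ b, r ∈ O b ∧ hit evX a b)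
    (S : List Pt) : ∀ r ≤ p, (∀ a ∈ S, r ∈ ptv a) → ∃ q ≤ r, ∃ β : List (Iv BF),
      (∀ b ∈ β, q ∈ O b) ∧ ∀ a ∈ S, ∃ b ∈ β, hit evX a b := by
  induction S with
  | nil =>
    intro r _ _
    exact ⟨r, le_rfl, [], fun b hb => absurd hb List.not_mem_nil,
      fun a ha => absurd ha List.not_mem_nil⟩
  | cons a S ih =>
    intro r hr hS
    obtain ⟨q, hq, β, h1, h2⟩ := ih r hr fun a' ha' => hS a' (List.mem_cons_of_mem _ ha')
    obtain ⟨q', hq', b, h3, h4⟩ :=
      hc q (hq.trans hr) a ((ptv a).down hq (hS a List.mem_cons_self))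
    refine ⟨q', hq'.trans hq, b :: β, ?_, ?_⟩
    · intro b' hb'
      rcases List.mem_cons.1 hb' with rfl | hb'
      · exact h3
      · exact (O b').down hq' (h1 b' hb')
    · intro a' ha'
      rcases List.mem_cons.1 ha' with rfl | ha'
      · exact ⟨b, List.mem_cons_self, h4⟩
      · obtain ⟨b', hb', h5⟩ := h2 a' ha'
        exact ⟨b', List.mem_cons_of_mem _ hb', h5⟩

theorem tcpt0' : TCpt ptv yv evX := by
  classical
  intro O p hO hc
  obtain ⟨r1, hr1, b1, hb1, hit1⟩ := hc p le_rfl .oo RO.mem_top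
  obtain ⟨hfin, hcf⟩ := n4 hit1
  have hX : ∀ a ∈ hfin.toFinset.toList.map Pt.br, r1 ∈ ptv a := by
    intro a ha
    obtain ⟨x, hx, rfl⟩ := List.mem_map.1 ha
    rw [Finset.mem_toList, Set.Finite.mem_toFinset] at hx
    obtain ⟨z, hz, hxz⟩ := hcf x hx
    have h1 : r1 ∈ lv yv b1 := hO b1 r1 hb1
    exact mem_ptv_br.2 (mem_yv.1 (mem_lv.1 h1 z hz) hxz)
  obtain ⟨r2, hr2, β1, h1, h2⟩ := cov hc _ r1 hr1 hX
  have hbr : ∀ x : Ct, ∃ b ∈ b1 :: β1, hit evX (.br x) b := by
    intro x
    by_cases hx : hit evX (.br x) b1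
    · exact ⟨b1, List.mem_cons_self, hx⟩
    · obtain ⟨b, hb, h3⟩ := h2 (.br x) (List.mem_map.2 ⟨x, by
        rw [Finset.mem_toList, Set.Finite.mem_toFinset]
        exact hx, rfl⟩)
      exact ⟨b, List.mem_cons_of_mem _ hb, h3⟩
  obtain ⟨F, D, hFD⟩ := n3 hit1
  have hT : {t : List Bool | ¬ ∃ b ∈ b1 :: β1, hit evX (.nd t) b}.Finite := by
    have hx : ∀ x : Ct,
        {t : List Bool | (¬ ∃ b ∈ b1 :: β1, hit evX (.nd t) b) ∧ ∃ n, t = rs x n}.Finite := by
      intro x
      obtain ⟨b, hb, h3⟩ := hbr x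
      obtain ⟨N, hN⟩ := Filter.eventually_atTop.1 (n1 h3)
      refine ((Finset.range N).finite_toSet.image (rs x)).subset ?_
      rintro t ⟨h4, n, rfl⟩
      refine ⟨n, ?_, rfl⟩
      rw [Finset.mem_coe, Finset.mem_range]
      by_contra h5
      exact h4 ⟨b, hb, hN n (not_lt.1 h5)⟩
    refine (D.finite_toSet.union (F.finite_toSet.biUnion fun x _ => hx x)).subset ?_
    intro t ht
    by_contra hcon
    rw [Set.mem_union, not_or] at hcon
    refine ht ⟨b1, List.mem_cons_self, hFD t hcon.1 fun x hxF n hn => hcon.2 ?_⟩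
    rw [Set.mem_iUnion₂]
    exact ⟨x, hxF, ht, n, hn⟩
  obtain ⟨q, hq, β2, h3, h4⟩ := cov hc (hT.toFinset.toList.map Pt.nd) r2 (hr2.trans hr1)
    (by
      intro a ha
      obtain ⟨t, -, rfl⟩ := List.mem_map.1 ha
      exact RO.mem_top)
  refine ⟨q, (hq.trans hr2).trans hr1, (b1 :: β1) ++ β2, ?_, ?_⟩
  · intro b hb
    rcases List.mem_append.1 hb with hb | hb
    · rcases List.mem_cons.1 hb with rfl | hb
      · exact (O b).down (hq.trans hr2) hb1
      · exact (O b).down hq (h1 b hb)
    · exact h3 b hb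
  · intro r _ a _
    have key : (∃ b ∈ b1 :: β1, hit evX a b) → ∃ b ∈ (b1 :: β1) ++ β2, hit evX a b := by
      rintro ⟨b, hb, h5⟩
      exact ⟨b, List.mem_append_left _ hb, h5⟩
    cases a with
    | nd t =>
      by_cases ht : ∃ b ∈ b1 :: β1, hit evX (.nd t) b
      · exact key ht
      · obtain ⟨b, hb, h5⟩ := h4 (.nd t) (List.mem_map.2 ⟨t, by
          rw [Finset.mem_toList, Set.Finite.mem_toFinset]
          exact ht, rfl⟩)
        exact ⟨b, List.mem_append_right _ hb, h5⟩
    | br x => exact key (hbr x)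
    | oo => exact key ⟨b1, List.mem_cons_self, hit1⟩

theorem tdn0' : TDn ptv yv evX (Set.range Pt.nd) := by
  constructor
  · rintro _ ⟨t, rfl⟩ q
    exact RO.mem_top
  · intro q a b _ _ h
    have key : ∀ x : Ct, hit evX (.br x) b → ∃ d ∈ Set.range Pt.nd, hit evX d b := by
      intro x hx
      obtain ⟨n, hn⟩ := (n1 hx).exists
      exact ⟨_, ⟨_, rfl⟩, hn⟩
    cases a with
    | nd t => exact ⟨_, ⟨t, rfl⟩, h⟩
    | br x => exact key x h
    | oo =>
      obtain ⟨x, hx⟩ := exists_not_mem
        ((List.finite_toSet b).countable.biUnion fun z _ => cf_countable z.1)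
      refine key x ?_
      by_contra hc
      obtain ⟨z, hz, h1⟩ := (n4 h).2 x hc
      refine hx ?_
      rw [Set.mem_iUnion₂]
      exact ⟨z, hz, h1⟩

end CPI
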