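import Pool.Agent.CPI.Typed

/-! # Definitions for part C (poset combinatorics)

(problem MP_ba5606_gt, project CPI; no sorry in this file)

* `iN t`, `iB x m`: the characteristic functions of the node `t`, and of the branch `x` together with its nodes of
  length at least `m`.
* `Shp`: shapes of finite systems of conditions, `inst l` replaces the index `i` by the branch `l[i]`.
* `KD`: data of simple rational functions; `sfun k l` is the simple function with the data `k` and the branches `l`.
* `Pin s b`: the branches which occur in `b` are elements of `s`. -/

namespace CPI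

open STP

/-- characteristic function of a node -/
noncomputable def indN (t : List Bool) (p : Pt) : ℝ :=
  open Classical in if p = .nd t then 1 else 0

/-- characteristic function of the branch `x` and its nodes of length at least `m` -/
noncomputable def indB (x : Ct) (m : ℕ) : Pt → ℝ
  | .nd t => open Classical in if ∃ n, m ≤ n ∧ t = rs x n then 1 else 0
  | .br y => open Classical in if y = x then 1 else 0
  | .oo => 0

/-- The branches which occur in `b` are elements of `s`. -/
def Pin (s : Set Ct) (b : Iv Pt) : Prop := ∀ z ∈ b, ∀ x, z.1 = .br x → x ∈ s

theorem mem_lv_ptv {b : Iv Pt} {p : Cd} : p ∈ lv ptv b ↔ Pin p.s b := by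
  rw [mem_lv]
  constructor
  · intro h z hz x hx
    have h1 := h z hz
    rw [hx] at h1
    exact mem_ptv_br.1 h1
  · intro h z hz
    have h1 := h z hz
    rcases z with ⟨_ | x | _, q⟩
    · exact RO.mem_top
    · exact mem_ptv_br.2 (h1 x rfl)
    · exact RO.mem_top

theorem Pin.append {s : Set Ct} {b b' : Iv Pt} (h : Pin s b) (h' : Pin s b') :
    Pin s (b ++ b') := by
  intro z hz x hx
  rcases List.mem_append.1 hz with h1 | h1
  · exact h z h1 x hx
  · exact h' z h1 x hx

theorem Pin.mono {s s' : Set Ct} (hs : s ⊆ s') {b : Iv Pt} (h : Pin s b) : Pin s' b :=
  fun z hz x hx => hs (h z hz x hx)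

/-- references to points: the index of a branch, a node, or infinity -/
abbrev PtS : Type := ℕ ⊕ Option (List Bool)

/-- shapes -/
abbrev Shp : Type := List (PtS × ℚ × ℚ)

/-- the point with the reference `z`, the branches are taken from the list `l` -/
def instP (l : List Ct) : PtS → Pt
  | .inl i => match l[i]? with
    | some x => .br x
    | none => .oo
  | .inr (some t) => .nd t
  | .inr none => .oo

/-- the finite system of conditions of shape `k` with the branches `l` -/
def inst (k : Shp) (l : List Ct) : Iv Pt := k.map fun z => (instP l z.1, z.2.1, z.2.2)

/-- data of a simple rational function -/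
abbrev KD : Type := ℚ × List (ℕ × ℚ) × List (List Bool × ℚ)

/-- the values of the simple function with the data `k` and the branches `l`:
`k.1 + ∑ r * indB x m + ∑ r * indN t`; the first sum over the pairs of `x ∈ l` with the corresponding
`(m, r) ∈ k.2.1`, the second sum over `(t, r) ∈ k.2.2` -/
noncomputable def sfunV (k : KD) (l : List Ct) (p : Pt) : ℝ :=
  k.1 + ((l.zip k.2.1).map fun z => (z.2.2 : ℝ) * indB z.1 z.2.1 p).sum +
    (k.2.2.map fun z => (z.2 : ℝ) * indN z.1 p).sum

end CPI
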