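import Pool.Agent.CPI.CCf

/-! # Easy typed statements (package C15)

(problem MP_ba5606_gt, project CPI)

* `tsec1'`: let `q ∈ yv z`, `q ∈ ptv a`, `z a < c`. Choose rationals `a0 < z a < c0 < c`, `b = [(z, a0, c0)]`, `r = q`: `q ∈ lv yv b` (`mem_lv`), `hit evX a b`, and
  `hit evX a' b` gives `evY z a' = z a' < c0 < c`. Similarly for `c < z a`.
* `tinj1'`: if `z ≠ z'` in `BF` then they differ at a node or at `oo`: otherwise `z (nd t) = z' (nd t)` for all nodes, so by clause (1) of `IsB`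
  (uniqueness of limits) `z (br x) = z' (br x)`. The truth values `ptv (nd t)`, `ptv oo` are `⊤`.
* `tsec2'`: `q ∈ uv u`, `q ∈ yv f`, `u f < c`: choose rationals `a0 < u f < c0 < c` and use `mem_uv` for `q`. Similarly for `c < u f`.
* `thd0'`: let `a ≠ a'`. It is enough to find `f : BF` with `q ∈ yv f` and `f a ≠ f a'`: if `f a < f a'` choose a rational `c` between them and rationals
  `a0 < f a`, `c0 > f a'`: `b = [(f, a0, c)]`, `b' = [(f, c, c0)]` have no common point (symmetric if `f a' < f a`). If one of the points is a node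
  `t` take `f = chn t` (`Cf = ∅`, `cf_chn`; value `1` at `nd t` and `0` at all other points). Otherwise one of them is a branch `x` (in `q.s`): take `f = chb x`
  (`Cf = {x}`, `cf_chb`; value `1` at `br x`, and `0` at `oo` and at the other branches). -/

namespace CPI

open STP

private theorem hit_one {a : Pt} {z : BF} {c d : ℚ} :
    hit evX a [(z, c, d)] ↔ (c : ℝ) < z.1 a ∧ z.1 a < d := by
  unfold hit
  simp only [List.mem_singleton, forall_eq]
  exact Iff.rfl

private theorem mem_lv_one {z : BF} {c d : ℚ} {q : Cd} (h : q ∈ yv z) :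
    q ∈ lv yv [(z, c, d)] := by
  rw [mem_lv]
  intro w hw
  rw [List.mem_singleton.1 hw]
  exact h

theorem tsec1' : TSec ptv yv evX yv evY := by
  intro q z a c hz _
  refine ⟨fun h => ?_, fun h => ?_⟩
  · obtain ⟨a0, ha0⟩ := exists_rat_lt (z.1 a)
    obtain ⟨c0, hc0, hc1⟩ := exists_rat_btwn (show z.1 a < c from h)
    exact ⟨q, le_rfl, [(z, a0, c0)], mem_lv_one hz, hit_one.2 ⟨ha0, hc0⟩,
      fun a' _ _ _ h1 => (hit_one.1 h1).2.trans hc1⟩
  · obtain ⟨c0, hc0⟩ := exists_rat_gt (z.1 a)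
    obtain ⟨a0, ha0, ha1⟩ := exists_rat_btwn (show c < z.1 a from h)
    exact ⟨q, le_rfl, [(z, a0, c0)], mem_lv_one hz, hit_one.2 ⟨ha1, hc0⟩,
      fun a' _ _ _ h1 => ha0.trans (hit_one.1 h1).1⟩

theorem tinj1' : TInj ptv yv evY := by
  intro q z z' _ _ hne
  by_contra hcon
  push Not at hcon
  have h1 : ∀ t, z.1 (.nd t) = z'.1 (.nd t) := fun t => hcon q le_rfl (.nd t) RO.mem_top
  have h2 : z.1 .oo = z'.1 .oo := hcon q le_rfl .oo RO.mem_top
  refine hne (Subtype.ext (funext fun a => ?_))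
  cases a with
  | nd t => exact h1 t
  | oo => exact h2
  | br x =>
    refine tendsto_nhds_unique (z.2.1 x) ?_
    have h3 : (fun n => z.1 (.nd (rs x n))) = fun n => z'.1 (.nd (rs x n)) :=
      funext fun n => h1 _
    rw [h3]
    exact z'.2.1 x

theorem tsec2' : TSec yv ptv evY uv evU := by
  intro q u f c hu hf
  rw [mem_uv] at hu
  refine ⟨fun h => ?_, fun h => ?_⟩
  · obtain ⟨a0, ha0⟩ := exists_rat_lt (u f)
    obtain ⟨c0, hc0, hc1⟩ := exists_rat_btwn (show u f < c from h)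
    obtain ⟨r, hr, b, hb, h1, h2⟩ := hu q le_rfl f hf a0 c0 ha0 hc0
    exact ⟨r, hr, b, hb, h1, fun g r' hr' hg h3 => (h2 g r' hr' hg h3).2.trans hc1⟩
  · obtain ⟨c0, hc0⟩ := exists_rat_gt (u f)
    obtain ⟨a0, ha0, ha1⟩ := exists_rat_btwn (show c < u f from h)
    obtain ⟨r, hr, b, hb, h1, h2⟩ := hu q le_rfl f hf a0 c0 ha1 hc0
    exact ⟨r, hr, b, hb, h1, fun g r' hr' hg h3 => ha0.trans (h2 g r' hr' hg h3).1⟩

/-- Separation by one function. -/
private theorem sep {q : Cd} {a a' : Pt} (f : BF) (hf : q ∈ yv f) (h : f.1 a ≠ f.1 a') :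
    ∃ r ≤ q, ∃ b b', r ∈ lv yv b ∧ r ∈ lv yv b' ∧ hit evX a b ∧ hit evX a' b' ∧
      ∀ a'', ∀ r' ≤ r, r' ∈ ptv a'' → ¬ (hit evX a'' b ∧ hit evX a'' b') := by
  rcases lt_or_gt_of_ne h with h1 | h1
  · obtain ⟨c, hc, hc'⟩ := exists_rat_btwn h1
    obtain ⟨a0, ha0⟩ := exists_rat_lt (f.1 a)
    obtain ⟨c0, hc0⟩ := exists_rat_gt (f.1 a')
    refine ⟨q, le_rfl, [(f, a0, c)], [(f, c, c0)], mem_lv_one hf, mem_lv_one hf,
      hit_one.2 ⟨ha0, hc⟩, hit_one.2 ⟨hc', hc0⟩, ?_⟩
    rintro a'' r' _ _ ⟨h2, h3⟩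
    exact lt_asymm (hit_one.1 h2).2 (hit_one.1 h3).1
  · obtain ⟨c, hc, hc'⟩ := exists_rat_btwn h1
    obtain ⟨a0, ha0⟩ := exists_rat_lt (f.1 a')
    obtain ⟨c0, hc0⟩ := exists_rat_gt (f.1 a)
    refine ⟨q, le_rfl, [(f, c, c0)], [(f, a0, c)], mem_lv_one hf, mem_lv_one hf,
      hit_one.2 ⟨hc', hc0⟩, hit_one.2 ⟨ha0, hc⟩, ?_⟩
    rintro a'' r' _ _ ⟨h2, h3⟩
    exact lt_asymm (hit_one.1 h3).2 (hit_one.1 h2).1

private theorem mem_chn (q : Cd) (t : List Bool) : q ∈ yv (chn t) := by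
  rw [mem_yv, cf_chn]
  exact Set.empty_subset _

private theorem mem_chb {q : Cd} {x : Ct} (h : q ∈ ptv (.br x)) : q ∈ yv (chb x) := by
  rw [mem_yv, cf_chb]
  exact Set.singleton_subset_iff.2 (mem_ptv_br.1 h)

private theorem chn_ne {t : List Bool} {a : Pt} (h : Pt.nd t ≠ a) :
    (chn t).1 (.nd t) ≠ (chn t).1 a := by
  have h1 : (chn t).1 (.nd t) = 1 := by
    show indN t (.nd t) = 1
    unfold indN
    rw [if_pos rfl]
  have h2 : (chn t).1 a = 0 := by
    show indN t a = 0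
    unfold indN
    rw [if_neg h.symm]
  rw [h1, h2]
  exact one_ne_zero

private theorem chb_one (x : Ct) : (chb x).1 (.br x) = 1 := by
  show (open Classical in if x = x then (1 : ℝ) else 0) = 1
  rw [if_pos rfl]

private theorem chb_zero {x y : Ct} (h : y ≠ x) : (chb x).1 (.br y) = 0 := by
  show (open Classical in if y = x then (1 : ℝ) else 0) = 0
  rw [if_neg h]

theorem thd0' : THd ptv yv evX := by
  intro q a a' ha ha' hne
  cases a with
  | nd t => exact sep (chn t) (mem_chn q t) (chn_ne hne)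
  | oo =>
    cases a' with
    | nd t => exact sep (chn t) (mem_chn q t) (chn_ne hne.symm).symm
    | oo => exact absurd rfl hne
    | br x =>
      refine sep (chb x) (mem_chb ha') ?_
      rw [chb_one]
      exact zero_ne_one
  | br x =>
    cases a' with
    | nd t => exact sep (chn t) (mem_chn q t) (chn_ne hne.symm).symm
    | oo =>
      refine sep (chb x) (mem_chb ha) ?_
      rw [chb_one]
      exact one_ne_zero
    | br y =>
      refine sep (chb x) (mem_chb ha) ?_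
      have h : y ≠ x := fun h => hne (by rw [h])
      rw [chb_one, chb_zero h]
      exact one_ne_zero

end CPI
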