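import Pool.Agent.CPI.CBas

/-! # Continuous functions on the compactum: algebra, characteristic functions (package C02)

(problem MP_ba5606_gt, project CPI; uses `CBas.lean`)

`IsB f` (see `Pos.lean`) has two clauses: (1) `f (nd (rs x n)) → f (br x)` for every branch `x`; (2) for every `ε > 0`
there are finite sets `F` of branches and `D` of nodes such that `|f (nd t) - f oo| < ε` for all nodes `t ∉ D` which
are not on a branch of `F`.
* `isB_const`: `F = D = ∅`. `IsB.add`: (1) `Tendsto.add`; (2) `ε/2` for both, unions of the finite sets.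
* `IsB.smul` (`c * f`): (1) `Tendsto.const_mul`; (2) use `ε / (|c| + 1)`.
* `isB_indN t`: (1) `rs x n ≠ t` for `n > t.length`, so the sequence is eventually `0`, the value at `br x` and `oo`
  is `0`; (2) `D = {t}`, `F = ∅`.
* `isB_indB x m`: (1) along `x`: for `n ≥ m` the value is `1` (the witness is `n`), and the value at `br x` is `1`; along
  `y ≠ x`: eventually `rs y n ≠ rs x k` for all `k` (`rs_ne`), value `0`, and the value at `br y` is `0`. (2)
  `F = {x}`, `D = ∅`: a node which is not of the form `rs x n` has the value `0 = ` the value at `oo`.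
* `isB_finset_sum`: induction on the finite set. `isB_sfunV`: the function `sfunV k l` is a constant plus two list sums of
  multiples of characteristic functions; induction on the lists (prove first: for every list `L` of pairs and `g` with
  all `fun p => g z p` in `IsB`, `fun p => (L.map fun z => g z p).sum` is in `IsB`, induction on `L`). -/

namespace CPI

theorem isB_const (c : ℝ) : IsB fun _ => c :=
  ⟨fun _ => tendsto_const_nhds, fun ε hε => ⟨∅, ∅, fun _ _ _ => by
    rw [sub_self, abs_zero]
    exact hε⟩⟩

theorem IsB.add {f g : Pt → ℝ} (hf : IsB f) (hg : IsB g) : IsB fun p => f p + g p := by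
  classical
  refine ⟨fun x => (hf.1 x).add (hg.1 x), fun ε hε => ?_⟩
  obtain ⟨F, D, h⟩ := hf.2 (ε / 2) (half_pos hε)
  obtain ⟨F', D', h'⟩ := hg.2 (ε / 2) (half_pos hε)
  refine ⟨F ∪ F', D ∪ D', fun t ht htF => ?_⟩
  rw [Finset.mem_union, not_or] at ht
  have h1 := h t ht.1 fun x hx => htF x (Finset.mem_union_left _ hx)
  have h2 := h' t ht.2 fun x hx => htF x (Finset.mem_union_right _ hx)
  have h3 : f (.nd t) + g (.nd t) - (f .oo + g .oo) =
      (f (.nd t) - f .oo) + (g (.nd t) - g .oo) := by ring
  rw [h3]
  exact (abs_add_le _ _).trans_lt (by linarith)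

theorem IsB.smul {f : Pt → ℝ} (hf : IsB f) (c : ℝ) : IsB fun p => c * f p := by
  refine ⟨fun x => (hf.1 x).const_mul c, fun ε hε => ?_⟩
  have hc : 0 ≤ |c| := abs_nonneg c
  have hc1 : 0 < |c| + 1 := by linarith
  have hδ : 0 < ε / (|c| + 1) := div_pos hε hc1
  obtain ⟨F, D, h⟩ := hf.2 _ hδ
  refine ⟨F, D, fun t ht htF => ?_⟩
  have h1 := h t ht htF
  have h2 : (|c| + 1) * (ε / (|c| + 1)) = ε := mul_div_cancel₀ _ hc1.ne'
  have h3 := mul_le_mul_of_nonneg_left h1.le hc
  rw [← mul_sub, abs_mul]
  linarith

theorem isB_indN (t : List Bool) : IsB (indN t) := by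
  classical
  have h0 : ∀ p : Pt, p ≠ .nd t → indN t p = 0 := fun p hp => if_neg hp
  have hbr : ∀ x, indN t (.br x) = 0 := fun x => h0 _ fun h => by cases h
  have hoo : indN t .oo = 0 := h0 _ fun h => by cases h
  refine ⟨fun x => ?_, fun ε hε => ⟨∅, {t}, fun s hs _ => ?_⟩⟩
  · rw [hbr]
    refine tendsto_const_nhds.congr' ?_
    filter_upwards [Filter.eventually_gt_atTop t.length] with n hn
    refine (h0 _ fun h => ?_).symm
    have h1 : rs x n = t := by
      injection h
    rw [← h1, rs_length] at hn
    exact lt_irrefl _ hn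
  · rw [Finset.mem_singleton] at hs
    rw [hoo, h0 _ fun h => hs (by injection h), sub_zero, abs_zero]
    exact hε

theorem isB_indB (x : Ct) (m : ℕ) : IsB (indB x m) := by
  classical
  have h1 : ∀ t, (∃ n, m ≤ n ∧ t = rs x n) → indB x m (.nd t) = 1 := fun t ht => if_pos ht
  have h0 : ∀ t, (¬ ∃ n, m ≤ n ∧ t = rs x n) → indB x m (.nd t) = 0 := fun t ht => if_neg ht
  have hoo : indB x m .oo = 0 := rfl
  refine ⟨fun y => ?_, fun ε hε => ⟨{x}, ∅, fun s _ hs => ?_⟩⟩
  · by_cases hy : y = x
    · have h2 : indB x m (.br y) = 1 := if_pos hy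
      rw [h2, hy]
      refine tendsto_const_nhds.congr' ?_
      filter_upwards [Filter.eventually_ge_atTop m] with n hn
      exact (h1 _ ⟨n, hn, rfl⟩).symm
    · have h2 : indB x m (.br y) = 0 := if_neg hy
      rw [h2]
      obtain ⟨n0, hn0⟩ := rs_ne hy
      refine tendsto_const_nhds.congr' ?_
      filter_upwards [Filter.eventually_ge_atTop n0] with n hn
      refine (h0 _ ?_).symm
      rintro ⟨k, -, hk⟩
      exact hn0 n hn k hk
  · rw [hoo, h0 s, sub_zero, abs_zero]
    · exact hε
    · rintro ⟨n, -, hn⟩
      exact hs x (Finset.mem_singleton_self x) n hn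

theorem isB_finset_sum {ι : Type*} (s : Finset ι) (g : ι → Pt → ℝ) (h : ∀ i ∈ s, IsB (g i)) :
    IsB fun p => ∑ i ∈ s, g i p := by
  classical
  induction s using Finset.induction_on with
  | empty =>
    simp only [Finset.sum_empty]
    exact isB_const 0
  | insert a s ha ih =>
    simp only [Finset.sum_insert ha]
    exact (h a (Finset.mem_insert_self a s)).add
      (ih fun i hi => h i (Finset.mem_insert_of_mem hi))

private theorem isB_list_sum {α : Type*} (L : List α) (g : α → Pt → ℝ)
    (h : ∀ z ∈ L, IsB (g z)) : IsB fun p => (L.map fun z => g z p).sum := by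
  induction L with
  | nil =>
    simp only [List.map_nil, List.sum_nil]
    exact isB_const 0
  | cons a L ih =>
    simp only [List.map_cons, List.sum_cons]
    exact (h a List.mem_cons_self).add (ih fun z hz => h z (List.mem_cons_of_mem _ hz))

theorem isB_sfunV (k : KD) (l : List Ct) : IsB (sfunV k l) :=
  ((isB_const (k.1 : ℝ)).add (isB_list_sum _
    (fun (z : Ct × ℕ × ℚ) p => (z.2.2 : ℝ) * indB z.1 z.2.1 p)
    fun z _ => (isB_indB z.1 z.2.1).smul z.2.2)).add (isB_list_sum _
    (fun (z : List Bool × ℚ) p => (z.2 : ℝ) * indN z.1 p) fun z _ => (isB_indN z.1).smul z.2)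

/-- the simple rational function with the data `k` and the branches `l` -/
noncomputable def sfun (k : KD) (l : List Ct) : BF := ⟨sfunV k l, isB_sfunV k l⟩

/-- the characteristic function of the branch `x` with all its nodes -/
noncomputable def chb (x : Ct) : BF := ⟨indB x 0, isB_indB x 0⟩

/-- the characteristic function of the node `t` -/
noncomputable def chn (t : List Bool) : BF := ⟨indN t, isB_indN t⟩

end CPI
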