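import Pool.Agent.CPI.CSup

/-! # Support of a continuous function (package C08)

(problem MP_ba5606_gt, project CPI; uses `close` (CPos), `D2.mono`, `D2.dense`, `upper` (CSup),
`cf_sfun` (CCf))

* `TCts.neg`: exchange `lt` and `gt`.
* `support`: apply `close` with `K := KD ⊕ (Bool × Shp × ℕ × ℚ)`, `D (inl k) l p := ∃ t, p ∈ V
  (sfun k l) t` (open; dense below `q0`
  for `l` in `p.s`, because `Cf (sfun k l) ⊆ {x | x ∈ l} ⊆ p.s`, so `p ∈ yv (sfun k l)`, and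
`hV.ex`), `D (inr (true, k, m, c)) l p :=
  D2 V k l m c p`, `D (inr (false, k, m, c)) l p := D2 (fun f t => V f (-t)) k l m c p`. The
result `q ≤ q0` satisfies the hypothesis of
  `upper` for `V` and for `fun f t => V f (-t)` (`TCts.neg`). `Sup V q`: for `r ≤ q`, `f`, `t`,
`ε`: `upper` for `V` with `c = t + ε`: `r1`, `b`; then
  `upper` for the negative at `r1` (`r1 ∈ yv f`, `r1 ∈ V f t = V f (- -t)`) with `c = -t + ε`: `r2
≤ r1`, `b'`; take `r2` and `b ++ b'`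
  (`Pin.append`, `hit_append`). -/

namespace CPI

open STP

theorem TCts.neg {P : Type} [PartialOrder P] {A F : Type} {q : P} {av : A → RO P}
    {fv : F → RO P} {ev : A → F → ℝ} {V : A → ℝ → RO P} (h : TCts q av fv ev V) :
    TCts q av fv ev (fun a t => V a (-t)) := by
  refine ⟨?_, ?_, ?_, ?_⟩
  · intro r hr a ha
    obtain ⟨r', hr', t, ht⟩ := h.ex r hr a ha
    exact ⟨r', hr', -t, by simpa only [neg_neg] using ht⟩
  · intro r hr a t t' ht ht'
    exact neg_injective (h.un r hr a (-t) (-t') ht ht')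
  · intro r hr a t c ha ht htc
    obtain ⟨r', hr', b, hb, hab, H⟩ := h.gt r hr a (-t) (-c) ha ht (neg_lt_neg htc)
    exact ⟨r', hr', b, hb, hab, fun a' t' r'' hr'' ha' hb' ht' =>
      neg_lt_neg_iff.1 (H a' (-t') r'' hr'' ha' hb' ht')⟩
  · intro r hr a t c ha ht htc
    obtain ⟨r', hr', b, hb, hab, H⟩ := h.lt r hr a (-t) (-c) ha ht (neg_lt_neg htc)
    exact ⟨r', hr', b, hb, hab, fun a' t' r'' hr'' ha' hb' ht' =>
      neg_lt_neg_iff.1 (H a' (-t') r'' hr'' ha' hb' ht')⟩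

/-- `V` has the support `q.s` below `q` -/
def Sup (V : BF → ℝ → RO Cd) (q : Cd) : Prop :=
  ∀ r ≤ q, ∀ f t, r ∈ yv f → r ∈ V f t → ∀ ε : ℝ, 0 < ε →
    ∃ r1 ≤ r, ∃ b, Pin q.s b ∧ hit evY f b ∧
      ∀ g t', ∀ r' ≤ r1, r' ∈ yv g → hit evY g b → r' ∈ V g t' → |t' - t| ≤ ε

theorem support {q0 : Cd} {V : BF → ℝ → RO Cd} (hV : TCts q0 yv ptv evY V) :
    ∃ q ≤ q0, (∀ k l, (∀ x ∈ l, x ∈ q.s) → ∃ t, q ∈ V (sfun k l) t) ∧ Sup V q := by
  have hneg : TCts q0 yv ptv evY (fun f t => V f (-t)) := hV.neg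
  obtain ⟨D, hD⟩ : ∃ D : KD ⊕ (Bool × Shp × ℕ × ℚ) → List Ct → Cd → Prop,
      (∀ k l p, D (.inl k) l p ↔ ∃ t, p ∈ V (sfun k l) t) ∧
      (∀ k m c l p, D (.inr (true, k, m, c)) l p ↔ D2 V k l m c p) ∧
      ∀ k m c l p, D (.inr (false, k, m, c)) l p ↔ D2 (fun f t => V f (-t)) k l m c p :=
    ⟨fun z l p => match z with
      | .inl k => ∃ t, p ∈ V (sfun k l) t
      | .inr (true, k, m, c) => D2 V k l m c p
      | .inr (false, k, m, c) => D2 (fun f t => V f (-t)) k l m c p,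
      fun _ _ _ => Iff.rfl, fun _ _ _ _ _ => Iff.rfl, fun _ _ _ _ _ => Iff.rfl⟩
  obtain ⟨hDa, hDb, hDc⟩ := hD
  obtain ⟨q, hq, H⟩ := close D q0
    (by
      rintro (k | ⟨_ | _, k, m, c⟩) l p q hq h
      · rw [hDa] at h ⊢
        obtain ⟨t, ht⟩ := h
        exact ⟨t, (V (sfun k l) t).down hq ht⟩
      · rw [hDc] at h ⊢
        exact h.mono hq
      · rw [hDb] at h ⊢
        exact h.mono hq)
    (by
      rintro (k | ⟨_ | _, k, m, c⟩) l p hp hl
      · have hy : p ∈ yv (sfun k l) := mem_yv.2 fun x hx => hl x (cf_sfun k l x hx)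
        obtain ⟨r, hr, t, ht⟩ := hV.ex p hp (sfun k l) hy
        exact ⟨r, hr, (hDa k l r).2 ⟨t, ht⟩⟩
      · obtain ⟨r, hr, h⟩ := D2.dense (fun f t => V f (-t)) k l m c p
        exact ⟨r, hr, (hDc k m c l r).2 h⟩
      · obtain ⟨r, hr, h⟩ := D2.dense V k l m c p
        exact ⟨r, hr, (hDb k m c l r).2 h⟩)
  refine ⟨q, hq, fun k l hl => (hDa k l q).1 (H (.inl k) l hl), ?_⟩
  intro r hr f t hf ht ε hε
  obtain ⟨r1, hr1, b, hb, hfb, H1⟩ := upper hV hq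
    (fun k l m c hl => (hDb k m c l q).1 (H (.inr (true, k, m, c)) l hl)) r hr f t hf ht (t + ε)
    (lt_add_of_pos_right t hε)
  have hf1 : r1 ∈ yv f := (yv f).down hr1 hf
  have ht1 : r1 ∈ V f (-(-t)) := by
    rw [neg_neg]
    exact (V f t).down hr1 ht
  obtain ⟨r2, hr2, b', hb', hfb', H2⟩ := upper hneg hq
    (fun k l m c hl => (hDc k m c l q).1 (H (.inr (false, k, m, c)) l hl)) r1 (hr1.trans hr) f
    (-t) hf1 ht1 (-t + ε) (lt_add_of_pos_right (-t) hε)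
  refine ⟨r2, hr2.trans hr1, b ++ b', hb.append hb', hit_append.2 ⟨hfb, hfb'⟩, ?_⟩
  intro g t' r' hr' hg hgb ht'
  have hgb2 := hit_append.1 hgb
  have h1 := H1 g t' r' (hr'.trans hr2) hg hgb2.1 ht'
  have h2 := H2 g (-t') r' hr' hg hgb2.2 (by simpa only [neg_neg] using ht')
  rw [abs_le]
  constructor <;> linarith

end CPI
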