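import Pool.Agent.CPI.CLinB

/-! # `C_p(C_p(K_S))` is Lindelof (package C14, assembly)

(problem MP_ba5606_gt, project CPI; uses `exists_LS` (CLs), `case1` (CLinA), `case2` (CLinB))

Let `O`, `p` be as in `TLin uv yv evU`. `exists_LS O p`: `q ≤ p`, `W`. If there are `ψ`, `D` as in `case1` we are done by contradiction. Otherwise
the hypothesis `hno` of `case2` holds (for `ψ`, `D` as in `hno` not all `f` without limit have `(Cf f ∩ D).Nonempty`). `W` is not empty:
`q ∈ uv 0` (constant function, `b = []`), so `hH` gives `r ≤ q`, `b` with `r ∈ O b`; `refl` with `β := b.map (fun z => ([], z.2))`, `l = []`: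
`Mt β [] b` (`inst [] [] = []`, `hit` is trivial). So `W = Set.range β` for some `β : ℕ → Iv BF` (`Set.Countable.exists_eq_range`). `W_O` and
`case2` give the conclusion. -/

namespace CPI

open STP

private theorem mt_triv : ∀ b : Iv BF, Mt (b.map fun z => (([] : Shp), z.2)) [] b := by
  intro b
  induction b with
  | nil => exact List.Forall₂.nil
  | cons z b ih =>
    refine List.Forall₂.cons ⟨rfl, ?_⟩ ih
    intro w hw
    simp [inst] at hw

theorem tlin2' : TLin uv yv evU := by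
  intro O p hO hH
  obtain ⟨q, hqp, W, hW⟩ := exists_LS O p
  have hne : W.Nonempty := by
    have h0 : q ∈ uv (fun _ => (0 : ℝ)) := by
      rw [mem_uv]
      intro r hr f hf a c ha hc
      refine ⟨r, le_rfl, [], ?_⟩
      simp_all [mem_lv, hit]
    obtain ⟨r, hr, b, hb, -⟩ := hH q hqp _ h0
    obtain ⟨b', hb', -⟩ := hW.refl (b.map fun z => (([] : Shp), z.2)) [] (by simp)
      ⟨r, hr, b, mt_triv b, hb⟩
    exact ⟨b', hb'⟩
  have hno : ∀ (ψ : UF) (D : Set Ct), D.Countable → Disjoint D q.s →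
      (∀ b ∈ W, ¬ hit evU ψ b) → ∃ f : BF, (¬ ∃ t, Lim q.s ψ f t) ∧ Disjoint (Cf f) D := by
    intro ψ D hDc hD hψ
    by_contra hcon
    refine case1 hO hqp hW hH ψ D hDc hD hψ fun f hf => ?_
    by_contra h1
    exact hcon ⟨f, hf, Set.disjoint_iff_inter_eq_empty.2 (Set.not_nonempty_iff_eq_empty.1 h1)⟩
  have h2 := case2 hno
  obtain ⟨β, hβ⟩ := hW.cW.exists_eq_range hne
  refine ⟨q, hqp, β, fun k => hW.W_O _ (by rw [hβ]; exact ⟨k, rfl⟩), ?_⟩
  intro r hr a ha
  obtain ⟨b, hb, hab⟩ := h2 r hr a ha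
  rw [hβ] at hb
  obtain ⟨k, rfl⟩ := hb
  exact ⟨k, hab⟩

end CPI
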