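import Pool.Agent.CPI.CCf

/-! # Changing finitely many values at branches; simple functions are dense (package C04)

(problem MP_ba5606_gt, project CPI; uses `CBas.lean`, `CFun.lean`, `CCf.lean`)

* `modify`: choose `m` larger than the lengths of all nodes of `T0` and put
  `h := g + ∑ x ∈ X0, (v x - g (br x)) * indB x m`. At a node `t ∈ T0` all `indB x m` vanish
  (`t = rs x n` with `n ≥ m` has length `≥ m`); at `br y` only the term `x = y` contributes.
* `sfun_dense`: let `b` be a finite system of conditions with branches in `s` satisfied by `f`.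
  Let `l` be a duplicate free list of the branches which occur in `b`, `T` a duplicate free list
  of the nodes which occur in `b`, `m` larger than their lengths. For every point `p` choose a
  rational `r p` which satisfies all conditions of `b` at `p` (finitely many open intervals which
  contain `f p`). Let `k.1 := r oo`, `k.2.1 := l.map (fun x => (m, r (br x) - r oo))`, `k.2.2 :=`
  the list of the pairs `(t, r (nd t) - r oo)`, `t ∈ T`. Then `sfun k l` has the value `r p` at
  all points `p` of `b` (as `m` is large the branches do not contribute at the nodes of `T`), so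
  it satisfies `b`. All branches of `l` are in `s` by `Pin s b`. -/

namespace CPI

theorem modify (g : BF) (X0 : Finset Ct) (v : Ct → ℝ) (T0 : Finset (List Bool)) :
    ∃ h : BF, h.1 .oo = g.1 .oo ∧ (∀ t ∈ T0, h.1 (.nd t) = g.1 (.nd t)) ∧
      (∀ x ∈ X0, h.1 (.br x) = v x) ∧ (∀ y, y ∉ X0 → h.1 (.br y) = g.1 (.br y)) ∧
      Cf h ⊆ Cf g ∪ X0 := by
  classical
  obtain ⟨m, hm⟩ : ∃ m, m = T0.sup List.length + 1 := ⟨_, rfl⟩
  have hoo : ∀ x, indB x m .oo = 0 := fun x => rfl
  have hnd : ∀ x, ∀ t ∈ T0, indB x m (.nd t) = 0 := by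
    intro x t ht
    refine if_neg ?_
    rintro ⟨n, hn, rfl⟩
    have h1 : (rs x n).length ≤ T0.sup List.length := Finset.le_sup ht
    rw [rs_length] at h1
    omega
  have hb1 : ∀ x, indB x m (.br x) = 1 := fun x => if_pos rfl
  have hb0 : ∀ x y, y ≠ x → indB x m (.br y) = 0 := fun x y h => if_neg h
  have hB : IsB fun p => g.1 p + ∑ x ∈ X0, (v x - g.1 (.br x)) * indB x m p :=
    g.2.add (isB_finset_sum X0 (fun x p => (v x - g.1 (.br x)) * indB x m p)
      fun x _ => (isB_indB x m).smul _)
  have e0 : g.1 .oo + ∑ x ∈ X0, (v x - g.1 (.br x)) * indB x m .oo = g.1 .oo := by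
    rw [Finset.sum_eq_zero fun x _ => by rw [hoo, mul_zero], add_zero]
  have e1 : ∀ t ∈ T0, g.1 (.nd t) + ∑ x ∈ X0, (v x - g.1 (.br x)) * indB x m (.nd t) =
      g.1 (.nd t) := by
    intro t ht
    rw [Finset.sum_eq_zero fun x _ => by rw [hnd x t ht, mul_zero], add_zero]
  have e2 : ∀ y ∈ X0, g.1 (.br y) + ∑ x ∈ X0, (v x - g.1 (.br x)) * indB x m (.br y) =
      v y := by
    intro y hy
    rw [Finset.sum_eq_single y (fun x _ hxy => by rw [hb0 x y (Ne.symm hxy), mul_zero])
      fun h => absurd hy h, hb1]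
    ring
  have e3 : ∀ y, y ∉ X0 → g.1 (.br y) + ∑ x ∈ X0, (v x - g.1 (.br x)) * indB x m (.br y) =
      g.1 (.br y) := by
    intro y hy
    rw [Finset.sum_eq_zero fun x hx => by
      rw [hb0 x y fun h => hy (h ▸ hx), mul_zero], add_zero]
  refine ⟨⟨_, hB⟩, e0, e1, e2, e3, fun y hy => ?_⟩
  by_cases hyX : y ∈ X0
  · exact Or.inr hyX
  · refine Or.inl fun h => hy ?_
    change g.1 (.br y) + ∑ x ∈ X0, (v x - g.1 (.br x)) * indB x m (.br y) =
      g.1 .oo + ∑ x ∈ X0, (v x - g.1 (.br x)) * indB x m .oo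
    rw [e3 y hyX, e0]
    exact h

/-- a rational number which satisfies finitely many conditions at one point -/
private theorem exists_rat (b : Iv Pt) (p : Pt) (a : ℝ)
    (h : ∀ z ∈ b, z.1 = p → (z.2.1 : ℝ) < a ∧ a < z.2.2) :
    ∃ r : ℚ, ∀ z ∈ b, z.1 = p → (z.2.1 : ℝ) < r ∧ (r : ℝ) < z.2.2 := by
  have h1 : ∀ᶠ r in nhds a, ∀ z ∈ b, z.1 = p → (z.2.1 : ℝ) < r ∧ r < z.2.2 := by
    induction b with
    | nil => exact Filter.Eventually.of_forall fun _ z hz => by cases hz
    | cons w b ih =>
      have h2 := ih fun z hz => h z (List.mem_cons_of_mem _ hz)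
      by_cases hw : w.1 = p
      · obtain ⟨h3, h4⟩ := h w List.mem_cons_self hw
        filter_upwards [h2, lt_mem_nhds h3, gt_mem_nhds h4] with r hr1 hr2 hr3 z hz hzp
        rcases List.mem_cons.1 hz with rfl | hz
        · exact ⟨hr2, hr3⟩
        · exact hr1 z hz hzp
      · filter_upwards [h2] with r hr1 z hz hzp
        rcases List.mem_cons.1 hz with rfl | hz
        · exact absurd hzp hw
        · exact hr1 z hz hzp
  obtain ⟨s, hs1, hs2, hs3⟩ := eventually_nhds_iff.1 h1
  obtain ⟨r, hr⟩ := Rat.denseRange_cast.exists_mem_open hs2 ⟨a, hs3⟩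
  exact ⟨r, hs1 r hr⟩

private theorem zip_self_map {α β : Type*} (l : List α) (g : α → β) :
    l.zip (l.map g) = l.map fun x => (x, g x) := by
  induction l with
  | nil => rfl
  | cons a l ih => rw [List.map_cons, List.zip_cons_cons, ih, List.map_cons]

private theorem sum_zero {α : Type*} (L : List α) (g : α → ℝ) (h : ∀ x ∈ L, g x = 0) :
    (L.map g).sum = 0 := by
  induction L with
  | nil => rfl
  | cons a L ih =>
    rw [List.map_cons, List.sum_cons, h a List.mem_cons_self,
      ih fun x hx => h x (List.mem_cons_of_mem _ hx), add_zero]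

private theorem sum_single {α : Type*} (L : List α) (hL : L.Nodup) (g : α → ℝ) (a : α)
    (ha : a ∈ L) (h : ∀ x ∈ L, x ≠ a → g x = 0) : (L.map g).sum = g a := by
  induction L with
  | nil => cases ha
  | cons c L ih =>
    rw [List.map_cons, List.sum_cons]
    rw [List.nodup_cons] at hL
    rcases List.mem_cons.1 ha with rfl | ha'
    · rw [sum_zero L g fun x hx => h x (List.mem_cons_of_mem _ hx)
        fun hxa => hL.1 (hxa ▸ hx), add_zero]
    · rw [ih hL.2 ha' fun x hx => h x (List.mem_cons_of_mem _ hx),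
        h c List.mem_cons_self fun hca => hL.1 (hca ▸ ha'), zero_add]

/-- the branch of a point -/
private def brOf : Pt → Option Ct
  | .br x => some x
  | _ => none

/-- the node of a point -/
private def ndOf : Pt → Option (List Bool)
  | .nd t => some t
  | _ => none

theorem sfun_dense {s : Set Ct} {b : Iv Pt} (hb : Pin s b) {f : BF} (hf : hit evY f b) :
    ∃ (k : KD) (l : List Ct), (∀ x ∈ l, x ∈ s) ∧ hit evY (sfun k l) b := by
  classical
  have hr : ∀ p : Pt, ∃ r : ℚ, ∀ z ∈ b, z.1 = p → (z.2.1 : ℝ) < r ∧ (r : ℝ) < z.2.2 := by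
    intro p
    refine exists_rat b p (f.1 p) fun z hz hzp => ?_
    have h1 := hf z hz
    rw [hzp] at h1
    exact h1
  choose r hr using hr
  obtain ⟨l, hl⟩ : ∃ l : List Ct, l = (b.filterMap fun z => brOf z.1).dedup := ⟨_, rfl⟩
  obtain ⟨T, hT⟩ : ∃ T : List (List Bool), T = (b.filterMap fun z => ndOf z.1).dedup :=
    ⟨_, rfl⟩
  have hlm : ∀ x, x ∈ l ↔ ∃ z ∈ b, z.1 = .br x := by
    intro x
    rw [hl, List.mem_dedup, List.mem_filterMap]
    constructor
    · rintro ⟨z, hz, h⟩
      refine ⟨z, hz, ?_⟩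
      rcases hz1 : z.1 with t | y | _
      · rw [hz1] at h
        cases h
      · rw [hz1] at h
        have h2 : some y = some x := h
        rw [Option.some.inj h2]
      · rw [hz1] at h
        cases h
    · rintro ⟨z, hz, h⟩
      refine ⟨z, hz, ?_⟩
      rw [h]
      rfl
  have hTm : ∀ t, t ∈ T ↔ ∃ z ∈ b, z.1 = .nd t := by
    intro t
    rw [hT, List.mem_dedup, List.mem_filterMap]
    constructor
    · rintro ⟨z, hz, h⟩
      refine ⟨z, hz, ?_⟩
      rcases hz1 : z.1 with u | y | _
      · rw [hz1] at h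
        have h2 : some u = some t := h
        rw [Option.some.inj h2]
      · rw [hz1] at h
        cases h
      · rw [hz1] at h
        cases h
    · rintro ⟨z, hz, h⟩
      refine ⟨z, hz, ?_⟩
      rw [h]
      rfl
  have hln : l.Nodup := hl ▸ List.nodup_dedup _
  have hTn : T.Nodup := hT ▸ List.nodup_dedup _
  obtain ⟨m, hm⟩ : ∃ m, m = T.toFinset.sup List.length + 1 := ⟨_, rfl⟩
  have hnd : ∀ x, ∀ t ∈ T, indB x m (.nd t) = 0 := by
    intro x t ht
    refine if_neg ?_
    rintro ⟨n, hn, rfl⟩
    have h1 : (rs x n).length ≤ T.toFinset.sup List.length :=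
      Finset.le_sup (List.mem_toFinset.2 ht)
    rw [rs_length] at h1
    omega
  have hb1 : ∀ x, indB x m (.br x) = 1 := fun x => if_pos rfl
  have hb0 : ∀ x y, y ≠ x → indB x m (.br y) = 0 := fun x y h => if_neg h
  have hN0 : ∀ t p, p ≠ .nd t → indN t p = 0 := fun t p hp => if_neg hp
  have hN1 : ∀ t, indN t (.nd t) = 1 := fun t => if_pos rfl
  refine ⟨(r .oo, l.map (fun x => (m, r (.br x) - r .oo)),
    T.map fun t => (t, r (.nd t) - r .oo)), l, fun x hx => ?_, fun z hz => ?_⟩
  · obtain ⟨z, hz, h⟩ := (hlm x).1 hx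
    exact hb z hz x h
  · have key : ∀ p : Pt, sfunV (r .oo, l.map (fun x => (m, r (.br x) - r .oo)),
        T.map fun t => (t, r (.nd t) - r .oo)) l p = (r .oo : ℝ) +
        (l.map fun x => ((r (.br x) - r .oo : ℚ) : ℝ) * indB x m p).sum +
        (T.map fun t => ((r (.nd t) - r .oo : ℚ) : ℝ) * indN t p).sum := by
      intro p
      unfold sfunV
      simp only [zip_self_map, List.map_map]
      rfl
    suffices h : sfunV (r .oo, l.map (fun x => (m, r (.br x) - r .oo)),
        T.map fun t => (t, r (.nd t) - r .oo)) l z.1 = r z.1 by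
      have h2 := hr z.1 z hz rfl
      change (z.2.1 : ℝ) < sfunV _ l z.1 ∧ sfunV _ l z.1 < z.2.2
      rw [h]
      exact h2
    rw [key]
    rcases hz1 : z.1 with t | x | _
    · have ht : t ∈ T := (hTm t).2 ⟨z, hz, hz1⟩
      rw [sum_zero l _ fun x _ => by rw [hnd x t ht, mul_zero],
        sum_single T hTn _ t ht fun u _ hu => by
          rw [hN0 u _ fun h => hu (by injection h with h; exact h.symm), mul_zero], hN1]
      push_cast
      ring
    · have hx : x ∈ l := (hlm x).2 ⟨z, hz, hz1⟩
      rw [sum_zero T _ fun t _ => by rw [hN0 t (.br x) fun h => (by cases h), mul_zero],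
        sum_single l hln _ x hx fun y _ hy => by rw [hb0 y x (Ne.symm hy), mul_zero], hb1]
      push_cast
      ring
    · rw [sum_zero T _ fun t _ => by rw [hN0 t .oo fun h => (by cases h), mul_zero],
        sum_zero l _ fun x _ => by rw [show indB x m .oo = 0 from rfl, mul_zero]]
      ring

end CPI
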