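import Pool.Agent.CPI.CLs
import Pool.Agent.CPI.CMod

/-! # Lindelof, case 1 (package C12)

(problem MP_ba5606_gt, project CPI; uses `shp_of` (CShp), `sfun_dense` (CMod), `cf_sfun` (CCf))

`Lim s ψ f t`: `ψ(g) → t` as `g → f` pointwise on the nodes, `oo`, and the branches in `s`, where
`g` runs through the functions with `Cf g ⊆ s`.
* `Lim.uniq`: for `ε > 0` and `b`, `b'` as in the definition, `sfun_dense` (for `s`, `b ++ b'`,
  `f`) gives `k`, `l` in `s` with `sfun k l` hitting both; `Cf (sfun k l) ⊆ s` (`cf_sfun`), so `|t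
  - t'| ≤ 2ε`.
* `Lim.self`: if `Cf f ⊆ s` and `Lim s ψ f t` then `t = ψ f` (take `g = f`).
* `case1`: let `D` be countable, disjoint from `q.s`, `ψ` not hitting any `b ∈ W`, and suppose
  that every `f` without limit has `Cf f ∩ D ≠ ∅`. Let `q1 := q.addN D ≤ q ≤ p`, and `u f :=` the
  limit if it exists, else `0`. (a) if `r ≤ q1`, `r ∈ yv g` then `Cf g ⊆ r.s` is disjoint from
  `r.n ⊇ D`, so `Lim q.s ψ g (u g)`. (b) `q1 ∈ uv u` (`mem_uv`): let `r ≤ q1`, `r ∈ yv f`, `a < u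
  f < c` rational. Choose `ε > 0` with `a < u f - 2ε`, `u f + 2ε < c`, and `b` as in `Lim q.s ψ f
  (u f)` for `ε`; `Pin q.s b`, so `r ∈ lv ptv b` (`mem_lv_ptv`, `Pin.mono`). For `g`, `r' ≤ r`,
  `r' ∈ yv g`, `hit evY g b`: `Lim q.s ψ g (u g)` by (a); let `b''` be as in its definition for
  `ε`; `sfun_dense` for `b ++ b''` and `g`: some `h = sfun k l` with `l` in `q.s`, `Cf h ⊆ q.s`,
  hits `b` and `b''`, so `|ψ h - u f| ≤ ε` and `|ψ h - u g| ≤ ε`, hence `|u g - u f| ≤ 2ε`. (c)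
  `hH` for `q1`, `u`: `r ≤ q1`, `b` with `r ∈ O b`, `hit evU u b`. For every `z = (f, a, c) ∈ b`:
  `r ∈ yv f` (`hO`, `mem_lv`), `a < u f < c`, and by (a) `Lim q.s ψ f (u f)`; choose `ε_z > 0`
  with `[u f - ε, u f + ε] ⊆ (a, c)` and `b_z` as in the definition. Let `l` be the list of all
  branches which occur in the `b_z` (they are in `q.s`), and `k_z` with `b_z = inst k_z l`
  (`shp_of`). `β := b.attach.map (fun z => (k_z, a, c))` (or build `β` by induction on `b`): `Mt β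
  l b`. `refl` (as `r ≤ q`) gives `b' ∈ W` with `Mt β l b'`: `b' = [(f'_z, a, c)]` with `hit evY
  f'_z b_z`; `q ∈ O b' ≤ lv yv b'`, so `Cf f'_z ⊆ q.s` and `|ψ f'_z - u f| ≤ ε_z`, so `a < ψ f'_z
  < c`. Hence `hit evU ψ b'`, contradiction. -/

namespace CPI

open STP

/-- `ψ g` converges to `t` as `g` converges to `f` on the branches in `s`, the nodes and `oo`, `g`
with `Cf g ⊆ s` -/
def Lim (s : Set Ct) (ψ : UF) (f : BF) (t : ℝ) : Prop :=
  ∀ ε : ℝ, 0 < ε → ∃ b, Pin s b ∧ hit evY f b ∧ ∀ g : BF, Cf g ⊆ s → hit evY g b → |ψ g - t| ≤ ε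

theorem Lim.uniq {s : Set Ct} {ψ : UF} {f : BF} {t t' : ℝ} (h : Lim s ψ f t)
    (h' : Lim s ψ f t') : t = t' := by
  by_contra hne
  have hpos : 0 < |t - t'| := abs_pos.2 (sub_ne_zero.2 hne)
  obtain ⟨b, hb1, hb2, hb3⟩ := h (|t - t'| / 3) (by positivity)
  obtain ⟨b', hb1', hb2', hb3'⟩ := h' (|t - t'| / 3) (by positivity)
  obtain ⟨k, l, hl, hh⟩ := sfun_dense (Pin.append hb1 hb1') (hit_append.2 ⟨hb2, hb2'⟩)
  have hC : Cf (sfun k l) ⊆ s := fun x hx => hl x (cf_sfun k l x hx)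
  have e1 := hb3 _ hC (hit_append.1 hh).1
  have e2 := hb3' _ hC (hit_append.1 hh).2
  have e3 : |t - t'| ≤ |ψ (sfun k l) - t| + |ψ (sfun k l) - t'| := by
    have e4 := abs_sub_le t (ψ (sfun k l)) t'
    rw [abs_sub_comm t (ψ (sfun k l))] at e4
    exact e4
  linarith

theorem Lim.self {s : Set Ct} {ψ : UF} {f : BF} {t : ℝ} (hf : Cf f ⊆ s) (h : Lim s ψ f t) :
    t = ψ f := by
  by_contra hne
  have hpos : 0 < |ψ f - t| := abs_pos.2 (sub_ne_zero.2 (Ne.symm hne))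
  obtain ⟨b, -, hb2, hb3⟩ := h (|ψ f - t| / 2) (by positivity)
  have e1 := hb3 f hf hb2
  linarith

/-- the branch, if the point is one -/
private def brOf : Pt → Option Ct
  | .br x => some x
  | _ => none

private theorem brOf_eq {p : Pt} {x : Ct} (h : brOf p = some x) : p = .br x := by
  cases p with
  | br y =>
    have h1 : some y = some x := h
    rw [Option.some.inj h1]
  | nd t => exact absurd h (by simp [brOf])
  | oo => exact absurd h (by simp [brOf])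

private theorem forall₂_mem {α β : Type*} {R : α → β → Prop} {l₁ : List α} {l₂ : List β}
    (h : List.Forall₂ R l₁ l₂) : ∀ a ∈ l₁, ∃ b ∈ l₂, R a b := by
  induction h with
  | nil => intro a ha; exact absurd ha List.not_mem_nil
  | cons h1 _ ih =>
    intro a ha
    rcases List.mem_cons.1 ha with rfl | ha
    · exact ⟨_, List.mem_cons_self, h1⟩
    · obtain ⟨b, hb, hab⟩ := ih a ha
      exact ⟨b, List.mem_cons_of_mem _ hb, hab⟩

theorem case1 {O : Iv BF → RO Cd} (hO : ∀ b, O b ≤ lv yv b) {p q : Cd} (hq : q ≤ p)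
    {W : Set (Iv BF)} (hW : LS O q W)
    (hH : ∀ q ≤ p, ∀ u, q ∈ uv u → ∃ r ≤ q, ∃ b, r ∈ O b ∧ hit evU u b)
    (ψ : UF) (D : Set Ct) (hDc : D.Countable) (hD : Disjoint D q.s)
    (hψ : ∀ b ∈ W, ¬ hit evU ψ b)
    (hbad : ∀ f : BF, (¬ ∃ t, Lim q.s ψ f t) → (Cf f ∩ D).Nonempty) : False := by
  classical
  obtain ⟨u, hu⟩ : ∃ u : UF, ∀ f, (∃ t, Lim q.s ψ f t) → Lim q.s ψ f (u f) :=
    ⟨fun f => if h : ∃ t, Lim q.s ψ f t then h.choose else 0, fun f h => by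
      simp only [dif_pos h]
      exact h.choose_spec⟩
  set q1 := q.addN D hDc hD with hq1
  have hq1q : q1 ≤ q := Cd.addN_le _ _ _ _
  have ha : ∀ r ≤ q1, ∀ g, r ∈ yv g → Lim q.s ψ g (u g) := by
    intro r hr g hg
    refine hu g ?_
    by_contra hno
    obtain ⟨x, hx1, hx2⟩ := hbad g hno
    exact Set.disjoint_left.1 r.dj (mem_yv.1 hg hx1) (hr.2 (Or.inr hx2))
  have hsub : ∀ r ≤ q1, q.s ⊆ r.s := fun r hr => (hr.trans hq1q).1
  have hmem : q1 ∈ uv u := by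
    rw [mem_uv]
    intro r hr f hf a c hau huc
    have hε : 0 < min (u f - a) (c - u f) / 3 := by
      have := lt_min (sub_pos.2 hau) (sub_pos.2 huc)
      positivity
    have m1 := min_le_left (u f - a) (c - u f)
    have m2 := min_le_right (u f - a) (c - u f)
    set ε := min (u f - a) (c - u f) / 3 with hεd
    obtain ⟨b, hb1, hb2, hb3⟩ := ha r hr f hf ε hε
    refine ⟨r, le_rfl, b, mem_lv_ptv.2 (Pin.mono (hsub r hr) hb1), hb2, ?_⟩
    intro g r' hr' hg hgb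
    obtain ⟨b'', h1, h2, h3⟩ := ha r' (hr'.trans hr) g hg ε hε
    obtain ⟨k, l, hl, hh⟩ := sfun_dense (Pin.append hb1 h1) (hit_append.2 ⟨hgb, h2⟩)
    have hC : Cf (sfun k l) ⊆ q.s := fun x hx => hl x (cf_sfun k l x hx)
    have e1 := abs_le.1 (hb3 _ hC (hit_append.1 hh).1)
    have e2 := abs_le.1 (h3 _ hC (hit_append.1 hh).2)
    constructor <;> linarith [e1.1, e1.2, e2.1, e2.2]
  obtain ⟨r, hr, b, hrb, hub⟩ := hH q1 (hq1q.trans hq) u hmem
  have hz : ∀ z ∈ b, ∃ bz : Iv Pt, Pin q.s bz ∧ hit evY z.1 bz ∧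
      ∀ g : BF, Cf g ⊆ q.s → hit evY g bz → (z.2.1 : ℝ) < ψ g ∧ ψ g < z.2.2 := by
    intro z hz
    have hyz : r ∈ yv z.1 := mem_lv.1 (hO b _ hrb) z hz
    have h1 : (z.2.1 : ℝ) < u z.1 ∧ u z.1 < z.2.2 := hub z hz
    have hε : 0 < min (u z.1 - z.2.1) (z.2.2 - u z.1) / 2 := by
      have := lt_min (sub_pos.2 h1.1) (sub_pos.2 h1.2)
      positivity
    have m1 := min_le_left (u z.1 - z.2.1) (z.2.2 - u z.1)
    have m2 := min_le_right (u z.1 - z.2.1) (z.2.2 - u z.1)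
    obtain ⟨bz, hb1, hb2, hb3⟩ := ha r hr z.1 hyz _ hε
    refine ⟨bz, hb1, hb2, fun g hg hgb => ?_⟩
    have e1 := abs_le.1 (hb3 g hg hgb)
    constructor <;> linarith [e1.1, e1.2]
  obtain ⟨Bz, hBz⟩ : ∃ Bz : BF × ℚ × ℚ → Iv Pt, ∀ z ∈ b, Pin q.s (Bz z) ∧ hit evY z.1 (Bz z) ∧
      ∀ g : BF, Cf g ⊆ q.s → hit evY g (Bz z) → (z.2.1 : ℝ) < ψ g ∧ ψ g < z.2.2 := by
    refine ⟨fun z => if h : z ∈ b then (hz z h).choose else [], fun z h => ?_⟩
    simp only [dif_pos h]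
    exact (hz z h).choose_spec
  set l : List Ct := (b.flatMap Bz).filterMap fun w => brOf w.1 with hl
  have hl1 : ∀ x ∈ l, x ∈ q.s := by
    intro x hx
    obtain ⟨w, hw, hwx⟩ := List.mem_filterMap.1 hx
    obtain ⟨z, hzb, hwz⟩ := List.mem_flatMap.1 hw
    exact (hBz z hzb).1 w hwz x (brOf_eq hwx)
  have hK : ∀ z ∈ b, ∃ k : Shp, Bz z = inst k l := by
    intro z hzb
    refine shp_of l (Bz z) fun w hw x hx => ?_
    refine List.mem_filterMap.2 ⟨w, List.mem_flatMap.2 ⟨z, hzb, hw⟩, ?_⟩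
    rw [hx]
    rfl
  obtain ⟨K, hK⟩ : ∃ K : BF × ℚ × ℚ → Shp, ∀ z ∈ b, Bz z = inst (K z) l := by
    refine ⟨fun z => if h : z ∈ b then (hK z h).choose else [], fun z h => ?_⟩
    simp only [dif_pos h]
    exact (hK z h).choose_spec
  have hMt : Mt (b.map fun z => (K z, z.2)) l b := by
    unfold Mt
    rw [List.forall₂_map_right_iff, List.forall₂_same]
    intro z hzb
    refine ⟨rfl, ?_⟩
    change hit evY z.1 (inst (K z) l)
    rw [← hK z hzb]
    exact (hBz z hzb).2.1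
  obtain ⟨b', hb'W, hMt'⟩ := hW.refl _ l hl1 ⟨r, hr.trans hq1q, b, hMt, hrb⟩
  refine hψ b' hb'W fun w hw => ?_
  obtain ⟨y, hy, hwy1, hwy2⟩ := forall₂_mem hMt' w hw
  obtain ⟨z, hzb, rfl⟩ := List.mem_map.1 hy
  have hCw : Cf w.1 ⊆ q.s := mem_yv.1 (mem_lv.1 (hO b' _ (hW.W_O b' hb'W)) w hw)
  change hit evY w.1 (inst (K z) l) at hwy2
  change w.2 = z.2 at hwy1
  rw [← hK z hzb] at hwy2
  rw [hwy1]
  exact (hBz z hzb).2.2 w.1 hCw hwy2

end CPI
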