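import Pool.Agent.CPI.CLinA
import Pool.Agent.CPI.CFus

/-! # Lindelof, case 2 (package C13)

(problem MP_ba5606_gt, project CPI; uses `support` (CFus), `cf_countable` (CCf), `Lim` (CLinA))

* `tcts_uv`: let `q ∈ uv u` and `V f t := chi (u f = t)` (`RO.mem_chi`). `ex`: `t = u f`. `un`: clear. `lt`: for `u f = t < c` (real `c`) choose rationals
  `a < u f < c' < c` and use `mem_uv`: `r' ≤ r`, `b` with `a < u g < c'` for all `g` as there; in the conclusion `t' = u g`. `gt` in the same way.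
* `case2`: suppose `r ∈ uv u`, `r ≤ q`, and `u` hits no `b ∈ W`. `support` applied to `tcts_uv` at `r`: `r1 ≤ r` with `Sup (fun f t => chi (u f = t)) r1`. Let
  `D := r1.n ∪ (r1.s \ q.s)`: countable and disjoint from `q.s` (`q.s ⊆ r1.s` is disjoint from `r1.n`). `hno u D` gives `f` with no limit
  (`Lim q.s u f`) and `Disjoint (Cf f) D`. Let `r2 := r1.addS (Cf f)` (`cf_countable`, `Cf f` is disjoint from `r1.n`): `r2 ≤ r1`, `r2 ∈ yv f`.
  CLAIM `Lim q.s u f (u f)`: for `ε > 0`: `Sup` at `r2` (`t = u f`): `r3 ≤ r2`, `b` with `Pin r1.s b`, `hit evY f b`, and for all `g`, `r' ≤ r3` with `r' ∈ yv g`,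
  `hit evY g b`: `|u g - u f| ≤ ε` (`t' = u g`, `RO.mem_chi`). Let `b'` be obtained from `b` by replacing every point `br x` with `x ∉ q.s` by `oo`.
  `Pin q.s b'`. For a function `h` with `x ∉ Cf h` for all branches `x ∉ q.s` which occur in `b` (`h (br x) = h oo`): `hit evY h b ↔ hit evY h b'`. This
  applies to `f` (a branch `x ∈ r1.s \ q.s` is in `D`, so not in `Cf f`) and to all `g` with `Cf g ⊆ q.s`. So `hit evY f b'`, and if `Cf g ⊆ q.s`, `hit
  evY g b'` then `hit evY g b` and `r3 ∈ yv g` (`q.s ⊆ r3.s`), so `|u g - u f| ≤ ε`. Contradiction. -/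

namespace CPI

open STP

theorem tcts_uv {q : Cd} {u : UF} (h : q ∈ uv u) :
    TCts q yv ptv evY (fun f t => (chi (u f = t) : RO Cd)) := by
  rw [mem_uv] at h
  refine ⟨?_, ?_, ?_, ?_⟩
  · intro r _ f _
    exact ⟨r, le_rfl, u f, RO.mem_chi.2 rfl⟩
  · intro r _ f t t' h1 h2
    exact (RO.mem_chi.1 h1).symm.trans (RO.mem_chi.1 h2)
  · intro r hr f t c hf ht htc
    have ht' : u f = t := RO.mem_chi.1 ht
    obtain ⟨a, ha⟩ := exists_rat_lt (u f)
    obtain ⟨c', hc1, hc2⟩ := exists_rat_btwn (show u f < c by rw [ht']; exact htc)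
    obtain ⟨r', hr', b, hb, hhit, H⟩ := h r hr f hf a c' ha hc1
    refine ⟨r', hr', b, hb, hhit, ?_⟩
    intro g t' r'' hr'' hg hgb hgt
    rw [← RO.mem_chi.1 hgt]
    exact (H g r'' hr'' hg hgb).2.trans hc2
  · intro r hr f t c hf ht htc
    have ht' : u f = t := RO.mem_chi.1 ht
    obtain ⟨a, ha⟩ := exists_rat_gt (u f)
    obtain ⟨c', hc1, hc2⟩ := exists_rat_btwn (show c < u f by rw [ht']; exact htc)
    obtain ⟨r', hr', b, hb, hhit, H⟩ := h r hr f hf c' a hc2 ha
    refine ⟨r', hr', b, hb, hhit, ?_⟩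
    intro g t' r'' hr'' hg hgb hgt
    rw [← RO.mem_chi.1 hgt]
    exact hc1.trans (H g r'' hr'' hg hgb).1

/-- replace the branches outside `s` by `oo` -/
private noncomputable def subP (s : Set Ct) : Pt → Pt
  | .nd t => .nd t
  | .br x => open Classical in if x ∈ s then .br x else .oo
  | .oo => .oo

private theorem subP_br {s : Set Ct} {p : Pt} {x : Ct} (h : subP s p = .br x) : x ∈ s := by
  rcases p with t | y | _
  · exact absurd h (by simp [subP])
  · by_cases hy : y ∈ s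
    · simp only [subP, if_pos hy, Pt.br.injEq] at h
      rw [← h]
      exact hy
    · simp [subP, if_neg hy] at h
  · exact absurd h (by simp [subP])

private theorem evY_subP {s : Set Ct} {f : BF} {p : Pt}
    (h : ∀ x, p = .br x → x ∉ s → x ∉ Cf f) : evY f (subP s p) = evY f p := by
  rcases p with t | y | _
  · rfl
  · by_cases hy : y ∈ s
    · simp [subP, if_pos hy]
    · have h1 := h y rfl hy
      have h2 : f.1 (.br y) = f.1 .oo := by
        by_contra h3
        exact h1 h3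
      simp only [subP, if_neg hy, evY]
      exact h2.symm
  · rfl

private theorem hit_subP {s : Set Ct} {f : BF} {b : Iv Pt}
    (h : ∀ z ∈ b, ∀ x, z.1 = .br x → x ∉ s → x ∉ Cf f) :
    hit evY f (b.map fun z => (subP s z.1, z.2)) ↔ hit evY f b := by
  constructor
  · intro h1 z hz
    have h2 := h1 (subP s z.1, z.2) (List.mem_map.2 ⟨z, hz, rfl⟩)
    simp only [evY_subP (h z hz)] at h2
    exact h2
  · intro h1 z' hz'
    obtain ⟨z, hz, rfl⟩ := List.mem_map.1 hz'
    have h2 := h1 z hz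
    simp only [evY_subP (h z hz)]
    exact h2

theorem case2 {q : Cd} {W : Set (Iv BF)}
    (hno : ∀ (ψ : UF) (D : Set Ct), D.Countable → Disjoint D q.s → (∀ b ∈ W, ¬ hit evU ψ b) →
      ∃ f : BF, (¬ ∃ t, Lim q.s ψ f t) ∧ Disjoint (Cf f) D) :
    ∀ r ≤ q, ∀ u, r ∈ uv u → ∃ b ∈ W, hit evU u b := by
  intro r hr u hu
  by_contra hcon
  have hcon' : ∀ b ∈ W, ¬ hit evU u b := fun b hb h1 => hcon ⟨b, hb, h1⟩
  obtain ⟨r1, hr1, -, hSup⟩ := support (tcts_uv hu)
  have hqr1 : q.s ⊆ r1.s := hr.1.trans hr1.1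
  have hDc : (r1.n ∪ (r1.s \ q.s)).Countable :=
    r1.cn.union (r1.cs.mono Set.diff_subset)
  have hDd : Disjoint (r1.n ∪ (r1.s \ q.s)) q.s := by
    rw [Set.disjoint_union_left]
    exact ⟨(r1.dj.mono_left hqr1).symm, Set.disjoint_sdiff_left⟩
  obtain ⟨f, hf, hfD⟩ := hno u _ hDc hDd hcon'
  have hfn : Disjoint (Cf f) r1.n := hfD.mono_right Set.subset_union_left
  have hr2y : r1.addS (Cf f) (cf_countable f) hfn ∈ yv f :=
    mem_yv.2 Set.subset_union_right
  refine hf ⟨u f, ?_⟩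
  intro ε hε
  obtain ⟨r3, hr3, b, hPin, hhit, H⟩ :=
    hSup _ (Cd.addS_le r1 (Cf f) (cf_countable f) hfn) f (u f) hr2y (RO.mem_chi.2 rfl) ε hε
  refine ⟨b.map fun z => (subP q.s z.1, z.2), ?_, ?_, ?_⟩
  · intro z' hz' x hx
    obtain ⟨z, hz, rfl⟩ := List.mem_map.1 hz'
    exact subP_br hx
  · refine (hit_subP ?_).2 hhit
    intro z hz x hx hxq hxf
    exact Set.disjoint_left.1 hfD hxf (Or.inr ⟨hPin z hz x hx, hxq⟩)
  · intro g hg hgb
    have hgb' : hit evY g b := by
      refine (hit_subP ?_).1 hgb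
      intro z _ x _ hxq hxg
      exact hxq (hg hxg)
    have hr3s : q.s ⊆ r3.s :=
      hqr1.trans ((Set.subset_union_left (s := r1.s) (t := Cf f)).trans hr3.1)
    exact H g (u g) r3 le_rfl (mem_yv.2 (hg.trans hr3s)) hgb' (RO.mem_chi.2 rfl)

end CPI
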