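import Pool.Agent.CPI.CDef

/-! # Shapes of finite systems of conditions (package C06)

(problem MP_ba5606_gt, project CPI; only `CDef.lean`: `PtS`, `instP`, `inst`, `Pin`)

* `shp_of`: for every point `p` which is a node, `oo` or a branch in `l` there is a reference `w : PtS` with
  `instP l w = p` (for a branch: an index `i` with `l[i]? = some x`, `List.getElem?_of_mem` or `List.mem_iff_getElem?`).
  Choose references for the points of `b`; `k := b.attach.map ..` or induction on `b`.
* `shp_decomp`: let `L` be the list of the branches which occur in `b` (`b.filterMap` with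
  `fun z => match z.1 with | .br x => some x | _ => none`), `l := L.filter (· ∈ s)`, `x := (L.filter (· ∉ s)).dedup`
  (classical decidability), and apply `shp_of` to `l ++ x`.
* `hit_swap`: for a condition `(w, a, c)` of the shape `k`: if `w` refers to a node, to `oo`, or to an index `≥ (l ++ x').length`
  (then both `l ++ x` and `l ++ x'` give `oo`), or to an index `i < l.length` (then both give `br l[i]`, and
  `l[i] ∈ s`), the condition is satisfied by `g` (`hg`) and `h` has the same value at this point. If
  `l.length ≤ i < l.length + x.length`, the point is `br x'[i - l.length]` for `l ++ x'` and `br x[i - l.length]` for `l ++ x`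
  (`List.getElem?_append_right`), use `hf` and `hx'`. -/

namespace CPI

private theorem ref_of (l : List Ct) (p : Pt) (h : ∀ x, p = .br x → x ∈ l) :
    ∃ w : PtS, instP l w = p := by
  cases p with
  | nd t => exact ⟨.inr (some t), rfl⟩
  | oo => exact ⟨.inr none, rfl⟩
  | br x =>
    obtain ⟨i, hi⟩ := List.getElem?_of_mem (h x rfl)
    refine ⟨.inl i, ?_⟩
    simp only [instP, hi]

private theorem branches (b : Iv Pt) :
    ∃ L : List Ct, ∀ y, y ∈ L ↔ ∃ z ∈ b, z.1 = .br y := by
  induction b with
  | nil =>
    refine ⟨[], fun y => ?_⟩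
    constructor
    · intro h
      exact absurd h List.not_mem_nil
    · rintro ⟨z, hz, _⟩
      exact absurd hz List.not_mem_nil
  | cons a b ih =>
    obtain ⟨L, hL⟩ := ih
    rcases a with ⟨p, q⟩
    have key : ∀ L' : List Ct, (∀ y, y ∈ L' ↔ p = .br y ∨ y ∈ L) →
        ∀ y, y ∈ L' ↔ ∃ z ∈ (p, q) :: b, z.1 = .br y := by
      intro L' hL' y
      rw [hL', hL]
      constructor
      · rintro (h | ⟨z, hz, h⟩)
        · exact ⟨(p, q), List.mem_cons_self, h⟩
        · exact ⟨z, List.mem_cons_of_mem _ hz, h⟩
      · rintro ⟨z, hz, h⟩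
        rcases List.mem_cons.1 hz with h1 | h1
        · left
          rw [h1] at h
          exact h
        · exact Or.inr ⟨z, h1, h⟩
    cases p with
    | nd t =>
      refine ⟨L, key L fun y => ?_⟩
      constructor
      · exact Or.inr
      · rintro (h | h)
        · exact absurd h (by simp)
        · exact h
    | oo =>
      refine ⟨L, key L fun y => ?_⟩
      constructor
      · exact Or.inr
      · rintro (h | h)
        · exact absurd h (by simp)
        · exact h
    | br x =>
      refine ⟨x :: L, key (x :: L) fun y => ?_⟩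
      rw [List.mem_cons]
      constructor
      · rintro (h | h)
        · left
          rw [h]
        · exact Or.inr h
      · rintro (h | h)
        · left
          exact (Pt.br.inj h).symm
        · exact Or.inr h

theorem shp_of (l : List Ct) (b : Iv Pt) (h : ∀ z ∈ b, ∀ x, z.1 = .br x → x ∈ l) :
    ∃ k : Shp, b = inst k l := by
  induction b with
  | nil => exact ⟨[], rfl⟩
  | cons a b ih =>
    obtain ⟨k, hk⟩ := ih fun z hz => h z (List.mem_cons_of_mem _ hz)
    obtain ⟨w, hw⟩ := ref_of l a.1 (h a List.mem_cons_self)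
    refine ⟨(w, a.2) :: k, ?_⟩
    rw [hk]
    change a :: inst k l = (instP l w, a.2.1, a.2.2) :: inst k l
    rw [hw]

theorem shp_decomp (s : Set Ct) (b : Iv Pt) :
    ∃ (k : Shp) (l x : List Ct), b = inst k (l ++ x) ∧ (∀ y ∈ l, y ∈ s) ∧ x.Nodup ∧
      (∀ y ∈ x, y ∉ s) ∧ ∀ y ∈ x, ∃ z ∈ b, z.1 = .br y := by
  classical
  obtain ⟨L, hL⟩ := branches b
  obtain ⟨k, hk⟩ := shp_of (L.filter (fun y => y ∈ s) ++ (L.filter (fun y => y ∉ s)).dedup) b
    (by
      intro z hz x hx
      have h1 : x ∈ L := (hL x).2 ⟨z, hz, hx⟩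
      rw [List.mem_append, List.mem_dedup, List.mem_filter, List.mem_filter]
      by_cases h2 : x ∈ s
      · exact Or.inl ⟨h1, decide_eq_true h2⟩
      · exact Or.inr ⟨h1, decide_eq_true h2⟩)
  refine ⟨k, _, _, hk, ?_, List.nodup_dedup _, ?_, ?_⟩
  · intro y hy
    rw [List.mem_filter] at hy
    exact of_decide_eq_true hy.2
  · intro y hy
    rw [List.mem_dedup, List.mem_filter] at hy
    exact of_decide_eq_true hy.2
  · intro y hy
    rw [List.mem_dedup, List.mem_filter] at hy
    exact (hL y).1 hy.1

theorem hit_swap {k : Shp} {l x x' : List Ct} (hlen : x'.length = x.length) {f g h : BF}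
    {s : Set Ct} (hl : ∀ y ∈ l, y ∈ s) (hf : hit evY f (inst k (l ++ x)))
    (hg : ∀ z ∈ inst k (l ++ x), (∀ y, z.1 = .br y → y ∈ s) →
      (z.2.1 : ℝ) < g.1 z.1 ∧ g.1 z.1 < z.2.2)
    (hoo : h.1 .oo = g.1 .oo)
    (hnd : ∀ t, (∃ z ∈ inst k (l ++ x), z.1 = .nd t) → h.1 (.nd t) = g.1 (.nd t))
    (hbr : ∀ y ∈ l, h.1 (.br y) = g.1 (.br y))
    (hx' : ∀ (i : ℕ) (y y' : Ct), x[i]? = some y → x'[i]? = some y' →
      h.1 (.br y') = f.1 (.br y)) :
    hit evY h (inst k (l ++ x')) := by
  intro z hz
  obtain ⟨w, hw, rfl⟩ := List.mem_map.1 hz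
  have hz0 : (instP (l ++ x) w.1, w.2.1, w.2.2) ∈ inst k (l ++ x) :=
    List.mem_map.2 ⟨w, hw, rfl⟩
  have hg0 := hg _ hz0
  have hf0 := hf _ hz0
  change (w.2.1 : ℝ) < h.1 (instP (l ++ x') w.1) ∧ h.1 (instP (l ++ x') w.1) < w.2.2
  change (w.2.1 : ℝ) < f.1 (instP (l ++ x) w.1) ∧ f.1 (instP (l ++ x) w.1) < w.2.2 at hf0
  change (∀ y, instP (l ++ x) w.1 = .br y → y ∈ s) →
    (w.2.1 : ℝ) < g.1 (instP (l ++ x) w.1) ∧ g.1 (instP (l ++ x) w.1) < w.2.2 at hg0
  have hoo' : instP (l ++ x) w.1 = .oo → instP (l ++ x') w.1 = .oo →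
      (w.2.1 : ℝ) < h.1 (instP (l ++ x') w.1) ∧ h.1 (instP (l ++ x') w.1) < w.2.2 := by
    intro e1 e2
    rw [e2, hoo]
    rw [e1] at hg0
    exact hg0 fun y hy => absurd hy (by simp)
  rcases hw1 : w.1 with i | _ | t
  · rw [hw1] at hg0 hf0 hoo'
    rcases lt_or_ge i l.length with hi | hi
    · have e1 : instP (l ++ x) (.inl i) = .br l[i] := by
        simp only [instP, List.getElem?_append_left hi, List.getElem?_eq_getElem hi]
      have e2 : instP (l ++ x') (.inl i) = .br l[i] := by
        simp only [instP, List.getElem?_append_left hi, List.getElem?_eq_getElem hi]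
      rw [e2, hbr _ (List.getElem_mem hi)]
      rw [e1] at hg0
      refine hg0 fun y hy => ?_
      rw [← Pt.br.inj hy]
      exact hl _ (List.getElem_mem hi)
    · rcases lt_or_ge (i - l.length) x.length with hj | hj
      · have hj' : i - l.length < x'.length := by rw [hlen]; exact hj
        have e1 : instP (l ++ x) (.inl i) = .br x[i - l.length] := by
          simp only [instP, List.getElem?_append_right hi, List.getElem?_eq_getElem hj]
        have e2 : instP (l ++ x') (.inl i) = .br x'[i - l.length] := by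
          simp only [instP, List.getElem?_append_right hi, List.getElem?_eq_getElem hj']
        rw [e2, hx' (i - l.length) _ _ (List.getElem?_eq_getElem hj)
          (List.getElem?_eq_getElem hj')]
        rw [e1] at hf0
        exact hf0
      · have hj' : x'.length ≤ i - l.length := by rw [hlen]; exact hj
        refine hoo' ?_ ?_
        · simp only [instP, List.getElem?_append_right hi, List.getElem?_eq_none hj]
        · simp only [instP, List.getElem?_append_right hi, List.getElem?_eq_none hj']
  · rw [hw1] at hoo'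
    exact hoo' rfl rfl
  · rw [hw1] at hg0 hz0
    change (w.2.1 : ℝ) < h.1 (.nd t) ∧ h.1 (.nd t) < w.2.2
    rw [hnd t ⟨_, hz0, rfl⟩]
    exact hg0 fun y hy => absurd hy (by simp [instP])

end CPI
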