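import Pool.Agent.CPI.CPos
import Pool.Agent.CPI.CShp

/-! # The generic condition for a cover (package C11)

(problem MP_ba5606_gt, project CPI; uses `close` (CPos))

`O b` is the truth value of: `b` belongs to the cover (`O b ≤ lv yv b`). `Mt β l b`: the code `b =
[(f_i, a_i, c_i)]` matches the
pattern `β = [(k_i, a_i, c_i)]` with the branches `l`: `f_i` satisfies `inst k_i l`.
* `exists_LS`: `close` with `K := List (Shp × ℚ × ℚ)` (countable) and `D β l p' := (∃ b, Mt β l b
∧ p' ∈ O b) ∨ ∀ r ≤ p', ∀ b, Mt β l b → r ∉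
  O b`: open (`RO.down`), dense (if the second alternative fails for `p'` there are `r ≤ p'` and
`b` as in the first). Let
  `q ≤ p` be the result and `W := {b | ∃ β l, (∀ x ∈ l, x ∈ q.s) ∧ b = w β l ∧ Mt β l b ∧ q ∈ O
b}` where `w β l` is a choice (`if h : ∃ b, Mt β l b ∧ q ∈ O b
  then h.choose else []`). `W` is countable: it is contained in the image of the countable set of
the pairs `(β, l)` with `l` in the
  countable set `q.s` (lists with elements in a countable set are the image of `List q.s` under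
`List.map Subtype.val`).
  `refl`: if `r ≤ q`, `Mt β l b`, `r ∈ O b` then the second alternative of `D β l q` fails, so the
first holds. -/

namespace CPI

open STP

/-- the code `b` matches the pattern `β` with the branches `l` -/
def Mt (β : List (Shp × ℚ × ℚ)) (l : List Ct) (b : Iv BF) : Prop :=
  List.Forall₂ (fun z w => z.2 = w.2 ∧ hit evY z.1 (inst w.1 l)) b β

/-- `W` is a countable part of the cover, decided by `q`, which contains a match of every pattern
(with
branches in `q.s`) which is matched by some element of the cover -/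
structure LS (O : Iv BF → RO Cd) (q : Cd) (W : Set (Iv BF)) : Prop where
  cW : W.Countable
  W_O : ∀ b ∈ W, q ∈ O b
  refl : ∀ β l, (∀ x ∈ l, x ∈ q.s) → (∃ r ≤ q, ∃ b, Mt β l b ∧ r ∈ O b) → ∃ b ∈ W, Mt β l b

/-- a match of the pattern in the part of the cover decided by `q` -/
private noncomputable def wch (O : Iv BF → RO Cd) (q : Cd) (β : List (Shp × ℚ × ℚ))
    (l : List Ct) : Iv BF :=
  open scoped Classical in if h : ∃ b, Mt β l b ∧ q ∈ O b then h.choose else []

private theorem wch_spec {O : Iv BF → RO Cd} {q : Cd} {β : List (Shp × ℚ × ℚ)} {l : List Ct}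
    (h : ∃ b, Mt β l b ∧ q ∈ O b) : Mt β l (wch O q β l) ∧ q ∈ O (wch O q β l) := by
  unfold wch
  rw [dif_pos h]
  exact h.choose_spec

theorem exists_LS (O : Iv BF → RO Cd) (p : Cd) : ∃ q ≤ p, ∃ W, LS O q W := by
  obtain ⟨q, hqp, hq⟩ := close (K := List (Shp × ℚ × ℚ))
    (fun β l p' => (∃ b, Mt β l b ∧ p' ∈ O b) ∨ ∀ r ≤ p', ∀ b, Mt β l b → r ∉ O b) p
    (by
      rintro β l p' q' hq' (⟨b, hb, hO⟩ | h)
      · exact Or.inl ⟨b, hb, (O b).down hq' hO⟩
      · exact Or.inr fun r hr => h r (hr.trans hq'))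
    (by
      intro β l p' _ _
      by_cases h : ∀ r ≤ p', ∀ b, Mt β l b → r ∉ O b
      · exact ⟨p', le_rfl, Or.inr h⟩
      · push Not at h
        obtain ⟨r, hr, b, hb, hO⟩ := h
        exact ⟨r, hr, Or.inl ⟨b, hb, hO⟩⟩)
  refine ⟨q, hqp, {b | ∃ β l, (∀ x ∈ l, x ∈ q.s) ∧ b = wch O q β l ∧ q ∈ O b}, ?_, ?_, ?_⟩
  · have hc : Countable q.s := q.cs.to_subtype
    refine (Set.countable_range fun z : List (Shp × ℚ × ℚ) × List q.s =>
      wch O q z.1 (z.2.map Subtype.val)).mono ?_
    rintro b ⟨β, l, hl, rfl, _⟩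
    lift l to List q.s using hl
    exact ⟨(β, l), rfl⟩
  · rintro b ⟨β, l, _, _, h⟩
    exact h
  · rintro β l hl ⟨r, hr, b, hb, hO⟩
    rcases hq β l hl with h | h
    · have h1 := wch_spec h
      exact ⟨_, ⟨β, l, hl, rfl, h1.2⟩, h1.1⟩
    · exact absurd hO (h r hr b hb)

end CPI
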