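import Pool.Agent.CPI.CCf

/-! # `C_p(K_S)` is not Lindelof (package C16)

(problem MP_ba5606_gt, project CPI; `chb x` is the characteristic function of the branch `x` with all its nodes, `CFun.lean`)

Witness: `O := {b : Iv Pt | for all branches x, y: if chb x and chb y satisfy b then x = y}`.
First clause: let `q ∈ yv f`. (a) `f oo ≠ 0`: choose rationals `a0 < f oo < c0` with `0 ∉ (a0, c0)`; `b = [(oo, a0, c0)]` is satisfied by no `chb x`
(`chb x` has the value `0` at `oo`). (b) `f = chb x` at all nodes and `oo` for some `x`: then `f (br x) = 1` (clause (1) of `IsB`: `f (nd (rs x n)) = 1` for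
all `n`), so `x ∈ Cf f ⊆ q.s`; `b = [(br x, 1/2, 3/2)]` is satisfied by `f`, `q ∈ lv ptv b`, and `chb y (br x) = 1` only for `y = x`. (c) otherwise
`f oo = 0` and for every branch `x` some node `t` has `f (nd t) ≠ chb x (nd t)`. CLAIM: there is `n` such that for all `x` some node `t` of length `≤ n` has
`f (nd t) ≠ chb x (nd t)`. (Otherwise for every `n` there is `x_n` with `f = chb x_n` on the nodes of length `≤ n`; then `f (nd t) = 1` for exactly one node `t_n = rs x_n n` of
length `n`, and `t_n` is the restriction of `t_{n+1}`, so there is a branch `x` with `rs x n = t_n` for all `n` (`x i := x_{i+1} i`), and `f = chb x` on all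
nodes, which contradicts the assumption. Alternatively: compactness of `Ct = ℕ → Bool`: the open sets `{x | f (nd t) ≠ chb x (nd t)}` cover `Ct`, finitely many
suffice.) Let `T` be the finite set of the nodes of length `≤ n` (or the finite set of `t` from compactness). For `t ∈ T` the value `chb x (nd t)` is `0` or
`1`; choose rationals `a_t < f (nd t) < c_t` such that `(a_t, c_t)` contains `0` only if `f (nd t) = 0` and `1` only if `f (nd t) = 1`. `b :=` the list of
`(nd t, a_t, c_t)`, `t ∈ T`: satisfied by `f`, by no `chb x`.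
In all cases `b ∈ O`, `q ∈ lv ptv b`, `hit evY f b`, `r = q`.
Second clause: let `C ⊆ O` be countable. The set of the branches `x` such that `chb x` satisfies some `b ∈ C` is countable (at most one for every `b`). By
`exists_not_mem` there is `x` not in this set, not in `q.s`, not in `q.n`. `r := q.addS {x}`, `a := chb x`: `Cf (chb x) = {x} ⊆ r.s` (`cf_chb`). -/

namespace CPI

open STP

private theorem sep1 {u v : ℝ} (h : u ≠ v) :
    ∃ a c : ℚ, (a : ℝ) < u ∧ u < c ∧ ¬ ((a : ℝ) < v ∧ v < c) := by
  rcases lt_or_gt_of_ne h with h1 | h1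
  · obtain ⟨a, ha⟩ := exists_rat_lt u
    obtain ⟨c, hc, hc'⟩ := exists_rat_btwn h1
    exact ⟨a, c, ha, hc, fun h2 => lt_asymm h2.2 hc'⟩
  · obtain ⟨c, hc⟩ := exists_rat_gt u
    obtain ⟨a, ha, ha'⟩ := exists_rat_btwn h1
    exact ⟨a, c, ha', hc, fun h2 => lt_asymm h2.1 ha⟩

private theorem chb_nd_congr {x y : Ct} {t : List Bool} (h : ∀ i < t.length, y i = x i) :
    (chb y).1 (.nd t) = (chb x).1 (.nd t) := by
  have e : rs y t.length = rs x t.length := by
    unfold rs
    refine List.map_congr_left fun i hi => h i (List.mem_range.1 hi)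
  have e2 : ∀ z : Ct, (∃ n, 0 ≤ n ∧ t = rs z n) ↔ t = rs z t.length := by
    intro z
    constructor
    · rintro ⟨n, _, hn⟩
      have h1 : t.length = n := by
        conv_lhs => rw [hn]
        exact rs_length z n
      rw [h1]
      exact hn
    · intro h1
      exact ⟨_, Nat.zero_le _, h1⟩
  have e3 : (∃ n, 0 ≤ n ∧ t = rs y n) ↔ ∃ n, 0 ≤ n ∧ t = rs x n := by
    rw [e2, e2, e]
  change indB y 0 (.nd t) = indB x 0 (.nd t)
  simp only [indB]
  by_cases h1 : ∃ n, 0 ≤ n ∧ t = rs x n
  · rw [if_pos h1, if_pos (e3.2 h1)]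
  · rw [if_neg h1, if_neg fun h2 => h1 (e3.1 h2)]

private theorem exists_cover (f : BF) (h : ∀ x, ∃ t, f.1 (.nd t) ≠ (chb x).1 (.nd t)) :
    ∃ b : Iv Pt, (∀ z ∈ b, ∃ t, z.1 = .nd t) ∧ hit evY f b ∧ ∀ y, ¬ hit evY (chb y) b := by
  classical
  choose t ht using h
  have h1 : ∀ x, ∃ a c : ℚ, (a : ℝ) < f.1 (.nd (t x)) ∧ f.1 (.nd (t x)) < c ∧
      ¬ ((a : ℝ) < (chb x).1 (.nd (t x)) ∧ (chb x).1 (.nd (t x)) < c) := fun x => sep1 (ht x)
  choose a c ha hc hac using h1
  obtain ⟨T, hT⟩ := CompactSpace.elim_nhds_subcover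
    (fun x : Ct => {y : Ct | ∀ i < (t x).length, y i = x i}) (by
      intro x
      refine IsOpen.mem_nhds ?_ fun i _ => rfl
      have e : {y : Ct | ∀ i < (t x).length, y i = x i} =
          ⋂ i ∈ Finset.range (t x).length, (fun y : Ct => y i) ⁻¹' {x i} := by
        ext y
        simp
      rw [e]
      exact isOpen_biInter_finset fun i _ =>
        (isOpen_discrete {x i}).preimage (continuous_apply i))
  refine ⟨T.toList.map fun x => (.nd (t x), a x, c x), ?_, ?_, ?_⟩
  · intro z hz
    obtain ⟨x, _, rfl⟩ := List.mem_map.1 hz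
    exact ⟨t x, rfl⟩
  · intro z hz
    obtain ⟨x, _, rfl⟩ := List.mem_map.1 hz
    exact ⟨ha x, hc x⟩
  · intro y hy
    have h2 : y ∈ ⋃ x ∈ T, {y : Ct | ∀ i < (t x).length, y i = x i} := by
      rw [hT]
      exact Set.mem_univ y
    simp only [Set.mem_iUnion] at h2
    obtain ⟨x, hx, h3⟩ := h2
    have h4 := hy (.nd (t x), a x, c x)
      (List.mem_map.2 ⟨x, Finset.mem_toList.2 hx, rfl⟩)
    change (a x : ℝ) < (chb y).1 (.nd (t x)) ∧ (chb y).1 (.nd (t x)) < c x at h4
    rw [chb_nd_congr h3] at h4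
    exact hac x h4

private theorem chb_oo (x : Ct) : (chb x).1 .oo = 0 := rfl

private theorem chb_br_self (x : Ct) : (chb x).1 (.br x) = 1 := by
  change indB x 0 (.br x) = 1
  simp only [indB]
  rw [if_pos trivial]

private theorem chb_br_ne {x y : Ct} (h : y ≠ x) : (chb x).1 (.br y) = 0 := by
  change indB x 0 (.br y) = 0
  simp only [indB]
  rw [if_neg h]

private theorem chb_nd_rs (x : Ct) (n : ℕ) : (chb x).1 (.nd (rs x n)) = 1 := by
  change indB x 0 (.nd (rs x n)) = 1
  simp only [indB]
  rw [if_pos ⟨n, Nat.zero_le n, rfl⟩]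

/-- the witness -/
private def Owit : Set (Iv Pt) :=
  {b | ∀ x y, hit evY (chb x) b → hit evY (chb y) b → x = y}

private theorem first {q : Cd} {f : BF} (hq : q ∈ yv f) :
    ∃ b ∈ Owit, q ∈ lv ptv b ∧ hit evY f b := by
  by_cases h0 : f.1 .oo = 0
  · by_cases h1 : ∃ x, ∀ t, f.1 (.nd t) = (chb x).1 (.nd t)
    · obtain ⟨x, hx⟩ := h1
      have h2 : f.1 (.br x) = 1 := by
        have h3 := f.2.1 x
        have h4 : (fun n => f.1 (.nd (rs x n))) = fun _ => (1 : ℝ) := by
          funext n
          rw [hx, chb_nd_rs]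
        rw [h4] at h3
        exact (tendsto_nhds_unique tendsto_const_nhds h3).symm
      have h3 : x ∈ q.s := by
        refine hq ?_
        change f.1 (.br x) ≠ f.1 .oo
        rw [h2, h0]
        exact one_ne_zero
      refine ⟨[(.br x, 1 / 2, 3 / 2)], ?_, ?_, ?_⟩
      · have key : ∀ y, hit evY (chb y) [(.br x, 1 / 2, 3 / 2)] → y = x := by
          intro y hy
          by_contra hne
          have h4 := (hy _ List.mem_cons_self).1
          change (((1 / 2 : ℚ)) : ℝ) < (chb y).1 (.br x) at h4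
          rw [chb_br_ne (fun h => hne h.symm)] at h4
          norm_num at h4
        intro y z hy hz
        rw [key y hy, key z hz]
      · rw [mem_lv_ptv]
        intro z hz y hy
        rw [List.mem_singleton] at hz
        rw [hz] at hy
        rw [← Pt.br.inj hy]
        exact h3
      · intro z hz
        rw [List.mem_singleton] at hz
        rw [hz]
        change (((1 / 2 : ℚ)) : ℝ) < f.1 (.br x) ∧ f.1 (.br x) < ((3 / 2 : ℚ) : ℝ)
        rw [h2]
        norm_num
    · push Not at h1
      obtain ⟨b, hb1, hb2, hb3⟩ := exists_cover f h1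
      refine ⟨b, fun x _ hx _ => absurd hx (hb3 x), ?_, hb2⟩
      rw [mem_lv_ptv]
      intro z hz y hy
      obtain ⟨t, ht⟩ := hb1 z hz
      rw [ht] at hy
      exact absurd hy (by simp)
  · obtain ⟨a, c, ha, hc, hac⟩ := sep1 h0
    refine ⟨[(.oo, a, c)], ?_, ?_, ?_⟩
    · intro x _ hx _
      have h1 := hx _ List.mem_cons_self
      change (a : ℝ) < (chb x).1 .oo ∧ (chb x).1 .oo < c at h1
      rw [chb_oo] at h1
      exact absurd h1 hac
    · rw [mem_lv_ptv]
      intro z hz y hy
      rw [List.mem_singleton] at hz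
      rw [hz] at hy
      exact absurd hy (by simp)
    · intro z hz
      rw [List.mem_singleton] at hz
      rw [hz]
      exact ⟨ha, hc⟩

theorem tnlin1' : TNLin yv ptv evY := by
  refine ⟨Owit, fun q f hq => ?_, fun q C hC hCO => ?_⟩
  · obtain ⟨b, hb, h1, h2⟩ := first hq
    exact ⟨q, le_rfl, b, hb, h1, h2⟩
  · have h1 : (⋃ b ∈ C, {x : Ct | hit evY (chb x) b}).Countable := by
      refine hC.biUnion fun b hb => ?_
      refine Set.Subsingleton.countable ?_
      intro x hx y hy
      exact hCO hb x y hx hy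
    obtain ⟨x, hx⟩ := exists_not_mem ((h1.union q.cs).union q.cn)
    have hx1 : x ∉ q.n := fun h => hx (Or.inr h)
    have hd : Disjoint ({x} : Set Ct) q.n := Set.disjoint_singleton_left.2 hx1
    refine ⟨q.addS {x} (Set.countable_singleton x) hd, Cd.addS_le _ _ _ _, chb x, ?_, ?_⟩
    · rw [mem_yv, cf_chb]
      exact Set.subset_union_right
    · intro b hb h2
      exact hx (Or.inl (Or.inl (Set.mem_biUnion hb h2)))

end CPI
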