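import Pool.Agent.CPI.CBas

/-! # The poset: closure, fusion (package C05)

(problem MP_ba5606_gt, project CPI; `STP/Rec.lean`: `REC`)

* `dcCd`: let `D` be directed with `#D < succ ℵ₀`, i.e. countable. The pair of unions `(⋃ d ∈ D, d.s, ⋃ d ∈ D, d.n)` is a
  condition: the unions are countable (`Set.Countable.biUnion`), and disjoint: if `x ∈ d.s` and `x ∈ d'.n` then some
  `e ∈ D` is below `d` and `d'`, so `x ∈ e.s ∩ e.n`. (For `D = ∅` this is the pair of empty sets.)
* `union_seq`: the same for a descending sequence.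
* `close`: fusion. Step: for `p ≤ p0` there is `p' ≤ p` with `D k l p'` for all `k` and all lists `l` with elements in `p.s`: the
  set of these pairs `(k, l)` is countable (lists with elements in a countable set: `Countable (List p.s)`), so by `REC dcCd`
  (index type `K × List p.s`, cardinality `≤ ℵ₀ < succ ℵ₀`; density is `hd` because `p.s ⊆ q.s` for `q ≤ p`) one condition
  `p' ≤ p` is in all of them. Iterate (`p_{n+1} := (p_n)'`), and let `q` be the union of the sequence (`union_seq`). A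
  list with elements in `q.s = ⋃ p_n.s` has its elements in some `p_n.s` (finite list, increasing sets), so
  `D k l p_{n+1}`, and `D k l q` by `hop`. -/

namespace CPI

open STP Cardinal

private theorem dc_aux (D : Set Cd) (hD : DirectedOn (· ≥ ·) D) (hc : D.Countable) :
    ∃ q : Cd, q.s = ⋃ d ∈ D, d.s ∧ q.n = ⋃ d ∈ D, d.n := by
  refine ⟨⟨⋃ d ∈ D, d.s, ⋃ d ∈ D, d.n, hc.biUnion fun d _ => d.cs,
    hc.biUnion fun d _ => d.cn, ?_⟩, rfl, rfl⟩
  rw [Set.disjoint_left]
  intro x hx hx'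
  obtain ⟨d, hd, hxd⟩ := Set.mem_iUnion₂.1 hx
  obtain ⟨d', hd', hxd'⟩ := Set.mem_iUnion₂.1 hx'
  obtain ⟨e, he, h1, h2⟩ := hD d hd d' hd'
  exact Set.disjoint_left.1 e.dj (h1.1 hxd) (h2.2 hxd')

theorem dcCd' : DC (Order.succ ℵ₀) Cd := by
  intro D hD hc
  have h1 : D.Countable := Cardinal.le_aleph0_iff_set_countable.1 (Order.lt_succ_iff.1 hc)
  obtain ⟨q, hs, hn⟩ := dc_aux D hD h1
  refine ⟨q, fun d hd => ⟨?_, ?_⟩⟩
  · rw [hs]
    exact Set.subset_biUnion_of_mem (u := fun d : Cd => d.s) hd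
  · rw [hn]
    exact Set.subset_biUnion_of_mem (u := fun d : Cd => d.n) hd

theorem union_seq (p : ℕ → Cd) (hp : ∀ n, p (n + 1) ≤ p n) :
    ∃ q : Cd, q.s = ⋃ n, (p n).s ∧ q.n = ⋃ n, (p n).n ∧ ∀ n, q ≤ p n := by
  have hanti : Antitone p := antitone_nat_of_succ_le hp
  have hdir : DirectedOn (· ≥ ·) (Set.range p) := by
    rintro _ ⟨i, rfl⟩ _ ⟨j, rfl⟩
    exact ⟨p (max i j), ⟨_, rfl⟩, hanti (le_max_left i j), hanti (le_max_right i j)⟩
  obtain ⟨q, hs, hn⟩ := dc_aux (Set.range p) hdir (Set.countable_range p)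
  rw [Set.biUnion_range] at hs hn
  refine ⟨q, hs, hn, fun n => ⟨?_, ?_⟩⟩
  · rw [hs]
    exact Set.subset_iUnion (fun n => (p n).s) n
  · rw [hn]
    exact Set.subset_iUnion (fun n => (p n).n) n

theorem close {K : Type} [Countable K] (D : K → List Ct → Cd → Prop) (p0 : Cd)
    (hop : ∀ k l p q, q ≤ p → D k l p → D k l q)
    (hd : ∀ k l, ∀ p ≤ p0, (∀ x ∈ l, x ∈ p.s) → ∃ q ≤ p, D k l q) :
    ∃ q ≤ p0, ∀ k l, (∀ x ∈ l, x ∈ q.s) → D k l q := by
  have step : ∀ p ≤ p0, ∃ p' ≤ p, ∀ k l, (∀ x ∈ l, x ∈ p.s) → D k l p' := by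
    intro p hp
    have hcs : Countable p.s := p.cs.to_subtype
    have hc : #(K × List p.s) < Order.succ ℵ₀ := Order.lt_succ_iff.2 Cardinal.mk_le_aleph0
    obtain ⟨r, hr, h⟩ := REC dcCd' hc (fun z q => D z.1 (z.2.map Subtype.val) q) p
      (fun s q r h => hop _ _ _ _ h) (by
        rintro ⟨k, l⟩ q hq
        exact hd k _ q (hq.trans hp) (by
          intro x hx
          obtain ⟨y, -, rfl⟩ := List.mem_map.1 hx
          exact hq.1 y.2))
    refine ⟨r, hr, fun k l hl => ?_⟩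
    have h1 := h (k, l.attach.map fun x => ⟨x.1, hl x.1 x.2⟩)
    change D k ((l.attach.map fun x => (⟨x.1, hl x.1 x.2⟩ : p.s)).map Subtype.val) r at h1
    have h2 : (l.attach.map fun x => (⟨x.1, hl x.1 x.2⟩ : p.s)).map Subtype.val = l := by
      rw [List.map_map]
      exact List.attach_map_subtype_val l
    rwa [h2] at h1
  choose f hf hD using step
  let g : ℕ → {p : Cd // p ≤ p0} := fun n =>
    Nat.rec ⟨p0, le_rfl⟩ (fun _ p => ⟨f p.1 p.2, (hf p.1 p.2).trans p.2⟩) n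
  have hg : ∀ n, (g (n + 1)).1 ≤ (g n).1 := fun n => hf (g n).1 (g n).2
  have hanti : Antitone fun n => (g n).1 := antitone_nat_of_succ_le hg
  obtain ⟨q, hq, -, hle⟩ := union_seq (fun n => (g n).1) hg
  refine ⟨q, hle 0, fun k l hl => ?_⟩
  have h1 : ∀ l : List Ct, (∀ x ∈ l, x ∈ q.s) → ∃ n, ∀ x ∈ l, x ∈ (g n).1.s := by
    intro l
    induction l with
    | nil => exact fun _ => ⟨0, fun x hx => absurd hx List.not_mem_nil⟩
    | cons a l ih =>
      intro hl
      obtain ⟨n, hn⟩ := ih fun x hx => hl x (List.mem_cons_of_mem _ hx)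
      have ha := hl a List.mem_cons_self
      rw [hq] at ha
      obtain ⟨m, hm⟩ := Set.mem_iUnion.1 ha
      refine ⟨max n m, fun x hx => ?_⟩
      rcases List.mem_cons.1 hx with rfl | hx
      · exact (hanti (le_max_right n m)).1 hm
      · exact (hanti (le_max_left n m)).1 (hn x hx)
  obtain ⟨n, hn⟩ := h1 l hl
  exact hop _ _ _ _ (hle (n + 1)) (hD _ _ k l hn)

end CPI
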