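import Pool.Agent.CPI.CCf
import Pool.Agent.CPI.CPos

/-! # `K_S` has no countable network (package C18)

(problem MP_ba5606_gt, project CPI; uses `dcCd'` (CPos), `exists_not_mem` (CBas), `chb`, `cf_chb`)

Suppose that `q`, `K : ℕ → Pt → RO Cd` satisfy: for `r ≤ q`, `a`, `b` with `r ∈ ptv a`,
`r ∈ lv yv b`, `hit evX a b` there are `r' ≤ r`, `k` with `r' ∈ K k a`, and all `a'`, `r'' ≤ r'`
with `r'' ∈ ptv a'`, `r'' ∈ K k a'` satisfy `hit evX a' b`. Put
`Sg k x r := ∀ r' ≤ r, ∀ y, y ∈ r'.s → r' ∈ K k (br y) → y = x` (`r` forces that `K k` contains at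
most the branch `x` of `S`) and `D k r := (∃ x, Sg k x r) ∨ ∀ r' ≤ r, ∀ x, ¬ Sg k x r'`. `D k` is
open and dense. By `REC dcCd'` (index type `ℕ`) there is `r0 ≤ q` with `D k r0` for all `k`; let `Z`
be the countable set of the chosen `x_k` (for the `k` with the first alternative). By
`exists_not_mem` there is `x ∉ Z ∪ r0.s ∪ r0.n`. Let `r := r0.addS {x}`, `a := br x`,
`b := [(chb x, 1/2, 3/2)]`: `r ∈ ptv a`, `r ∈ lv yv b` (`Cf (chb x) = {x}`), `hit evX a b`. So
`r' ≤ r`, `k` with `r' ∈ K k (br x)`, and every `y ∈ r''.s` (`r'' ≤ r'`) with `r'' ∈ K k (br y)`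
satisfies `1/2 < chb x (br y)`, so `y = x`: i.e. `Sg k x r'`. So the second alternative of `D k r0`
fails, `Sg k x_k r0` holds, and (with `r'`, `y = x`, `x ∈ r.s ⊆ r'.s`) `x = x_k ∈ Z`, a
contradiction. -/

namespace CPI

open STP

theorem tnet0' : TNet ptv yv evX := by
  classical
  intro q K h
  let Sg : ℕ → Ct → Cd → Prop := fun k x r =>
    ∀ r' ≤ r, ∀ y, y ∈ r'.s → r' ∈ K k (.br y) → y = x
  have hSg : ∀ k x p q', q' ≤ p → Sg k x p → Sg k x q' :=
    fun _ _ _ _ hq hS r' hr' => hS r' (hr'.trans hq)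
  have hc : Cardinal.mk ℕ < Order.succ Cardinal.aleph0 := by
    rw [Cardinal.mk_nat]
    exact Order.lt_succ _
  obtain ⟨r0, hr0, hD⟩ := REC dcCd' hc
    (fun k r => (∃ x, Sg k x r) ∨ ∀ r' ≤ r, ∀ x, ¬ Sg k x r') q
    (by
      intro k p r hrp hp
      rcases hp with ⟨x, hx⟩ | h'
      · exact Or.inl ⟨x, hSg _ _ _ _ hrp hx⟩
      · exact Or.inr fun r' hr' => h' r' (hr'.trans hrp))
    (by
      intro k q' _
      by_cases hx : ∃ r ≤ q', ∃ x, Sg k x r
      · obtain ⟨r, hr, x, hx⟩ := hx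
        exact ⟨r, hr, Or.inl ⟨x, hx⟩⟩
      · exact ⟨q', le_rfl, Or.inr fun r' hr' x hS => hx ⟨r', hr', x, hS⟩⟩)
  let z : ℕ → Ct := fun k => if h : ∃ x, Sg k x r0 then h.choose else fun _ => false
  have hz : ∀ k, (∃ x, Sg k x r0) → Sg k (z k) r0 := by
    intro k hk
    have h1 : z k = hk.choose := dif_pos hk
    rw [h1]
    exact hk.choose_spec
  obtain ⟨x, hx⟩ := exists_not_mem (c := Set.range z ∪ (r0.s ∪ r0.n))
    ((Set.countable_range z).union (r0.cs.union r0.cn))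
  have hxz : x ∉ Set.range z := fun h => hx (Or.inl h)
  have hxn : x ∉ r0.n := fun h => hx (Or.inr (Or.inr h))
  let r := r0.addS {x} (Set.countable_singleton x) (Set.disjoint_singleton_left.2 hxn)
  have hrr0 : r ≤ r0 := Cd.addS_le _ _ _ _
  have hxr : x ∈ r.s := Or.inr rfl
  have hch : ∀ y, (chb x).1 (.br y) = if y = x then 1 else 0 := fun y => by
    change indB x 0 (.br y) = _
    simp only [indB]
  obtain ⟨r', hr', k, hk, hall⟩ := h r (hrr0.trans hr0) (.br x) [(chb x, 1 / 2, 3 / 2)]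
    (mem_ptv_br.2 hxr)
    (by
      rw [mem_lv]
      intro z' hz'
      rw [List.mem_singleton] at hz'
      rw [hz', mem_yv, cf_chb]
      exact Set.singleton_subset_iff.2 hxr)
    (by
      intro z' hz'
      rw [List.mem_singleton] at hz'
      rw [hz']
      change (((1 / 2 : ℚ)) : ℝ) < (chb x).1 (.br x) ∧ (chb x).1 (.br x) < (((3 / 2 : ℚ)) : ℝ)
      rw [hch, if_pos rfl]
      push_cast
      norm_num)
  have hS : Sg k x r' := by
    intro r'' hr'' y hy hyK
    have h1 := hall (.br y) r'' hr'' (mem_ptv_br.2 hy) hyK _ (List.mem_singleton.2 rfl)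
    by_contra hne
    have h2 : (((1 / 2 : ℚ)) : ℝ) < (chb x).1 (.br y) := h1.1
    rw [hch, if_neg hne] at h2
    push_cast at h2
    norm_num at h2
  have hr'0 : r' ≤ r0 := hr'.trans hrr0
  rcases hD k with hk' | h2
  · have h3 := hz k hk' r' hr'0 x (hr'.1 hxr) hk
    exact hxz ⟨k, h3.symm⟩
  · exact h2 r' hr'0 x hS

end CPI
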