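import Pool.Agent.CPI.CMod
import Pool.Agent.CPI.CShp
import Pool.Agent.CPI.CPos

/-! # The support lemma (package C07)

(problem MP_ba5606_gt, project CPI; uses `modify` (CMod), `shp_decomp`, `hit_swap` (CShp))

`V` is a name of a continuous function on `C_p(K_S)`, `V f t` is the truth value of `V(f) = t`.
* `D2.mono`: clear (`F1`: `r ≤ p' ≤ p`; `F2`: the same `Z`, `p.s ∪ p.n` grows). `D2.dense`: if `F1 V k l m c p` fails there
  are `r ≤ p` and a countable `Z` such that there are no `r' ≤ r`, `x` as in `F1`. Let `q := r.addN (Z \ (r.s ∪ r.n))`: then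
  `Z ⊆ q.s ∪ q.n` and `F2` holds for `q`.
* `upper`: let `r ≤ q`, `r ∈ yv f`, `r ∈ V f t`, `t < c`. Choose a rational `c1`, `t < c1 < c`. `hV.lt` (with the real number `c1`): `r1 ≤ r`,
  `b` with `r1 ∈ lv ptv b` (i.e. `Pin r1.s b`, `mem_lv_ptv`), `hit evY f b`, and `Th V r1 b c1`. `shp_decomp q.s b`:
  `b = inst k (l ++ x)`, `l` in `q.s`, `x` without repetitions, disjoint from `q.s`; all elements of `x` occur in `b`, so they
  are in `r1.s`. Let `b0` be the list of the conditions `z ∈ b` whose point is not a branch outside `q.s` (`List.filter`).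
  `Pin q.s b0` and `hit evY f b0` are clear. CLAIM: if `r' ≤ r1`, `r' ∈ yv g`, `hit evY g b0`, `r' ∈ V g t'` then `t' ≤ c`. Suppose
  `c < t'`. `hV.gt` (for `g`, `t'`, `c`): `r2 ≤ r'`, `b'` with `Pin r2.s b'`, `hit evY g b'`, and all `h`, `t''`, `r'' ≤ r2` with
  `r'' ∈ yv h`, `hit evY h b'`, `r'' ∈ V h t''` satisfy `c < t''`. Consider `D2 V k l x.length c1 q` (`hD`). `F2` is impossible: its `Z ⊆
  q.s ∪ q.n`, the elements of `x` are in `r1.s`, not in `q.s`, and not in `q.n ⊆ r1.n` (`r1.dj`), so `x` is disjoint from `Z`, and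
  `Th V r1 (inst k (l ++ x)) c1` holds. So `F1`: apply it to `r2` and `Z := r2.s` (countable): `r3 ≤ r2`, `x'` without
  repetitions, `x'.length = x.length`, the elements of `x'` in `r3.s` and not in `r2.s`, and `Th V r3 (inst k (l ++ x')) c1`.
  `modify g X0 v T0` with `X0 = x'.toFinset`, `T0` the finite set of all nodes which occur in `b'` or `b`, and `v y' := f (br y)` if
  `y' = x'[i]`, `y = x[i]` (well defined: `x'` has no repetitions; e.g. `v y' := f.1 (.br (x.getD (x'.idxOf y') y'))`): `h` with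
  `Cf h ⊆ Cf g ∪ X0 ⊆ r3.s`, so `r3 ∈ yv h`. `hit evY h b'`: the points of `b'` are nodes in `T0`, `oo`, or branches in `r2.s`, hence not in
  `X0`; `h = g` there. `hit evY h (inst k (l ++ x'))`: `hit_swap` with `s = q.s` (`hg` is `hit evY g b0`; `l` is in `q.s ⊆ r2.s`, so not
  in `X0`). `hV.ex`: `r4 ≤ r3`, `t''` with `r4 ∈ V h t''`. Then `t'' < c1` by `Th` and `c < t''`, contradiction to `c1 < c`. -/

namespace CPI

open STP

/-- `r` forces: all functions in the basic set `b` have values `< c` -/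
def Th (V : BF → ℝ → RO Cd) (r : Cd) (b : Iv Pt) (c : ℚ) : Prop :=
  ∀ g t, ∀ r' ≤ r, r' ∈ yv g → hit evY g b → r' ∈ V g t → t < c

/-- there are (densely) systems of branches as required outside every countable set -/
def F1 (V : BF → ℝ → RO Cd) (k : Shp) (l : List Ct) (m : ℕ) (c : ℚ) (p : Cd) : Prop :=
  ∀ r ≤ p, ∀ Z : Set Ct, Z.Countable → ∃ r' ≤ r, ∃ x : List Ct, x.Nodup ∧ x.length = m ∧
    (∀ y ∈ x, y ∉ Z ∧ y ∈ r'.s) ∧ Th V r' (inst k (l ++ x)) c

/-- there are none outside a decided countable set -/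
def F2 (V : BF → ℝ → RO Cd) (k : Shp) (l : List Ct) (m : ℕ) (c : ℚ) (p : Cd) : Prop :=
  ∃ Z : Set Ct, Z ⊆ p.s ∪ p.n ∧ ∀ r ≤ p, ∀ x : List Ct, x.Nodup → x.length = m →
    (∀ y ∈ x, y ∉ Z ∧ y ∈ r.s) → ¬ Th V r (inst k (l ++ x)) c

/-- one of the two alternatives -/
def D2 (V : BF → ℝ → RO Cd) (k : Shp) (l : List Ct) (m : ℕ) (c : ℚ) (p : Cd) : Prop :=
  F1 V k l m c p ∨ F2 V k l m c p

theorem D2.mono {V : BF → ℝ → RO Cd} {k : Shp} {l : List Ct} {m : ℕ} {c : ℚ} {p q : Cd}
    (hq : q ≤ p) (h : D2 V k l m c p) : D2 V k l m c q := by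
  rcases h with h | ⟨Z, hZ, h⟩
  · exact Or.inl fun r hr => h r (hr.trans hq)
  · exact Or.inr ⟨Z, hZ.trans (Set.union_subset_union hq.1 hq.2), fun r hr => h r (hr.trans hq)⟩

theorem D2.dense (V : BF → ℝ → RO Cd) (k : Shp) (l : List Ct) (m : ℕ) (c : ℚ) (p : Cd) :
    ∃ q ≤ p, D2 V k l m c q := by
  by_cases h : F1 V k l m c p
  · exact ⟨p, le_rfl, Or.inl h⟩
  · unfold F1 at h
    push Not at h
    obtain ⟨r, hr, Z, hZ, h⟩ := h
    have hc : (Z \ (r.s ∪ r.n)).Countable := hZ.mono Set.sdiff_subset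
    have hd : Disjoint (Z \ (r.s ∪ r.n)) r.s :=
      Set.disjoint_left.2 fun y hy hys => hy.2 (Or.inl hys)
    have hq : r.addN (Z \ (r.s ∪ r.n)) hc hd ≤ r := Cd.addN_le _ _ _ _
    refine ⟨r.addN (Z \ (r.s ∪ r.n)) hc hd, hq.trans hr, Or.inr ⟨Z, ?_, ?_⟩⟩
    · intro y hy
      by_cases h1 : y ∈ r.s
      · exact Or.inl h1
      · by_cases h2 : y ∈ r.n
        · exact Or.inr (Or.inl h2)
        · exact Or.inr (Or.inr ⟨hy, fun h3 => h3.elim h1 h2⟩)
    · intro r' hr' x hx hm hxZ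
      exact h r' (hr'.trans hq) x hx hm hxZ

private theorem swap_val {x x' : List Ct} (hn : x'.Nodup) {i : ℕ} {y y' : Ct}
    (h1 : x[i]? = some y) (h2 : x'[i]? = some y') :
    (open Classical in x.getD (x'.idxOf y') y') = y := by
  classical
  obtain ⟨hi, he⟩ := List.getElem?_eq_some_iff.1 h2
  have h3 : x'.idxOf y' = i := by
    rw [← he]
    exact hn.idxOf_getElem i hi
  have h4 : x.getD i y' = y := by
    rw [List.getD_eq_getElem?_getD, h1]
    rfl
  rw [← h4]
  congr 1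

theorem upper {q0 q : Cd} {V : BF → ℝ → RO Cd} (hV : TCts q0 yv ptv evY V) (hq : q ≤ q0)
    (hD : ∀ k l m c, (∀ x ∈ l, x ∈ q.s) → D2 V k l m c q) :
    ∀ r ≤ q, ∀ f t, r ∈ yv f → r ∈ V f t → ∀ c : ℝ, t < c →
      ∃ r1 ≤ r, ∃ b, Pin q.s b ∧ hit evY f b ∧
        ∀ g t', ∀ r' ≤ r1, r' ∈ yv g → hit evY g b → r' ∈ V g t' → t' ≤ c := by
  classical
  intro r hr f t hrf hrV c htc
  obtain ⟨c1, htc1, hc1c⟩ := exists_rat_btwn htc
  obtain ⟨r1, hr1, b, hrb, hfb, hTh⟩ := hV.lt r (hr.trans hq) f t c1 hrf hrV htc1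
  rw [mem_lv_ptv] at hrb
  have hTh' : Th V r1 b c1 := hTh
  obtain ⟨k, l, x, hb, hl, hxn, hxs, hxb⟩ := shp_decomp q.s b
  have hxr1 : ∀ y ∈ x, y ∈ r1.s := by
    intro y hy
    obtain ⟨z, hz, hzy⟩ := hxb y hy
    exact hrb z hz y hzy
  refine ⟨r1, hr1, b.filter fun z => decide (∀ y, z.1 = .br y → y ∈ q.s), ?_, ?_, ?_⟩
  · intro z hz y hy
    exact (of_decide_eq_true (List.mem_filter.1 hz).2) y hy
  · intro z hz
    exact hfb z (List.mem_filter.1 hz).1
  · intro g t' r' hr' hr'g hg0 hr'V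
    by_contra hct
    push Not at hct
    have hr'q : r' ≤ q := hr'.trans (hr1.trans hr)
    obtain ⟨r2, hr2, b', hr2b', hgb', hgt⟩ := hV.gt r' (hr'q.trans hq) g t' c hr'g hr'V hct
    rw [mem_lv_ptv] at hr2b'
    have hr2q : r2 ≤ q := hr2.trans hr'q
    rcases hD k l x.length c1 hl with h | ⟨Z, hZ, h⟩
    · obtain ⟨r3, hr3, x', hx'n, hx'l, hx'm, hx'T⟩ := h r2 hr2q r2.s r2.cs
      let nds : Pt × ℚ × ℚ → Option (List Bool) := fun z =>
        match z.1 with
        | .nd t => some t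
        | _ => none
      obtain ⟨h, hoo, hnd, hX, hY, hCf⟩ := modify g x'.toFinset
        (fun y' => f.1 (.br (x.getD (x'.idxOf y') y'))) ((b ++ b').filterMap nds).toFinset
      have hndb : ∀ z ∈ b ++ b', ∀ t, z.1 = .nd t → h.1 (.nd t) = g.1 (.nd t) := by
        intro z hz t hzt
        refine hnd t ?_
        rw [List.mem_toFinset, List.mem_filterMap]
        refine ⟨z, hz, ?_⟩
        simp only [nds, hzt]
      have hr3h : r3 ∈ yv h := by
        rw [mem_yv]
        intro y hy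
        rcases hCf hy with h1 | h1
        · exact hr3.1 (hr2.1 (mem_yv.1 hr'g h1))
        · exact (hx'm y (List.mem_toFinset.1 h1)).2
      have hhb' : hit evY h b' := by
        intro z hz
        have h1 : evY h z.1 = evY g z.1 := by
          unfold evY
          rcases hp : z.1 with t | y | _
          · exact hndb z (List.mem_append.2 (Or.inr hz)) t hp
          · refine hY y ?_
            intro h2
            exact (hx'm y (List.mem_toFinset.1 h2)).1 (hr2b' z hz y hp)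
          · exact hoo
        rw [h1]
        exact hgb' z hz
      have hhs : hit evY h (inst k (l ++ x')) := by
        refine hit_swap (f := f) (g := g) hx'l hl (by rw [← hb]; exact hfb) ?_ hoo ?_ ?_ ?_
        · intro z hz hzs
          rw [← hb] at hz
          exact hg0 z (List.mem_filter.2 ⟨hz, decide_eq_true hzs⟩)
        · rintro t ⟨z, hz, hzt⟩
          rw [← hb] at hz
          exact hndb z (List.mem_append.2 (Or.inl hz)) t hzt
        · intro y hy
          refine hY y ?_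
          intro h2
          exact (hx'm y (List.mem_toFinset.1 h2)).1 (hr2q.1 (hl y hy))
        · intro i y y' h1 h2
          rw [hX y' (List.mem_toFinset.2 (List.mem_of_getElem? h2)), swap_val hx'n h1 h2]
      obtain ⟨r4, hr4, t'', hr4t⟩ := hV.ex r3 (hr3.trans (hr2q.trans hq)) h hr3h
      have h1 := hx'T h t'' r4 hr4 ((yv h).down hr4 hr3h) hhs hr4t
      have h2 := hgt h t'' r4 (hr4.trans hr3) ((yv h).down hr4 hr3h) hhb' hr4t
      exact absurd (h2.trans (h1.trans hc1c)) (lt_irrefl _)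
    · refine h r1 (hr1.trans hr) x hxn rfl (fun y hy => ⟨fun hyZ => ?_, hxr1 y hy⟩) ?_
      · rcases hZ hyZ with h1 | h1
        · exact hxs y hy h1
        · exact Set.disjoint_left.1 r1.dj (hxr1 y hy) ((hr1.trans hr).2 h1)
      · rw [← hb]
        exact hTh'

end CPI
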