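import Pool.Agent.CPI.CCf
import Pool.Agent.CPI.CPos

/-! # Every continuous function on `K_S` is in the ground model (package C10)

(problem MP_ba5606_gt, project CPI; uses `dcCd'` (CPos), `cf_countable` (CCf), `ev_not_mem`, `ev_ne` (CBas))

Let `TCts q0 ptv yv evX V` (`V x t` is the truth value of `V(x) = t`, `x : Pt`). The set of nodes is countable, so by `REC` (with
`dcCd'`, index type `List Bool`) and one more step there is `q ≤ q0` with `q ∈ V (nd t) (g t)` for all nodes `t` and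
`q ∈ V oo g∞` (`ptv (nd t) = ptv oo = ⊤`; `TCts.ex`).
NEIGHBOURHOODS: let `b : Iv BF` be a code with `r ∈ lv yv b` (all `f` in `b` have `Cf f ⊆ r.s`).
 (N1) if `hit evX (br x) b` then eventually `hit evX (nd (rs x n)) b` (each `f` in `b` is in `IsB`: `f (nd (rs x n)) → f (br x)`, and
 there are finitely many open conditions; `Filter.eventually_all` over the list, e.g. induction on `b`).
 (N2) if `hit evX oo b` and `x ∉ r.s` then `hit evX (br x) b` (`x ∉ Cf f` for the `f` in `b`), so (N1) applies.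
 (N3) if `hit evX oo b` there are finite sets `F`, `D` such that `hit evX (nd t) b` for all nodes `t ∉ D` on no branch of `F`: for each
 condition `(f, a, c)` in `b` use clause (2) of `IsB f` with `ε = min (f oo - a) (c - f oo)`; induction on `b`.
CONVERGENCE. (A) if `r ≤ q`, `x ∈ r.s`, `r ∈ V (br x) t` then `g (rs x n) → t`: for `c > t`: `TCts.lt`: `r' ≤ r`, `b` with `hit evX (br x) b`,
and all points `a'` with `hit evX a' b`, `r'' ≤ r'`, `r'' ∈ ptv a'`, `r'' ∈ V a' t'` satisfy `t' < c`; apply (N1) and `a' = nd (rs x n)`, `r'' =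
r'`, `t' = g (rs x n)`. Similarly for `c < t`. (B) if `x ∉ q.s` then `g (rs x n) → g∞`: let `r := q.addN {x}`; `r ∈ V oo g∞`; for `c > g∞`
`TCts.lt`: `r' ≤ r`, `b`, `hit evX oo b`, `x ∉ r'.s` (as `x ∈ r'.n`), use (N2), (N1).
DEFINITION of `f : Pt → ℝ`: `f (nd t) = g t`, `f oo = g∞`, `f (br x) = ` the limit of `g (rs x n)`, which exists: for `x ∉ q.s` by (B) it is `g∞`;
for `x ∈ q.s`: `q ∈ ptv (br x)`, `TCts.ex`: `r ≤ q`, `t` with `r ∈ V (br x) t`, and (A). `IsB f`: clause (1) holds by definition; clause (2): for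
`ε`: `TCts.lt` and `TCts.gt` at `oo` with `c = g∞ ± ε`: a code `b` (append the two codes) with `hit evX oo b` and all nodes `t` with
`hit evX (nd t) b` satisfy `|g t - g∞| < ε`; (N3). `Cf f ⊆ q.s` by (B) (uniqueness of limits), so `q ∈ yv f`.
For `a : Pt`, `r' ≤ q`, `r' ∈ ptv a`: `r' ∈ V a (f a)`: clear for nodes and `oo`; for `a = br x` (`x ∈ r'.s`): `RO.locally`: for `r'' ≤ r'` by
`TCts.ex` some `r3 ≤ r''`, `t` with `r3 ∈ V (br x) t`, and `t = f (br x)` by (A) and uniqueness of limits. -/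

namespace CPI

open STP Cardinal Filter

private theorem N1 (x : Ct) (b : Iv BF) (h : hit evX (.br x) b) :
    ∀ᶠ n in atTop, hit evX (.nd (rs x n)) b := by
  induction b with
  | nil => exact Eventually.of_forall fun n z hz => absurd hz List.not_mem_nil
  | cons z b ih =>
    have h1 := h z List.mem_cons_self
    have h2 := ih fun w hw => h w (List.mem_cons_of_mem _ hw)
    have h3 := z.1.2.1 x
    filter_upwards [h2, h3.eventually (lt_mem_nhds h1.1), h3.eventually (gt_mem_nhds h1.2)]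
      with n e1 e2 e3
    intro w hw
    rcases List.mem_cons.1 hw with rfl | hw
    · exact ⟨e2, e3⟩
    · exact e1 w hw

private theorem N2 {r : Cd} {b : Iv BF} (hb : r ∈ lv yv b) (h : hit evX .oo b) {x : Ct}
    (hx : x ∉ r.s) : hit evX (.br x) b := by
  intro z hz
  have h1 : Cf z.1 ⊆ r.s := mem_yv.1 (mem_lv.1 hb z hz)
  have h2 : z.1.1 (.br x) = z.1.1 .oo := by
    by_contra h3
    exact hx (h1 h3)
  have h3 := h z hz
  unfold evX at h3 ⊢
  rw [h2]
  exact h3

private theorem N3 (b : Iv BF) (h : hit evX .oo b) :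
    ∃ (F : Finset Ct) (D : Finset (List Bool)), ∀ t, t ∉ D → (∀ x ∈ F, ∀ n, t ≠ rs x n) →
      hit evX (.nd t) b := by
  classical
  induction b with
  | nil => exact ⟨∅, ∅, fun t _ _ z hz => absurd hz List.not_mem_nil⟩
  | cons z b ih =>
    have h1 := h z List.mem_cons_self
    obtain ⟨F, D, h2⟩ := ih fun w hw => h w (List.mem_cons_of_mem _ hw)
    unfold evX at h1
    obtain ⟨F', D', h3⟩ := z.1.2.2 (min (z.1.1 .oo - z.2.1) (z.2.2 - z.1.1 .oo))
      (lt_min (by linarith [h1.1]) (by linarith [h1.2]))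
    refine ⟨F ∪ F', D ∪ D', fun t ht hx => ?_⟩
    rw [Finset.notMem_union] at ht
    have h4 := h2 t ht.1 fun x hxF => hx x (Finset.mem_union_left _ hxF)
    have h5 := h3 t ht.2 fun x hxF => hx x (Finset.mem_union_right _ hxF)
    rw [lt_min_iff] at h5
    have h6 := (abs_lt.1 h5.1).1
    have h7 := (abs_lt.1 h5.2).2
    intro w hw
    rcases List.mem_cons.1 hw with rfl | hw
    · unfold evX
      exact ⟨by linarith, by linarith⟩
    · exact h4 w hw

theorem tsur1' : TSur ptv yv evX yv evY := by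
  classical
  intro q0 V hV
  -- the values at the nodes and at infinity
  obtain ⟨q, hq, hdec⟩ := REC dcCd' (J := Option (List Bool))
    (Order.lt_succ_iff.2 (Cardinal.mk_le_aleph0))
    (fun s q => ∃ t, q ∈ V (s.elim Pt.oo Pt.nd) t) q0
    (fun s q r hr ⟨t, ht⟩ => ⟨t, RO.down _ hr ht⟩) (by
      intro s q hq
      have hm : q ∈ ptv (s.elim Pt.oo Pt.nd) := by
        cases s
        · exact RO.mem_top
        · exact RO.mem_top
      obtain ⟨r, hr, t, ht⟩ := hV.ex q hq _ hm
      exact ⟨r, hr, t, ht⟩)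
  choose g0 hg0 using hdec
  set gi : ℝ := g0 none with hgi
  set g : List Bool → ℝ := fun t => g0 (some t) with hg
  have hgt : ∀ t, q ∈ V (.nd t) (g t) := fun t => hg0 (some t)
  have hgo : q ∈ V .oo gi := hg0 none
  -- (A)
  have hA : ∀ r ≤ q, ∀ x t, r ∈ ptv (.br x) → r ∈ V (.br x) t →
      Tendsto (fun n => g (rs x n)) atTop (nhds t) := by
    intro r hr x t hx ht
    refine tendsto_order.2 ⟨fun c hc => ?_, fun c hc => ?_⟩
    · obtain ⟨r', hr', b, -, hb2, hb3⟩ := hV.gt r (hr.trans hq) _ t c hx ht hc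
      filter_upwards [N1 x b hb2] with n hn
      exact hb3 _ _ r' le_rfl RO.mem_top hn (RO.down _ (hr'.trans hr) (hgt _))
    · obtain ⟨r', hr', b, -, hb2, hb3⟩ := hV.lt r (hr.trans hq) _ t c hx ht hc
      filter_upwards [N1 x b hb2] with n hn
      exact hb3 _ _ r' le_rfl RO.mem_top hn (RO.down _ (hr'.trans hr) (hgt _))
  -- (B)
  have hB : ∀ x, x ∉ q.s → Tendsto (fun n => g (rs x n)) atTop (nhds gi) := by
    intro x hx
    have hd : Disjoint ({x} : Set Ct) q.s := Set.disjoint_singleton_left.2 hx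
    set r := q.addN {x} (Set.countable_singleton x) hd with hrd
    have hr : r ≤ q := Cd.addN_le _ _ _ _
    have hxr : x ∈ r.n := Or.inr rfl
    have hns : ∀ r' ≤ r, x ∉ r'.s := fun r' hr' h =>
      Set.disjoint_left.1 r'.dj h (hr'.2 hxr)
    have hro : r ∈ V .oo gi := RO.down _ hr hgo
    refine tendsto_order.2 ⟨fun c hc => ?_, fun c hc => ?_⟩
    · obtain ⟨r', hr', b, hb1, hb2, hb3⟩ := hV.gt r (hr.trans hq) .oo gi c RO.mem_top hro hc
      filter_upwards [N1 x b (N2 hb1 hb2 (hns r' hr'))] with n hn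
      exact hb3 _ _ r' le_rfl RO.mem_top hn (RO.down _ (hr'.trans hr) (hgt _))
    · obtain ⟨r', hr', b, hb1, hb2, hb3⟩ := hV.lt r (hr.trans hq) .oo gi c RO.mem_top hro hc
      filter_upwards [N1 x b (N2 hb1 hb2 (hns r' hr'))] with n hn
      exact hb3 _ _ r' le_rfl RO.mem_top hn (RO.down _ (hr'.trans hr) (hgt _))
  -- the limits along the branches
  have hex : ∀ x, ∃ L, Tendsto (fun n => g (rs x n)) atTop (nhds L) := by
    intro x
    by_cases hx : x ∈ q.s
    · obtain ⟨r, hr, t, ht⟩ := hV.ex q hq (.br x) (mem_ptv_br.2 hx)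
      exact ⟨t, hA r hr x t (RO.down _ hr (mem_ptv_br.2 hx)) ht⟩
    · exact ⟨gi, hB x hx⟩
  choose L hL using hex
  let f : Pt → ℝ := fun p => match p with
    | .nd t => g t
    | .br x => L x
    | .oo => gi
  have hf : IsB f := by
    refine ⟨hL, fun ε hε => ?_⟩
    obtain ⟨r1, hr1, b1, -, h12, h13⟩ :=
      hV.lt q hq .oo gi (gi + ε) RO.mem_top hgo (by linarith)
    obtain ⟨r2, hr2, b2, -, h22, h23⟩ :=
      hV.gt q hq .oo gi (gi - ε) RO.mem_top hgo (by linarith)
    obtain ⟨F1, D1, h1⟩ := N3 b1 h12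
    obtain ⟨F2, D2, h2⟩ := N3 b2 h22
    refine ⟨F1 ∪ F2, D1 ∪ D2, fun t ht hx => ?_⟩
    rw [Finset.notMem_union] at ht
    have h3 := h1 t ht.1 fun x hxF => hx x (Finset.mem_union_left _ hxF)
    have h4 := h2 t ht.2 fun x hxF => hx x (Finset.mem_union_right _ hxF)
    have h5 := h13 _ _ r1 le_rfl RO.mem_top h3 (RO.down _ hr1 (hgt t))
    have h6 := h23 _ _ r2 le_rfl RO.mem_top h4 (RO.down _ hr2 (hgt t))
    change |g t - gi| < ε
    rw [abs_lt]
    exact ⟨by linarith, by linarith⟩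
  refine ⟨q, hq, ⟨f, hf⟩, ?_, ?_⟩
  · rw [mem_yv]
    intro x hx
    by_contra hxs
    exact hx (tendsto_nhds_unique (hL x) (hB x hxs))
  · intro a r' hr' ha
    rcases a with t | x | _
    · exact RO.down _ hr' (hgt t)
    · refine RO.locally _ fun r'' hr'' => ?_
      have hx : r'' ∈ ptv (.br x) := RO.down _ hr'' ha
      obtain ⟨r3, hr3, t, ht⟩ := hV.ex r'' ((hr''.trans hr').trans hq) (.br x) hx
      refine ⟨r3, hr3, ?_⟩
      have h1 := hA r3 ((hr3.trans hr'').trans hr') x t (RO.down _ hr3 hx) ht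
      have h2 : t = L x := tendsto_nhds_unique h1 (hL x)
      rw [h2] at ht
      exact ht
    · exact RO.down _ hr' hgo

end CPI
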