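import Pool.Agent.CPI.CFus

/-! # Every continuous function on `C_p(K_S)` is coded by a ground model function (package C09)

(problem MP_ba5606_gt, project CPI; uses `support` (CFus), `sfun_dense` (CMod), `cf_sfun` (CCf))

Let `TCts q0 yv ptv evY V`. `support` gives `q ≤ q0`, values `ψ k l` with `q ∈ V (sfun k l) (ψ k l)` for `l` in `q.s`, and `Sup V q`. Put
`Lm f t := ∀ ε > 0, ∃ b, Pin q.s b ∧ hit evY f b ∧ ∀ k l, (∀ x ∈ l, x ∈ q.s) → hit evY (sfun k l) b → |ψ k l - t| ≤ ε`.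
(a) `Lm f t`, `Lm f t'` imply `t = t'`: for `ε > 0` and `b`, `b'`: by `sfun_dense` for `b ++ b'` some `sfun k l` hits both, so
`|t - t'| ≤ 2ε`.
`u f :=` the `t` with `Lm f t` if it exists (`Classical.choose`), otherwise `0`.
(b) if `r ≤ q`, `r ∈ yv f`, `r ∈ V f t` then `t = u f`: `Lm f t` holds: for `ε` let `r1 ≤ r`, `b` be as in `Sup V q`; for `l` in `q.s` with
`hit evY (sfun k l) b`: `Cf (sfun k l) ⊆ q.s ⊆ r1.s` (`cf_sfun`), so `r1 ∈ yv (sfun k l)`, and `r1 ∈ V (sfun k l) (ψ k l)` (`RO.down`), so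
`|ψ k l - t| ≤ ε`. Now (a).
(c) `r ≤ q`, `r ∈ yv f` imply `r ∈ V f (u f)`: `RO.locally`, `TCts.ex`, (b).
(d) `q ∈ uv u` (`mem_uv`): for `r ≤ q`, `r ∈ yv f`, rationals `a < u f < c`: `r ∈ V f (u f)` by (c); `TCts.lt` with the real `c`: `r1`, `b1`;
`TCts.gt` at `r1` with `a`: `r2 ≤ r1`, `b2`; take `r2`, `b1 ++ b2` (`mem_lv_append`, `hit_append`): for `g`, `r' ≤ r2`, `r' ∈ yv g`:
`r' ∈ V g (u g)` by (c). -/

namespace CPI

open STP

theorem tsur2' : TSur yv ptv evY uv evU := by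
  classical
  intro q0 V hV
  obtain ⟨q, hq, hex, hS⟩ := support hV
  set ψ : KD → List Ct → ℝ := fun k l =>
    if h : ∃ t, q ∈ V (sfun k l) t then h.choose else 0 with hψ
  have hψV : ∀ k l, (∀ x ∈ l, x ∈ q.s) → q ∈ V (sfun k l) (ψ k l) := by
    intro k l hl
    have h := hex k l hl
    have h1 : ψ k l = h.choose := dif_pos h
    rw [h1]
    exact h.choose_spec
  set Lm : BF → ℝ → Prop := fun f t => ∀ ε : ℝ, 0 < ε → ∃ b, Pin q.s b ∧ hit evY f b ∧
    ∀ k l, (∀ x ∈ l, x ∈ q.s) → hit evY (sfun k l) b → |ψ k l - t| ≤ ε with hLm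
  -- uniqueness of the limit
  have ha : ∀ f t t', Lm f t → Lm f t' → t = t' := by
    intro f t t' h h'
    by_contra hne
    have hpos : 0 < |t - t'| := abs_pos.2 (sub_ne_zero.2 hne)
    obtain ⟨b, hb, hfb, h1⟩ := h (|t - t'| / 3) (by linarith)
    obtain ⟨b', hb', hfb', h2⟩ := h' (|t - t'| / 3) (by linarith)
    obtain ⟨k, l, hl, hkl⟩ := sfun_dense (hb.append hb') (hit_append.2 ⟨hfb, hfb'⟩)
    have h3 := h1 k l hl (hit_append.1 hkl).1
    have h4 := h2 k l hl (hit_append.1 hkl).2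
    have h5 : |t - t'| ≤ |ψ k l - t| + |ψ k l - t'| := by
      have h6 : t - t' = (ψ k l - t') - (ψ k l - t) := by ring
      rw [h6]
      have h7 := abs_sub (ψ k l - t') (ψ k l - t)
      linarith
    linarith
  set u : BF → ℝ := fun f => if h : ∃ t, Lm f t then h.choose else 0 with hu
  have hub : ∀ f t, Lm f t → u f = t := by
    intro f t ht
    have h : ∃ t, Lm f t := ⟨t, ht⟩
    have h1 : u f = h.choose := dif_pos h
    rw [h1]
    exact ha f _ _ h.choose_spec ht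
  -- the values of the name are limits
  have hb : ∀ r ≤ q, ∀ f t, r ∈ yv f → r ∈ V f t → u f = t := by
    intro r hr f t hrf hrV
    refine hub f t fun ε hε => ?_
    obtain ⟨r1, hr1, b, hb, hfb, h1⟩ := hS r hr f t hrf hrV ε hε
    refine ⟨b, hb, hfb, fun k l hl hkl => ?_⟩
    refine h1 (sfun k l) (ψ k l) r1 le_rfl ?_ hkl ((V _ _).down (hr1.trans hr) (hψV k l hl))
    rw [mem_yv]
    intro x hx
    exact (hr1.trans hr).1 (hl x (cf_sfun k l x hx))
  have hc : ∀ r ≤ q, ∀ f, r ∈ yv f → r ∈ V f (u f) := by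
    intro r hr f hrf
    refine (V f (u f)).locally fun r' hr' => ?_
    obtain ⟨r'', hr'', t, ht⟩ := hV.ex r' ((hr'.trans hr).trans hq) f ((yv f).down hr' hrf)
    refine ⟨r'', hr'', ?_⟩
    have h1 := hb r'' (hr''.trans (hr'.trans hr)) f t
      ((yv f).down (hr''.trans hr') hrf) ht
    rw [h1]
    exact ht
  refine ⟨q, hq, u, ?_, fun f r hr hrf => hc r hr f hrf⟩
  rw [mem_uv]
  intro r hr f hrf a c hau huc
  obtain ⟨r1, hr1, b1, hrb1, hfb1, h1⟩ := hV.lt r (hr.trans hq) f (u f) c hrf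
    (hc r hr f hrf) huc
  have hr1q : r1 ≤ q := hr1.trans hr
  obtain ⟨r2, hr2, b2, hrb2, hfb2, h2⟩ := hV.gt r1 (hr1q.trans hq) f (u f) a
    ((yv f).down hr1 hrf) (hc r1 hr1q f ((yv f).down hr1 hrf)) hau
  refine ⟨r2, hr2.trans hr1, b1 ++ b2, mem_lv_append.2 ⟨(lv ptv b1).down hr2 hrb1, hrb2⟩,
    hit_append.2 ⟨hfb1, hfb2⟩, fun g r' hr' hr'g hg => ?_⟩
  have h3 := hc r' (hr'.trans (hr2.trans hr1q)) g hr'g
  rw [hit_append] at hg
  exact ⟨h2 g (u g) r' hr' hr'g hg.2 h3, h1 g (u g) r' (hr'.trans hr2) hr'g hg.1 h3⟩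

end CPI
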