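import Pool.Agent.CPI.Lang

/-! # Coded spaces inside a structure `(N, E)`

(problem MP_ba5606_gt, project CPI; definitions, no sorry in this file)

A coded space is a triple `(Y, B, h)`: `Y` is the set of points, `B` a set of codes, and `(y, b) ∈ h`
(`Val E h y b`) means that the point `y` is in the basic open set with the code `b`. Only `y ∈ Y`,
`b ∈ B` matter. A function `e : Z × Y → R` is a set of pairs `((z, y), t)`, see `Ap`. -/

universe v

namespace CPI

open STP

section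

variable {N : Type v} (E : N → N → Prop)

/-- `(Y, B, h)` is a coded space: the basic sets cover `Y`, and are directed at every point -/
def CSp (Y B h : N) : Prop :=
  (∀ y, E y Y → ∃ b, E b B ∧ Val E h y b) ∧
  ∀ y b b', E y Y → E b B → E b' B → Val E h y b → Val E h y b' →
    ∃ c, E c B ∧ Val E h y c ∧ ∀ z, E z Y → Val E h z c → Val E h z b ∧ Val E h z b'

/-- the coded space is Hausdorff -/
def CHd (Y B h : N) : Prop :=
  ∀ x y, E x Y → E y Y → x ≠ y →
    ∃ b c, E b B ∧ E c B ∧ Val E h x b ∧ Val E h y c ∧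
      ∀ z, E z Y → ¬ (Val E h z b ∧ Val E h z c)

/-- the basic sets with codes in `O` cover `Y` -/
def CCov (Y h O : N) : Prop := ∀ y, E y Y → ∃ b, E b O ∧ Val E h y b

/-- the coded space is Lindelof -/
def CLin (Y B h : N) : Prop :=
  ∀ O, Sub E O B → CCov E Y h O → ∃ O', Sub E O' O ∧ IsCnt E O' ∧ CCov E Y h O'

/-- the coded space is compact -/
def CCpt (Y B h : N) : Prop :=
  ∀ O, Sub E O B → CCov E Y h O → ∃ O', Sub E O' O ∧ IsFin E O' ∧ CCov E Y h O'

/-- `g` is a continuous function from the coded space `(Y, B, h)` to the real line `(R, l)` -/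
def CCts (R l Y B h g : N) : Prop :=
  IsFun E g Y ∧ (∀ y t, Val E g y t → E t R) ∧
  ∀ y t r, E y Y → Val E g y t → E r R →
    (Val E l t r → ∃ b, E b B ∧ Val E h y b ∧
      ∀ z s, E z Y → Val E h z b → Val E g z s → Val E l s r) ∧
    (Val E l r t → ∃ b, E b B ∧ Val E h y b ∧
      ∀ z s, E z Y → Val E h z b → Val E g z s → Val E l r s)

/-- `e(z, y) = t` -/
def Ap (e z y t : N) : Prop := ∃ p, IsOP E p z y ∧ Val E e p t

/-- `e` is a function from `Z × Y` to `R` -/
def CEv (R Y Z e : N) : Prop :=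
  (∀ z y, E z Z → E y Y → ∃ t, E t R ∧ Ap E e z y t) ∧
  ∀ z y t t', E z Z → E y Y → Ap E e z y t → Ap E e z y t' → t = t'

/-- for `z ∈ Z` the function `e(z, .)` is continuous on the coded space `(Y, B, h)` -/
def CSec (R l Y B h Z e : N) : Prop :=
  ∀ z y t r, E z Z → E y Y → Ap E e z y t → E r R →
    (Val E l t r → ∃ b, E b B ∧ Val E h y b ∧
      ∀ y' s, E y' Y → Val E h y' b → Ap E e z y' s → Val E l s r) ∧
    (Val E l r t → ∃ b, E b B ∧ Val E h y b ∧
      ∀ y' s, E y' Y → Val E h y' b → Ap E e z y' s → Val E l r s)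

/-- every continuous function on the coded space `(Y, B, h)` is of the form `e(z, .)` -/
def CSur (R l Y B h Z e : N) : Prop :=
  ∀ g, CCts E R l Y B h g → ∃ z, E z Z ∧ ∀ y t, E y Y → Val E g y t → Ap E e z y t

/-- in the coded space `(Z, B', h')` the sets `{z | e(z, y) < r}` and `{z | r < e(z, y)}` are
open -/
def CSb (R l Y Z B' h' e : N) : Prop :=
  ∀ z y t r, E z Z → E y Y → Ap E e z y t → E r R →
    (Val E l t r → ∃ b, E b B' ∧ Val E h' z b ∧
      ∀ z' s, E z' Z → Val E h' z' b → Ap E e z' y s → Val E l s r) ∧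
    (Val E l r t → ∃ b, E b B' ∧ Val E h' z b ∧
      ∀ z' s, E z' Z → Val E h' z' b → Ap E e z' y s → Val E l r s)

/-- `σ` contains the sets `{z ∈ Z | e(z, y) < r}` and `{z ∈ Z | r < e(z, y)}` -/
def CPw (R l Y Z e σ : N) : Prop :=
  ∀ y r U, E y Y → E r R →
    ((∀ z, E z U ↔ E z Z ∧ ∃ t, Ap E e z y t ∧ Val E l t r) → E U σ) ∧
    ((∀ z, E z U ↔ E z Z ∧ ∃ t, Ap E e z y t ∧ Val E l r t) → E U σ)

/-- the basic sets of the coded space `(Z, B', h')` are open in every topology in which the sets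
`{z ∈ Z | e(z, y) < r}` and `{z ∈ Z | r < e(z, y)}` are open -/
def CTop (R l Y Z B' h' e : N) : Prop :=
  ∀ σ, IsTop E Z σ → CPw E R l Y Z e σ →
    ∀ b U, E b B' → (∀ z, E z U ↔ E z Z ∧ Val E h' z b) → E U σ

/-- different elements of `Z` define different functions `e(z, .)` -/
def CInj (Y Z e : N) : Prop :=
  ∀ z z', E z Z → E z' Z → (∀ y t, E y Y → Ap E e z y t → Ap E e z' y t) → z = z'

/-- `A` is a dense subset of the coded space -/
def CDn (Y B h A : N) : Prop :=
  Sub E A Y ∧ ∀ y b, E y Y → E b B → Val E h y b → ∃ a, E a A ∧ Val E h a b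

/-- the coded space has a countable network, given by a relation between natural numbers and
points -/
def CNet (Y B h : N) : Prop :=
  ∃ K w, IsOm E w ∧ ∀ y b, E y Y → E b B → Val E h y b →
    ∃ k, E k w ∧ Val E K k y ∧ ∀ z, E z Y → Val E K k z → Val E h z b

/-- the coded data of a counterexample -/
structure CData (R l X B0 h0 Y B1 h1 e1 Z B2 h2 e2 A : N) : Prop where
  rl : IsRL E R l
  sp0 : CSp E X B0 h0
  hd0 : CHd E X B0 h0
  cpt0 : CCpt E X B0 h0
  sp1 : CSp E Y B1 h1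
  ev1 : CEv E R X Y e1
  sec1 : CSec E R l X B0 h0 Y e1
  sur1 : CSur E R l X B0 h0 Y e1
  sb1 : CSb E R l X Y B1 h1 e1
  top1 : CTop E R l X Y B1 h1 e1
  inj1 : CInj E X Y e1
  sp2 : CSp E Z B2 h2
  ev2 : CEv E R Y Z e2
  sec2 : CSec E R l Y B1 h1 Z e2
  sur2 : CSur E R l Y B1 h1 Z e2
  sb2 : CSb E R l Y Z B2 h2 e2
  lin2 : CLin E Z B2 h2
  nlin1 : ¬ CLin E Y B1 h1
  cnt0 : IsCnt E A
  dn0 : CDn E X B0 h0 A
  net0 : ¬ CNet E X B0 h0

end

end CPI
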