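import Pool.Agent.CPI.CLin
import Pool.Agent.CPI.CSur1
import Pool.Agent.CPI.CSur2
import Pool.Agent.CPI.CEasy
import Pool.Agent.CPI.CNLin
import Pool.Agent.CPI.CCpt0
import Pool.Agent.CPI.CNet0

/-! # The typed statements for the poset `Cd`: assembly of part C

(problem MP_ba5606_gt, project CPI) -/

namespace CPI

open STP Cardinal

theorem dcCd : DC (Order.succ ℵ₀) Cd := dcCd'

theorem tsec1 : TSec ptv yv evX yv evY := tsec1'

theorem tsur1 : TSur ptv yv evX yv evY := tsur1'

theorem tinj1 : TInj ptv yv evY := tinj1'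

theorem tsec2 : TSec yv ptv evY uv evU := tsec2'

theorem tsur2 : TSur yv ptv evY uv evU := tsur2'

theorem tlin2 : TLin uv yv evU := tlin2'

theorem tnlin1 : TNLin yv ptv evY := tnlin1'

theorem thd0 : THd ptv yv evX := thd0'

theorem tcpt0 : TCpt ptv yv evX := tcpt0'

theorem tdn0 : TDn ptv yv evX (Set.range Pt.nd) := tdn0'

theorem tnet0 : TNet ptv yv evX := tnet0'

end CPI
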