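import Pool.Agent.CPI.ALev
import Pool.Agent.CPI.AInj
import Pool.Agent.CPI.AMin
import Pool.Agent.CPI.APw
import Pool.Agent.CPI.ALeast
import Pool.Agent.CPI.ALin
import Pool.Agent.CPI.ANlin
import Pool.Agent.CPI.AHd

/-! # From coded data to the literal counterexample

(problem MP_ba5606_gt, project CPI, part A, assembly) -/

universe v

namespace CPI

open STP

theorem KRT {N : Type v} {E : N → N → Prop} (hE : ZFC E)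
    {R l X B0 h0 Y B1 h1 e1 Z B2 h2 e2 A : N}
    (d : CData E R l X B0 h0 Y B1 h1 e1 Z B2 h2 e2 A) : NegArh E := by
  obtain ⟨i, hi, hii, -⟩ := exists_id hE X
  obtain ⟨τ, hτ⟩ := exists_FT hE X B0 h0 i X
  obtain ⟨C, F1, hC, hF1, ht1⟩ := level hE hi hii hτ d.ev1 d.sec1 d.sur1
  have hi1 : IsInj E F1 := Trp_inj hE hi hii hF1 ht1 d.inj1
  obtain ⟨σ, hσ⟩ := exists_FT hE Y B1 h1 F1 C
  obtain ⟨D, F2, hD, hF2, ht2⟩ := level hE hF1 hi1 hσ d.ev2 d.sec2 d.sur2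
  obtain ⟨ρ, hρ1, hρ2, hρ3⟩ := exists_least hE R l C D
  obtain ⟨ρ2, hρ⟩ := exists_FT hE Z B2 h2 F2 D
  have hsub : Sub E ρ ρ2 := hρ3 ρ2 (FT_top hF2 d.sp2 hρ) (FT_pw hF2 ht2 d.ev2 d.sb2 hρ)
  exact ⟨R, l, X, τ, C, σ, D, ρ, d.rl, FT_top hi d.sp0 hτ, hd hE hi hii hτ d.hd0,
    cpt hE hi d.cpt0 fun U hU => (hτ U).1 hU,
    ⟨hC, FT_top hF1 d.sp1 hσ, FT_pw hF1 ht1 d.ev1 d.sb1 hσ, fun σ' h1 h2 =>
      FT_min hE hi hii hF1 hi1 ht1 d.top1 hσ h1 h2⟩,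
    ⟨hD, hρ1, hρ2, hρ3⟩,
    lin hE hF2 d.lin2 fun U hU => (hρ U).1 (hsub U hU),
    nlin hE hF1 hi1 hσ d.nlin1,
    nmono hE hi hii hτ d.cnt0 d.dn0 d.net0⟩

end CPI
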