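import Pool.Agent.STP.Lang

/-! # General topology inside a structure `(N, E)`: real line, compact, Lindelof, `C_p(X)`

(problem MP_ba5606_gt, project CPI; definitions, no sorry in this file)

Every definition quantifies over the elements of `N` only. `Sub`, `IsOP`, `Val`, `IsFun`, `IsOm`, `Sm`,
`IsUn`, `IsInt` are the notions of `STP/Lang.lean`: inclusion, ordered pair, `(x, y) ∈ f`, function with
domain `a`, the set of natural numbers, smaller cardinality, union, intersection. -/

universe v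

namespace CPI

open STP

section

variable {N : Type v} (E : N → N → Prop)

/-- `x` is countable: some function with domain `ω` takes all elements of `x` as values -/
def IsCnt (x : N) : Prop :=
  ∃ w f, IsOm E w ∧ IsFun E f w ∧ ∀ y, E y x → ∃ n, E n w ∧ Val E f n y

/-- `x` is finite: some function whose domain is a natural number takes all elements of `x` as
values -/
def IsFin (x : N) : Prop := ∃ w, IsOm E w ∧ Sm E x w

/-- `τ` is a topology on `X` (a set of subsets of `X` with `X ∈ τ`, closed under unions and under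
intersections of two members) -/
def IsTop (X τ : N) : Prop :=
  (∀ U, E U τ → Sub E U X) ∧ E X τ ∧
  (∀ S u, Sub E S τ → IsUn E u S → E u τ) ∧
  ∀ U V W, E U τ → E V τ → IsInt E W U V → E W τ

/-- the members of `S` cover `X` -/
def IsCov (X S : N) : Prop := ∀ x, E x X → ∃ U, E U S ∧ E x U

/-- the space `(X, τ)` is Lindelof -/
def IsLin (X τ : N) : Prop :=
  ∀ S, Sub E S τ → IsCov E X S → ∃ S', Sub E S' S ∧ IsCnt E S' ∧ IsCov E X S'

/-- every open cover of the space `(X, τ)` has a finite subcover -/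
def IsCpt (X τ : N) : Prop :=
  ∀ S, Sub E S τ → IsCov E X S → ∃ S', Sub E S' S ∧ IsFin E S' ∧ IsCov E X S'

/-- the space `(X, τ)` is Hausdorff -/
def IsHd (X τ : N) : Prop :=
  ∀ x y, E x X → E y X → x ≠ y →
    ∃ U V, E U τ ∧ E V τ ∧ E x U ∧ E y V ∧ ∀ z, ¬ (E z U ∧ E z V)

/-- `(R, l)` is (isomorphic to) the ordered set of real numbers; `(x, y) ∈ l` means `x < y`: a linear
order without end points, which is dense, has a countable dense subset, and in which every nonempty
set which is bounded above has a least upper bound -/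
def IsRL (R l : N) : Prop :=
  (∃ x, E x R) ∧
  (∀ x y, Val E l x y → E x R ∧ E y R) ∧
  (∀ x, ¬ Val E l x x) ∧
  (∀ x y z, Val E l x y → Val E l y z → Val E l x z) ∧
  (∀ x y, E x R → E y R → Val E l x y ∨ x = y ∨ Val E l y x) ∧
  (∀ x, E x R → (∃ y, Val E l y x) ∧ ∃ y, Val E l x y) ∧
  (∃ D, Sub E D R ∧ IsCnt E D ∧ ∀ x y, Val E l x y → ∃ d, E d D ∧ Val E l x d ∧ Val E l d y) ∧
  ∀ A, Sub E A R → (∃ a, E a A) → (∃ b, E b R ∧ ∀ a, E a A → ¬ Val E l b a) →
    ∃ s, E s R ∧ (∀ a, E a A → ¬ Val E l s a) ∧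
      ∀ b, E b R → (∀ a, E a A → ¬ Val E l b a) → ¬ Val E l b s

/-- `g` is a continuous function from the space `(X, τ)` to the real line `(R, l)`: the sets
`{x | g x < r}` and `{x | r < g x}` are open -/
def IsCts (R l X τ g : N) : Prop :=
  IsFun E g X ∧ (∀ x y, Val E g x y → E y R) ∧
  ∀ r, E r R → (∃ U, E U τ ∧ ∀ x, E x U ↔ ∃ y, Val E g x y ∧ Val E l y r) ∧
    ∃ U, E U τ ∧ ∀ x, E x U ↔ ∃ y, Val E g x y ∧ Val E l r y

/-- `σ` contains the sets `{g ∈ C | g x < r}` and `{g ∈ C | r < g x}` for all `x ∈ X` and all real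
numbers `r` -/
def IsPw (R l X C σ : N) : Prop :=
  ∀ x r U, E x X → E r R →
    ((∀ g, E g U ↔ E g C ∧ ∃ y, Val E g x y ∧ Val E l y r) → E U σ) ∧
    ((∀ g, E g U ↔ E g C ∧ ∃ y, Val E g x y ∧ Val E l r y) → E U σ)

/-- `(C, σ)` is the space `C_p(X)`: `C` is the set of all continuous real functions on `(X, τ)`, and
`σ` is the topology of pointwise convergence, the smallest topology on `C` which contains the sets
`{g ∈ C | g x < r}` and `{g ∈ C | r < g x}` -/
def IsCp (R l X τ C σ : N) : Prop :=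
  (∀ g, E g C ↔ IsCts E R l X τ g) ∧ IsTop E C σ ∧ IsPw E R l X C σ ∧
  ∀ σ', IsTop E C σ' → IsPw E R l X C σ' → Sub E σ σ'

/-- `c` is the closure of `A` in the space `(X, τ)` -/
def IsCl (X τ A c : N) : Prop :=
  ∀ x, E x c ↔ E x X ∧ ∀ U, E U τ → E x U → ∃ a, E a A ∧ E a U

/-- the subspace `Y` of the space with topology `τ` has a countable network -/
def HasCN (τ Y : N) : Prop :=
  ∃ S, IsCnt E S ∧ (∀ M, E M S → Sub E M Y) ∧
    ∀ U x, E U τ → E x U → E x Y → ∃ M, E M S ∧ E x M ∧ Sub E M U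

/-- the space `(X, τ)` is `ω`-monolithic: the closure of every countable set has a countable
network -/
def IsMono (X τ : N) : Prop :=
  ∀ A c, Sub E A X → IsCnt E A → IsCl E X τ A c → HasCN E τ c

/-- There is a compact Hausdorff space `X` such that `C_p(C_p(X))` is Lindelof, `C_p(X)` is not
Lindelof and `X` is not `ω`-monolithic. -/
def NegArh : Prop :=
  ∃ R l X τ C σ D ρ, IsRL E R l ∧ IsTop E X τ ∧ IsHd E X τ ∧ IsCpt E X τ ∧
    IsCp E R l X τ C σ ∧ IsCp E R l C σ D ρ ∧ IsLin E D ρ ∧ ¬ IsLin E C σ ∧ ¬ IsMono E X τ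

end

end CPI
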