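import Pool.Agent.CPI.Bridge
import Pool.Agent.CPI.Core
import Pool.Agent.CPI.KRT

/-! # Assembly

(problem MP_ba5606_gt, project CPI) -/

namespace CPI

open STP STP.BSet

theorem data (G : Ult (RO Cd)) :
    CData (EG G) (NG.mk G RN) (NG.mk G lN)
      (NG.mk G (sn ptv)) (NG.mk G (baN yv)) (NG.mk G (hN evX))
      (NG.mk G (sn yv)) (NG.mk G (baN ptv)) (NG.mk G (hN evY)) (NG.mk G (eN evY))
      (NG.mk G (sn uv)) (NG.mk G (baN yv)) (NG.mk G (hN evU)) (NG.mk G (eN evU))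
      (NG.mk G (sn fun a : Pt => chi (a ∈ Set.range Pt.nd))) where
  rl := br_rl dcCd G
  sp0 := br_sp _ _ _ G
  hd0 := br_hd thd0 G
  cpt0 := br_cpt tcpt0 G
  sp1 := br_sp _ _ _ G
  ev1 := br_ev _ _ _ G
  sec1 := br_sec tsec1 G
  sur1 := br_sur tsur1 G
  sb1 := br_sb _ _ _ G
  top1 := br_top _ _ _ G
  inj1 := br_inj tinj1 G
  sp2 := br_sp _ _ _ G
  ev2 := br_ev _ _ _ G
  sec2 := br_sec tsec2 G
  sur2 := br_sur tsur2 G
  sb2 := br_sb _ _ _ G
  lin2 := br_lin tlin2 G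
  nlin1 := br_nlin dcCd tnlin1 G
  cnt0 := br_cnt (Set.countable_range _) G
  dn0 := br_dn tdn0 G
  net0 := br_net tnet0 G

theorem negArh (G : Ult (RO Cd)) : NegArh (EG G) := KRT (NG_zfc G) (data G)

/-- There is a model `(N, E)` of `ZFC` in which some compact Hausdorff space `X` is not
`ω`-monolithic, `C_p(X)` is not Lindelof, and `C_p(C_p(X))` is Lindelof. -/
theorem main : ∃ (N : Type 1) (E : N → N → Prop), ZFC E ∧ NegArh E := by
  obtain ⟨G, -⟩ := Ult.exists_mem (B := RO Cd) (b := ⊤) (by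
    intro h
    have h1 : (⟨∅, ∅, Set.countable_empty, Set.countable_empty, Set.disjoint_empty ∅⟩ : Cd) ∈
        (⊤ : RO Cd) := RO.mem_top
    rw [h] at h1
    exact RO.not_mem_bot h1)
  exact ⟨NG G, EG G, NG_zfc G, negArh G⟩

end CPI
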