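import Pool.Agent.STP.RO
import Pool.Agent.STP.Rec

/-! # The poset, the points, the functions (definitions)

(problem MP_ba5606_gt, project CPI; no sorry in this file)

* `Ct = 2^ω`, `rs x n` the restriction `x | n` (a node of the tree `2^{<ω} = List Bool`).
* `Pt`: the points of the Cantor tree compactum over the whole `2^ω`: nodes, branches, infinity.
* `IsB f`: the function `f` on `Pt` is continuous; `BF` the set of these functions; `Cf f` the (countable)
  set of the branches at which `f` differs from its value at infinity.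
* `Cd`: the poset of pairs `(s, n)` of disjoint countable subsets of `2^ω`. The generic set `S` is the union
  of the `s`. -/

namespace CPI

open STP

/-- the Cantor set -/
abbrev Ct : Type := ℕ → Bool

/-- the restriction `x | n` -/
def rs (x : Ct) (n : ℕ) : List Bool := (List.range n).map x

/-- the points: nodes, branches, infinity -/
inductive Pt : Type
  /-- a node of the tree -/
  | nd (t : List Bool) : Pt
  /-- a branch -/
  | br (x : Ct) : Pt
  /-- the point at infinity -/
  | oo : Pt

/-- `f` is a continuous function on the compactum over `2^ω`: it converges along every branch to the value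
at the branch, and outside finitely many branches and nodes it is near its value at infinity -/
def IsB (f : Pt → ℝ) : Prop :=
  (∀ x : Ct, Filter.Tendsto (fun n => f (.nd (rs x n))) Filter.atTop (nhds (f (.br x)))) ∧
  ∀ ε : ℝ, 0 < ε → ∃ (F : Finset Ct) (D : Finset (List Bool)),
    ∀ t, t ∉ D → (∀ x ∈ F, ∀ n, t ≠ rs x n) → |f (.nd t) - f .oo| < ε

/-- the continuous functions on the compactum over `2^ω` -/
abbrev BF : Type := {f : Pt → ℝ // IsB f}

/-- the branches at which `f` differs from its value at infinity -/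
def Cf (f : BF) : Set Ct := {x | f.1 (.br x) ≠ f.1 .oo}

/-- the conditions: pairs of disjoint countable sets of branches -/
@[ext] structure Cd : Type where
  /-- branches in `S` -/
  s : Set Ct
  /-- branches not in `S` -/
  n : Set Ct
  cs : s.Countable
  cn : n.Countable
  dj : Disjoint s n

instance : PartialOrder Cd where
  le p q := q.s ⊆ p.s ∧ q.n ⊆ p.n
  le_refl _ := ⟨Set.Subset.rfl, Set.Subset.rfl⟩
  le_trans _ _ _ h h' := ⟨h'.1.trans h.1, h'.2.trans h.2⟩
  le_antisymm _ _ h h' := Cd.ext (h'.1.antisymm h.1) (h'.2.antisymm h.2)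

theorem Cd.le_def {p q : Cd} : p ≤ q ↔ q.s ⊆ p.s ∧ q.n ⊆ p.n := Iff.rfl

/-- the condition with `s` enlarged by a countable set -/
def Cd.addS (p : Cd) (c : Set Ct) (hc : c.Countable) (hd : Disjoint c p.n) : Cd where
  s := p.s ∪ c
  n := p.n
  cs := p.cs.union hc
  cn := p.cn
  dj := Set.disjoint_union_left.2 ⟨p.dj, hd⟩

/-- the condition with `n` enlarged by a countable set -/
def Cd.addN (p : Cd) (c : Set Ct) (hc : c.Countable) (hd : Disjoint c p.s) : Cd where
  s := p.s
  n := p.n ∪ c
  cs := p.cs
  cn := p.cn.union hc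
  dj := Set.disjoint_union_right.2 ⟨p.dj, hd.symm⟩

theorem Cd.addS_le (p : Cd) (c : Set Ct) (hc : c.Countable) (hd : Disjoint c p.n) :
    p.addS c hc hd ≤ p := ⟨Set.subset_union_left, Set.Subset.rfl⟩

theorem Cd.addN_le (p : Cd) (c : Set Ct) (hc : c.Countable) (hd : Disjoint c p.s) :
    p.addN c hc hd ≤ p := ⟨Set.Subset.rfl, Set.subset_union_left⟩

/-- the truth value of `c ⊆ S` -/
def subS (c : Set Ct) : RO Cd where
  carrier := {p | c ⊆ p.s}
  reg p := by
    constructor
    · intro h q hq
      exact ⟨q, le_rfl, h.trans hq.1⟩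
    · intro h x hx
      by_contra hxs
      have hd : Disjoint ({x} : Set Ct) p.s := Set.disjoint_singleton_left.2 hxs
      obtain ⟨r, hr, h1⟩ := h (p.addN {x} (Set.countable_singleton x) hd) (Cd.addN_le _ _ _ _)
      have h2 : x ∈ r.n := hr.2 (Or.inr rfl)
      exact Set.disjoint_left.1 r.dj (h1 hx) h2

theorem mem_subS {c : Set Ct} {p : Cd} : p ∈ subS c ↔ c ⊆ p.s := Iff.rfl

/-- the truth value of `x ∈ X = K_S` -/
def ptv : Pt → RO Cd
  | .nd _ => ⊤
  | .br x => subS {x}
  | .oo => ⊤

/-- the truth value of `f ∈ C(K_S)` -/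
def yv (f : BF) : RO Cd := subS (Cf f)

theorem mem_ptv_br {x : Ct} {p : Cd} : p ∈ ptv (.br x) ↔ x ∈ p.s := by
  change ({x} : Set Ct) ⊆ p.s ↔ _
  exact Set.singleton_subset_iff

theorem mem_yv {f : BF} {p : Cd} : p ∈ yv f ↔ Cf f ⊆ p.s := Iff.rfl

end CPI
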