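import Pool.Agent.CPI.Pos

/-! # Typed names of spaces and the typed statements (definitions)

(problem MP_ba5606_gt, project CPI; no sorry in this file)

`P` is a poset. A typed space is given by `av : A → RO P` (the truth value of `a` being a point), `fv : F → RO P`
(the truth value of `f` being an admissible function) and a ground model function `ev : A → F → ℝ` (evaluation).
The codes of basic sets are the finite lists of triples `(f, a, c)` (`Iv F`); the point `y` is in the basic set `b` if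
`a < ev y f < c` for all `(f, a, c) ∈ b` (`hit`). A second set of functions is given by `zv : Z → RO P` and
`ev' : Z → A → ℝ`.

* `TCts q av fv ev V`: `V` is a name (below `q`) of a continuous function on the typed space, `V a t` is the truth
  value of `V(a) = t`.
* `TSur`: every continuous function is of the form `ev' z`. `TSec`: all `ev' z` are continuous.
* `TLin`, `TNLin`, `TCpt`, `THd`, `TInj`, `TDn`, `TNet`: Lindelof, not Lindelof, compact, Hausdorff, different `z` define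
  different functions, `D` is a dense set of points, there is no countable network. -/

namespace CPI

open STP

/-- codes of basic sets -/
abbrev Iv (F : Type) : Type := List (F × ℚ × ℚ)

section

variable {P : Type} [PartialOrder P] {A F Z : Type}

/-- the point `a` is in the basic set with the code `b` -/
def hit (ev : A → F → ℝ) (a : A) (b : Iv F) : Prop :=
  ∀ z ∈ b, (z.2.1 : ℝ) < ev a z.1 ∧ ev a z.1 < z.2.2

/-- the truth value of: `b` is the code of a basic set -/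
def lv (fv : F → RO P) (b : Iv F) : RO P := ⨅ z : {z // z ∈ b}, fv z.1.1

theorem mem_lv {fv : F → RO P} {b : Iv F} {p : P} : p ∈ lv fv b ↔ ∀ z ∈ b, p ∈ fv z.1 := by
  unfold lv
  rw [RO.mem_iInf]
  exact ⟨fun h z hz => h ⟨z, hz⟩, fun h z => h z.1 z.2⟩

theorem hit_append {ev : A → F → ℝ} {a : A} {b b' : Iv F} :
    hit ev a (b ++ b') ↔ hit ev a b ∧ hit ev a b' := by
  unfold hit
  simp only [List.mem_append]
  exact ⟨fun h => ⟨fun z hz => h z (Or.inl hz), fun z hz => h z (Or.inr hz)⟩,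
    fun h z hz => hz.elim (h.1 z) (h.2 z)⟩

theorem mem_lv_append {fv : F → RO P} {b b' : Iv F} {p : P} :
    p ∈ lv fv (b ++ b') ↔ p ∈ lv fv b ∧ p ∈ lv fv b' := by
  simp only [mem_lv, List.mem_append]
  exact ⟨fun h => ⟨fun z hz => h z (Or.inl hz), fun z hz => h z (Or.inr hz)⟩,
    fun h z hz => hz.elim (h.1 z) (h.2 z)⟩

/-- `V` is a name (below `q`) of a continuous function -/
structure TCts (q : P) (av : A → RO P) (fv : F → RO P) (ev : A → F → ℝ)
    (V : A → ℝ → RO P) : Prop where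
  ex : ∀ r ≤ q, ∀ a, r ∈ av a → ∃ r' ≤ r, ∃ t, r' ∈ V a t
  un : ∀ r ≤ q, ∀ a t t', r ∈ V a t → r ∈ V a t' → t = t'
  lt : ∀ r ≤ q, ∀ a t c, r ∈ av a → r ∈ V a t → t < c →
    ∃ r' ≤ r, ∃ b, r' ∈ lv fv b ∧ hit ev a b ∧
      ∀ a' t', ∀ r'' ≤ r', r'' ∈ av a' → hit ev a' b → r'' ∈ V a' t' → t' < c
  gt : ∀ r ≤ q, ∀ a t c, r ∈ av a → r ∈ V a t → c < t →
    ∃ r' ≤ r, ∃ b, r' ∈ lv fv b ∧ hit ev a b ∧
      ∀ a' t', ∀ r'' ≤ r', r'' ∈ av a' → hit ev a' b → r'' ∈ V a' t' → c < t'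

theorem TCts.mono {q q' : P} (hq : q' ≤ q) {av : A → RO P} {fv : F → RO P} {ev : A → F → ℝ}
    {V : A → ℝ → RO P} (h : TCts q av fv ev V) : TCts q' av fv ev V where
  ex r hr := h.ex r (hr.trans hq)
  un r hr := h.un r (hr.trans hq)
  lt r hr := h.lt r (hr.trans hq)
  gt r hr := h.gt r (hr.trans hq)

/-- every continuous function is of the form `ev' z` -/
def TSur (av : A → RO P) (fv : F → RO P) (ev : A → F → ℝ) (zv : Z → RO P)
    (ev' : Z → A → ℝ) : Prop :=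
  ∀ (q : P) (V : A → ℝ → RO P), TCts q av fv ev V →
    ∃ r ≤ q, ∃ z, r ∈ zv z ∧ ∀ a, ∀ r' ≤ r, r' ∈ av a → r' ∈ V a (ev' z a)

/-- all functions `ev' z` are continuous -/
def TSec (av : A → RO P) (fv : F → RO P) (ev : A → F → ℝ) (zv : Z → RO P)
    (ev' : Z → A → ℝ) : Prop :=
  ∀ (q : P) (z : Z) (a : A) (c : ℝ), q ∈ zv z → q ∈ av a →
    (ev' z a < c → ∃ r ≤ q, ∃ b, r ∈ lv fv b ∧ hit ev a b ∧
      ∀ a', ∀ r' ≤ r, r' ∈ av a' → hit ev a' b → ev' z a' < c) ∧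
    (c < ev' z a → ∃ r ≤ q, ∃ b, r ∈ lv fv b ∧ hit ev a b ∧
      ∀ a', ∀ r' ≤ r, r' ∈ av a' → hit ev a' b → c < ev' z a')

/-- the typed space is Lindelof -/
def TLin (av : A → RO P) (fv : F → RO P) (ev : A → F → ℝ) : Prop :=
  ∀ (O : Iv F → RO P) (p : P), (∀ b, O b ≤ lv fv b) →
    (∀ q ≤ p, ∀ a, q ∈ av a → ∃ r ≤ q, ∃ b, r ∈ O b ∧ hit ev a b) →
    ∃ q ≤ p, ∃ β : ℕ → Iv F, (∀ k, q ∈ O (β k)) ∧
      ∀ r ≤ q, ∀ a, r ∈ av a → ∃ k, hit ev a (β k)

/-- the typed space is compact -/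
def TCpt (av : A → RO P) (fv : F → RO P) (ev : A → F → ℝ) : Prop :=
  ∀ (O : Iv F → RO P) (p : P), (∀ b, O b ≤ lv fv b) →
    (∀ q ≤ p, ∀ a, q ∈ av a → ∃ r ≤ q, ∃ b, r ∈ O b ∧ hit ev a b) →
    ∃ q ≤ p, ∃ β : List (Iv F), (∀ b ∈ β, q ∈ O b) ∧
      ∀ r ≤ q, ∀ a, r ∈ av a → ∃ b ∈ β, hit ev a b

/-- the typed space is not Lindelof, witnessed by a ground model set `O` of codes -/
def TNLin (av : A → RO P) (fv : F → RO P) (ev : A → F → ℝ) : Prop :=
  ∃ O : Set (Iv F), (∀ (q : P) (a : A), q ∈ av a → ∃ r ≤ q, ∃ b ∈ O, r ∈ lv fv b ∧ hit ev a b) ∧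
    ∀ (q : P) (C : Set (Iv F)), C.Countable → C ⊆ O →
      ∃ r ≤ q, ∃ a, r ∈ av a ∧ ∀ b ∈ C, ¬ hit ev a b

/-- the typed space is Hausdorff -/
def THd (av : A → RO P) (fv : F → RO P) (ev : A → F → ℝ) : Prop :=
  ∀ (q : P) (a a' : A), q ∈ av a → q ∈ av a' → a ≠ a' →
    ∃ r ≤ q, ∃ b b', r ∈ lv fv b ∧ r ∈ lv fv b' ∧ hit ev a b ∧ hit ev a' b' ∧
      ∀ a'', ∀ r' ≤ r, r' ∈ av a'' → ¬ (hit ev a'' b ∧ hit ev a'' b')

/-- different `z` define different functions -/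
def TInj (av : A → RO P) (zv : Z → RO P) (ev' : Z → A → ℝ) : Prop :=
  ∀ (q : P) (z z' : Z), q ∈ zv z → q ∈ zv z' → z ≠ z' →
    ∃ r ≤ q, ∃ a, r ∈ av a ∧ ev' z a ≠ ev' z' a

/-- the ground model set `D` of points is dense -/
def TDn (av : A → RO P) (fv : F → RO P) (ev : A → F → ℝ) (D : Set A) : Prop :=
  (∀ a ∈ D, ∀ q : P, q ∈ av a) ∧
    ∀ (q : P) (a : A) (b : Iv F), q ∈ av a → q ∈ lv fv b → hit ev a b → ∃ d ∈ D, hit ev d b

/-- the typed space has no countable network -/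
def TNet (av : A → RO P) (fv : F → RO P) (ev : A → F → ℝ) : Prop :=
  ∀ (q : P) (K : ℕ → A → RO P),
    ¬ ∀ r ≤ q, ∀ a b, r ∈ av a → r ∈ lv fv b → hit ev a b →
      ∃ r' ≤ r, ∃ k, r' ∈ K k a ∧ ∀ a', ∀ r'' ≤ r', r'' ∈ av a' → r'' ∈ K k a' → hit ev a' b

end

/-! ## The three typed spaces -/

/-- evaluation, points of the space `X` -/
def evX (x : Pt) (f : BF) : ℝ := f.1 x

/-- evaluation, points of the space `C_p(X)` -/
def evY (f : BF) (x : Pt) : ℝ := f.1 x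

/-- ground model functions on `BF`: the points of the space `C_p(C_p(X))` -/
abbrev UF : Type := BF → ℝ

/-- evaluation, points of the space `C_p(C_p(X))` -/
def evU (u : UF) (f : BF) : ℝ := u f

/-- the truth value of: the restriction of `u` to `C(K_S)` is continuous -/
def uv (u : UF) : RO Cd where
  carrier := {p | ∀ q ≤ p, ∀ f, q ∈ yv f → ∀ a c : ℚ, (a : ℝ) < u f → u f < c →
    ∃ r ≤ q, ∃ b : Iv Pt, r ∈ lv ptv b ∧ hit evY f b ∧
      ∀ g, ∀ r' ≤ r, r' ∈ yv g → hit evY g b → (a : ℝ) < u g ∧ u g < c}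
  reg p := by
    constructor
    · intro h q hq
      exact ⟨q, le_rfl, fun r hr => h r (hr.trans hq)⟩
    · intro h q hq f hf a c ha hc
      obtain ⟨r, hr, h1⟩ := h q hq
      obtain ⟨r', hr', h2⟩ := h1 r le_rfl f ((yv f).down hr hf) a c ha hc
      exact ⟨r', hr'.trans hr, h2⟩

theorem mem_uv {u : UF} {p : Cd} : p ∈ uv u ↔
    ∀ q ≤ p, ∀ f, q ∈ yv f → ∀ a c : ℚ, (a : ℝ) < u f → u f < c →
      ∃ r ≤ q, ∃ b : Iv Pt, r ∈ lv ptv b ∧ hit evY f b ∧
        ∀ g, ∀ r' ≤ r, r' ∈ yv g → hit evY g b → (a : ℝ) < u g ∧ u g < c := Iff.rfl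

end CPI
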